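import Mathlib

/-!
# A product theorem for balleans

Core argument used for products of so-bounded, bo-bounded and emu-bounded balleans.
-/

namespace Pool.Agent.V11216.BalleanCore

open Set

variable {X Y : Type*}

/-- The axioms of a ballean that are used in the argument. -/
structure IsBall {X : Type*} (𝓔 : Set (Set (X × X))) : Prop where
  refl : ∀ E ∈ 𝓔, ∀ x, (x, x) ∈ E
  comp_inv : ∀ E ∈ 𝓔, ∀ F ∈ 𝓔, ∃ D ∈ 𝓔, ∀ x y z, (x, y) ∈ E → (z, y) ∈ F → (x, z) ∈ D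
  all : ∀ x y, ∃ E ∈ 𝓔, (x, y) ∈ E

/-- Bounded sets. -/
def Bdd (𝓔 : Set (Set (X × X))) (B : Set X) : Prop := ∃ E ∈ 𝓔, ∃ x, ∀ y ∈ B, (x, y) ∈ E

theorem IsBall.inv {𝓔 : Set (Set (X × X))} (h : IsBall 𝓔) {E : Set (X × X)} (hE : E ∈ 𝓔) :
    ∃ D ∈ 𝓔, ∀ x y, (x, y) ∈ E → (y, x) ∈ D := by
  obtain ⟨D, hD, h'⟩ := h.comp_inv E hE E hE
  exact ⟨D, hD, fun x y hxy => h' y y x (h.refl E hE y) hxy⟩

theorem IsBall.comp {𝓔 : Set (Set (X × X))} (h : IsBall 𝓔) {E F : Set (X × X)} (hE : E ∈ 𝓔)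
    (hF : F ∈ 𝓔) : ∃ D ∈ 𝓔, ∀ x y z, (x, y) ∈ E → (y, z) ∈ F → (x, z) ∈ D := by
  obtain ⟨G, hG, h1⟩ := h.inv hF
  obtain ⟨D, hD, h2⟩ := h.comp_inv E hE G hG
  exact ⟨D, hD, fun x y z hxy hyz => h2 x y z hxy (h1 y z hyz)⟩

theorem Bdd.mono {𝓔 : Set (Set (X × X))} {B C : Set X} (hC : Bdd 𝓔 C) (h : B ⊆ C) : Bdd 𝓔 B := by
  obtain ⟨E, hE, x, hx⟩ := hC
  exact ⟨E, hE, x, fun y hy => hx y (h hy)⟩

theorem Bdd.base {𝓔 : Set (Set (X × X))} (h : IsBall 𝓔) {B : Set X} (hB : Bdd 𝓔 B) (x₀ : X) :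
    ∃ E ∈ 𝓔, ∀ y ∈ B, (x₀, y) ∈ E := by
  obtain ⟨E, hE, x, hx⟩ := hB
  obtain ⟨F, hF, hF'⟩ := h.all x₀ x
  obtain ⟨D, hD, hD'⟩ := h.comp hF hE
  exact ⟨D, hD, fun y hy => hD' _ _ _ hF' (hx y hy)⟩

theorem Bdd.union {𝓔 : Set (Set (X × X))} (h : IsBall 𝓔) {B C : Set X} (hB : Bdd 𝓔 B)
    (hC : Bdd 𝓔 C) : Bdd 𝓔 (B ∪ C) := by
  have hB' := hB
  obtain ⟨-, -, x₀, -⟩ := hB'
  obtain ⟨E, hE, hE'⟩ := hB.base h x₀
  obtain ⟨F, hF, hF'⟩ := hC.base h x₀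
  obtain ⟨D, hD, hD'⟩ := h.comp hE hF
  refine ⟨D, hD, x₀, ?_⟩
  rintro y (hy | hy)
  · exact hD' _ _ _ (hE' y hy) (h.refl F hF y)
  · exact hD' _ _ _ (h.refl E hE x₀) (hF' y hy)

theorem bdd_empty {𝓔 : Set (Set (X × X))} (h : IsBall 𝓔) [Nonempty X] : Bdd 𝓔 ∅ := by
  obtain ⟨x⟩ := ‹Nonempty X›
  obtain ⟨E, hE, -⟩ := h.all x x
  exact ⟨E, hE, x, fun y hy => absurd hy (notMem_empty y)⟩

/-- Points at finite distance `sup_y |f(x,y) - f(x',y)|`. -/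
def setoid (f : X → Y → ℝ) : Setoid X where
  r x x' := ∃ c, ∀ y, |f x y - f x' y| ≤ c
  iseqv := by
    refine ⟨?_, ?_, ?_⟩
    · intro x
      exact ⟨0, fun y => by simp⟩
    · rintro x x' ⟨c, hc⟩
      exact ⟨c, fun y => by rw [abs_sub_comm]; exact hc y⟩
    · rintro x x' x'' ⟨c, hc⟩ ⟨c', hc'⟩
      exact ⟨c + c', fun y => (abs_sub_le _ _ _).trans (add_le_add (hc y) (hc' y))⟩

/-- class map -/
def pr (f : X → Y → ℝ) (x : X) : Quotient (setoid f) := Quotient.mk (setoid f) x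

/-- representative -/
noncomputable def rp (f : X → Y → ℝ) (t : Quotient (setoid f)) : X := t.out

theorem pr_rp (f : X → Y → ℝ) (t : Quotient (setoid f)) : pr f (rp f t) = t := Quotient.out_eq t

theorem pr_eq {f : X → Y → ℝ} {x x' : X} {c : ℝ} (h : ∀ y, |f x y - f x' y| ≤ c) :
    pr f x = pr f x' := Quotient.sound ⟨c, h⟩

/-- Every function which is `1`-Lipschitz for the distance `sup_y |f(x,y) - f(x',y)|` is bounded
off a bounded set. -/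
def LipBdd (𝓔 : Set (Set (X × X))) (f : X → Y → ℝ) : Prop :=
  ∀ φ : X → ℝ, (∀ x x' c, (∀ y, |f x y - f x' y| ≤ c) → |φ x - φ x'| ≤ c) →
    ∃ B, Bdd 𝓔 B ∧ ∃ M, ∀ x, x ∉ B → |φ x| ≤ M

theorem exists_rep_bound {𝓔 : Set (Set (X × X))} [Nonempty Y] {f : X → Y → ℝ}
    (hx : LipBdd 𝓔 f) :
    ∃ B, Bdd 𝓔 B ∧ ∃ M, ∀ x, x ∉ B → ∀ y, |f x y - f (rp f (pr f x)) y| ≤ M := by
  have hbdd : ∀ x, BddAbove (range fun y => |f x y - f (rp f (pr f x)) y|) := by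
    intro x
    have h1 : pr f (rp f (pr f x)) = pr f x := pr_rp f _
    have h2 : (setoid f).r (rp f (pr f x)) x := Quotient.exact h1
    obtain ⟨c, hc⟩ := (setoid f).iseqv.symm h2
    refine ⟨c, ?_⟩
    rintro _ ⟨y, rfl⟩
    exact hc y
  obtain ⟨B, hB, M, hM⟩ := hx (fun x => ⨆ y, |f x y - f (rp f (pr f x)) y|) (by
    have key : ∀ x x' c, (∀ y, |f x y - f x' y| ≤ c) →
        (⨆ y, |f x y - f (rp f (pr f x)) y|) - (⨆ y, |f x' y - f (rp f (pr f x')) y|) ≤ c := by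
      intro x x' c h
      have h1 : pr f x = pr f x' := pr_eq h
      rw [h1, sub_le_iff_le_add]
      apply ciSup_le
      intro y
      have h2 := le_ciSup (hbdd x') y
      have h3 := h y
      have h4 := abs_sub_le (f x y) (f x' y) (f (rp f (pr f x')) y)
      linarith
    intro x x' c h
    rw [abs_le']
    refine ⟨key x x' c h, ?_⟩
    rw [neg_sub]
    exact key x' x c (fun y => by rw [abs_sub_comm]; exact h y))
  refine ⟨B, hB, M, fun x hxB y => ?_⟩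
  exact ((le_ciSup (hbdd x) y).trans (le_abs_self _)).trans (hM x hxB)

/-- A function on the quotient with values in `ℕ` is bounded off a small set. -/
theorem quot_bdd {𝓔 : Set (Set (X × X))} [Nonempty Y] {f : X → Y → ℝ}
    (hx : LipBdd 𝓔 f) (c : Quotient (setoid f) → ℕ) : ∃ n : ℕ, Bdd 𝓔 (pr f ⁻¹' {t | n < c t}) := by
  obtain ⟨B, hB, M, hM⟩ := hx (fun x => (c (pr f x) : ℝ)) (by
    intro x x' d h
    obtain ⟨y⟩ := ‹Nonempty Y›
    rw [pr_eq h, sub_self, abs_zero]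
    exact (abs_nonneg _).trans (h y))
  obtain ⟨n, hn⟩ := exists_nat_ge M
  refine ⟨n, hB.mono ?_⟩
  intro x hx'
  by_contra hxB
  have h1 := (le_abs_self _).trans ((hM x hxB).trans hn)
  have h2 : n < c (pr f x) := hx'
  have h3 : c (pr f x) ≤ n := by exact_mod_cast h1
  omega

/-- The emu condition for `f` in two variables. -/
def Emu (𝓔 : Set (Set (X × X))) (𝓕 : Set (Set (Y × Y))) (f : X → Y → ℝ) : Prop :=
  ∀ E ∈ 𝓔, ∀ F ∈ 𝓕, ∃ B C, Bdd 𝓔 B ∧ Bdd 𝓕 C ∧ ∃ M, ∀ x y, ¬ (x ∈ B ∧ y ∈ C) →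
    ∀ x' y', (x, x') ∈ E → (y, y') ∈ F → |f x y - f x' y'| ≤ M

theorem Emu.flip {𝓔 : Set (Set (X × X))} {𝓕 : Set (Set (Y × Y))} {f : X → Y → ℝ}
    (h : Emu 𝓔 𝓕 f) : Emu 𝓕 𝓔 (fun y x => f x y) := by
  intro F hF E hE
  obtain ⟨B, C, hB, hC, M, hM⟩ := h E hE F hF
  exact ⟨C, B, hC, hB, M, fun y x hyx y' x' hy hx => hM x y (fun h => hyx ⟨h.2, h.1⟩) x' y' hx hy⟩

theorem strip {𝓔 : Set (Set (X × X))} {𝓕 : Set (Set (Y × Y))} (hX : IsBall 𝓔) (hY : IsBall 𝓕)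
    [Nonempty X] [Nonempty Y] {f : X → Y → ℝ} (h0 : Emu 𝓔 𝓕 f) (hx : LipBdd 𝓔 f)
    {C : Set Y} (hC : Bdd 𝓕 C) :
    ∃ B, Bdd 𝓔 B ∧ ∃ M, ∀ x, x ∉ B → ∀ y ∈ C, |f x y| ≤ M := by
  obtain ⟨x₀⟩ := ‹Nonempty X›
  obtain ⟨y₀⟩ := ‹Nonempty Y›
  obtain ⟨B₁, hB₁, M₁, hM₁⟩ := hx (fun x => f x y₀) (fun x x' c h => h y₀)
  obtain ⟨F, hF, hF'⟩ := hC.base hY y₀
  obtain ⟨E, hE, -⟩ := hX.all x₀ x₀
  obtain ⟨B₂, C₂, hB₂, hC₂, M₂, hM₂⟩ := h0 E hE F hF
  refine ⟨B₁ ∪ B₂, hB₁.union hX hB₂, M₁ + M₂, fun x hxB y hy => ?_⟩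
  have h1 := hM₁ x (fun h => hxB (Or.inl h))
  have h2 := hM₂ x y₀ (fun h => hxB (Or.inr h.1)) x y (hX.refl E hE x) (hF' y hy)
  have h3 : |f x y| ≤ |f x y₀| + |f x y₀ - f x y| := by
    have h4 : f x y = f x y₀ - (f x y₀ - f x y) := by ring
    calc |f x y| = |f x y₀ - (f x y₀ - f x y)| := by rw [← h4]
      _ ≤ _ := abs_sub _ _
  linarith

theorem quot_strip {𝓔 : Set (Set (X × X))} {𝓕 : Set (Set (Y × Y))} (hX : IsBall 𝓔)
    (hY : IsBall 𝓕) [Nonempty X] [Nonempty Y] {f : X → Y → ℝ} (h0 : Emu 𝓔 𝓕 f)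
    (hx : LipBdd 𝓔 f) (S : Set (Quotient (setoid fun y x => f x y)))
    (hS : Bdd 𝓕 (pr (fun y x => f x y) ⁻¹' S)) :
    ∃ M : ℕ, Bdd 𝓔 (pr f ⁻¹' {t | ∃ s ∈ S, (M : ℝ) < |f (rp f t) (rp _ s)|}) := by
  obtain ⟨B₁, hB₁, M₁, hM₁⟩ := strip hX hY h0 hx hS
  obtain ⟨B₂, hB₂, M₂, hM₂⟩ := exists_rep_bound hx
  obtain ⟨M, hM⟩ := exists_nat_ge (M₁ + M₂)
  refine ⟨M, (hB₁.union hX hB₂).mono ?_⟩
  rintro x ⟨s, hs, hlt⟩
  by_contra hxB
  have h1 := hM₁ x (fun h => hxB (Or.inl h)) (rp _ s) (by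
    rw [mem_preimage, pr_rp]; exact hs)
  have h2 := hM₂ x (fun h => hxB (Or.inr h)) (rp _ s)
  have h3 := abs_sub_abs_le_abs_sub (f (rp f (pr f x)) (rp (fun y x => f x y) s))
    (f x (rp (fun y x => f x y) s))
  rw [abs_sub_comm (f (rp f (pr f x)) (rp (fun y x => f x y) s))] at h3
  linarith

/-- Maximal subsets of a set `A` on which the relation `r` is off-diagonally satisfied. -/
theorem exists_max_disjoint {α β : Type*} (A : Set α) (R : α → Set β) :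
    ∃ A' ⊆ A, (∀ a ∈ A', ∀ b ∈ A', a ≠ b → Disjoint (R a) (R b)) ∧
      ∀ a ∈ A, (R a).Nonempty → ∃ b ∈ A', (R a ∩ R b).Nonempty := by
  obtain ⟨A', hmax⟩ := zorn_subset
    {S : Set α | S ⊆ A ∧ ∀ a ∈ S, ∀ b ∈ S, a ≠ b → Disjoint (R a) (R b)} (by
      intro c hc hchain
      refine ⟨⋃₀ c, ⟨sUnion_subset fun s hs => (hc hs).1, ?_⟩, fun s hs => subset_sUnion_of_mem hs⟩
      rintro a ⟨s, hs, has⟩ b ⟨t, ht, hbt⟩ hab
      rcases hchain.total hs ht with h | h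
      · exact (hc ht).2 a (h has) b hbt hab
      · exact (hc hs).2 a has b (h hbt) hab)
  refine ⟨A', hmax.prop.1, hmax.prop.2, ?_⟩
  intro a ha hne
  by_contra hcon
  push Not at hcon
  have haA' : a ∉ A' := by
    intro h
    have := hcon a h
    rw [inter_self] at this
    exact hne.ne_empty this
  have hins : insert a A' ∈ {S : Set α | S ⊆ A ∧
      ∀ a ∈ S, ∀ b ∈ S, a ≠ b → Disjoint (R a) (R b)} := by
    refine ⟨insert_subset ha hmax.prop.1, ?_⟩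
    rintro b (rfl | hb) c (rfl | hc) hbc
    · exact absurd rfl hbc
    · exact disjoint_iff_inter_eq_empty.2 (hcon c hc)
    · exact (disjoint_iff_inter_eq_empty.2 (hcon b hb)).symm
    · exact hmax.prop.2 b hb c hc hbc
  exact haA' (hmax.le_of_ge hins (subset_insert a A') (mem_insert a A'))

theorem unbdd_small {𝓔 : Set (Set (X × X))} {𝓕 : Set (Set (Y × Y))} (hX : IsBall 𝓔)
    (hY : IsBall 𝓕) [Nonempty X] [Nonempty Y] {f : X → Y → ℝ} (h0 : Emu 𝓔 𝓕 f)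
    (hx : LipBdd 𝓔 f) (hy : LipBdd 𝓕 (fun y x => f x y)) :
    Bdd 𝓔 (pr f ⁻¹' {t | ∀ M : ℕ, ∃ s : Quotient (setoid fun y x => f x y),
      (M : ℝ) < |f (rp f t) (rp _ s)|}) := by
  classical
  set F : Quotient (setoid f) → Quotient (setoid fun y x => f x y) → ℝ :=
    fun t s => |f (rp f t) (rp _ s)| with hF
  set A : Set (Quotient (setoid f)) := {t | ∀ M : ℕ, ∃ s, (M : ℝ) < F t s} with hA
  change Bdd 𝓔 (pr f ⁻¹' A)
  -- the two transfer properties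
  have P1 : ∀ S : Set (Quotient (setoid fun y x => f x y)),
      Bdd 𝓕 (pr (fun y x => f x y) ⁻¹' S) →
      ∃ M : ℕ, Bdd 𝓔 (pr f ⁻¹' {t | ∃ s ∈ S, (M : ℝ) < F t s}) :=
    fun S hS => quot_strip hX hY h0 hx S hS
  have P2 : ∀ T : Set (Quotient (setoid f)), Bdd 𝓔 (pr f ⁻¹' T) →
      ∃ M : ℕ, Bdd 𝓕 (pr (fun y x => f x y) ⁻¹' {s | ∃ t ∈ T, (M : ℝ) < F t s}) :=
    fun T hT => quot_strip (f := fun y x => f x y) hY hX h0.flip hy T hT
  have hmax : ∀ M : ℕ, ∃ A' ⊆ A, (∀ a ∈ A', ∀ b ∈ A', a ≠ b →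
      Disjoint {s | (M : ℝ) < F a s} {s | (M : ℝ) < F b s}) ∧
      ∀ a ∈ A, ({s | (M : ℝ) < F a s}).Nonempty →
        ∃ b ∈ A', ({s | (M : ℝ) < F a s} ∩ {s | (M : ℝ) < F b s}).Nonempty :=
    fun M => exists_max_disjoint A (fun a => {s | (M : ℝ) < F a s})
  choose A' hA'A hdisj hA'max using hmax
  -- each `A' M` is small
  have hsmall : ∀ M : ℕ, Bdd 𝓔 (pr f ⁻¹' A' M) := by
    intro M
    -- the function `c`
    let c : Quotient (setoid fun y x => f x y) → ℕ := fun s =>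
      if h : ∃ t ∈ A' M, (M : ℝ) < F t s then ⌊F h.choose s⌋₊ else 0
    have hc : ∀ t ∈ A' M, ∀ s, (M : ℝ) < F t s → c s = ⌊F t s⌋₊ := by
      intro t ht s hs
      have h : ∃ t ∈ A' M, (M : ℝ) < F t s := ⟨t, ht, hs⟩
      have h1 : h.choose = t := by
        by_contra hne
        have := hdisj M _ h.choose_spec.1 t ht hne
        exact (Set.disjoint_left.1 this h.choose_spec.2 hs)
      simp only [c, dif_pos h, h1]
    obtain ⟨n, hn⟩ := quot_bdd hy c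
    obtain ⟨m, hm⟩ := P1 _ hn
    refine hm.mono ?_
    intro x hxA
    obtain ⟨s, hs⟩ := hA'A M hxA (max M (max (n + 1) m))
    have hs1 : (M : ℝ) < F (pr f x) s := lt_of_le_of_lt (by exact_mod_cast le_max_left _ _) hs
    have hs2 : ((n + 1 : ℕ) : ℝ) < F (pr f x) s :=
      lt_of_le_of_lt (by exact_mod_cast (le_max_left _ _).trans (le_max_right _ _)) hs
    have hs3 : (m : ℝ) < F (pr f x) s :=
      lt_of_le_of_lt (by exact_mod_cast (le_max_right _ _).trans (le_max_right _ _)) hs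
    refine ⟨s, ?_, hs3⟩
    change n < c s
    rw [hc _ hxA s hs1]
    have : n + 1 ≤ ⌊F (pr f x) s⌋₊ := Nat.le_floor hs2.le
    omega
  -- the union is small
  have hfin : ∀ n : ℕ, Bdd 𝓔 (pr f ⁻¹' {t | ∃ M ≤ n, t ∈ A' M}) := by
    intro n
    induction n with
    | zero =>
      refine (hsmall 0).mono ?_
      rintro x ⟨M, hM, hxM⟩
      obtain rfl : M = 0 := by omega
      exact hxM
    | succ n ih =>
      refine (ih.union hX (hsmall (n + 1))).mono ?_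
      rintro x ⟨M, hM, hxM⟩
      rcases Nat.lt_or_ge M (n + 1) with h | h
      · exact Or.inl ⟨M, by omega, hxM⟩
      · obtain rfl : M = n + 1 := by omega
        exact Or.inr hxM
  have hT : Bdd 𝓔 (pr f ⁻¹' {t | ∃ M, t ∈ A' M}) := by
    let c : Quotient (setoid f) → ℕ := fun t => if h : ∃ M, t ∈ A' M then Nat.find h else 0
    obtain ⟨n, hn⟩ := quot_bdd hx c
    refine (hn.union hX (hfin n)).mono ?_
    intro x hx'
    have h : ∃ M, pr f x ∈ A' M := hx'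
    by_cases hc : n < c (pr f x)
    · exact Or.inl hc
    · right
      refine ⟨c (pr f x), by omega, ?_⟩
      have : c (pr f x) = Nat.find h := by simp only [c, dif_pos h]
      rw [this]
      exact Nat.find_spec h
  obtain ⟨m₁, hm₁⟩ := P2 _ hT
  obtain ⟨m₂, hm₂⟩ := P1 _ hm₁
  refine hm₂.mono ?_
  intro x hxA
  have hxA' : pr f x ∈ A := hxA
  obtain ⟨b, hb, s, hs1, hs2⟩ := hA'max (max m₁ m₂) (pr f x) hxA' (hxA' _)
  refine ⟨s, ⟨b, ⟨_, hb⟩, ?_⟩, ?_⟩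
  · exact lt_of_le_of_lt (by exact_mod_cast le_max_left _ _) hs2
  · exact lt_of_le_of_lt (by exact_mod_cast le_max_right _ _) hs1

/-- Core theorem. -/
theorem core {𝓔 : Set (Set (X × X))} {𝓕 : Set (Set (Y × Y))} (hX : IsBall 𝓔)
    (hY : IsBall 𝓕) [Nonempty X] [Nonempty Y] {f : X → Y → ℝ} (h0 : Emu 𝓔 𝓕 f)
    (hx : LipBdd 𝓔 f) (hy : LipBdd 𝓕 (fun y x => f x y)) :
    ∃ B C, Bdd 𝓔 B ∧ Bdd 𝓕 C ∧ ∃ M, ∀ x y, ¬ (x ∈ B ∧ y ∈ C) → |f x y| ≤ M := by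
  classical
  have hA := unbdd_small hX hY h0 hx hy
  obtain ⟨B₂, hB₂, M₂, hM₂⟩ := exists_rep_bound hx
  obtain ⟨C₂, hC₂, N₂, hN₂⟩ := exists_rep_bound hy
  obtain ⟨B₄, hB₄, M₄, hM₄⟩ := strip hX hY h0 hx hC₂
  -- the sup function
  obtain ⟨B₃, hB₃, M₃, hM₃⟩ := hx
    (fun x => if BddAbove (range fun y => |f x y|) then ⨆ y, |f x y| else 0) (by
    have key1 : ∀ x x' c, (∀ y, |f x y - f x' y| ≤ c) → BddAbove (range fun y => |f x y|) →
        BddAbove (range fun y => |f x' y|) := by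
      rintro x x' c h ⟨b, hb⟩
      refine ⟨b + c, ?_⟩
      rintro _ ⟨y, rfl⟩
      have h1 := hb (mem_range_self y)
      have h2 := abs_sub_abs_le_abs_sub (f x' y) (f x y)
      rw [abs_sub_comm] at h2
      have h3 := h y
      simp only at h1 ⊢
      linarith
    have key2 : ∀ x x' c, (∀ y, |f x y - f x' y| ≤ c) → BddAbove (range fun y => |f x' y|) →
        (⨆ y, |f x y|) - (⨆ y, |f x' y|) ≤ c := by
      intro x x' c h hbdd
      rw [sub_le_iff_le_add]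
      apply ciSup_le
      intro y
      have h2 := le_ciSup hbdd y
      have h3 := h y
      have h4 := abs_sub_abs_le_abs_sub (f x y) (f x' y)
      linarith
    intro x x' c h
    have h' : ∀ y, |f x' y - f x y| ≤ c := fun y => by rw [abs_sub_comm]; exact h y
    by_cases hbdd : BddAbove (range fun y => |f x y|)
    · have hbdd' := key1 x x' c h hbdd
      rw [if_pos hbdd, if_pos hbdd', abs_le']
      refine ⟨key2 x x' c h hbdd', ?_⟩
      rw [neg_sub]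
      exact key2 x' x c h' hbdd
    · have hbdd' : ¬ BddAbove (range fun y => |f x' y|) := fun hb => hbdd (key1 x' x c h' hb)
      rw [if_neg hbdd, if_neg hbdd', sub_self, abs_zero]
      obtain ⟨y⟩ := ‹Nonempty Y›
      exact (abs_nonneg _).trans (h y))
  have hBst := ((hB₃.union hX hB₂).union hX hB₄).union hX hA
  obtain ⟨C, hC, M, hM⟩ := strip hY hX h0.flip hy hBst
  refine ⟨_, C, hBst, hC, max M M₃, ?_⟩
  intro x y hxy
  by_cases hxB : x ∈ ((B₃ ∪ B₂) ∪ B₄) ∪ (pr f ⁻¹' {t | ∀ M : ℕ,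
      ∃ s : Quotient (setoid fun y x => f x y), (M : ℝ) < |f (rp f t) (rp _ s)|})
  · have hyC : y ∉ C := fun h => hxy ⟨hxB, h⟩
    exact (hM y hyC x hxB).trans (le_max_left _ _)
  · have hx3 : x ∉ B₃ := fun h => hxB (Or.inl (Or.inl (Or.inl h)))
    have hx2 : x ∉ B₂ := fun h => hxB (Or.inl (Or.inl (Or.inr h)))
    have hx4 : x ∉ B₄ := fun h => hxB (Or.inl (Or.inr h))
    have hx1 : ¬ ∀ M : ℕ, ∃ s : Quotient (setoid fun y x => f x y),
        (M : ℝ) < |f (rp f (pr f x)) (rp _ s)| := fun h => hxB (Or.inr h)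
    push Not at hx1
    obtain ⟨m, hm⟩ := hx1
    have hbdd : BddAbove (range fun y => |f x y|) := by
      refine ⟨max M₄ (m + N₂ + M₂), ?_⟩
      rintro _ ⟨z, rfl⟩
      simp only
      by_cases hz : z ∈ C₂
      · exact (hM₄ x hx4 z hz).trans (le_max_left _ _)
      · refine le_trans ?_ (le_max_right _ _)
        have h1 := hM₂ x hx2 z
        have h2 := hN₂ z hz (rp f (pr f x))
        have h3 := hm (pr (fun y x => f x y) z)
        have h4 := abs_sub_abs_le_abs_sub (f x z) (f (rp f (pr f x)) z)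
        have h5 := abs_sub_abs_le_abs_sub (f (rp f (pr f x)) z)
          (f (rp f (pr f x)) (rp (fun y x => f x y) (pr (fun y x => f x y) z)))
        linarith
    have h1 := hM₃ x hx3
    rw [if_pos hbdd] at h1
    have h2 := le_ciSup hbdd y
    exact ((h2.trans (le_abs_self _)).trans h1).trans (le_max_right _ _)

end Pool.Agent.V11216.BalleanCore
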