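import Mathlib
import Pool.Agent.V11216.BalleanCore

/-!
# Coarse structures, bounded sets, products: definitions and links with `BalleanCore`
-/

namespace Pool.Agent.V11216.CoarseBase

open Set Pool.Agent.V11216.BalleanCore

/-- A coarse structure on `X`: a family of subsets of `X × X` containing the diagonal and closed
under subsets, finite unions, inverses and compositions. -/
structure IsCoarse {X : Type*} (𝓔 : Set (Set (X × X))) : Prop where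
  diag : {p : X × X | p.1 = p.2} ∈ 𝓔
  subset : ∀ E ∈ 𝓔, ∀ F ⊆ E, F ∈ 𝓔
  union : ∀ E ∈ 𝓔, ∀ F ∈ 𝓔, E ∪ F ∈ 𝓔
  inv : ∀ E ∈ 𝓔, {p : X × X | (p.2, p.1) ∈ E} ∈ 𝓔
  comp : ∀ E ∈ 𝓔, ∀ F ∈ 𝓔, {p : X × X | ∃ y, (p.1, y) ∈ E ∧ (y, p.2) ∈ F} ∈ 𝓔

/-- A ballean: a connected coarse structure. -/
structure IsBallean {X : Type*} (𝓔 : Set (Set (X × X))) : Prop extends IsCoarse 𝓔 where
  conn : ∀ x y, ∃ E ∈ 𝓔, (x, y) ∈ E

/-- The ball `E[x]`. -/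
def ball {X : Type*} (E : Set (X × X)) (x : X) : Set X := {y | (x, y) ∈ E}

/-- Bounded sets: subsets of balls. -/
def IsBounded {X : Type*} (𝓔 : Set (Set (X × X))) (B : Set X) : Prop :=
  ∃ E ∈ 𝓔, ∃ x, B ⊆ ball E x

/-- `E × F` as a relation on `X × Y`. -/
def prodRel {X Y : Type*} (E : Set (X × X)) (F : Set (Y × Y)) : Set ((X × Y) × (X × Y)) :=
  {p | (p.1.1, p.2.1) ∈ E ∧ (p.1.2, p.2.2) ∈ F}

variable {X Y : Type*}

/-- The reflexive entourages. -/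
def refl𝓔 (𝓔 : Set (Set (X × X))) : Set (Set (X × X)) := {E | E ∈ 𝓔 ∧ ∀ x, (x, x) ∈ E}

theorem union_diag_mem {𝓔 : Set (Set (X × X))} (h : IsCoarse 𝓔) {E : Set (X × X)} (hE : E ∈ 𝓔) :
    E ∪ {p | p.1 = p.2} ∈ refl𝓔 𝓔 :=
  ⟨h.union E hE _ h.diag, fun _ => Or.inr rfl⟩

theorem isBall_refl {𝓔 : Set (Set (X × X))} (h : IsBallean 𝓔) : IsBall (refl𝓔 𝓔) where
  refl E hE := hE.2
  comp_inv E hE F hF := by
    refine ⟨_, ⟨h.comp E hE.1 _ (h.inv F hF.1), fun x => ⟨x, hE.2 x, hF.2 x⟩⟩, ?_⟩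
    intro x y z h1 h2
    exact ⟨y, h1, h2⟩
  all x y := by
    obtain ⟨E, hE, hxy⟩ := h.conn x y
    exact ⟨_, union_diag_mem h.toIsCoarse hE, Or.inl hxy⟩

theorem bdd_iff {𝓔 : Set (Set (X × X))} (h : IsCoarse 𝓔) {B : Set X} :
    Bdd (refl𝓔 𝓔) B ↔ IsBounded 𝓔 B := by
  constructor
  · rintro ⟨E, hE, x, hx⟩
    exact ⟨E, hE.1, x, hx⟩
  · rintro ⟨E, hE, x, hx⟩
    exact ⟨_, union_diag_mem h hE, x, fun y hy => Or.inl (hx hy)⟩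

/-- The family of subsets of products of entourages is a coarse structure. -/
theorem isCoarse_prod {𝓔 : Set (Set (X × X))} {𝓕 : Set (Set (Y × Y))} (hX : IsCoarse 𝓔)
    (hY : IsCoarse 𝓕) : IsCoarse {G | ∃ E ∈ 𝓔, ∃ F ∈ 𝓕, G ⊆ prodRel E F} where
  diag := ⟨_, hX.diag, _, hY.diag, by
    rintro ⟨p, q⟩ h
    have h : p = q := h
    subst h
    exact ⟨rfl, rfl⟩⟩
  subset := by
    rintro G ⟨E, hE, F, hF, h⟩ G' hG'
    exact ⟨E, hE, F, hF, hG'.trans h⟩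
  union := by
    rintro G ⟨E, hE, F, hF, h⟩ G' ⟨E', hE', F', hF', h'⟩
    refine ⟨_, hX.union E hE E' hE', _, hY.union F hF F' hF', ?_⟩
    rintro p (hp | hp)
    · exact ⟨Or.inl (h hp).1, Or.inl (h hp).2⟩
    · exact ⟨Or.inr (h' hp).1, Or.inr (h' hp).2⟩
  inv := by
    rintro G ⟨E, hE, F, hF, h⟩
    refine ⟨_, hX.inv E hE, _, hY.inv F hF, ?_⟩
    intro p hp
    exact ⟨(h hp).1, (h hp).2⟩
  comp := by
    rintro G ⟨E, hE, F, hF, h⟩ G' ⟨E', hE', F', hF', h'⟩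
    refine ⟨_, hX.comp E hE E' hE', _, hY.comp F hF F' hF', ?_⟩
    rintro p ⟨q, h1, h2⟩
    exact ⟨⟨q.1, (h h1).1, (h' h2).1⟩, ⟨q.2, (h h1).2, (h' h2).2⟩⟩

/-- Bounded subsets of the product are contained in products of bounded sets. -/
theorem bounded_prod {𝓔 : Set (Set (X × X))} {𝓕 : Set (Set (Y × Y))} {D : Set (X × Y)}
    (hD : IsBounded {G | ∃ E ∈ 𝓔, ∃ F ∈ 𝓕, G ⊆ prodRel E F} D) :
    ∃ B C, IsBounded 𝓔 B ∧ IsBounded 𝓕 C ∧ ∀ p ∈ D, p.1 ∈ B ∧ p.2 ∈ C := by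
  obtain ⟨G, ⟨E, hE, F, hF, hG⟩, q, hq⟩ := hD
  refine ⟨ball E q.1, ball F q.2, ⟨E, hE, _, Subset.rfl⟩, ⟨F, hF, _, Subset.rfl⟩, ?_⟩
  intro p hp
  exact hG (hq hp)

theorem abs_le_of_ediam {S : Set X} {f : X → ℝ} {ε : ℝ} (hε : 0 ≤ ε)
    (h : Metric.ediam (f '' S) ≤ ENNReal.ofReal ε) {a b : X} (ha : a ∈ S) (hb : b ∈ S) :
    |f a - f b| ≤ ε := by
  have h1 : edist (f a) (f b) ≤ ENNReal.ofReal ε :=
    Metric.edist_le_of_ediam_le (mem_image_of_mem f ha) (mem_image_of_mem f hb) h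
  rw [edist_le_ofReal hε, Real.dist_eq] at h1
  exact h1

theorem ediam_le_of_abs {S : Set X} {f : X → ℝ} {c m : ℝ} (hc : 0 ≤ c)
    (h : ∀ a ∈ S, |m - f a| ≤ c) : Metric.ediam (f '' S) ≤ ENNReal.ofReal (2 * c) := by
  apply Metric.ediam_le
  rintro _ ⟨a, ha, rfl⟩ _ ⟨b, hb, rfl⟩
  rw [edist_le_ofReal (by linarith), Real.dist_eq]
  have h1 := h a ha
  have h2 := h b hb
  have h3 := abs_sub_le (f a) m (f b)
  rw [abs_sub_comm (f a) m] at h3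
  linarith

end Pool.Agent.V11216.CoarseBase
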