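import Mathlib

/-!
# Max-min measures with finite support on ultrametric spaces, and their Kleisli category
-/

namespace Pool.Agent.V11216.MaxMin

open Set CategoryTheory

/-- An ultrametric space. -/
structure UMet : Type 1 where
  /-- underlying type -/
  carrier : Type
  [met : MetricSpace carrier]
  [ult : IsUltrametricDist carrier]

attribute [instance] UMet.met UMet.ult

/-- Nonexpanding maps. -/
@[ext]
structure NonExp (X Y : UMet) where
  /-- the map -/
  toFun : X.carrier → Y.carrier
  nonexp : ∀ x y, dist (toFun x) (toFun y) ≤ dist x y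

/-- The category of ultrametric spaces and nonexpanding maps. -/
instance : Category UMet where
  Hom := NonExp
  id X := ⟨fun x => x, fun _ _ => le_rfl⟩
  comp f g := ⟨fun x => g.toFun (f.toFun x), fun x y => (g.nonexp _ _).trans (f.nonexp x y)⟩

/-- Max-min measures `⋁ᵢ αᵢ ∧ δ_{xᵢ}` of finite support on `X`, given by their weights: `w x` is
the maximum of all `αᵢ` with `xᵢ = x` (and `⊥ = -∞` if there is none). -/
@[ext]
structure J (X : Type) where
  /-- weight function -/
  w : X → EReal
  fin : {x | w x ≠ ⊥}.Finite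
  top : ∃ x, w x = ⊤

/-- The functional `φ ↦ max_x min (w x) (φ x)` of a max-min measure. -/
noncomputable def eval {X : Type} (μ : J X) (φ : X → ℝ) : EReal := ⨆ x, min (μ.w x) (φ x : EReal)

/-- The functionals on `C(X)` of the form `μ(φ) = max_{i} min(αᵢ, φ(xᵢ))` with
`max_i αᵢ = +∞`. -/
def functionals (X : Type) [TopologicalSpace X] : Set (C(X, ℝ) → ℝ) :=
  {μ | ∃ (k : ℕ) (α : Fin k → EReal) (x : Fin k → X), (∃ i, α i = ⊤) ∧
    ∀ φ : C(X, ℝ), ((μ φ : ℝ) : EReal) = ⨆ i, min (α i) (φ (x i) : EReal)}

/-- Two measures agree on all functions which are constant on open balls of radius `r`. -/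
def Agree {X : Type} [MetricSpace X] (r : ℝ) (μ ν : J X) : Prop :=
  ∀ φ : X → ℝ, (∀ x y, dist x y < r → φ x = φ y) → eval μ φ = eval ν φ

/-- The ultrametric `d̂` on max-min measures. -/
noncomputable def dhat {X : Type} [MetricSpace X] (μ ν : J X) : ℝ :=
  sInf {r : ℝ | 0 < r ∧ Agree r μ ν}

/-- The Dirac measure. -/
noncomputable def dirac {X : Type} (x : X) : J X where
  w y := ⨆ _ : y = x, ⊤
  fin := by
    refine (finite_singleton x).subset ?_
    intro y hy
    by_contra h
    apply hy
    simp only [iSup_eq_bot]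
    intro h'
    exact absurd h' h
  top := ⟨x, by simp⟩

theorem dirac_self {X : Type} (x : X) : (dirac x).w x = ⊤ := by simp [dirac]

theorem dirac_ne {X : Type} {x y : X} (h : y ≠ x) : (dirac x).w y = ⊥ := by simp [dirac, h]

/-- Kleisli extension of `g : Y → J Z` : weights `z ↦ max_y min (w y) (g(y)(z))`; this is
`ξ_Z ∘ J(g)`. -/
noncomputable def bind {Y Z : Type} (μ : J Y) (g : Y → J Z) : J Z where
  w z := ⨆ y, min (μ.w y) ((g y).w z)
  fin := by
    refine (μ.fin.biUnion fun y _ => (g y).fin).subset ?_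
    intro z hz
    by_contra hcon
    apply hz
    rw [iSup_eq_bot]
    intro y
    by_cases hy : μ.w y = ⊥
    · rw [hy]; exact bot_inf_eq _
    · have : (g y).w z = ⊥ := by
        by_contra h
        exact hcon (mem_biUnion (x := y) hy h)
      rw [this]; exact inf_bot_eq _
  top := by
    obtain ⟨y, hy⟩ := μ.top
    obtain ⟨z, hz⟩ := (g y).top
    refine ⟨z, top_unique ?_⟩
    refine le_iSup_of_le y ?_
    rw [hy, hz]
    simp

/-- maximum of the weights over an open ball -/
noncomputable def ballSup {X : Type} [MetricSpace X] (μ : J X) (r : ℝ) (y : X) : EReal :=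
  ⨆ z, ⨆ _ : dist y z < r, μ.w z

theorem eval_of_const {X : Type} [MetricSpace X] {r : ℝ} (hr : 0 < r) (μ : J X) (φ : X → ℝ)
    (hφ : ∀ x y, dist x y < r → φ x = φ y) :
    eval μ φ = ⨆ y, min (ballSup μ r y) (φ y : EReal) := by
  apply le_antisymm
  · apply iSup_le
    intro x
    refine le_iSup_of_le x (min_le_min ?_ le_rfl)
    exact le_iSup₂_of_le x (by simpa using hr) le_rfl
  · apply iSup_le
    intro y
    unfold ballSup
    rw [iSup_inf_eq]
    apply iSup_le
    intro z
    rw [iSup_inf_eq]
    apply iSup_le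
    intro hz
    rw [hφ y z hz]
    exact le_iSup_of_le z le_rfl

theorem agree_of_ballSup {X : Type} [MetricSpace X] {r : ℝ} (hr : 0 < r) {μ ν : J X}
    (h : ∀ y, ballSup μ r y = ballSup ν r y) : Agree r μ ν := by
  intro φ hφ
  rw [eval_of_const hr μ φ hφ, eval_of_const hr ν φ hφ]
  simp only [h]

theorem dist_lt_iff {X : Type} [MetricSpace X] [IsUltrametricDist X] {r : ℝ} {x y : X}
    (hxy : dist x y < r) (z : X) : dist x z < r ↔ dist y z < r := by
  constructor
  · intro h
    refine lt_of_le_of_lt (dist_triangle_max y x z) (max_lt ?_ h)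
    rwa [dist_comm]
  · intro h
    exact lt_of_le_of_lt (dist_triangle_max x y z) (max_lt hxy h)

theorem ballSup_le_of_agree {X : Type} [MetricSpace X] [IsUltrametricDist X] {r : ℝ}
    {μ ν : J X} (h : Agree r μ ν) (y : X) : ballSup ν r y ≤ ballSup μ r y := by
  classical
  by_contra hlt
  rw [not_le] at hlt
  obtain ⟨t, ht1, ht2⟩ := EReal.lt_iff_exists_real_btwn.1 hlt
  let φ : X → ℝ := fun z => if dist y z < r then t else t - 1
  have hφ : ∀ x z, dist x z < r → φ x = φ z := by
    intro x z hxz
    simp only [φ]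
    have h1 : dist y x < r ↔ dist y z < r := by
      rw [dist_comm y x, dist_comm y z]
      exact dist_lt_iff hxz y
    by_cases h2 : dist y z < r
    · rw [if_pos h2, if_pos (h1.2 h2)]
    · rw [if_neg h2, if_neg (fun h => h2 (h1.1 h))]
  have heq := h φ hφ
  have h1 : (t : EReal) ≤ eval ν φ := by
    -- some point in the ball has weight larger than `t`
    obtain ⟨z, hz⟩ := lt_iSup_iff.1 ht2
    obtain ⟨hzr, hz⟩ := lt_iSup_iff.1 hz
    refine le_iSup_of_le z (le_min hz.le ?_)
    simp only [φ, if_pos hzr]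
    exact le_rfl
  have h2 : eval μ φ < t := by
    have h3 : eval μ φ ≤ max (ballSup μ r y) ((t - 1 : ℝ) : EReal) := by
      apply iSup_le
      intro z
      by_cases hz : dist y z < r
      · refine (min_le_left _ _).trans (le_max_of_le_left ?_)
        exact le_iSup₂_of_le z hz le_rfl
      · refine (min_le_right _ _).trans (le_max_of_le_right ?_)
        simp only [φ, if_neg hz]
        exact le_rfl
    refine lt_of_le_of_lt h3 (max_lt ht1 ?_)
    exact_mod_cast sub_one_lt t
  rw [heq] at h2
  exact absurd h1 (not_le.2 h2)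

theorem agree_iff {X : Type} [MetricSpace X] [IsUltrametricDist X] {r : ℝ} (hr : 0 < r)
    {μ ν : J X} : Agree r μ ν ↔ ∀ y, ballSup μ r y = ballSup ν r y := by
  constructor
  · intro h y
    have h' : Agree r ν μ := fun φ hφ => (h φ hφ).symm
    exact le_antisymm (ballSup_le_of_agree h' y) (ballSup_le_of_agree h y)
  · exact agree_of_ballSup hr

theorem Agree.mono {X : Type} [MetricSpace X] {r s : ℝ} (hrs : r ≤ s) {μ ν : J X}
    (h : Agree r μ ν) : Agree s μ ν :=
  fun φ hφ => h φ fun x y hxy => hφ x y (hxy.trans_le hrs)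

/-- For large radii all measures agree. -/
theorem exists_agree {X : Type} [MetricSpace X] (μ ν : J X) : ∃ r, 0 < r ∧ Agree r μ ν := by
  obtain ⟨a, ha⟩ := μ.top
  have hfin := μ.fin.union ν.fin
  obtain ⟨R, hR⟩ := (hfin.image fun z => dist z a).bddAbove
  refine ⟨max R 0 + 1, by positivity, ?_⟩
  have key : ∀ (μ' : J X) (φ : X → ℝ), (∀ x y, dist x y < max R 0 + 1 → φ x = φ y) →
      (∀ z, μ'.w z ≠ ⊥ → dist z a ≤ R) → eval μ' φ = φ a := by
    intro μ' φ hφ hz
    have h1 : ∀ z, μ'.w z ≠ ⊥ → φ z = φ a := by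
      intro z hz'
      apply hφ
      have := hz z hz'
      have := le_max_left R 0
      linarith
    apply le_antisymm
    · apply iSup_le
      intro z
      by_cases hz' : μ'.w z = ⊥
      · rw [hz']
        exact (min_le_left _ _).trans bot_le
      · rw [h1 z hz']
        exact min_le_right _ _
    · obtain ⟨b, hb⟩ := μ'.top
      refine le_iSup_of_le b ?_
      rw [hb, h1 b (by rw [hb]; exact top_ne_bot)]
      simp
  intro φ hφ
  rw [key μ φ hφ (fun z hz => hR ⟨z, Or.inl hz, rfl⟩),
    key ν φ hφ (fun z hz => hR ⟨z, Or.inr hz, rfl⟩)]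

theorem dhat_le_iff {X : Type} [MetricSpace X] {μ ν : J X} {d : ℝ} (hd : 0 ≤ d) :
    dhat μ ν ≤ d ↔ ∀ r, d < r → Agree r μ ν := by
  have hbdd : BddBelow {r : ℝ | 0 < r ∧ Agree r μ ν} := ⟨0, fun r hr => hr.1.le⟩
  constructor
  · intro h r hr
    obtain ⟨s, hs, hsr⟩ := exists_lt_of_csInf_lt (exists_agree μ ν) (lt_of_le_of_lt h hr)
    exact hs.2.mono hsr.le
  · intro h
    apply le_of_forall_gt_imp_ge_of_dense
    intro r hr
    exact csInf_le hbdd ⟨lt_of_le_of_lt hd hr, h r hr⟩

/-- A map `f : X → J Y` is nonexpanding with respect to `d̂`. -/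
def KNonExp {X Y : Type} [MetricSpace X] [MetricSpace Y] (f : X → J Y) : Prop :=
  ∀ x x', dhat (f x) (f x') ≤ dist x x'

theorem kNonExp_iff {X Y : Type} [MetricSpace X] [MetricSpace Y] [IsUltrametricDist Y]
    (f : X → J Y) : KNonExp f ↔ ∀ x x' r, dist x x' < r → ∀ y,
      ballSup (f x) r y = ballSup (f x') r y := by
  constructor
  · intro h x x' r hr
    exact (agree_iff (lt_of_le_of_lt dist_nonneg hr)).1 ((dhat_le_iff dist_nonneg).1 (h x x') r hr)
  · intro h x x'
    rw [dhat_le_iff dist_nonneg]
    intro r hr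
    exact (agree_iff (lt_of_le_of_lt dist_nonneg hr)).2 (h x x' r hr)

theorem kNonExp_dirac {X Y : Type} [MetricSpace X] [MetricSpace Y] [IsUltrametricDist Y]
    {f : X → Y} (hf : ∀ x x', dist (f x) (f x') ≤ dist x x') :
    KNonExp fun x => dirac (f x) := by
  rw [kNonExp_iff]
  have key : ∀ x x' r, dist x x' < r → ∀ y,
      ballSup (dirac (f x)) r y ≤ ballSup (dirac (f x')) r y := by
    intro x x' r hr y
    apply iSup₂_le
    intro z hz
    by_cases hzx : z = f x
    · subst hzx
      have h1 : dist y (f x') < r := by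
        rw [dist_comm] at hz ⊢
        exact (dist_lt_iff (lt_of_le_of_lt (hf x x') hr) y).1 hz
      refine le_iSup₂_of_le (f x') h1 ?_
      rw [dirac_self, dirac_self]
    · rw [dirac_ne hzx]
      exact bot_le
  intro x x' r hr y
  exact le_antisymm (key x x' r hr y) (key x' x r (by rwa [dist_comm]) y)

theorem ballSup_bind {Y Z : Type} [MetricSpace Z] (μ : J Y) (g : Y → J Z) (r : ℝ) (z : Z) :
    ballSup (bind μ g) r z = ⨆ y, min (μ.w y) (ballSup (g y) r z) := by
  unfold ballSup bind
  simp only
  have h1 : ∀ y, min (μ.w y) (⨆ z', ⨆ _ : dist z z' < r, (g y).w z') =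
      ⨆ z', ⨆ _ : dist z z' < r, min (μ.w y) ((g y).w z') := by
    intro y
    rw [inf_iSup_eq]
    refine iSup_congr fun z' => ?_
    rw [inf_iSup_eq]
  simp only [h1]
  rw [iSup_comm]
  refine iSup_congr fun z' => ?_
  rw [iSup_comm]

theorem sup_min_ballSup {Y : Type} [MetricSpace Y] [IsUltrametricDist Y] {r : ℝ} (hr : 0 < r)
    (μ : J Y) (G : Y → EReal) (hG : ∀ y y', dist y y' < r → G y = G y') :
    (⨆ y, min (μ.w y) (G y)) = ⨆ y, min (ballSup μ r y) (G y) := by
  apply le_antisymm
  · apply iSup_le
    intro x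
    refine le_iSup_of_le x (min_le_min ?_ le_rfl)
    exact le_iSup₂_of_le x (by simpa using hr) le_rfl
  · apply iSup_le
    intro y
    unfold ballSup
    rw [iSup_inf_eq]
    apply iSup_le
    intro z
    rw [iSup_inf_eq]
    apply iSup_le
    intro hz
    rw [hG y z hz]
    exact le_iSup_of_le z le_rfl

theorem kNonExp_bind {X Y Z : Type} [MetricSpace X] [MetricSpace Y] [MetricSpace Z]
    [IsUltrametricDist Y] [IsUltrametricDist Z] {f : X → J Y} {g : Y → J Z} (hf : KNonExp f)
    (hg : KNonExp g) : KNonExp fun x => bind (f x) g := by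
  rw [kNonExp_iff] at hf hg ⊢
  intro x x' r hr z
  have hr0 : 0 < r := lt_of_le_of_lt dist_nonneg hr
  rw [ballSup_bind, ballSup_bind]
  rw [sup_min_ballSup hr0 (f x) _ (fun y y' h => hg y y' r h z),
    sup_min_ballSup hr0 (f x') _ (fun y y' h => hg y y' r h z)]
  simp only [hf x x' r hr]

theorem bind_dirac {X : Type} (μ : J X) : bind μ dirac = μ := by
  ext z
  apply le_antisymm
  · apply iSup_le
    intro y
    by_cases h : z = y
    · subst h; exact min_le_left _ _
    · rw [dirac_ne h]
      exact (min_le_right _ _).trans bot_le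
  · refine le_iSup_of_le z ?_
    rw [dirac_self]
    simp

theorem dirac_bind {X Y : Type} (x : X) (g : X → J Y) : bind (dirac x) g = g x := by
  ext z
  apply le_antisymm
  · apply iSup_le
    intro y
    by_cases h : y = x
    · subst h; exact min_le_right _ _
    · rw [dirac_ne h]
      exact (min_le_left _ _).trans bot_le
  · refine le_iSup_of_le x ?_
    rw [dirac_self]
    simp

theorem bind_bind {X Y Z : Type} (μ : J X) (g : X → J Y) (h : Y → J Z) :
    bind (bind μ g) h = bind μ fun x => bind (g x) h := by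
  ext u
  change (⨆ z, (⨆ y, μ.w y ⊓ (g y).w z) ⊓ (h z).w u) = ⨆ y, μ.w y ⊓ ⨆ z, (g y).w z ⊓ (h z).w u
  simp only [iSup_inf_eq, inf_iSup_eq]
  rw [iSup_comm]
  simp only [inf_assoc]

/-- Objects of the Kleisli category. -/
structure Kl : Type 1 where
  /-- underlying ultrametric space -/
  of : UMet

/-- Morphisms of the Kleisli category: nonexpanding maps `X → J_ω(Y)`. -/
@[ext]
structure KlHom (X Y : Kl) where
  /-- the map -/
  toFun : X.of.carrier → J Y.of.carrier
  nonexp : KNonExp toFun

/-- The Kleisli category of the max-min measure monad. -/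
noncomputable instance : Category Kl where
  Hom := KlHom
  id X := ⟨fun x => dirac x, kNonExp_dirac (f := fun x => x) fun _ _ => le_rfl⟩
  comp f g := ⟨fun x => bind (f.toFun x) g.toFun, kNonExp_bind f.nonexp g.nonexp⟩
  id_comp f := by
    apply KlHom.ext
    funext x
    exact dirac_bind x _
  comp_id f := by
    apply KlHom.ext
    funext x
    exact bind_dirac _
  assoc f g h := by
    apply KlHom.ext
    funext x
    exact bind_bind _ _ _

/-- The functor `Φ : UMET → 𝒦`, `f ↦ δ ∘ f`. -/
noncomputable def Phi : UMet ⥤ Kl where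
  obj X := ⟨X⟩
  map f := ⟨fun x => dirac (f.toFun x), kNonExp_dirac f.nonexp⟩
  map_id X := rfl
  map_comp f g := by
    apply KlHom.ext
    funext x
    exact (dirac_bind (f.toFun x) (fun y => dirac (g.toFun y))).symm

/-- Change of weights by a monotone function fixing `±∞`. -/
def reweight {X : Type} (g : EReal → EReal) (hbot : g ⊥ = ⊥) (htop : g ⊤ = ⊤) (μ : J X) :
    J X where
  w x := g (μ.w x)
  fin := μ.fin.subset fun x hx h => hx (by rw [h, hbot])
  top := by
    obtain ⟨x, hx⟩ := μ.top
    exact ⟨x, by rw [hx, htop]⟩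

theorem exists_eq_iSup {Y : Type} (F : Y → EReal) (hF : {y | F y ≠ ⊥}.Finite) :
    (∀ y, F y = ⊥) ∨ ∃ y, F y = ⨆ y, F y := by
  by_cases h : {y | F y ≠ ⊥}.Nonempty
  · right
    obtain ⟨y, hy, hmax⟩ := Set.exists_max_image _ F hF h
    refine ⟨y, le_antisymm (le_iSup F y) (iSup_le fun z => ?_)⟩
    by_cases hz : F z = ⊥
    · rw [hz]; exact bot_le
    · exact hmax z hz
  · left
    intro y
    by_contra hy
    exact h ⟨y, hy⟩

theorem map_iSup_of_finite {Y : Type} (F : Y → EReal) (hF : {y | F y ≠ ⊥}.Finite)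
    {g : EReal → EReal} (hg : Monotone g) (hbot : g ⊥ = ⊥) : g (⨆ y, F y) = ⨆ y, g (F y) := by
  rcases exists_eq_iSup F hF with h | ⟨y, hy⟩
  · simp [h, hbot]
  · apply le_antisymm
    · rw [← hy]
      exact le_iSup (fun y => g (F y)) y
    · exact iSup_le fun z => hg (le_iSup F z)

section reweighting

variable {g : EReal → EReal} (hg : Monotone g) (hbot : g ⊥ = ⊥) (htop : g ⊤ = ⊤)

include hg in
theorem ballSup_reweight {X : Type} [MetricSpace X] (μ : J X) (r : ℝ) (y : X) :
    ballSup (reweight g hbot htop μ) r y = g (ballSup μ r y) := by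
  unfold ballSup
  rw [map_iSup_of_finite _ _ hg hbot]
  · refine iSup_congr fun z => ?_
    by_cases hz : dist y z < r
    · simp [hz, reweight]
    · simp [hz, hbot]
  · refine μ.fin.subset ?_
    intro z hz h
    apply hz
    simp [h]

include hg in
theorem kNonExp_reweight {X Y : Type} [MetricSpace X] [MetricSpace Y] [IsUltrametricDist Y]
    {f : X → J Y} (hf : KNonExp f) : KNonExp fun x => reweight g hbot htop (f x) := by
  rw [kNonExp_iff] at hf ⊢
  intro x x' r hr y
  rw [ballSup_reweight hg hbot htop, ballSup_reweight hg hbot htop, hf x x' r hr]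

theorem reweight_dirac {X : Type} (x : X) : reweight g hbot htop (dirac x) = dirac x := by
  ext y
  by_cases h : y = x
  · subst h
    change g ((dirac y).w y) = _
    rw [dirac_self, htop]
  · change g ((dirac x).w y) = _
    rw [dirac_ne h, hbot]

include hg in
theorem reweight_bind {X Y : Type} (μ : J X) (f : X → J Y) :
    reweight g hbot htop (bind μ f) =
      bind (reweight g hbot htop μ) fun x => reweight g hbot htop (f x) := by
  ext z
  change g (⨆ y, min (μ.w y) ((f y).w z)) = ⨆ y, min (g (μ.w y)) (g ((f y).w z))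
  rw [map_iSup_of_finite _ _ hg hbot]
  · refine iSup_congr fun y => ?_
    exact hg.map_min
  · refine μ.fin.subset ?_
    intro y hy h
    apply hy
    simp [h]

/-- The endofunctor of the Kleisli category given by a change of weights. -/
noncomputable def Theta : Kl ⥤ Kl where
  obj X := X
  map f := ⟨fun x => reweight g hbot htop (f.toFun x), kNonExp_reweight hg hbot htop f.nonexp⟩
  map_id X := by
    apply KlHom.ext
    funext x
    exact reweight_dirac hbot htop x
  map_comp f h := by
    apply KlHom.ext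
    funext x
    exact reweight_bind hg hbot htop _ _

theorem Phi_Theta : Phi ⋙ Theta hg hbot htop = Phi := by
  refine CategoryTheory.Functor.hext (fun X => rfl) (fun X Y f => heq_of_eq ?_)
  apply KlHom.ext
  funext x
  exact reweight_dirac hbot htop _

end reweighting

/-! ### Symmetric powers -/

/-- orbit equivalence relation on `X^n` -/
def permSetoid (n : ℕ) (X : Type) : Setoid (Fin n → X) where
  r x y := ∃ σ : Equiv.Perm (Fin n), x = y ∘ σ
  iseqv := by
    refine ⟨fun x => ⟨1, rfl⟩, ?_, ?_⟩
    · rintro x y ⟨σ, rfl⟩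
      refine ⟨σ⁻¹, ?_⟩
      funext i
      simp
    · rintro x y z ⟨σ, rfl⟩ ⟨τ, rfl⟩
      exact ⟨τ * σ, rfl⟩

/-- The symmetric power `X^n / S_n`. -/
def SPow (n : ℕ) (X : Type) : Type := Quotient (permSetoid n X)

/-- the orbit of a tuple -/
def SPow.mk {n : ℕ} {X : Type} (x : Fin n → X) : SPow n X := Quotient.mk (permSetoid n X) x

theorem SPow.mk_comp {n : ℕ} {X : Type} (x : Fin n → X) (σ : Equiv.Perm (Fin n)) :
    SPow.mk (x ∘ σ) = SPow.mk x := Quotient.sound ⟨σ, rfl⟩

theorem SPow.mk_eq {n : ℕ} {X : Type} {x y : Fin n → X} (h : SPow.mk x = SPow.mk y) :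
    ∃ σ : Equiv.Perm (Fin n), x = y ∘ σ := Quotient.exact h

/-- distance on tuples modulo permutations -/
noncomputable def tdist {n : ℕ} {X : Type} [MetricSpace X] (x y : Fin n → X) : ℝ :=
  ⨅ σ : Equiv.Perm (Fin n), dist x (y ∘ σ)

theorem dist_comp {n : ℕ} {X : Type} [MetricSpace X] (x y : Fin n → X)
    (σ : Equiv.Perm (Fin n)) : dist (x ∘ σ) (y ∘ σ) = dist x y := by
  apply le_antisymm
  · rw [dist_pi_le_iff dist_nonneg]
    intro i
    exact dist_le_pi_dist x y (σ i)
  · rw [dist_pi_le_iff dist_nonneg]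
    intro i
    have := dist_le_pi_dist (x ∘ σ) (y ∘ σ) (σ⁻¹ i)
    simpa using this

theorem exists_tdist {n : ℕ} {X : Type} [MetricSpace X] (x y : Fin n → X) :
    ∃ σ : Equiv.Perm (Fin n), dist x (y ∘ σ) = tdist x y :=
  exists_eq_ciInf_of_finite

theorem tdist_le {n : ℕ} {X : Type} [MetricSpace X] (x y : Fin n → X)
    (σ : Equiv.Perm (Fin n)) : tdist x y ≤ dist x (y ∘ σ) :=
  ciInf_le (Set.finite_range _).bddBelow σ

theorem tdist_comp_right {n : ℕ} {X : Type} [MetricSpace X] (x y : Fin n → X)
    (σ : Equiv.Perm (Fin n)) : tdist x (y ∘ σ) = tdist x y := by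
  apply le_antisymm
  · obtain ⟨τ, hτ⟩ := exists_tdist x y
    rw [← hτ]
    refine (tdist_le x (y ∘ σ) (σ⁻¹ * τ)).trans (le_of_eq ?_)
    congr 1
    funext i
    simp
  · obtain ⟨τ, hτ⟩ := exists_tdist x (y ∘ σ)
    rw [← hτ]
    exact tdist_le x y (σ * τ)

theorem tdist_comm {n : ℕ} {X : Type} [MetricSpace X] (x y : Fin n → X) :
    tdist x y = tdist y x := by
  have key : ∀ x y : Fin n → X, tdist x y ≤ tdist y x := by
    intro x y
    obtain ⟨τ, hτ⟩ := exists_tdist y x
    rw [← hτ, ← dist_comp y (x ∘ τ) τ⁻¹, dist_comm]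
    have : (x ∘ τ) ∘ (τ⁻¹ : Equiv.Perm (Fin n)) = x := by
      funext i; simp
    rw [this]
    exact tdist_le x y _
  exact le_antisymm (key x y) (key y x)

theorem tdist_comp_left {n : ℕ} {X : Type} [MetricSpace X] (x y : Fin n → X)
    (σ : Equiv.Perm (Fin n)) : tdist (x ∘ σ) y = tdist x y := by
  rw [tdist_comm, tdist_comp_right, tdist_comm]

theorem dist_pi_max {n : ℕ} {X : Type} [MetricSpace X] [IsUltrametricDist X]
    (x y z : Fin n → X) : dist x z ≤ max (dist x y) (dist y z) := by
  rw [dist_pi_le_iff (le_max_of_le_left dist_nonneg)]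
  intro i
  exact (dist_triangle_max (x i) (y i) (z i)).trans
    (max_le_max (dist_le_pi_dist x y i) (dist_le_pi_dist y z i))

theorem tdist_max {n : ℕ} {X : Type} [MetricSpace X] [IsUltrametricDist X]
    (x y z : Fin n → X) : tdist x z ≤ max (tdist x y) (tdist y z) := by
  obtain ⟨σ, hσ⟩ := exists_tdist x y
  obtain ⟨τ, hτ⟩ := exists_tdist y z
  rw [← hσ, ← hτ, ← dist_comp y (z ∘ τ) σ]
  exact (tdist_le x z (τ * σ)).trans (dist_pi_max x (y ∘ σ) ((z ∘ τ) ∘ σ))

/-- The metric `d̃` on the symmetric power. -/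
noncomputable instance {n : ℕ} {X : Type} [MetricSpace X] [IsUltrametricDist X] :
    MetricSpace (SPow n X) where
  dist p q := Quotient.liftOn₂ p q (fun x y => tdist x y) (by
    rintro x y x' y' ⟨σ, rfl⟩ ⟨τ, rfl⟩
    rw [tdist_comp_left, tdist_comp_right])
  dist_self p := by
    induction p using Quotient.inductionOn with
    | h x =>
      change tdist x x = 0
      apply le_antisymm
      · refine (tdist_le x x 1).trans (le_of_eq ?_)
        simp
      · exact Real.iInf_nonneg fun σ => dist_nonneg
  dist_comm p q := by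
    induction p using Quotient.inductionOn with
    | h x =>
      induction q using Quotient.inductionOn with
      | h y => exact tdist_comm x y
  dist_triangle p q r := by
    induction p using Quotient.inductionOn with
    | h x =>
      induction q using Quotient.inductionOn with
      | h y =>
        induction r using Quotient.inductionOn with
        | h z =>
          change tdist x z ≤ tdist x y + tdist y z
          have h0 : ∀ u v : Fin n → X, 0 ≤ tdist u v := fun u v =>
            Real.iInf_nonneg fun σ => dist_nonneg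
          refine (tdist_max x y z).trans (max_le ?_ ?_)
          · linarith [h0 y z]
          · linarith [h0 x y]
  eq_of_dist_eq_zero {p q} h := by
    induction p using Quotient.inductionOn with
    | h x =>
      induction q using Quotient.inductionOn with
      | h y =>
        change tdist x y = 0 at h
        obtain ⟨σ, hσ⟩ := exists_tdist x y
        rw [h, dist_eq_zero] at hσ
        exact Quotient.sound ⟨σ, hσ⟩

theorem SPow.dist_mk {n : ℕ} {X : Type} [MetricSpace X] [IsUltrametricDist X]
    (x y : Fin n → X) : dist (SPow.mk x) (SPow.mk y) = tdist x y := rfl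

instance {n : ℕ} {X : Type} [MetricSpace X] [IsUltrametricDist X] :
    IsUltrametricDist (SPow n X) where
  dist_triangle_max p q r := by
    induction p using Quotient.inductionOn with
    | h x =>
      induction q using Quotient.inductionOn with
      | h y =>
        induction r using Quotient.inductionOn with
        | h z => exact tdist_max x y z

/-- action of a map on the symmetric power -/
def SPow.map {n : ℕ} {X Y : Type} (f : X → Y) (p : SPow n X) : SPow n Y :=
  Quotient.map (fun x : Fin n → X => f ∘ x) (by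
    rintro x y ⟨σ, rfl⟩
    exact ⟨σ, rfl⟩) p

/-- The functor `SP^n` on ultrametric spaces. -/
noncomputable def SP (n : ℕ) : UMet ⥤ UMet where
  obj X := ⟨SPow n X.carrier⟩
  map {X Y} f := ⟨SPow.map f.toFun, by
    intro p q
    induction p using Quotient.inductionOn with
    | h x =>
      induction q using Quotient.inductionOn with
      | h y =>
        change tdist (f.toFun ∘ x) (f.toFun ∘ y) ≤ tdist x y
        obtain ⟨σ, hσ⟩ := exists_tdist x y
        rw [← hσ]
        refine (tdist_le _ _ σ).trans ?_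
        rw [dist_pi_le_iff dist_nonneg]
        intro i
        exact (f.nonexp _ _).trans (dist_le_pi_dist x (y ∘ σ) i)⟩
  map_id X := by
    apply NonExp.ext
    funext p
    induction p using Quotient.inductionOn with
    | h x => rfl
  map_comp f g := by
    apply NonExp.ext
    funext p
    induction p using Quotient.inductionOn with
    | h x => rfl

/-- `F̄ : 𝒦 → 𝒦` extends `F : UMET → UMET` if `F̄ ∘ Φ = Φ ∘ F`. -/
def Extends (F : UMet ⥤ UMet) (Fbar : Kl ⥤ Kl) : Prop := Phi ⋙ Fbar = F ⋙ Phi

/-! ### Non-uniqueness -/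

/-- two point set -/
inductive Two | zero | one
deriving DecidableEq

/-- discrete metric -/
noncomputable instance : MetricSpace Two where
  dist a b := if a = b then 0 else 1
  dist_self a := by simp
  dist_comm a b := by simp [eq_comm]
  dist_triangle a b c := by
    by_cases h1 : a = b <;> by_cases h2 : b = c <;> by_cases h3 : a = c <;>
      simp_all
  eq_of_dist_eq_zero {a b} h := by
    by_contra hne
    simp [hne] at h

instance : IsUltrametricDist Two where
  dist_triangle_max a b c := by
    change (if a = c then (0 : ℝ) else 1) ≤ max (if a = b then 0 else 1) (if b = c then 0 else 1)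
    by_cases h1 : a = b <;> by_cases h2 : b = c <;> by_cases h3 : a = c <;> simp_all

instance : IsUltrametricDist Unit where
  dist_triangle_max a b c := by simp

/-- The one point space. -/
def ptSpace : UMet := ⟨Unit⟩

/-- The two point space. -/
noncomputable def twoSpace : UMet := ⟨Two⟩

/-- The measure on the two point space with weights `+∞` at `a` and `c` at the other point. -/
noncomputable def twoMeasure (a : Two) (c : EReal) : J Two where
  w b := if b = a then ⊤ else c
  fin := by
    have : Finite Two := Finite.of_injective (fun t : Two => if t = Two.zero then true else false)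
      (by
        intro s t h
        cases s <;> cases t <;> simp_all)
    exact Set.toFinite _
  top := ⟨a, by simp⟩

/-- The corresponding morphism from the point. -/
noncomputable def twoHom (a : Two) (c : EReal) : (⟨ptSpace⟩ : Kl) ⟶ ⟨twoSpace⟩ :=
  (⟨fun _ => twoMeasure a c, fun x x' => by
    rw [dhat_le_iff dist_nonneg]
    intro r _ φ _
    rfl⟩ : KlHom _ _)

/-- inclusion of a point -/
def inclHom (a : Two) : ptSpace ⟶ twoSpace :=
  (⟨fun _ => a, fun x y => by
    change dist a a ≤ _
    rw [dist_self]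
    exact dist_nonneg⟩ : NonExp _ _)

open Classical in
/-- support weights -/
noncomputable def gsupp (t : EReal) : EReal := if t = ⊥ then ⊥ else ⊤

open Classical in
/-- threshold weights -/
noncomputable def gthr (t : EReal) : EReal := if t < 1 then ⊥ else ⊤

theorem gsupp_mono : Monotone gsupp := by
  intro s t h
  unfold gsupp
  by_cases hs : s = ⊥
  · simp [hs]
  · have ht : t ≠ ⊥ := by
      rintro rfl
      exact hs (le_bot_iff.1 h)
    simp [hs, ht]

theorem gthr_mono : Monotone gthr := by
  intro s t h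
  unfold gthr
  by_cases hs : s < 1
  · simp [hs]
  · have ht : ¬ t < 1 := fun h' => hs (lt_of_le_of_lt h h')
    simp [hs, ht]

theorem gsupp_bot : gsupp ⊥ = ⊥ := by simp [gsupp]
theorem gsupp_top : gsupp ⊤ = ⊤ := by simp [gsupp]
theorem gthr_bot : gthr ⊥ = ⊥ := by
  unfold gthr
  rw [if_pos]
  exact EReal.bot_lt_coe 1
theorem gthr_top : gthr ⊤ = ⊤ := by
  unfold gthr
  rw [if_neg]
  exact not_lt.2 le_top

/-- Every extension of `SP^n`, `n ≥ 1`, can be changed to a different one. -/
theorem exists_other {n : ℕ} (hn : 1 ≤ n) (F : Kl ⥤ Kl) (hF : Extends (SP n) F) :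
    ∃ F' : Kl ⥤ Kl, Extends (SP n) F' ∧ F' ≠ F := by
  set T₁ := Theta gsupp_mono gsupp_bot gsupp_top with hT₁
  set T₂ := Theta gthr_mono gthr_bot gthr_top with hT₂
  have hE : ∀ T : Kl ⥤ Kl, Phi ⋙ T = Phi → Extends (SP n) (T ⋙ F) := by
    intro T hT
    unfold Extends
    rw [← CategoryTheory.Functor.assoc, hT]
    exact hF
  by_contra hcon
  push Not at hcon
  have h1 : T₁ ⋙ F = F := hcon _ (hE _ (Phi_Theta _ _ _))
  have h2 : T₂ ⋙ F = F := hcon _ (hE _ (Phi_Theta _ _ _))
  -- the two computations
  have e1 : ∀ a, T₁.map (twoHom a 0) = twoHom a ⊤ := by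
    intro a
    apply KlHom.ext
    funext x
    refine J.ext (funext fun (b : Two) => ?_)
    change gsupp (if b = a then ⊤ else 0) = (if b = a then ⊤ else ⊤)
    by_cases h : b = a
    · simp [h, gsupp_top]
    · simp [h, gsupp]
  have e2 : ∀ a, T₂.map (twoHom a 0) = Phi.map (inclHom a) := by
    intro a
    apply KlHom.ext
    funext x
    refine J.ext (funext fun (b : Two) => ?_)
    change gthr (if b = a then ⊤ else 0) = (dirac a).w b
    by_cases h : b = a
    · subst h
      rw [dirac_self, if_pos rfl, gthr_top]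
    · rw [dirac_ne h, if_neg h]
      unfold gthr
      rw [if_pos]
      exact_mod_cast one_pos
  have e3 : ∀ a b, twoHom a ⊤ = twoHom b ⊤ := by
    intro a b
    apply KlHom.ext
    funext x
    refine J.ext (funext fun (c : Two) => ?_)
    change (if c = a then (⊤ : EReal) else ⊤) = (if c = b then ⊤ else ⊤)
    simp
  have e4 : ∀ a, F.map (Phi.map (inclHom a)) ≍ F.map (twoHom a ⊤) := by
    intro a
    have h3 : (T₁ ⋙ F).map (twoHom a 0) ≍ (T₂ ⋙ F).map (twoHom a 0) := by
      rw [h1, h2]
    change F.map (T₁.map (twoHom a 0)) ≍ F.map (T₂.map (twoHom a 0)) at h3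
    rw [e1, e2] at h3
    exact h3.symm
  have e5 : F.map (Phi.map (inclHom Two.zero)) = F.map (Phi.map (inclHom Two.one)) := by
    apply eq_of_heq
    refine (e4 _).trans ?_
    rw [e3 Two.zero Two.one]
    exact (e4 _).symm
  have e6 : (SP n ⋙ Phi).map (inclHom Two.zero) = (SP n ⋙ Phi).map (inclHom Two.one) := by
    have hF' : Phi ⋙ F = SP n ⋙ Phi := hF
    rw [← hF']
    exact e5
  have e7 := congrFun (congrArg KlHom.toFun e6) (SPow.mk fun _ => ())
  have e8 : dirac (SPow.mk fun _ : Fin n => Two.zero) = dirac (SPow.mk fun _ => Two.one) := e7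
  have e9 : (SPow.mk fun _ : Fin n => Two.zero) = (SPow.mk fun _ => Two.one) := by
    by_contra hne
    have h3 := congrFun (congrArg J.w e8) (SPow.mk fun _ : Fin n => Two.zero)
    rw [dirac_self, dirac_ne hne] at h3
    exact absurd h3 top_ne_bot
  obtain ⟨σ, hσ⟩ := SPow.mk_eq e9
  have := congrFun hσ ⟨0, hn⟩
  simp at this

/-! ### Existence of an extension -/

theorem exists_ballSup {Y : Type} [MetricSpace Y] (μ : J Y) {r : ℝ} (hr : 0 < r) (y : Y) :
    ∃ u, dist y u < r ∧ μ.w u = ballSup μ r y := by
  have hyy : dist y y < r := by simpa using hr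
  have hle : μ.w y ≤ ballSup μ r y := le_iSup₂_of_le y hyy le_rfl
  by_cases hb : ballSup μ r y = ⊥
  · refine ⟨y, hyy, ?_⟩
    rw [hb] at hle ⊢
    exact le_bot_iff.1 hle
  · rcases exists_eq_iSup (fun z => ⨆ _ : dist y z < r, μ.w z) (by
      refine μ.fin.subset ?_
      intro z hz h
      apply hz
      simp [h]) with h | ⟨u, hu⟩
    · exfalso
      apply hb
      unfold ballSup
      rw [iSup_eq_bot]
      exact h
    · by_cases hur : dist y u < r
      · refine ⟨u, hur, ?_⟩
        unfold ballSup
        rw [← hu]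
        simp [hur]
      · exfalso
        apply hb
        unfold ballSup
        rw [← hu]
        simp [hur]

/-- product measure pushed to the symmetric power -/
noncomputable def spBind {n : ℕ} {X Y : Type} (f : X → J Y) (x : Fin n → X) : J (SPow n Y) where
  w p := ⨆ y : {y : Fin n → Y // SPow.mk y = p}, ⨅ i, (f (x i)).w (y.1 i)
  fin := by
    have hfin : (Set.univ.pi fun i => {y | (f (x i)).w y ≠ ⊥}).Finite :=
      Set.Finite.pi fun i => (f (x i)).fin
    refine (hfin.image SPow.mk).subset ?_
    intro p hp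
    by_contra hcon
    apply hp
    rw [iSup_eq_bot]
    rintro ⟨y, hy⟩
    by_contra hne
    apply hcon
    refine ⟨y, ?_, hy⟩
    intro i _ h
    apply hne
    apply le_bot_iff.1
    exact (iInf_le _ i).trans (le_of_eq h)
  top := by
    choose y hy using fun i => (f (x i)).top
    refine ⟨SPow.mk y, top_unique ?_⟩
    refine le_iSup_of_le ⟨y, rfl⟩ ?_
    simp [hy]

theorem spBind_comp {n : ℕ} {X Y : Type} (f : X → J Y) (x : Fin n → X)
    (σ : Equiv.Perm (Fin n)) : spBind f (x ∘ σ) = spBind f x := by
  have key : ∀ (x : Fin n → X) (σ : Equiv.Perm (Fin n)) p,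
      (spBind f (x ∘ σ)).w p ≤ (spBind f x).w p := by
    intro x σ p
    apply iSup_le
    rintro ⟨y, hy⟩
    refine le_iSup_of_le ⟨y ∘ (σ⁻¹ : Equiv.Perm (Fin n)), by rw [SPow.mk_comp]; exact hy⟩ ?_
    apply le_iInf
    intro i
    refine (iInf_le _ (σ⁻¹ i)).trans (le_of_eq ?_)
    simp
  ext p
  refine le_antisymm (key x σ p) ?_
  have := key (x ∘ σ) σ⁻¹ p
  have h : (x ∘ σ) ∘ (σ⁻¹ : Equiv.Perm (Fin n)) = x := by
    funext i
    simp
  rwa [h] at this

/-- on orbits -/
noncomputable def spLift {n : ℕ} {X Y : Type} (f : X → J Y) (p : SPow n X) : J (SPow n Y) :=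
  Quotient.lift (fun x => spBind f x) (by
    rintro x y ⟨σ, rfl⟩
    exact spBind_comp f y σ) p

theorem ballSup_spBind {n : ℕ} {X Y : Type} [MetricSpace Y] [IsUltrametricDist Y] (f : X → J Y)
    (x : Fin n → X) {r : ℝ} (hr : 0 < r) (z : Fin n → Y) :
    ballSup (spBind f x) r (SPow.mk z) =
      ⨆ σ : Equiv.Perm (Fin n), ⨅ i, ballSup (f (x i)) r (z (σ i)) := by
  apply le_antisymm
  · apply iSup₂_le
    intro q hq
    apply iSup_le
    rintro ⟨y, rfl⟩
    rw [SPow.dist_mk] at hq
    obtain ⟨σ, hσ⟩ := exists_tdist z y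
    rw [← hσ, dist_pi_lt_iff hr] at hq
    refine le_iSup_of_le σ⁻¹ (le_iInf fun i => (iInf_le _ i).trans ?_)
    refine le_iSup₂_of_le (y i) ?_ le_rfl
    have := hq (σ⁻¹ i)
    simpa using this
  · apply iSup_le
    intro σ
    choose y hy1 hy2 using fun i => exists_ballSup (f (x i)) hr (z (σ i))
    refine le_iSup₂_of_le (SPow.mk y) ?_ ?_
    · rw [SPow.dist_mk]
      refine lt_of_le_of_lt (tdist_le z y σ⁻¹) ?_
      rw [dist_pi_lt_iff hr]
      intro i
      have := hy1 (σ⁻¹ i)
      simpa using this
    · refine le_iSup_of_le ⟨y, rfl⟩ ?_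
      exact le_iInf fun i => (iInf_le _ i).trans (le_of_eq (hy2 i).symm)

theorem kNonExp_spLift {n : ℕ} {X Y : Type} [MetricSpace X] [MetricSpace Y]
    [IsUltrametricDist X] [IsUltrametricDist Y] {f : X → J Y} (hf : KNonExp f) :
    KNonExp (fun p : SPow n X => spLift f p) := by
  rw [kNonExp_iff] at hf ⊢
  intro p p' r hr q
  have hr0 : 0 < r := lt_of_le_of_lt dist_nonneg hr
  induction p using Quotient.inductionOn with
  | h x =>
    induction p' using Quotient.inductionOn with
    | h x' =>
      induction q using Quotient.inductionOn with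
      | h z =>
        change tdist x x' < r at hr
        obtain ⟨σ, hσ⟩ := exists_tdist x x'
        rw [← hσ, dist_pi_lt_iff hr0] at hr
        change ballSup (spBind f x) r (SPow.mk z) = ballSup (spBind f x') r (SPow.mk z)
        rw [← spBind_comp f x' σ, ballSup_spBind f _ hr0, ballSup_spBind f _ hr0]
        refine iSup_congr fun τ => iInf_congr fun i => ?_
        exact hf _ _ r (hr i) _

theorem spBind_dirac {n : ℕ} {X Y : Type} (h : X → Y) (x : Fin n → X) :
    spBind (fun x => dirac (h x)) x = dirac (SPow.mk (h ∘ x)) := by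
  ext p
  by_cases hp : p = SPow.mk (h ∘ x)
  · subst hp
    rw [dirac_self]
    apply top_unique
    refine le_iSup_of_le ⟨h ∘ x, rfl⟩ ?_
    simp [dirac_self]
  · rw [dirac_ne hp]
    apply le_bot_iff.1
    apply iSup_le
    rintro ⟨y, hy⟩
    have hne : y ≠ h ∘ x := by
      rintro rfl
      exact hp hy.symm
    obtain ⟨i, hi⟩ := Function.ne_iff.1 hne
    refine (iInf_le _ i).trans ?_
    change (dirac ((h ∘ x) i)).w (y i) ≤ ⊥
    rw [dirac_ne hi]

theorem exists_max_bind {Y : Type} (μ : J Y) (g : Y → EReal) :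
    ∃ y, min (μ.w y) (g y) = ⨆ y, min (μ.w y) (g y) := by
  rcases exists_eq_iSup (fun y => min (μ.w y) (g y)) (by
    refine μ.fin.subset ?_
    intro y hy h
    apply hy
    simp [h]) with h | h
  · obtain ⟨y, -⟩ := μ.top
    refine ⟨y, ?_⟩
    simp only [h]
    simp
  · exact h

theorem spBind_bind {n : ℕ} {X Y Z : Type} (f : X → J Y) (g : Y → J Z) (x : Fin n → X) :
    spBind (fun x => bind (f x) g) x = bind (spBind f x) fun q => spLift g q := by
  ext p
  apply le_antisymm
  · apply iSup_le
    rintro ⟨z, rfl⟩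
    choose y hy using fun i => exists_max_bind (f (x i)) (fun y => (g y).w (z i))
    refine le_iSup_of_le (SPow.mk y) (le_min ?_ ?_)
    · refine le_iSup_of_le ⟨y, rfl⟩ (le_iInf fun i => (iInf_le _ i).trans ?_)
      change (⨆ y, min ((f (x i)).w y) ((g y).w (z i))) ≤ _
      rw [← hy i]
      exact min_le_left _ _
    · change _ ≤ (spBind g y).w (SPow.mk z)
      refine le_iSup_of_le ⟨z, rfl⟩ (le_iInf fun i => (iInf_le _ i).trans ?_)
      change (⨆ y, min ((f (x i)).w y) ((g y).w (z i))) ≤ _
      rw [← hy i]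
      exact min_le_right _ _
  · apply iSup_le
    intro q
    change (⨆ y : {y : Fin n → Y // SPow.mk y = q}, ⨅ i, (f (x i)).w (y.1 i)) ⊓
      (spLift g q).w p ≤ _
    rw [iSup_inf_eq]
    apply iSup_le
    rintro ⟨y, rfl⟩
    change (⨅ i, (f (x i)).w (y i)) ⊓ (⨆ z : {z : Fin n → Z // SPow.mk z = p},
      ⨅ i, (g (y i)).w (z.1 i)) ≤ _
    rw [inf_iSup_eq]
    apply iSup_le
    rintro ⟨z, hz⟩
    refine le_iSup_of_le ⟨z, hz⟩ (le_iInf fun i => ?_)
    refine le_iSup_of_le (y i) (le_min ?_ ?_)
    · exact inf_le_left.trans (iInf_le _ i)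
    · exact inf_le_right.trans (iInf_le _ i)

/-- The standard extension of `SP^n`. -/
noncomputable def SPbar (n : ℕ) : Kl ⥤ Kl where
  obj X := ⟨(SP n).obj X.of⟩
  map f := ⟨fun p => spLift f.toFun p, kNonExp_spLift f.nonexp⟩
  map_id X := by
    apply KlHom.ext
    funext p
    induction p using Quotient.inductionOn with
    | h x => exact spBind_dirac (fun x => x) x
  map_comp f g := by
    apply KlHom.ext
    funext p
    induction p using Quotient.inductionOn with
    | h x => exact spBind_bind f.toFun g.toFun x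

theorem extends_SPbar (n : ℕ) : Extends (SP n) (SPbar n) := by
  refine CategoryTheory.Functor.hext (fun X => rfl) (fun X Y f => heq_of_eq ?_)
  apply KlHom.ext
  funext p
  induction p using Quotient.inductionOn with
  | h x => exact spBind_dirac f.toFun x

/-! ### Measures as functionals -/

theorem eval_real {X : Type} (μ : J X) (φ : X → ℝ) : ∃ t : ℝ, eval μ φ = t := by
  rcases exists_eq_iSup (fun x => min (μ.w x) (φ x : EReal)) (by
    refine μ.fin.subset ?_
    intro y hy h
    apply hy
    simp [h]) with h | ⟨y, hy⟩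
  · exfalso
    obtain ⟨x, hx⟩ := μ.top
    have := h x
    rw [hx] at this
    simp at this
  · obtain ⟨x, hx⟩ := μ.top
    have h1 : (φ x : EReal) ≤ eval μ φ := by
      refine le_iSup_of_le x ?_
      rw [hx]
      simp
    have h2 : eval μ φ ≤ φ y := by
      unfold eval
      rw [← hy]
      exact min_le_right _ _
    refine ⟨(eval μ φ).toReal, (EReal.coe_toReal ?_ ?_).symm⟩
    · intro h
      rw [h] at h2
      exact absurd (top_le_iff.1 h2) (EReal.coe_ne_top _)
    · intro h
      rw [h] at h1
      exact absurd (le_bot_iff.1 h1) (EReal.coe_ne_bot _)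

/-- The functional on `C(X)` of a measure. -/
noncomputable def functional {X : Type} [TopologicalSpace X] (μ : J X) : C(X, ℝ) → ℝ :=
  fun φ => (eval μ φ).toReal

theorem coe_functional {X : Type} [TopologicalSpace X] (μ : J X) (φ : C(X, ℝ)) :
    ((functional μ φ : ℝ) : EReal) = eval μ φ := by
  obtain ⟨t, ht⟩ := eval_real μ φ
  unfold functional
  rw [ht, EReal.toReal_coe]

theorem w_le_of_eval {X : Type} [MetricSpace X] {μ ν : J X}
    (h : ∀ φ : C(X, ℝ), eval μ φ ≤ eval ν φ) (x : X) : μ.w x ≤ ν.w x := by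
  by_contra hlt
  rw [not_le] at hlt
  obtain ⟨t, ht1, ht2⟩ := EReal.lt_iff_exists_real_btwn.1 hlt
  -- a lower bound for the distances from `x` to the other points of the support
  obtain ⟨ε, hε, hε'⟩ : ∃ ε : ℝ, 0 < ε ∧ ∀ y, ν.w y ≠ ⊥ → y ≠ x → ε ≤ dist x y := by
    have hfin : ({y | ν.w y ≠ ⊥} \ {x}).Finite := ν.fin.subset sdiff_subset
    rcases (({y | ν.w y ≠ ⊥} \ {x}) : Set X).eq_empty_or_nonempty with he | hne
    · refine ⟨1, one_pos, fun y hy hyx => ?_⟩
      have : y ∈ (∅ : Set X) := by
        rw [← he]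
        exact ⟨hy, hyx⟩
      exact absurd this (notMem_empty y)
    · obtain ⟨y, hy, hmin⟩ := Set.exists_min_image _ (fun y => dist x y) hfin hne
      refine ⟨dist x y, dist_pos.2 (fun h => hy.2 h.symm), fun z hz hzx => hmin z ⟨hz, hzx⟩⟩
  let φ : C(X, ℝ) := ⟨fun y => t - dist x y / ε, by fun_prop⟩
  have h1 : (t : EReal) ≤ eval μ φ := by
    refine le_iSup_of_le x (le_min ht2.le ?_)
    have : φ x = t := by
      change t - dist x x / ε = t
      simp
    rw [this]
  have h2 : eval ν φ ≤ max (ν.w x) ((t - 1 : ℝ) : EReal) := by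
    apply iSup_le
    intro y
    by_cases hyx : y = x
    · subst hyx
      exact (min_le_left _ _).trans (le_max_left _ _)
    · by_cases hy : ν.w y = ⊥
      · rw [hy]
        exact (min_le_left _ _).trans bot_le
      · refine (min_le_right _ _).trans (le_max_of_le_right ?_)
        have h3 : (1 : ℝ) ≤ dist x y / ε := by
          rw [le_div_iff₀ hε]
          simpa using hε' y hy hyx
        have h4 : φ y ≤ t - 1 := by
          change t - dist x y / ε ≤ t - 1
          linarith
        exact_mod_cast h4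
  have h3 : max (ν.w x) ((t - 1 : ℝ) : EReal) < t := max_lt ht1 (by exact_mod_cast sub_one_lt t)
  exact absurd ((h1.trans (h φ)).trans h2) (not_le.2 h3)

theorem functional_injective {X : Type} [MetricSpace X] :
    Function.Injective (functional : J X → C(X, ℝ) → ℝ) := by
  intro μ ν h
  have h1 : ∀ φ : C(X, ℝ), eval μ φ = eval ν φ := by
    intro φ
    rw [← coe_functional, ← coe_functional, h]
  ext x
  exact le_antisymm (w_le_of_eval (fun φ => (h1 φ).le) x) (w_le_of_eval (fun φ => (h1 φ).ge) x)

theorem range_functional {X : Type} [MetricSpace X] :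
    range (functional : J X → C(X, ℝ) → ℝ) = functionals X := by
  classical
  apply Subset.antisymm
  · rintro _ ⟨μ, rfl⟩
    have hfin := μ.fin
    let e := hfin.toFinset.equivFin.symm
    obtain ⟨x₀, hx₀⟩ := μ.top
    refine ⟨_, fun i => μ.w (e i).1, fun i => (e i).1, ?_, ?_⟩
    · have hmem : x₀ ∈ hfin.toFinset := by
        rw [hfin.mem_toFinset]
        change μ.w x₀ ≠ ⊥
        rw [hx₀]
        exact top_ne_bot
      refine ⟨e.symm ⟨x₀, hmem⟩, ?_⟩
      change μ.w (e (e.symm ⟨x₀, hmem⟩)).1 = ⊤
      rw [Equiv.apply_symm_apply]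
      exact hx₀
    · intro φ
      rw [coe_functional]
      apply le_antisymm
      · apply iSup_le
        intro x
        by_cases hx : μ.w x = ⊥
        · rw [hx]
          exact (min_le_left _ _).trans bot_le
        · have hmem : x ∈ hfin.toFinset := by
            rw [hfin.mem_toFinset]
            exact hx
          refine le_iSup_of_le (e.symm ⟨x, hmem⟩) ?_
          change _ ≤ min (μ.w (e (e.symm ⟨x, hmem⟩)).1) (φ (e (e.symm ⟨x, hmem⟩)).1 : EReal)
          rw [Equiv.apply_symm_apply]
      · apply iSup_le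
        intro i
        exact le_iSup_of_le (e i).1 le_rfl
  · rintro μ ⟨k, α, x, ⟨i₀, hi₀⟩, hμ⟩
    let ν : J X :=
      { w := fun y => ⨆ i, ⨆ _ : x i = y, α i
        fin := by
          refine (Set.finite_range x).subset ?_
          intro y hy
          by_contra hcon
          apply hy
          rw [iSup_eq_bot]
          intro i
          rw [iSup_eq_bot]
          intro h
          exact absurd ⟨i, h⟩ hcon
        top := ⟨x i₀, top_unique (le_iSup₂_of_le i₀ rfl (by rw [hi₀]))⟩ }
    refine ⟨ν, ?_⟩
    funext φ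
    have : ((functional ν φ : ℝ) : EReal) = μ φ := by
      rw [coe_functional, hμ]
      apply le_antisymm
      · apply iSup_le
        intro y
        change (⨆ i, ⨆ _ : x i = y, α i) ⊓ _ ≤ _
        rw [iSup_inf_eq]
        apply iSup_le
        intro i
        rw [iSup_inf_eq]
        apply iSup_le
        intro h
        subst h
        exact le_iSup_of_le i le_rfl
      · apply iSup_le
        intro i
        refine le_iSup_of_le (x i) (min_le_min ?_ le_rfl)
        exact le_iSup₂_of_le i rfl le_rfl
    exact_mod_cast this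

end Pool.Agent.V11216.MaxMin
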