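import Mathlib

/-!
# Positive radius closed balls in ultrametric spaces and the Hausdorff distance
-/

namespace Pool.Agent.V11216.UltraBalls

open Set Metric

/-- The set of closed balls of positive radius. -/
abbrev Ball0 (X : Type*) [MetricSpace X] : Type _ :=
  {B : Set X // ∃ c : X, ∃ r : ℝ, 0 < r ∧ B = closedBall c r}

/-- The spaces of positive-radius closed balls, with the Hausdorff distance, are isometric. -/
def BallIsometric (X Y : Type*) [MetricSpace X] [MetricSpace Y] : Prop :=
  ∃ h : Ball0 X ≃ Ball0 Y, ∀ A B : Ball0 X,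
    hausdorffDist (h A).1 (h B).1 = hausdorffDist A.1 B.1

section basic

variable {X : Type*} [MetricSpace X] [IsUltrametricDist X]

omit [IsUltrametricDist X] in
theorem Ball0.nonempty (B : Ball0 X) : B.1.Nonempty := by
  obtain ⟨B, c, r, hr, rfl⟩ := B
  exact ⟨c, mem_closedBall_self hr.le⟩

omit [IsUltrametricDist X] in
theorem Ball0.bounded (B : Ball0 X) : Bornology.IsBounded B.1 := by
  obtain ⟨B, c, r, hr, rfl⟩ := B
  exact isBounded_closedBall

theorem Ball0.eq_closedBall (B : Ball0 X) {c : X} (hc : c ∈ B.1) :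
    B.1 = closedBall c (diam B.1) := by
  have hbd := B.bounded
  obtain ⟨B, c₀, r, hr, rfl⟩ := B
  have hc : c ∈ closedBall c₀ r := hc
  change closedBall c₀ r = closedBall c (diam (closedBall c₀ r))
  apply Subset.antisymm
  · intro x hx
    exact dist_le_diam_of_mem hbd hx hc
  · intro x hx
    have h1 : diam (closedBall c₀ r) ≤ r := by
      apply diam_le_of_forall_dist_le hr.le
      intro x hx y hy
      refine (dist_triangle_max x c₀ y).trans (max_le hx ?_)
      rw [dist_comm]
      exact hy
    refine (dist_triangle_max x c c₀).trans (max_le (le_trans hx h1) hc)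

/-- the ball with given center and radius -/
def mkBall (c : X) (r : ℝ) (hr : 0 < r) : Ball0 X := ⟨closedBall c r, c, r, hr, rfl⟩

theorem trichotomy (A B : Ball0 X) : A.1 ⊆ B.1 ∨ B.1 ⊆ A.1 ∨ Disjoint A.1 B.1 := by
  obtain ⟨A, c, r, hr, rfl⟩ := A
  obtain ⟨B, c', r', hr', rfl⟩ := B
  exact IsUltrametricDist.closedBall_subset_trichotomy c c' r r'

/-- points outside a ball have constant distance to the points of the ball -/
theorem dist_const (A : Ball0 X) {a a' b : X} (ha : a ∈ A.1) (ha' : a' ∈ A.1) (hb : b ∉ A.1) :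
    dist a' b = dist a b ∧ diam A.1 < dist a b := by
  have key : ∀ {a : X}, a ∈ A.1 → diam A.1 < dist a b := by
    intro a ha
    by_contra hlt
    rw [not_lt] at hlt
    apply hb
    rw [A.eq_closedBall ha, mem_closedBall, dist_comm]
    exact hlt
  have h1 : dist a a' ≤ diam A.1 := dist_le_diam_of_mem A.bounded ha ha'
  refine ⟨?_, key ha⟩
  apply le_antisymm
  · refine (dist_triangle_max a' a b).trans (max_le ?_ le_rfl)
    rw [dist_comm]
    exact (h1.trans (key ha).le)
  · refine (dist_triangle_max a a' b).trans (max_le ?_ le_rfl)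
    exact (h1.trans (key ha').le)

theorem dH_disjoint {A B : Ball0 X} (h : Disjoint A.1 B.1) {a b : X} (ha : a ∈ A.1)
    (hb : b ∈ B.1) : hausdorffDist A.1 B.1 = dist a b := by
  have hconst : ∀ a' ∈ A.1, ∀ b' ∈ B.1, dist a' b' = dist a b := by
    intro a' ha' b' hb'
    have h1 := (dist_const A ha ha' (fun h' => Set.disjoint_left.1 h h' hb')).1
    have h2 := (dist_const B hb hb' (fun h' => Set.disjoint_left.1 h ha h')).1
    rw [h1, dist_comm a b', h2, dist_comm]
  have hfin : hausdorffEDist A.1 B.1 ≠ ⊤ :=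
    hausdorffEDist_ne_top_of_nonempty_of_bounded ⟨a, ha⟩ ⟨b, hb⟩ A.bounded B.bounded
  apply le_antisymm
  · apply hausdorffDist_le_of_mem_dist dist_nonneg
    · intro x hx
      exact ⟨b, hb, (hconst x hx b hb).le⟩
    · intro x hx
      refine ⟨a, ha, ?_⟩
      rw [dist_comm]
      exact (hconst a ha x hx).le
  · refine le_trans ?_ (infDist_le_hausdorffDist_of_mem ha hfin)
    rw [le_infDist ⟨b, hb⟩]
    intro y hy
    exact (hconst a ha y hy).ge

theorem dH_nested {A B : Ball0 X} (h : A.1 ⊆ B.1) (hne : A ≠ B) :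
    hausdorffDist A.1 B.1 = diam B.1 := by
  obtain ⟨a, ha⟩ := A.nonempty
  have hfin : hausdorffEDist B.1 A.1 ≠ ⊤ :=
    hausdorffEDist_ne_top_of_nonempty_of_bounded B.nonempty A.nonempty B.bounded A.bounded
  apply le_antisymm
  · apply hausdorffDist_le_of_mem_dist diam_nonneg
    · intro x hx
      exact ⟨x, h hx, by rw [dist_self]; exact diam_nonneg⟩
    · intro x hx
      exact ⟨a, ha, dist_le_diam_of_mem B.bounded hx (h ha)⟩
  · have hout : ∀ x ∈ B.1, x ∉ A.1 → dist a x ≤ hausdorffDist A.1 B.1 := by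
      intro x hx hxA
      rw [hausdorffDist_comm]
      refine le_trans ?_ (infDist_le_hausdorffDist_of_mem hx hfin)
      rw [le_infDist ⟨a, ha⟩]
      intro y hy
      rw [dist_comm x y, (dist_const A ha hy hxA).1]
    obtain ⟨b, hb, hbA⟩ : ∃ b ∈ B.1, b ∉ A.1 := by
      by_contra hcon
      push Not at hcon
      exact hne (Subtype.ext (Subset.antisymm h hcon))
    have hall : ∀ x ∈ B.1, dist a x ≤ hausdorffDist A.1 B.1 := by
      intro x hx
      by_cases hxA : x ∈ A.1
      · exact ((dist_le_diam_of_mem A.bounded ha hxA).trans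
          (dist_const A ha ha hbA).2.le).trans (hout b hb hbA)
      · exact hout x hx hxA
    apply diam_le_of_forall_dist_le hausdorffDist_nonneg
    intro x hx y hy
    refine (dist_triangle_max x a y).trans (max_le ?_ (hall y hy))
    rw [dist_comm]
    exact hall x hx

theorem diam_lt_of_nested {A B : Ball0 X} (h : A.1 ⊆ B.1) (hne : A ≠ B) :
    diam A.1 < diam B.1 := by
  obtain ⟨a, ha⟩ := A.nonempty
  obtain ⟨b, hb, hbA⟩ : ∃ b ∈ B.1, b ∉ A.1 := by
    by_contra hcon
    push Not at hcon
    exact hne (Subtype.ext (Subset.antisymm h hcon))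
  exact lt_of_lt_of_le (dist_const A ha ha hbA).2 (dist_le_diam_of_mem B.bounded (h ha) hb)

omit [IsUltrametricDist X] in
theorem diam_pos_iff (A : Ball0 X) : 0 < diam A.1 ↔ A.1.Nontrivial := by
  constructor
  · intro h
    by_contra hcon
    rw [not_nontrivial_iff] at hcon
    rw [diam_subsingleton hcon] at h
    exact lt_irrefl _ h
  · rintro ⟨x, hx, y, hy, hxy⟩
    exact lt_of_lt_of_le (dist_pos.2 hxy) (dist_le_diam_of_mem A.bounded hx hy)

theorem subset_iff_dist {A : Ball0 X} {c : X} (hc : c ∈ A.1) {D : ℝ} :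
    A.1 ⊆ closedBall c D ↔ diam A.1 ≤ D := by
  constructor
  · intro h
    have hD : 0 ≤ D := by
      have := h hc
      rw [mem_closedBall, dist_self] at this
      exact this
    apply diam_le_of_forall_dist_le hD
    intro x hx y hy
    refine (dist_triangle_max x c y).trans (max_le (h hx) ?_)
    rw [dist_comm]
    exact h hy
  · intro h
    rw [A.eq_closedBall hc]
    exact closedBall_subset_closedBall h

theorem eq_of_subset_of_diam {A B : Ball0 X} (h : A.1 ⊆ B.1) (hd : diam B.1 ≤ diam A.1) :
    A = B := by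
  by_contra hne
  exact absurd (diam_lt_of_nested h hne) (not_lt.2 hd)

/-- The nearest distance of `P` to other balls is attained and equal to `D`. -/
def IsNear (P : Ball0 X) (D : ℝ) : Prop :=
  (∃ Q, Q ≠ P ∧ hausdorffDist P.1 Q.1 = D) ∧ ∀ Q, Q ≠ P → D ≤ hausdorffDist P.1 Q.1

omit [IsUltrametricDist X] in
theorem IsNear.unique {P : Ball0 X} {D D' : ℝ} (h : IsNear P D) (h' : IsNear P D') : D = D' := by
  obtain ⟨⟨Q, hQ, rfl⟩, h2⟩ := h
  obtain ⟨⟨Q', hQ', rfl⟩, h2'⟩ := h'
  exact le_antisymm (h2 Q' hQ') (h2' Q hQ)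

theorem diam_le_dH {P Q : Ball0 X} (hne : Q ≠ P) : diam P.1 ≤ hausdorffDist P.1 Q.1 := by
  rcases trichotomy P Q with h | h | h
  · rw [dH_nested h hne.symm]
    exact (diam_lt_of_nested h hne.symm).le
  · rw [hausdorffDist_comm, dH_nested h hne]
  · obtain ⟨p, hp⟩ := P.nonempty
    obtain ⟨q, hq⟩ := Q.nonempty
    rw [dH_disjoint h hp hq]
    exact (dist_const P hp hp (fun h' => Set.disjoint_left.1 h h' hq)).2.le

theorem near_of_nontrivial {B : Ball0 X} (hB : B.1.Nontrivial) : IsNear B (diam B.1) := by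
  refine ⟨?_, fun Q hQ => diam_le_dH hQ⟩
  obtain ⟨x, hx, y, hy, hxy⟩ := hB
  have hpos : 0 < dist x y := dist_pos.2 hxy
  have hsub : (mkBall x (dist x y / 2) (by linarith)).1 ⊆ B.1 := by
    rw [B.eq_closedBall hx]
    apply closedBall_subset_closedBall
    have := dist_le_diam_of_mem B.bounded hx hy
    linarith
  have hne : mkBall x (dist x y / 2) (by linarith) ≠ B := by
    intro h
    have : y ∈ (mkBall x (dist x y / 2) (by linarith)).1 := by
      rw [h]; exact hy
    change dist y x ≤ dist x y / 2 at this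
    rw [dist_comm] at this
    linarith
  refine ⟨_, hne, ?_⟩
  rw [hausdorffDist_comm, dH_nested hsub hne]

theorem IsNear.diam_le {P : Ball0 X} {D : ℝ} (h : IsNear P D) : diam P.1 ≤ D := by
  obtain ⟨⟨Q, hQ, rfl⟩, -⟩ := h
  exact diam_le_dH hQ

/-- The node determined by an element with attained nearest distance. -/
theorem IsNear.node {P : Ball0 X} {D : ℝ} (h : IsNear P D) {y : X} (hy : y ∈ P.1) :
    0 < D ∧ (closedBall y D).Nontrivial ∧ diam (closedBall y D) = D ∧
      ∀ Q : Ball0 X, hausdorffDist P.1 Q.1 ≤ D ↔ Q.1 ⊆ closedBall y D := by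
  by_cases hP : P.1.Nontrivial
  · have hD : D = diam P.1 := h.unique (near_of_nontrivial hP)
    subst hD
    have hpos := (diam_pos_iff P).2 hP
    rw [← P.eq_closedBall hy]
    refine ⟨hpos, hP, rfl, fun Q => ?_⟩
    constructor
    · intro hle
      by_cases hQP : Q = P
      · rw [hQP]
      rcases trichotomy P Q with h' | h' | h'
      · rw [dH_nested h' (Ne.symm hQP)] at hle
        exact absurd (diam_lt_of_nested h' (Ne.symm hQP)) (not_lt.2 hle)
      · exact h'
      · obtain ⟨q, hq⟩ := Q.nonempty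
        rw [dH_disjoint h' hy hq] at hle
        exact absurd (dist_const P hy hy (fun h'' => Set.disjoint_left.1 h' h'' hq)).2
          (not_lt.2 hle)
    · intro hsub
      by_cases hQP : Q = P
      · rw [hQP, hausdorffDist_self_zero]
        exact hpos.le
      · rw [hausdorffDist_comm, dH_nested hsub hQP]
  · rw [not_nontrivial_iff] at hP
    have hPy : P.1 = {y} := (hP.eq_singleton_of_mem hy)
    have hmain : 0 < D ∧ (closedBall y D).Nontrivial ∧ diam (closedBall y D) = D := by
      obtain ⟨⟨Q, hQ, hQD⟩, -⟩ := h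
      rcases trichotomy P Q with h' | h' | h'
      · rw [dH_nested h' (Ne.symm hQ)] at hQD
        have hyQ : y ∈ Q.1 := h' hy
        have h2 := diam_lt_of_nested h' (Ne.symm hQ)
        have h3 : 0 < diam Q.1 := lt_of_le_of_lt diam_nonneg h2
        rw [← hQD, ← Q.eq_closedBall hyQ]
        exact ⟨h3, (diam_pos_iff Q).1 h3, rfl⟩
      · exfalso
        apply hQ
        apply Subtype.ext
        apply Subset.antisymm h'
        obtain ⟨q, hq⟩ := Q.nonempty
        rw [hPy] at h' ⊢
        have := h' hq
        rw [mem_singleton_iff] at this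
        subst this
        exact singleton_subset_iff.2 hq
      · obtain ⟨q, hq⟩ := Q.nonempty
        rw [dH_disjoint h' hy hq] at hQD
        have hne : y ≠ q := fun h'' => Set.disjoint_left.1 h' hy (h'' ▸ hq)
        have hpos : 0 < D := by rw [← hQD]; exact dist_pos.2 hne
        have hqB : q ∈ closedBall y D := by
          rw [mem_closedBall, dist_comm]
          exact hQD.le
        refine ⟨hpos, ⟨y, mem_closedBall_self hpos.le, q, hqB, hne⟩, ?_⟩
        apply le_antisymm
        · exact (subset_iff_dist (A := mkBall y D hpos) (mem_closedBall_self hpos.le)).1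
            Subset.rfl
        · rw [← hQD]
          rw [hQD]
          nth_rewrite 1 [← hQD]
          exact dist_le_diam_of_mem isBounded_closedBall (mem_closedBall_self hpos.le) hqB
    refine ⟨hmain.1, hmain.2.1, hmain.2.2, fun Q => ?_⟩
    by_cases hQP : Q = P
    · subst hQP
      rw [hausdorffDist_self_zero, hPy]
      exact ⟨fun _ => singleton_subset_iff.2 (mem_closedBall_self hmain.1.le),
        fun _ => hmain.1.le⟩
    rcases trichotomy P Q with h' | h' | h'
    · rw [dH_nested h' (Ne.symm hQP)]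
      exact (subset_iff_dist (h' hy)).symm
    · exfalso
      apply hQP
      apply Subtype.ext
      apply Subset.antisymm h'
      obtain ⟨q, hq⟩ := Q.nonempty
      rw [hPy] at h' ⊢
      have := h' hq
      rw [mem_singleton_iff] at this
      subst this
      exact singleton_subset_iff.2 hq
    · obtain ⟨q, hq⟩ := Q.nonempty
      rw [dH_disjoint h' hy hq]
      constructor
      · intro hle q' hq'
        rw [mem_closedBall]
        have := (dist_const Q hq hq' (fun h'' => Set.disjoint_left.1 h' hy h'')).1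
        rw [this, dist_comm]
        exact hle
      · intro hsub
        have := hsub hq
        rw [mem_closedBall, dist_comm] at this
        exact this

end basic

section correct

variable {X Y : Type*} [MetricSpace X] [IsUltrametricDist X] [MetricSpace Y]
  [IsUltrametricDist Y]

/-- `h` preserves Hausdorff distances. -/
def IsoB (h : Ball0 X ≃ Ball0 Y) : Prop :=
  ∀ A B : Ball0 X, hausdorffDist (h A).1 (h B).1 = hausdorffDist A.1 B.1

omit [IsUltrametricDist X] [IsUltrametricDist Y] in
theorem IsoB.symm {h : Ball0 X ≃ Ball0 Y} (hh : IsoB h) : IsoB h.symm := by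
  intro A B
  have := hh (h.symm A) (h.symm B)
  simpa using this.symm

omit [IsUltrametricDist X] [IsUltrametricDist Y] in
theorem IsoB.near {h : Ball0 X ≃ Ball0 Y} (hh : IsoB h) {P : Ball0 X} {D : ℝ}
    (hP : IsNear P D) : IsNear (h P) D := by
  obtain ⟨⟨Q, hQ, hQD⟩, h2⟩ := hP
  refine ⟨⟨h Q, fun h' => hQ (h.injective h'), by rw [hh, hQD]⟩, fun Q' hQ' => ?_⟩
  have := h2 (h.symm Q') (fun h' => hQ' (by rw [← h', Equiv.apply_symm_apply]))
  rw [← hh, Equiv.apply_symm_apply] at this
  exact this

/-- a chosen point in a ball -/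
noncomputable def pick (B : Ball0 X) : X := B.nonempty.some

omit [IsUltrametricDist X] in
theorem pick_mem (B : Ball0 X) : pick B ∈ B.1 := B.nonempty.some_mem

/-- the corrected map -/
noncomputable def corr (h : Ball0 X ≃ Ball0 Y) (P : Ball0 X) : Ball0 Y := by
  classical
  exact if hP : P.1.Nontrivial then mkBall (pick (h P)) (diam P.1) ((diam_pos_iff P).2 hP)
    else if hQ : (h P).1.Nontrivial then
      h (mkBall (pick P) (diam (h P).1) ((diam_pos_iff (h P)).2 hQ))
    else h P

omit [IsUltrametricDist X] [IsUltrametricDist Y] in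
theorem corr_nontrivial {h : Ball0 X ≃ Ball0 Y} {P : Ball0 X} (hP : P.1.Nontrivial) :
    (corr h P).1 = closedBall (pick (h P)) (diam P.1) := by
  unfold corr
  rw [dif_pos hP]
  rfl

omit [IsUltrametricDist X] [IsUltrametricDist Y] in
theorem corr_case2 {h : Ball0 X ≃ Ball0 Y} {P : Ball0 X} (hP : ¬ P.1.Nontrivial)
    (hQ : (h P).1.Nontrivial) :
    corr h P = h (mkBall (pick P) (diam (h P).1) ((diam_pos_iff (h P)).2 hQ)) := by
  unfold corr
  rw [dif_neg hP, dif_pos hQ]

omit [IsUltrametricDist X] [IsUltrametricDist Y] in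
theorem corr_case3 {h : Ball0 X ≃ Ball0 Y} {P : Ball0 X} (hP : ¬ P.1.Nontrivial)
    (hQ : ¬ (h P).1.Nontrivial) : corr h P = h P := by
  unfold corr
  rw [dif_neg hP, dif_neg hQ]

theorem corr_main {h : Ball0 X ≃ Ball0 Y} (hh : IsoB h) {B : Ball0 X} (hB : B.1.Nontrivial) :
    (corr h B).1.Nontrivial ∧ diam (corr h B).1 = diam B.1 ∧
      ∀ A : Ball0 X, A.1 ⊆ B.1 ↔ (h A).1 ⊆ (corr h B).1 := by
  have h1 := near_of_nontrivial hB
  have h2 := hh.near h1
  obtain ⟨-, h3, h4, h5⟩ := h2.node (pick_mem (h B))
  obtain ⟨-, -, -, h6⟩ := h1.node (pick_mem B)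
  rw [corr_nontrivial hB]
  refine ⟨h3, h4, fun A => ?_⟩
  rw [← h5, hh, h6, ← B.eq_closedBall (pick_mem B)]

/-- data of the exceptional case -/
theorem corr_exc {h : Ball0 X ≃ Ball0 Y} (hh : IsoB h) {P : Ball0 X} (hP : ¬ P.1.Nontrivial)
    (hQ : (h P).1.Nontrivial) :
    IsNear P (diam (h P).1) ∧
    (mkBall (pick P) (diam (h P).1) ((diam_pos_iff (h P)).2 hQ)).1.Nontrivial ∧
    diam (mkBall (pick P) (diam (h P).1) ((diam_pos_iff (h P)).2 hQ)).1 = diam (h P).1 ∧
    ¬ (corr h P).1.Nontrivial ∧ (corr h P).1 ⊆ (h P).1 := by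
  have h1 := near_of_nontrivial hQ
  have h2 : IsNear P (diam (h P).1) := by
    have := hh.symm.near h1
    rwa [Equiv.symm_apply_apply] at this
  obtain ⟨h3, h4, h5, h6⟩ := h2.node (pick_mem P)
  set Bx := mkBall (pick P) (diam (h P).1) ((diam_pos_iff (h P)).2 hQ) with hBx
  have h7 : hausdorffDist P.1 Bx.1 ≤ diam (h P).1 := (h6 Bx).2 Subset.rfl
  have h8 : (h Bx).1 ⊆ (h P).1 := by
    obtain ⟨-, -, -, h9⟩ := h1.node (pick_mem (h P))
    have := (h9 (h Bx)).1 (by rw [hh]; exact h7)
    rwa [← (h P).eq_closedBall (pick_mem (h P))] at this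
  have hcorr : corr h P = h Bx := corr_case2 hP hQ
  refine ⟨h2, h4, h5, ?_, ?_⟩
  · rw [hcorr]
    intro hnt
    have h9 : IsNear Bx (diam Bx.1) := near_of_nontrivial h4
    have h10 : diam (h Bx).1 = diam Bx.1 := (near_of_nontrivial hnt).unique (hh.near h9)
    have h11 : h Bx = h P := by
      apply eq_of_subset_of_diam h8
      rw [h10]
      exact h5.ge
    have h12 : Bx = P := h.injective h11
    exact hP (h12 ▸ h4)
  · rw [hcorr]
    exact h8

theorem corr_diam {h : Ball0 X ≃ Ball0 Y} (hh : IsoB h) (P : Ball0 X) :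
    diam (corr h P).1 = diam P.1 := by
  by_cases hP : P.1.Nontrivial
  · exact (corr_main hh hP).2.1
  · have h0 : diam P.1 = 0 := diam_subsingleton (not_nontrivial_iff.1 hP)
    rw [h0]
    by_cases hQ : (h P).1.Nontrivial
    · exact diam_subsingleton (not_nontrivial_iff.1 (corr_exc hh hP hQ).2.2.2.1)
    · rw [corr_case3 hP hQ]
      exact diam_subsingleton (not_nontrivial_iff.1 hQ)

theorem corr_inv {h : Ball0 X ≃ Ball0 Y} (hh : IsoB h) (P : Ball0 X) :
    corr h.symm (corr h P) = P := by
  by_cases hP : P.1.Nontrivial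
  · obtain ⟨h1, h2, h3⟩ := corr_main hh hP
    apply Subtype.ext
    rw [corr_nontrivial h1, h2]
    have h4 : (h.symm (corr h P)).1 ⊆ P.1 := by
      rw [h3, Equiv.apply_symm_apply]
    exact (P.eq_closedBall (h4 (pick_mem _))).symm
  · by_cases hQ : (h P).1.Nontrivial
    · obtain ⟨h1, h2, h3, h4, h5⟩ := corr_exc hh hP hQ
      set Bx := mkBall (pick P) (diam (h P).1) ((diam_pos_iff (h P)).2 hQ) with hBx
      have hcorr : corr h P = h Bx := corr_case2 hP hQ
      have h6 : (h.symm (corr h P)).1.Nontrivial := by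
        rw [hcorr, Equiv.symm_apply_apply]
        exact h2
      rw [corr_case2 h4 h6]
      have h7 : mkBall (pick (corr h P)) (diam (h.symm (corr h P)).1)
          ((diam_pos_iff (h.symm (corr h P))).2 h6) = h P := by
        apply Subtype.ext
        change closedBall (pick (corr h P)) (diam (h.symm (corr h P)).1) = (h P).1
        rw [(h P).eq_closedBall (h5 (pick_mem _))]
        congr 1
        rw [hcorr, Equiv.symm_apply_apply, h3]
      rw [h7, Equiv.symm_apply_apply]
    · rw [corr_case3 hP hQ]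
      have h1 : ¬ (h.symm (h P)).1.Nontrivial := by
        rw [Equiv.symm_apply_apply]; exact hP
      rw [corr_case3 hQ h1, Equiv.symm_apply_apply]

theorem corr_mono {h : Ball0 X ≃ Ball0 Y} (hh : IsoB h) {P Q : Ball0 X} (hPQ : P.1 ⊆ Q.1) :
    (corr h P).1 ⊆ (corr h Q).1 := by
  by_cases hQ : Q.1.Nontrivial
  · obtain ⟨h1, h2, h3⟩ := corr_main hh hQ
    by_cases hP : P.1.Nontrivial
    · obtain ⟨h4, h5, h6⟩ := corr_main hh hP
      have h7 : (h.symm (corr h P)).1 ⊆ P.1 := by
        rw [h6, Equiv.apply_symm_apply]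
      have h8 := (h3 _).1 (h7.trans hPQ)
      rwa [Equiv.apply_symm_apply] at h8
    · by_cases hP' : (h P).1.Nontrivial
      · obtain ⟨h4, h5, h6, h7, h8⟩ := corr_exc hh hP hP'
        rw [corr_case2 hP hP', ← h3]
        have hne : Q ≠ P := by
          rintro rfl
          exact hP hQ
        have h9 := h4.2 Q hne
        rw [dH_nested hPQ hne.symm] at h9
        change closedBall (pick P) (diam (h P).1) ⊆ Q.1
        rw [Q.eq_closedBall (hPQ (pick_mem P))]
        exact closedBall_subset_closedBall h9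
      · rw [corr_case3 hP hP', ← h3]
        exact hPQ
  · have hPQ' : P = Q := by
      apply Subtype.ext
      apply Subset.antisymm hPQ
      rw [not_nontrivial_iff] at hQ
      intro q hq
      obtain ⟨p, hp⟩ := P.nonempty
      rw [hQ hq (hPQ hp)]
      exact hp
    rw [hPQ']

/-- the corrected bijection -/
noncomputable def corrEquiv {h : Ball0 X ≃ Ball0 Y} (hh : IsoB h) : Ball0 X ≃ Ball0 Y where
  toFun := corr h
  invFun := corr h.symm
  left_inv := corr_inv hh
  right_inv P := by
    have := corr_inv hh.symm P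
    rwa [Equiv.symm_symm] at this

/-- order isomorphism preserving diameters -/
structure IsTreeIso (e : Ball0 X ≃ Ball0 Y) : Prop where
  mono : ∀ P Q : Ball0 X, P.1 ⊆ Q.1 ↔ (e P).1 ⊆ (e Q).1
  diam_eq : ∀ P : Ball0 X, diam (e P).1 = diam P.1

theorem isTreeIso_corr {h : Ball0 X ≃ Ball0 Y} (hh : IsoB h) : IsTreeIso (corrEquiv hh) where
  mono P Q := by
    constructor
    · exact corr_mono hh
    · intro h1
      have h2 := corr_mono hh.symm h1
      have h3 : ∀ P, corr h.symm (corrEquiv hh P) = P := fun P => corr_inv hh P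
      rwa [h3, h3] at h2
  diam_eq P := corr_diam hh P

omit [IsUltrametricDist X] [IsUltrametricDist Y] in
theorem IsTreeIso.symm {e : Ball0 X ≃ Ball0 Y} (he : IsTreeIso e) : IsTreeIso e.symm where
  mono P Q := by
    rw [he.mono]
    simp
  diam_eq P := by
    rw [← he.diam_eq]
    simp

omit [IsUltrametricDist Y] in
theorem IsTreeIso.dist_le {e : Ball0 X ≃ Ball0 Y} (he : IsTreeIso e) {P Q : Ball0 X}
    (hPQ : Disjoint P.1 Q.1) {p q : X} {p' q' : Y} (hp : p ∈ P.1) (hq : q ∈ Q.1)
    (hp' : p' ∈ (e P).1) (hq' : q' ∈ (e Q).1) : dist p' q' ≤ dist p q := by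
  have hne : p ≠ q := fun h => Set.disjoint_left.1 hPQ hp (h ▸ hq)
  have hpos : 0 < dist p q := dist_pos.2 hne
  let B := mkBall p (dist p q) hpos
  have hpB : p ∈ B.1 := mem_closedBall_self hpos.le
  have hdB : diam B.1 ≤ dist p q := (subset_iff_dist hpB).1 Subset.rfl
  have h1 : P.1 ⊆ B.1 := by
    refine (subset_iff_dist hp).2 ?_
    exact (dist_const P hp hp (fun h => Set.disjoint_left.1 hPQ h hq)).2.le
  have h2 : Q.1 ⊆ B.1 := by
    intro x hx
    change dist x p ≤ dist p q
    rw [(dist_const Q hq hx (fun h => Set.disjoint_left.1 hPQ hp h)).1, dist_comm]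
  have h3 := (he.mono P B).1 h1 hp'
  have h4 := (he.mono Q B).1 h2 hq'
  have h5 := dist_le_diam_of_mem (e B).bounded h3 h4
  rw [he.diam_eq] at h5
  exact h5.trans hdB

theorem IsTreeIso.dist_eq {e : Ball0 X ≃ Ball0 Y} (he : IsTreeIso e) {P Q : Ball0 X}
    (hPQ : Disjoint P.1 Q.1) {p q : X} {p' q' : Y} (hp : p ∈ P.1) (hq : q ∈ Q.1)
    (hp' : p' ∈ (e P).1) (hq' : q' ∈ (e Q).1) : dist p' q' = dist p q := by
  apply le_antisymm (he.dist_le hPQ hp hq hp' hq')
  have hd : Disjoint (e P).1 (e Q).1 := by
    rcases trichotomy (e P) (e Q) with h | h | h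
    · exfalso
      have := (he.mono P Q).2 h
      exact Set.disjoint_left.1 hPQ hp (this hp)
    · exfalso
      have := (he.mono Q P).2 h
      exact Set.disjoint_left.1 hPQ (this hq) hq
    · exact h
  exact he.symm.dist_le hd hp' hq' (by simpa using hp) (by simpa using hq)

end correct

section completion

open Filter Topology UniformSpace

variable {X Y : Type*} [MetricSpace X] [IsUltrametricDist X] [MetricSpace Y]
  [IsUltrametricDist Y]

/-- small balls around a point -/
noncomputable def smallBall (x : X) (n : ℕ) : Ball0 X :=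
  mkBall x (1 / ((n : ℝ) + 1)) Nat.one_div_pos_of_nat

omit [IsUltrametricDist X] in
theorem mem_smallBall (x : X) (n : ℕ) : x ∈ (smallBall x n).1 :=
  mem_closedBall_self Nat.one_div_pos_of_nat.le

omit [IsUltrametricDist X] in
theorem smallBall_anti (x : X) {n m : ℕ} (h : n ≤ m) : (smallBall x m).1 ⊆ (smallBall x n).1 := by
  apply closedBall_subset_closedBall
  exact Nat.one_div_le_one_div h

theorem diam_smallBall (x : X) (n : ℕ) : diam (smallBall x n).1 ≤ 1 / ((n : ℝ) + 1) :=
  (subset_iff_dist (mem_smallBall x n)).1 Subset.rfl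

omit [IsUltrametricDist Y] in
theorem dist_pick {e : Ball0 X ≃ Ball0 Y} (he : IsTreeIso e) (x : X) {N n m : ℕ} (hn : N ≤ n)
    (hm : N ≤ m) : dist (pick (e (smallBall x n))) (pick (e (smallBall x m))) ≤
      1 / ((N : ℝ) + 1) := by
  have h1 : pick (e (smallBall x n)) ∈ (e (smallBall x N)).1 :=
    (he.mono _ _).1 (smallBall_anti x hn) (pick_mem _)
  have h2 : pick (e (smallBall x m)) ∈ (e (smallBall x N)).1 :=
    (he.mono _ _).1 (smallBall_anti x hm) (pick_mem _)
  refine (dist_le_diam_of_mem (e (smallBall x N)).bounded h1 h2).trans ?_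
  rw [he.diam_eq]
  exact diam_smallBall x N

omit [IsUltrametricDist Y] in
theorem exists_lim {e : Ball0 X ≃ Ball0 Y} (he : IsTreeIso e) (x : X) :
    ∃ z : Completion Y, Tendsto (fun n => ((pick (e (smallBall x n)) : Y) : Completion Y)) atTop
      (𝓝 z) := by
  apply cauchySeq_tendsto_of_complete
  apply cauchySeq_of_le_tendsto_0 (fun n : ℕ => 1 / ((n : ℝ) + 1))
  · intro n m N hn hm
    rw [Completion.dist_eq]
    exact dist_pick he x hn hm
  · exact tendsto_one_div_add_atTop_nhds_zero_nat

theorem completion_of_treeIso {e : Ball0 X ≃ Ball0 Y} (he : IsTreeIso e) :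
    Nonempty (Completion X ≃ᵢ Completion Y) := by
  choose f hf using exists_lim he
  have hiso : Isometry f := by
    apply Isometry.of_dist_eq
    intro x x'
    by_cases hxx : x = x'
    · subst hxx
      simp
    have hpos : 0 < dist x x' := dist_pos.2 hxx
    have h1 : Tendsto (fun n => dist ((pick (e (smallBall x n)) : Y) : Completion Y)
        ((pick (e (smallBall x' n)) : Y) : Completion Y)) atTop (𝓝 (dist (f x) (f x'))) := (hf x).dist (hf x')
    have h2 : Tendsto (fun n => dist ((pick (e (smallBall x n)) : Y) : Completion Y)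
        ((pick (e (smallBall x' n)) : Y) : Completion Y)) atTop (𝓝 (dist x x')) := by
      apply tendsto_const_nhds.congr'
      have h3 : ∀ᶠ n : ℕ in atTop, 1 / ((n : ℝ) + 1) < dist x x' :=
        tendsto_one_div_add_atTop_nhds_zero_nat.eventually_lt_const hpos
      filter_upwards [h3] with n hn
      rw [Completion.dist_eq]
      refine (he.dist_eq (P := smallBall x n) (Q := smallBall x' n) ?_ (mem_smallBall x n)
        (mem_smallBall x' n) (pick_mem _) (pick_mem _)).symm
      rw [Set.disjoint_left]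
      intro z hz hz'
      have h4 : dist x x' ≤ max (dist x z) (dist z x') := dist_triangle_max _ _ _
      have h5 : dist x z ≤ 1 / ((n : ℝ) + 1) := by rw [dist_comm]; exact hz
      have h6 : dist z x' ≤ 1 / ((n : ℝ) + 1) := hz'
      exact absurd (h4.trans (max_le h5 h6)) (not_le.2 hn)
    exact tendsto_nhds_unique h1 h2
  have hdense : DenseRange f := by
    have h1 : ∀ y : Y, (y : Completion Y) ∈ closure (range f) := by
      intro y
      rw [Metric.mem_closure_iff]
      intro ε hε
      let Q := mkBall y (ε / 2) (by linarith)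
      obtain ⟨x, hx⟩ := (e.symm Q).nonempty
      refine ⟨f x, mem_range_self x, ?_⟩
      have h2 : ∃ r, 0 < r ∧ (e.symm Q).1 = closedBall x r := by
        obtain ⟨c, r, hr, hc⟩ := (e.symm Q).2
        refine ⟨r, hr, ?_⟩
        rw [hc]
        exact IsUltrametricDist.closedBall_eq_of_mem (hc ▸ hx)
      obtain ⟨r, hr, hQr⟩ := h2
      have h3 : ∀ᶠ n : ℕ in atTop, 1 / ((n : ℝ) + 1) < r :=
        tendsto_one_div_add_atTop_nhds_zero_nat.eventually_lt_const hr
      have h4 : ∀ᶠ n : ℕ in atTop,
          dist (y : Completion Y) ((pick (e (smallBall x n)) : Y) : Completion Y) ≤ ε / 2 := by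
        filter_upwards [h3] with n hn
        have h5 : (smallBall x n).1 ⊆ (e.symm Q).1 := by
          rw [hQr]
          exact closedBall_subset_closedBall hn.le
        have h6 := (he.mono _ _).1 h5 (pick_mem _)
        rw [Equiv.apply_symm_apply] at h6
        rw [Completion.dist_eq, dist_comm]
        exact h6
      have h5 := le_of_tendsto (tendsto_const_nhds.dist (hf x)) h4
      linarith
    intro z
    have h2 : closure (range ((↑) : Y → Completion Y)) ⊆ closure (range f) := by
      apply closure_minimal _ isClosed_closure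
      rintro _ ⟨y, rfl⟩
      exact h1 y
    exact h2 (Completion.denseRange_coe z)
  have hext : Isometry (Completion.extension f) := hiso.completion_extension
  have hsurj : Function.Surjective (Completion.extension f) := by
    have hcl : IsClosed (range (Completion.extension f)) :=
      hext.isClosedEmbedding.isClosed_range
    have hsub : range f ⊆ range (Completion.extension f) := by
      rintro _ ⟨x, rfl⟩
      refine ⟨(x : Completion X), ?_⟩
      exact Completion.extension_coe hiso.uniformContinuous x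
    intro z
    have h1 := hdense z
    have h2 : closure (range f) ⊆ range (Completion.extension f) :=
      closure_minimal hsub hcl
    exact h2 h1
  exact ⟨⟨Equiv.ofBijective _ ⟨hext.injective, hsurj⟩, hext⟩⟩

theorem ballIsometric_symm {X Y : Type*} [MetricSpace X] [MetricSpace Y]
    (h : BallIsometric X Y) : BallIsometric Y X := by
  obtain ⟨h, hh⟩ := h
  refine ⟨h.symm, fun A B => ?_⟩
  have := hh (h.symm A) (h.symm B)
  simpa using this.symm

theorem ballIsometric_trans {X Y Z : Type*} [MetricSpace X] [MetricSpace Y] [MetricSpace Z]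
    (h : BallIsometric X Y) (h' : BallIsometric Y Z) : BallIsometric X Z := by
  obtain ⟨h, hh⟩ := h
  obtain ⟨h', hh'⟩ := h'
  exact ⟨h.trans h', fun A B => by
    rw [Equiv.trans_apply, Equiv.trans_apply, hh', hh]⟩

theorem ballIsometric_of_isometryEquiv {X Y : Type*} [MetricSpace X] [MetricSpace Y]
    (g : X ≃ᵢ Y) : BallIsometric X Y := by
  refine ⟨Equiv.ofBijective (fun B => ⟨g '' B.1, ?_⟩) ⟨?_, ?_⟩, ?_⟩
  · obtain ⟨c, r, hr, hB⟩ := B.2
    refine ⟨g c, r, hr, ?_⟩
    rw [hB, g.image_closedBall]
  · intro A B h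
    have h1 : g '' A.1 = g '' B.1 := congrArg Subtype.val h
    exact Subtype.ext (g.injective.image_injective h1)
  · rintro ⟨_, c, r, hr, rfl⟩
    refine ⟨⟨closedBall (g.symm c) r, g.symm c, r, hr, rfl⟩, ?_⟩
    apply Subtype.ext
    change g '' closedBall (g.symm c) r = closedBall c r
    rw [g.image_closedBall, g.apply_symm_apply]
  · intro A B
    exact hausdorffDist_image g.isometry

theorem closure_image_preimage {X Z : Type*} [MetricSpace X] [MetricSpace Z]
    [IsUltrametricDist Z] {ι : X → Z} (hd : DenseRange ι) (B : Ball0 Z) :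
    closure (ι '' (ι ⁻¹' B.1)) = B.1 := by
  obtain ⟨c, r, hr, hB⟩ := B.2
  have hclopen := IsUltrametricDist.isClopen_closedBall c hr.ne'
  rw [hB]
  apply Subset.antisymm
  · apply closure_minimal _ hclopen.1
    rintro _ ⟨x, hx, rfl⟩
    exact hx
  · intro z hz
    rw [_root_.mem_closure_iff]
    intro o ho hzo
    obtain ⟨_, ⟨h1, h2⟩, x, rfl⟩ := _root_.mem_closure_iff.1 (hd z) (o ∩ closedBall c r)
      (ho.inter hclopen.2) ⟨hzo, hz⟩
    exact ⟨ι x, h1, x, h2, rfl⟩

theorem ballIsometric_of_dense {X Z : Type*} [MetricSpace X] [MetricSpace Z]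
    [IsUltrametricDist Z] {ι : X → Z} (hι : Isometry ι) (hd : DenseRange ι) :
    BallIsometric Z X := by
  refine ⟨Equiv.ofBijective (fun B => ⟨ι ⁻¹' B.1, ?_⟩) ⟨?_, ?_⟩, ?_⟩
  · obtain ⟨c, r, hr, hB⟩ := B.2
    obtain ⟨_, h1, x, rfl⟩ := _root_.mem_closure_iff.1 (hd c) (ball c r) isOpen_ball (mem_ball_self hr)
    refine ⟨x, r, hr, ?_⟩
    rw [hB, IsUltrametricDist.closedBall_eq_of_mem (ball_subset_closedBall h1),
      hι.preimage_closedBall]
  · intro A B h
    have h1 : ι ⁻¹' A.1 = ι ⁻¹' B.1 := congrArg Subtype.val h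
    apply Subtype.ext
    rw [← closure_image_preimage hd A, h1, closure_image_preimage hd B]
  · rintro ⟨_, c, r, hr, rfl⟩
    refine ⟨⟨closedBall (ι c) r, ι c, r, hr, rfl⟩, ?_⟩
    apply Subtype.ext
    exact hι.preimage_closedBall c r
  · intro A B
    change hausdorffDist (ι ⁻¹' A.1) (ι ⁻¹' B.1) = _
    rw [← hausdorffDist_image hι, ← hausdorffDist_closure, closure_image_preimage hd,
      closure_image_preimage hd]

theorem ultra_completion (X : Type*) [MetricSpace X] [IsUltrametricDist X] :
    IsUltrametricDist (Completion X) where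
  dist_triangle_max x y z := by
    induction x, y, z using Completion.induction_on₃ with
    | hp =>
      apply isClosed_le
      · fun_prop
      · fun_prop
    | ih a b c =>
      rw [Completion.dist_eq, Completion.dist_eq, Completion.dist_eq]
      exact dist_triangle_max a b c

theorem main (X Y : Type*) [MetricSpace X] [IsUltrametricDist X] [MetricSpace Y]
    [IsUltrametricDist Y] :
    Nonempty (Completion X ≃ᵢ Completion Y) ↔ BallIsometric X Y := by
  constructor
  · rintro ⟨g⟩
    have := ultra_completion X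
    have := ultra_completion Y
    have h1 : BallIsometric (Completion X) X :=
      ballIsometric_of_dense Completion.coe_isometry Completion.denseRange_coe
    have h2 : BallIsometric (Completion Y) Y :=
      ballIsometric_of_dense Completion.coe_isometry Completion.denseRange_coe
    exact ballIsometric_trans (ballIsometric_symm h1)
      (ballIsometric_trans (ballIsometric_of_isometryEquiv g) h2)
  · rintro ⟨h, hh⟩
    exact completion_of_treeIso (isTreeIso_corr (h := h) hh)

end completion

end Pool.Agent.V11216.UltraBalls
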