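import Mathlib

/-!
# Products of finite groups and countable unions of Borel null-finite sets
-/

namespace Pool.Agent.V11216.NullFiniteCore

open Set Filter Topology

/-- A subset `B` of a (multiplicatively written) topological abelian group is null-finite if
there is a sequence `x_k → 1` such that for every `y` only finitely many `k` satisfy
`y * x_k ∈ B`. -/
def NullFinite {X : Type} [CommGroup X] [TopologicalSpace X] (B : Set X) : Prop :=
  ∃ x : ℕ → X, Tendsto x atTop (𝓝 1) ∧ ∀ y : X, {k : ℕ | y * x k ∈ B}.Finite

/-- Borel subsets of a topological space. -/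
def IsBorel {X : Type} [TopologicalSpace X] (B : Set X) : Prop := @MeasurableSet X (borel X) B

section

/-- flipping one coordinate -/
def flip (j : ℕ) (S : ℕ → Bool) : ℕ → Bool := Function.update S j (!S j)

theorem flip_flip (j : ℕ) (S : ℕ → Bool) : flip j (flip j S) = S := by
  unfold flip
  simp

theorem continuous_flip (j : ℕ) : Continuous (flip j) := by
  unfold flip
  apply continuous_id.update
  exact (continuous_of_discreteTopology (f := Bool.not)).comp (continuous_apply j)

/-- flipping as a homeomorphism -/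
def flipHomeo (j : ℕ) : (ℕ → Bool) ≃ₜ (ℕ → Bool) where
  toFun := flip j
  invFun := flip j
  left_inv := flip_flip j
  right_inv := flip_flip j
  continuous_toFun := continuous_flip j
  continuous_invFun := continuous_flip j

/-- Baire category part of the argument. -/
theorem baire_core (D : ℕ → Set (ℕ → Bool)) (hD : ∀ i, IsBorel (D i))
    (hcov : ∀ S, ∃ i, S ∈ D i) (c : ℕ → ℕ) (hc : ∀ i n, ∃ j ≥ n, c j = i) :
    ∃ i S, ∀ n, ∃ j ≥ n, c j = i ∧ S j = false ∧ flip j S ∈ D i := by
  let _ : MeasurableSpace (ℕ → Bool) := borel _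
  have _ : BorelSpace (ℕ → Bool) := ⟨rfl⟩
  have h1 : ∀ i, ∃ u : Set (ℕ → Bool), IsOpen u ∧ (D i =ᶠ[residual (ℕ → Bool)] u) :=
    fun i => (hD i).residualEq_isOpen
  choose O hO hDO using h1
  -- some `O i` is nonempty
  have h2 : ∃ i, (O i).Nonempty := by
    by_contra hne
    push Not at hne
    have h3 : ∀ i, ∀ᶠ S in residual (ℕ → Bool), S ∉ D i := by
      intro i
      have h4 := hDO i
      rw [hne i] at h4
      filter_upwards [h4] with S hS
      intro hmem
      have : S ∈ (∅ : Set (ℕ → Bool)) := by
        have h5 := hS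
        rw [eq_iff_iff] at h5
        exact h5.1 hmem
      exact this
    have h4 : ∀ᶠ S in residual (ℕ → Bool), ∀ i, S ∉ D i := eventually_countable_forall.2 h3
    obtain ⟨S, hS⟩ := (dense_of_mem_residual h4).nonempty
    obtain ⟨i, hi⟩ := hcov S
    exact hS i hi
  obtain ⟨i, S₀, hS₀⟩ := h2
  obtain ⟨I, u, hu, hIu⟩ := isOpen_pi_iff.1 (hO i) S₀ hS₀
  have hR : ∀ᶠ S in residual (ℕ → Bool), S ∈ O i → S ∈ D i := by
    filter_upwards [hDO i] with S hS
    rw [eq_iff_iff] at hS
    exact hS.2
  have hRj : ∀ᶠ S in residual (ℕ → Bool), ∀ j, (flip j S ∈ O i → flip j S ∈ D i) := by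
    rw [eventually_countable_forall]
    intro j
    have h3 := (flipHomeo j).residual_map_eq
    rw [← h3] at hR
    exact hR
  have hQ : ∀ᶠ S in residual (ℕ → Bool), ∀ n, ∃ j ≥ n, (c j = i ∧ j ∉ I) ∧ S j = false := by
    rw [eventually_countable_forall]
    intro n
    apply residual_of_dense_open
    · have : {S : ℕ → Bool | ∃ j ≥ n, (c j = i ∧ j ∉ I) ∧ S j = false} =
          ⋃ j ∈ {j | j ≥ n ∧ (c j = i ∧ j ∉ I)}, (fun S : ℕ → Bool => S j) ⁻¹' {false} := by
        ext S
        simp only [mem_ofPred_eq, mem_iUnion, mem_preimage, mem_singleton_iff, exists_prop]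
        constructor
        · rintro ⟨j, h1, h2, h3⟩
          exact ⟨j, ⟨h1, h2⟩, h3⟩
        · rintro ⟨j, ⟨h1, h2⟩, h3⟩
          exact ⟨j, h1, h2, h3⟩
      change IsOpen {S : ℕ → Bool | ∃ j ≥ n, (c j = i ∧ j ∉ I) ∧ S j = false}
      rw [this]
      apply isOpen_biUnion
      intro j _
      exact (isOpen_discrete _).preimage (continuous_apply j)
    · intro S
      -- choose a sequence of positions
      have h3 : ∀ t : ℕ, ∃ j ≥ t, c j = i ∧ j ∉ I ∧ n ≤ j := by
        intro t
        obtain ⟨j, hj, hj'⟩ := hc i (max (max t n) (I.sup id + 1))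
        refine ⟨j, (le_max_left _ _).trans ((le_max_left _ _).trans hj), hj', ?_,
          (le_max_right _ _).trans ((le_max_left _ _).trans hj)⟩
        intro hjI
        have h4 : j ≤ I.sup id := Finset.le_sup (f := id) hjI
        have h5 : I.sup id + 1 ≤ j := (le_max_right _ _).trans hj
        omega
      choose p hp hpi hpI hpn using h3
      apply mem_closure_of_tendsto (f := fun t => Function.update S (p t) false) (b := atTop)
      · rw [tendsto_pi_nhds]
        intro m
        apply tendsto_const_nhds.congr'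
        filter_upwards [eventually_ge_atTop (m + 1)] with t ht
        rw [Function.update_of_ne]
        have := hp t
        omega
      · apply Eventually.of_forall
        intro t
        exact ⟨p t, hpn t, ⟨hpi t, hpI t⟩, by simp⟩
  -- pick a generic point
  have hopen : IsOpen {T : ℕ → Bool | ∀ t ∈ I, T t = S₀ t} := by
    have : {T : ℕ → Bool | ∀ t ∈ I, T t = S₀ t} =
        ⋂ t ∈ I, (fun T : ℕ → Bool => T t) ⁻¹' {S₀ t} := by
      ext T; simp
    rw [this]
    apply isOpen_biInter_finset
    intro t _
    exact (isOpen_discrete _).preimage (continuous_apply t)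
  obtain ⟨T, hT, hT'⟩ := (dense_of_mem_residual (hRj.and hQ)).exists_mem_open hopen
    ⟨S₀, fun _ _ => rfl⟩
  refine ⟨i, T, fun n => ?_⟩
  obtain ⟨j, hj, ⟨hji, hjI⟩, hTj⟩ := hT.2 n
  refine ⟨j, hj, hji, hTj, hT.1 j ?_⟩
  apply hIu
  intro t ht
  have htj : t ≠ j := by
    rintro rfl
    exact hjI ht
  have : flip j T t = S₀ t := by
    unfold flip
    rw [Function.update_of_ne htj]
    exact hT' t ht
  rw [this]
  exact (hu t ht).2

end

/-- Let `G n` be finite abelian groups with at least two elements, whose orders tend to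
infinity. Then the set of `x ∈ ∏ G n` with `x n ≠ 1` for all `n` is not covered by countably
many Borel null-finite sets. -/
theorem no_cover {G : ℕ → Type} [∀ n, CommGroup (G n)] [∀ n, TopologicalSpace (G n)]
    [∀ n, DiscreteTopology (G n)] [∀ n, Finite (G n)]
    (hcard : Tendsto (fun n => Nat.card (G n)) atTop atTop) (htwo : ∀ n, 1 < Nat.card (G n))
    (B : ℕ → Set (∀ n, G n)) (hB : ∀ i, IsBorel (B i))
    (hnf : ∀ i, NullFinite (B i)) : ¬ {x : ∀ n, G n | ∀ n, x n ≠ 1} ⊆ ⋃ i, B i := by
  classical
  intro hcover
  choose x hx hxfin using hnf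
  let m : ℕ → ℕ := fun n => Nat.log 2 (Nat.card (G n) - 1)
  have hm : ∀ n, 2 ^ m n < Nat.card (G n) := by
    intro n
    have h1 := htwo n
    have h2 := Nat.pow_log_le_self 2 (x := Nat.card (G n) - 1) (by omega)
    have h3 : 2 ^ m n ≤ Nat.card (G n) - 1 := h2
    omega
  have hmfin : ∀ j, {n | m n ≤ j}.Finite := by
    intro j
    have h1 : ∀ᶠ n in atTop, 2 ^ (j + 1) + 1 ≤ Nat.card (G n) := hcard.eventually_ge_atTop _
    obtain ⟨N, hN⟩ := eventually_atTop.1 h1
    refine (finite_lt_nat N).subset ?_
    intro n hn
    by_contra hlt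
    have h2 := hN n (not_lt.1 hlt)
    have h3 : j + 1 ≤ m n := Nat.le_log_of_pow_le (by norm_num) (by omega)
    have h4 : m n ≤ j := hn
    omega
  -- choose the positions `φ j`
  have hev : ∀ j : ℕ, ∀ᶠ k in atTop, ∀ n ∈ {n | m n ≤ j}, x (Nat.unpair j).1 k n = 1 := by
    intro j
    rw [eventually_all_finite (hmfin j)]
    intro n _
    have h1 := tendsto_pi_nhds.1 (hx (Nat.unpair j).1) n
    have h2 : ({1} : Set (G n)) ∈ 𝓝 ((1 : ∀ n, G n) n) := by
      rw [nhds_discrete]
      rfl
    exact h1 h2
  obtain ⟨φ, hφ, hφ'⟩ := extraction_forall_of_eventually hev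
  let z : ℕ → ∀ n, G n := fun j => x (Nat.unpair j).1 (φ j)
  have hz : ∀ j n, m n ≤ j → z j n = 1 := fun j n h => hφ' j n h
  -- choose the base point
  have hbase : ∀ n, ∃ g : G n, ∀ T ⊆ Finset.range (m n), g * ∏ j ∈ T, z j n ≠ 1 := by
    intro n
    have := Fintype.ofFinite (G n)
    let I : Finset (G n) := (Finset.range (m n)).powerset.image fun T => (∏ j ∈ T, z j n)⁻¹
    have h1 : I.card < (Finset.univ : Finset (G n)).card := by
      refine lt_of_le_of_lt Finset.card_image_le ?_
      rw [Finset.card_powerset, Finset.card_range, Finset.card_univ, ← Nat.card_eq_fintype_card]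
      exact hm n
    obtain ⟨g, -, hg⟩ := Finset.exists_mem_notMem_of_card_lt_card h1
    refine ⟨g, fun T hT h => hg ?_⟩
    refine Finset.mem_image.2 ⟨T, Finset.mem_powerset.2 hT, ?_⟩
    exact (eq_inv_of_mul_eq_one_left h).symm
  choose x₀ hx₀ using hbase
  let y : (ℕ → Bool) → ∀ n, G n := fun S n =>
    x₀ n * ∏ j ∈ Finset.range (m n), if S j = true then z j n else 1
  have hyA : ∀ S n, y S n ≠ 1 := by
    intro S n
    have h1 : (∏ j ∈ Finset.range (m n), if S j = true then z j n else 1) =
        ∏ j ∈ (Finset.range (m n)).filter (fun j => S j = true), z j n := by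
      rw [Finset.prod_filter]
    have h2 := hx₀ n _ (Finset.filter_subset (fun j => S j = true) (Finset.range (m n)))
    rw [← h1] at h2
    exact h2
  have hycont : Continuous y := by
    apply continuous_pi
    intro n
    apply continuous_const.mul
    apply continuous_finsetProd
    intro j _
    exact (continuous_of_discreteTopology (f := fun b : Bool => if b = true then z j n else 1)).comp
      (continuous_apply j)
  have hyflip : ∀ S j, S j = false → y (flip j S) = y S * z j := by
    intro S j hSj
    funext n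
    change x₀ n * _ = (x₀ n * _) * z j n
    rw [mul_assoc]
    congr 1
    have h1 : ∀ t ∈ Finset.range (m n), (if flip j S t = true then z t n else 1) =
        (if S t = true then z t n else 1) * (if t = j then z j n else 1) := by
      intro t _
      by_cases htj : t = j
      · subst htj
        simp [flip, hSj]
      · simp [flip, htj]
    rw [Finset.prod_congr rfl h1, Finset.prod_mul_distrib, Finset.prod_ite_eq']
    congr 1
    by_cases hj : j ∈ Finset.range (m n)
    · rw [if_pos hj]
    · rw [if_neg hj]
      rw [Finset.mem_range, not_lt] at hj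
      exact (hz j n hj).symm
  -- apply the Baire argument
  obtain ⟨i, S, hS⟩ := baire_core (fun i => y ⁻¹' B i) (by
      intro i
      have : @Measurable _ _ (borel (ℕ → Bool)) (borel (∀ n, G n)) y := hycont.borel_measurable
      exact this (hB i)) (by
      intro S
      obtain ⟨i, hi⟩ := mem_iUnion.1 (hcover (hyA S))
      exact ⟨i, hi⟩) (fun j => (Nat.unpair j).1) (by
      intro i n
      exact ⟨Nat.pair i n, Nat.right_le_pair i n, by simp⟩)
  have hfin := hxfin i (y S)
  have hinf : {k : ℕ | y S * x i k ∈ B i}.Infinite := by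
    rw [Set.infinite_iff_exists_gt]
    intro n
    obtain ⟨j, hj, hji, hSj, hmem⟩ := hS (n + 1)
    refine ⟨φ j, ?_, ?_⟩
    · have h1 : y (flip j S) ∈ B i := hmem
      rw [hyflip S j hSj] at h1
      have h2 : z j = x i (φ j) := by
        change x (Nat.unpair j).1 (φ j) = _
        rw [hji]
      rw [h2] at h1
      exact h1
    · have := hφ.id_le j
      simp only [id] at this
      omega
  exact hinf hfin

/-- The group `C_{n+2}` of `(n+2)`-nd roots of unity in `ℂ`. -/
abbrev C (n : ℕ) : Type := rootsOfUnity (n + 2) ℂ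

theorem card_C (n : ℕ) : Nat.card (C n) = n + 2 := by
  exact Complex.card_rootsOfUnity (n + 2)

/-- The product set `∏ C_n^*`. -/
def A : Set (∀ n, C n) := {x | ∀ n, x n ≠ 1}

theorem A_not_covered (B : ℕ → Set (∀ n, C n)) (hB : ∀ i, IsBorel (B i))
    (hnf : ∀ i, NullFinite (B i)) : ¬ A ⊆ ⋃ i, B i := by
  refine no_cover ?_ ?_ B hB hnf
  · simp only [card_C]
    exact tendsto_add_atTop_nat 2
  · intro n
    rw [card_C]
    omega

theorem isClosed_A : IsClosed A := by
  have : A = ⋂ n, (fun x : ∀ n, C n => x n) ⁻¹' {1}ᶜ := by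
    ext x
    simp [A]
  rw [this]
  apply isClosed_iInter
  intro n
  exact (isClosed_discrete _).preimage (continuous_apply n)

/-- Borel Haar-null sets (Christensen): there is a Borel probability measure `μ` vanishing on
all translates. -/
def HaarNull {X : Type} [CommGroup X] [TopologicalSpace X] (B : Set X) : Prop :=
  ∃ μ : @MeasureTheory.Measure X (borel X), μ Set.univ = 1 ∧
    ∀ x : X, μ ((fun b => b * x) '' B) = 0

/-- Borel Haar-meager sets (Darji): there are a nonempty compact metrizable space `K` and a
continuous `f : K → X` with `f⁻¹(B x)` meager for all `x`. -/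
def HaarMeager {X : Type} [CommGroup X] [TopologicalSpace X] (B : Set X) : Prop :=
  ∃ (K : Type) (_ : TopologicalSpace K) (f : K → X), Nonempty K ∧ CompactSpace K ∧
    TopologicalSpace.MetrizableSpace K ∧ Continuous f ∧
      ∀ x : X, IsMeagre (f ⁻¹' ((fun b => b * x) '' B))

theorem image_A (x : ∀ n, C n) : (fun b => b * x) '' A = {y | ∀ n, y n ≠ x n} := by
  ext y
  constructor
  · rintro ⟨a, ha, rfl⟩ n h
    exact ha n (mul_eq_right.1 h)
  · intro h
    refine ⟨y * x⁻¹, fun n h' => h n ?_, by simp⟩
    exact mul_inv_eq_one.1 h'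

theorem haarMeager_A : HaarMeager A := by
  refine ⟨∀ n, C n, inferInstance, id, inferInstance, inferInstance, inferInstance,
    continuous_id, fun x => ?_⟩
  rw [preimage_id, image_A]
  have hcl : IsClosed {y : ∀ n, C n | ∀ n, y n ≠ x n} := by
    rw [← image_A]
    have := (Homeomorph.mulRight x).isClosedMap A isClosed_A
    exact this
  have hint : interior {y : ∀ n, C n | ∀ n, y n ≠ x n} = ∅ := by
    rw [eq_empty_iff_forall_notMem]
    intro y hy
    have h1 : ∀ᶠ t in atTop, Function.update y t (x t) ∈ {y : ∀ n, C n | ∀ n, y n ≠ x n} := by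
      have h2 : Tendsto (fun t => Function.update y t (x t)) atTop (𝓝 y) := by
        rw [tendsto_pi_nhds]
        intro m
        apply tendsto_const_nhds.congr'
        filter_upwards [eventually_ge_atTop (m + 1)] with t ht
        rw [Function.update_of_ne]
        omega
      exact h2 (mem_interior_iff_mem_nhds.1 hy)
    obtain ⟨t, ht⟩ := h1.exists
    exact ht t (by simp)
  have : IsNowhereDense {y : ∀ n, C n | ∀ n, y n ≠ x n} := by
    rw [hcl.isNowhereDense_iff]
    exact hint
  exact this.isMeagre

open MeasureTheory in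
theorem haarNull_A : HaarNull A := by
  have _ : ∀ n, Finite (C n) := fun n => inferInstance
  have _ : ∀ n, Fintype (C n) := fun n => Fintype.ofFinite _
  let _ : ∀ n, MeasurableSpace (C n) := fun n => ⊤
  have _ : ∀ n, BorelSpace (C n) := fun n => ⟨borel_eq_top_of_discrete.symm⟩
  have hb : (MeasurableSpace.pi : MeasurableSpace (∀ n, C n)) = borel (∀ n, C n) :=
    BorelSpace.measurable_eq
  let ν : ∀ n, Measure (C n) := fun n => (PMF.uniformOfFintype (C n)).toMeasure
  have _ : ∀ n, IsProbabilityMeasure (ν n) := fun n => PMF.toMeasure.isProbabilityMeasure _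
  let μ : Measure (∀ n, C n) := Measure.infinitePi ν
  have key : ∀ x : ∀ n, C n, μ ((fun b => b * x) '' A) = 0 := by
    intro x
    have h1 : ∀ N : ℕ, μ ((fun b => b * x) '' A) ≤ ENNReal.ofReal (1 / ((N : ℝ) + 1)) := by
      intro N
      have h2 : (fun b => b * x) '' A ⊆ Set.pi (Finset.range N : Set ℕ) (fun n => {x n}ᶜ) := by
        rw [image_A]
        intro y hy n _
        exact hy n
      refine (measure_mono h2).trans ?_
      rw [Measure.infinitePi_pi ν (fun n _ => MeasurableSpace.measurableSet_top)]
      have h3 : ∀ n, ν n ({x n}ᶜ) = ENNReal.ofReal (((n : ℝ) + 1) / ((n : ℝ) + 2)) := by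
        intro n
        have h4 : ν n ({x n}ᶜ) = (Fintype.card ({x n}ᶜ : Set (C n)) : ENNReal) /
            Fintype.card (C n) := PMF.toMeasure_uniformOfFintype_apply _
              MeasurableSpace.measurableSet_top
        have h5 : Fintype.card (C n) = n + 2 := by
          rw [← Nat.card_eq_fintype_card]
          exact card_C n
        have h6 : Fintype.card ({x n}ᶜ : Set (C n)) = n + 1 := by
          rw [Fintype.card_compl_set, h5]
          simp
        rw [h4, h5, h6, ENNReal.ofReal_div_of_pos (by positivity)]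
        congr 1
        · rw [← ENNReal.ofReal_natCast]
          push_cast
          rfl
        · rw [← ENNReal.ofReal_natCast]
          push_cast
          rfl
      simp only [h3]
      rw [← ENNReal.ofReal_prod_of_nonneg (fun n _ => by positivity)]
      apply ENNReal.ofReal_le_ofReal
      clear h2
      induction N with
      | zero => simp
      | succ N ih =>
        rw [Finset.prod_range_succ]
        refine (mul_le_mul_of_nonneg_right ih (by positivity)).trans (le_of_eq ?_)
        push_cast
        field_simp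
        ring
    have h2 : Tendsto (fun N : ℕ => ENNReal.ofReal (1 / ((N : ℝ) + 1))) atTop (𝓝 0) := by
      have := ENNReal.tendsto_ofReal (tendsto_one_div_add_atTop_nhds_zero_nat (𝕜 := ℝ))
      rwa [ENNReal.ofReal_zero] at this
    exact le_antisymm (ge_of_tendsto' h2 h1) zero_le
  have hμ : μ Set.univ = 1 := measure_univ
  unfold HaarNull
  rw [← hb]
  exact ⟨μ, hμ, key⟩

end Pool.Agent.V11216.NullFiniteCore
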