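import Mathlib

/-!
# Novikov's separation theorem

If `P n` are analytic subsets of a Hausdorff (measurable) space with empty intersection, then
there are Borel sets `Q n ⊇ P n` with empty intersection.
-/

namespace Pool.Agent.V11216.Novikov

open Set MeasureTheory Filter Topology

variable {X : Type*} [TopologicalSpace X] [MeasurableSpace X]

/-- A sequence of sets which can be enlarged to measurable sets with empty intersection. -/
def Sep (S : ℕ → Set X) : Prop :=
  ∃ Q : ℕ → Set X, (∀ n, S n ⊆ Q n) ∧ (∀ n, MeasurableSet (Q n)) ∧ ⋂ n, Q n = ∅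

omit [TopologicalSpace X] in
theorem Sep.mono {S S' : ℕ → Set X} (h : Sep S') (hS : ∀ n, S n ⊆ S' n) : Sep S := by
  obtain ⟨Q, h1, h2, h3⟩ := h
  exact ⟨Q, fun n => (hS n).trans (h1 n), h2, h3⟩

omit [TopologicalSpace X] in
theorem Sep.union (S : ℕ → Set X) (k : ℕ) (V : ℕ → Set X) (hV : S k ⊆ ⋃ v, V v)
    (h : ∀ v, Sep (Function.update S k (V v))) : Sep S := by
  classical
  choose Q h1 h2 h3 using h
  refine ⟨fun n => if n = k then ⋃ v, Q v k else ⋂ v, Q v n, ?_, ?_, ?_⟩
  · intro n
    by_cases hn : n = k
    · subst hn
      simp only [if_true]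
      refine hV.trans (iUnion_mono fun v => ?_)
      have := h1 v n
      rwa [Function.update_self] at this
    · simp only [if_neg hn]
      refine subset_iInter fun v => ?_
      have := h1 v n
      rwa [Function.update_of_ne hn] at this
  · intro n
    by_cases hn : n = k
    · simp only [if_pos hn]
      exact MeasurableSet.iUnion fun v => h2 v k
    · simp only [if_neg hn]
      exact MeasurableSet.iInter fun v => h2 v n
  · rw [eq_empty_iff_forall_notMem]
    intro x hx
    rw [mem_iInter] at hx
    have hk := hx k
    simp only [if_true] at hk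
    obtain ⟨v, hv⟩ := mem_iUnion.1 hk
    have : x ∈ ⋂ n, Q v n := by
      rw [mem_iInter]
      intro n
      by_cases hn : n = k
      · subst hn; exact hv
      · have h4 := hx n
        simp only [if_neg hn] at h4
        exact mem_iInter.1 h4 v
    rw [h3 v] at this
    exact this

/-- Building a sequence by successive extension. -/
theorem exists_seq (P : ℕ → (ℕ → ℕ) → Prop)
    (hdep : ∀ k γ γ', (∀ i < k, γ i = γ' i) → P k γ → P k γ') (h0 : ∃ γ, P 0 γ)
    (hstep : ∀ k γ, P k γ → ∃ v, P (k + 1) (Function.update γ k v)) : ∃ γ, ∀ k, P k γ := by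
  classical
  obtain ⟨γ₀, hγ₀⟩ := h0
  choose! v hv using hstep
  let g : ℕ → (ℕ → ℕ) := fun k => Nat.rec γ₀ (fun k γ => Function.update γ k (v k γ)) k
  have hg : ∀ k, g (k + 1) = Function.update (g k) k (v k (g k)) := fun k => rfl
  have hP : ∀ k, P k (g k) := by
    intro k
    induction k with
    | zero => exact hγ₀
    | succ k ih => rw [hg]; exact hv k _ ih
  have hst : ∀ i k, i < k → g k i = g (i + 1) i := by
    intro i k hik
    induction k with
    | zero => omega
    | succ k ih =>
      rcases Nat.lt_or_ge i k with h | h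
      · rw [hg, Function.update_of_ne (by omega), ih h]
      · obtain rfl : i = k := by omega
        rfl
  refine ⟨fun i => g (i + 1) i, fun k => ?_⟩
  exact hdep k (g k) _ (fun i hi => hst i k hi) (hP k)

omit [MeasurableSpace X] in
theorem exists_finset_coord {f : (ℕ → ℕ) → X} (hf : Continuous f) (α : ℕ → ℕ) {U : Set X}
    (hU : IsOpen U) (hα : f α ∈ U) :
    ∃ I : Finset ℕ, ∀ β : ℕ → ℕ, (∀ i ∈ I, β i = α i) → f β ∈ U := by
  obtain ⟨I, u, hu, hIu⟩ := isOpen_pi_iff.1 (hU.preimage hf) α hα
  refine ⟨I, fun β hβ => ?_⟩
  apply hIu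
  intro i hi
  rw [hβ i hi]
  exact (hu i hi).2

theorem novikov [T2Space X] [OpensMeasurableSpace X] (P : ℕ → Set X)
    (hP : ∀ n, AnalyticSet (P n)) (hempty : ⋂ n, P n = ∅) : Sep P := by
  classical
  by_cases hne : ∃ n, P n = ∅
  · obtain ⟨k, hk⟩ := hne
    refine ⟨fun n => if n = k then ∅ else univ, ?_, ?_, ?_⟩
    · intro n
      by_cases hn : n = k
      · subst hn; simp [hk]
      · simp [hn]
    · intro n
      by_cases hn : n = k
      · simp [hn]
      · simp [hn]
    · rw [eq_empty_iff_forall_notMem]
      intro x hx
      have := mem_iInter.1 hx k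
      simp at this
  push Not at hne
  have hf : ∀ n, ∃ f : (ℕ → ℕ) → X, Continuous f ∧ range f = P n := by
    intro n
    have hPn := hP n
    rw [AnalyticSet] at hPn
    rcases hPn with h | h
    · exact absurd h (hne n).ne_empty
    · exact h
  choose f hfc hfr using hf
  by_contra hsep
  let S : ℕ → (ℕ → ℕ) → ℕ → Set X := fun k γ n =>
    f n '' {β | ∀ i, Nat.pair n i < k → β i = γ (Nat.pair n i)}
  obtain ⟨γ, hγ⟩ := exists_seq (fun k γ => ¬ Sep (S k γ)) (by
    intro k γ γ' h hn hs
    apply hn
    have : S k γ = S k γ' := by
      funext n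
      simp only [S]
      congr 1
      ext β
      simp only [mem_ofPred_eq]
      refine forall_congr' fun i => ?_
      refine imp_congr_right fun hi => ?_
      rw [h _ hi]
    rw [this]
    exact hs) (by
    refine ⟨fun _ => 0, fun hs => hsep (hs.mono ?_)⟩
    intro n
    rw [← hfr n]
    rintro _ ⟨β, rfl⟩
    exact ⟨β, fun i hi => absurd hi (Nat.not_lt_zero _), rfl⟩) (by
    intro k γ hn
    by_contra hall
    push Not at hall
    apply hn
    set n := (Nat.unpair k).1 with hn_def
    set i := (Nat.unpair k).2 with hi_def
    have hk : Nat.pair n i = k := Nat.pair_unpair k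
    apply Sep.union (S k γ) n (fun v => S (k + 1) (Function.update γ k v) n)
    · rintro _ ⟨β, hβ, rfl⟩
      refine mem_iUnion.2 ⟨β i, β, ?_, rfl⟩
      intro i' hi'
      by_cases h : Nat.pair n i' = k
      · have : i' = i := by
          rw [← hk] at h
          exact (Nat.pair_eq_pair.1 h).2
        subst this
        rw [h, Function.update_self]
      · rw [Function.update_of_ne h]
        exact hβ i' (by omega)
    · intro v
      refine (hall v).mono ?_
      intro n'
      by_cases hn' : n' = n
      · rw [hn', Function.update_self]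
      · rw [Function.update_of_ne hn']
        rintro _ ⟨β, hβ, rfl⟩
        refine ⟨β, ?_, rfl⟩
        intro i' hi'
        have h : Nat.pair n' i' ≠ k := by
          intro h
          apply hn'
          rw [hn_def, ← h, Nat.unpair_pair]
        rw [Function.update_of_ne h]
        exact hβ i' (by omega))
  let α : ℕ → ℕ → ℕ := fun n i => γ (Nat.pair n i)
  by_cases hall : ∀ n, f n (α n) = f 0 (α 0)
  · have : f 0 (α 0) ∈ ⋂ n, P n := by
      rw [mem_iInter]
      intro n
      rw [← hall n, ← hfr n]
      exact mem_range_self _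
    rw [hempty] at this
    exact this
  · push Not at hall
    obtain ⟨n, hn⟩ := hall
    have hn0 : n ≠ 0 := by
      rintro rfl
      exact hn rfl
    obtain ⟨U, V, hU, hV, hnU, h0V, hUV⟩ := t2_separation hn
    obtain ⟨I, hI⟩ := exists_finset_coord (hfc n) (α n) hU hnU
    obtain ⟨J, hJ⟩ := exists_finset_coord (hfc 0) (α 0) hV h0V
    let k := (I.sup fun i => Nat.pair n i) + (J.sup fun i => Nat.pair 0 i) + 1
    apply hγ k
    refine ⟨fun m => if m = n then U else if m = 0 then V else univ, ?_, ?_, ?_⟩
    · intro m
      by_cases hm : m = n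
      · subst hm
        simp only [if_true]
        rintro _ ⟨β, hβ, rfl⟩
        apply hI
        intro i hi
        apply hβ
        have : Nat.pair m i ≤ I.sup fun i => Nat.pair m i := Finset.le_sup (f := fun i => Nat.pair m i) hi
        omega
      · by_cases hm0 : m = 0
        · subst hm0
          simp only [if_neg hm, if_true]
          rintro _ ⟨β, hβ, rfl⟩
          apply hJ
          intro i hi
          apply hβ
          have : Nat.pair 0 i ≤ J.sup fun i => Nat.pair 0 i := Finset.le_sup (f := fun i => Nat.pair 0 i) hi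
          omega
        · simp [hm, hm0]
    · intro m
      by_cases hm : m = n
      · simp only [if_pos hm]; exact hU.measurableSet
      · by_cases hm0 : m = 0
        · simp only [if_neg hm, if_pos hm0]; exact hV.measurableSet
        · simp only [if_neg hm, if_neg hm0]; exact MeasurableSet.univ
    · rw [eq_empty_iff_forall_notMem]
      intro x hx
      rw [mem_iInter] at hx
      have h1 := hx n
      have h2 := hx 0
      simp only [if_true] at h1
      simp only [if_neg hn0.symm, if_true] at h2
      exact Set.disjoint_left.1 hUV h1 h2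

end Pool.Agent.V11216.Novikov
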