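import Mathlib

/-!
# Covering a continuum of finite length by a tree of small sets
-/

namespace Pool.Agent.V11216.Nerve

open Set Finset MeasureTheory MeasureTheory.Measure ENNReal Metric

/-- A finite set which is connected with respect to a relation can be enumerated so that every
element but the first is related to an earlier one. -/
theorem exists_enum (F : Finset ℕ) (hF : F.Nonempty) (R : ℕ → ℕ → Prop)
    (hR : ∀ G : Finset ℕ, G ⊆ F → G.Nonempty → G ≠ F → ∃ a ∈ G, ∃ b ∈ F, b ∉ G ∧ R b a) :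
    ∀ j : ℕ, j + 1 ≤ F.card → ∃ (v par : ℕ → ℕ), Set.InjOn v {m | m ≤ j} ∧ (∀ m ≤ j, v m ∈ F) ∧
      par 0 = 0 ∧ ∀ m, 1 ≤ m → m ≤ j → par m < m ∧ R (v m) (v (par m)) := by
  intro j
  induction j with
  | zero =>
    intro _
    obtain ⟨a, ha⟩ := hF
    refine ⟨fun _ => a, fun _ => 0, ?_, fun _ _ => ha, rfl, fun m h1 h2 => by omega⟩
    intro x hx y hy _
    have hx' : x ≤ 0 := hx
    have hy' : y ≤ 0 := hy
    omega
  | succ j ih =>
    intro hj
    obtain ⟨v, par, hinj, hmem, h0, hpar⟩ := ih (by omega)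
    let G : Finset ℕ := (Finset.range (j + 1)).image v
    have hGF : G ⊆ F := by
      intro a ha
      rw [Finset.mem_image] at ha
      obtain ⟨m, hm, rfl⟩ := ha
      exact hmem m (by have := Finset.mem_range.1 hm; omega)
    have hGcard : G.card ≤ j + 1 := by
      refine Finset.card_image_le.trans ?_
      simp
    have hGne : G ≠ F := by
      intro h
      rw [h] at hGcard
      omega
    have hGn : G.Nonempty := ⟨v 0, Finset.mem_image.2 ⟨0, Finset.mem_range.2 (by omega), rfl⟩⟩
    obtain ⟨a, ha, b, hb, hbG, hRba⟩ := hR G hGF hGn hGne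
    rw [Finset.mem_image] at ha
    obtain ⟨m0, hm0, rfl⟩ := ha
    rw [Finset.mem_range] at hm0
    have hbne : ∀ m, m ≤ j → v m ≠ b := by
      intro m hm h
      apply hbG
      rw [Finset.mem_image]
      exact ⟨m, Finset.mem_range.2 (by omega), h⟩
    refine ⟨Function.update v (j + 1) b, Function.update par (j + 1) m0, ?_, ?_, ?_, ?_⟩
    · intro x hx y hy hxy
      have hx' : x ≤ j + 1 := hx
      have hy' : y ≤ j + 1 := hy
      by_cases h1 : x = j + 1
      · by_cases h2 : y = j + 1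
        · omega
        · exfalso
          rw [h1, Function.update_self, Function.update_of_ne h2] at hxy
          exact hbne y (by omega) hxy.symm
      · by_cases h2 : y = j + 1
        · exfalso
          rw [h2, Function.update_self, Function.update_of_ne h1] at hxy
          exact hbne x (by omega) hxy
        · rw [Function.update_of_ne h1, Function.update_of_ne h2] at hxy
          exact hinj (show x ≤ j by omega) (show y ≤ j by omega) hxy
    · intro m hm
      by_cases h : m = j + 1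
      · rw [h, Function.update_self]; exact hb
      · rw [Function.update_of_ne h]; exact hmem m (by omega)
    · rw [Function.update_of_ne (by omega)]; exact h0
    · intro m h1 h2
      by_cases h : m = j + 1
      · subst h
        rw [Function.update_self, Function.update_self, Function.update_of_ne (by omega)]
        exact ⟨hm0, hRba⟩
      · have hm := hpar m h1 (by omega)
        rw [Function.update_of_ne h, Function.update_of_ne h,
          Function.update_of_ne (by omega)]
        exact hm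

variable {E : Type*} [MetricSpace E] [MeasurableSpace E] [BorelSpace E]

/-- A continuum of finite length can be covered by a tree of small sets, the sum of whose
diameters is at most the length up to a given error. -/
theorem exists_tree (W : Set E) (hW : IsCompact W) (hc : IsConnected W)
    (hfin : hausdorffMeasure 1 W < ⊤) {ε δ : ℝ} (hε : 0 < ε) (hδ : 0 < δ) :
    ∃ (n : ℕ) (U : ℕ → Set E) (d : ℕ → ℝ) (par : ℕ → ℕ), par 0 = 0 ∧
      (∀ m, 1 ≤ m → m ≤ n → par m < m) ∧
      (∀ m, 1 ≤ m → m ≤ n → (U m ∩ U (par m)).Nonempty) ∧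
      (∀ m, m ≤ n → ∀ a ∈ U m, ∀ b ∈ U m, dist a b ≤ d m) ∧
      (∀ m, m ≤ n → 0 ≤ d m ∧ d m ≤ δ) ∧ (∀ m, m ≤ n → (U m).Nonempty) ∧
      (∀ x ∈ W, ∃ m ≤ n, x ∈ U m) ∧
      ∑ m ∈ range (n + 1), d m ≤ (hausdorffMeasure 1 W).toReal + ε := by
  -- a good cover
  have hcov : ∃ t : ℕ → Set E, W ⊆ ⋃ n, t n ∧ (∀ n, ediam (t n) ≤ ENNReal.ofReal (δ / 2)) ∧
      ∑' n, (⨆ _ : (t n).Nonempty, ediam (t n) ^ (1 : ℝ)) <
        hausdorffMeasure 1 W + ENNReal.ofReal (ε / 2) := by
    have h1 : (⨅ (t : ℕ → Set E) (_ : W ⊆ ⋃ n, t n) (_ : ∀ n, ediam (t n) ≤ ENNReal.ofReal (δ / 2)),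
          ∑' n, ⨆ _ : (t n).Nonempty, ediam (t n) ^ (1 : ℝ)) <
        hausdorffMeasure 1 W + ENNReal.ofReal (ε / 2) := by
      have h2 : (⨅ (t : ℕ → Set E) (_ : W ⊆ ⋃ n, t n)
          (_ : ∀ n, ediam (t n) ≤ ENNReal.ofReal (δ / 2)),
          ∑' n, ⨆ _ : (t n).Nonempty, ediam (t n) ^ (1 : ℝ)) ≤ hausdorffMeasure 1 W := by
        rw [hausdorffMeasure_apply]
        exact le_iSup₂_of_le (ENNReal.ofReal (δ / 2)) (by simpa using by positivity) le_rfl
      refine lt_of_le_of_lt h2 ?_
      refine ENNReal.lt_add_right hfin.ne ?_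
      simpa using by positivity
    simp only [iInf_lt_iff] at h1
    obtain ⟨t, h2, h3, h4⟩ := h1
    exact ⟨t, h2, h3, h4⟩
  obtain ⟨t, htW, htd, hts⟩ := hcov
  -- radii
  let η : ℕ → ℝ := fun n => min (δ / 4) (ε / 8 * (1 / 2) ^ n)
  have hη0 : ∀ n, 0 < η n := fun n => lt_min (by positivity) (by positivity)
  have hηδ : ∀ n, η n ≤ δ / 4 := fun n => min_le_left _ _
  have hηε : ∀ n, η n ≤ ε / 8 * (1 / 2) ^ n := fun n => min_le_right _ _
  let O : ℕ → Set E := fun n => thickening (η n) (t n)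
  have hO : ∀ n, IsOpen (O n) := fun n => isOpen_thickening
  have hWO : W ⊆ ⋃ n, O n := by
    intro x hx
    obtain ⟨n, hn⟩ := mem_iUnion.1 (htW hx)
    refine mem_iUnion.2 ⟨n, ?_⟩
    exact self_subset_thickening (hη0 n) _ hn
  obtain ⟨F0, hF0⟩ := hW.elim_finite_subcover O hO hWO
  classical
  let F : Finset ℕ := F0.filter fun n => (O n ∩ W).Nonempty
  have hWF : ∀ x ∈ W, ∃ n ∈ F, x ∈ O n := by
    intro x hx
    have := hF0 hx
    simp only [mem_iUnion] at this
    obtain ⟨n, hn, hxn⟩ := this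
    exact ⟨n, Finset.mem_filter.2 ⟨hn, ⟨x, hxn, hx⟩⟩, hxn⟩
  have hFne : ∀ n ∈ F, (O n ∩ W).Nonempty := fun n hn => (Finset.mem_filter.1 hn).2
  have hFn : F.Nonempty := by
    obtain ⟨x, hx⟩ := hc.nonempty
    obtain ⟨n, hn, -⟩ := hWF x hx
    exact ⟨n, hn⟩
  -- the nerve is connected
  have hR : ∀ G : Finset ℕ, G ⊆ F → G.Nonempty → G ≠ F →
      ∃ a ∈ G, ∃ b ∈ F, b ∉ G ∧ (O b ∩ O a).Nonempty := by
    intro G hGF hGn hGne
    obtain ⟨a, ha⟩ := hGn
    obtain ⟨b, hb, hbG⟩ : ∃ b ∈ F, b ∉ G := by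
      by_contra h
      push Not at h
      exact hGne (Finset.Subset.antisymm hGF h)
    have hpre := hc.isPreconnected (⋃ n ∈ G, O n) (⋃ n ∈ F \ G, O n)
      (isOpen_biUnion fun n _ => hO n) (isOpen_biUnion fun n _ => hO n) ?_ ?_ ?_
    · obtain ⟨x, -, hx1, hx2⟩ := hpre
      simp only [mem_iUnion] at hx1 hx2
      obtain ⟨a', ha', hxa⟩ := hx1
      obtain ⟨b', hb', hxb⟩ := hx2
      rw [Finset.mem_sdiff] at hb'
      exact ⟨a', ha', b', hb'.1, hb'.2, ⟨x, hxb, hxa⟩⟩
    · intro x hx
      obtain ⟨n, hn, hxn⟩ := hWF x hx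
      by_cases hnG : n ∈ G
      · exact Or.inl (by simp only [mem_iUnion]; exact ⟨n, hnG, hxn⟩)
      · exact Or.inr (by simp only [mem_iUnion]; exact ⟨n, Finset.mem_sdiff.2 ⟨hn, hnG⟩, hxn⟩)
    · obtain ⟨x, hx, hxW⟩ := hFne a (hGF ha)
      exact ⟨x, hxW, by simp only [mem_iUnion]; exact ⟨a, ha, hx⟩⟩
    · obtain ⟨x, hx, hxW⟩ := hFne b hb
      exact ⟨x, hxW, by simp only [mem_iUnion]; exact ⟨b, Finset.mem_sdiff.2 ⟨hb, hbG⟩, hx⟩⟩
  obtain ⟨n, hn⟩ : ∃ n, F.card = n + 1 := ⟨F.card - 1, by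
    have := Finset.card_pos.2 hFn; omega⟩
  obtain ⟨v, par, hinj, hmem, h0, hpar⟩ := exists_enum F hFn (fun b a => (O b ∩ O a).Nonempty) hR
    n (by omega)
  have himg : (Finset.range (n + 1)).image v = F := by
    apply Finset.eq_of_subset_of_card_le
    · intro a ha
      rw [Finset.mem_image] at ha
      obtain ⟨m, hm, rfl⟩ := ha
      exact hmem m (by have := Finset.mem_range.1 hm; omega)
    · rw [Finset.card_image_of_injOn, Finset.card_range, hn]
      intro x hx y hy h
      have hx' : x < n + 1 := by simpa using hx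
      have hy' : y < n + 1 := by simpa using hy
      exact hinj (show x ≤ n by omega) (show y ≤ n by omega) h
  let dd : ℕ → ℝ := fun n => (ediam (t n)).toReal + 2 * η n
  have htop : ∀ n, ediam (t n) ≠ ⊤ := fun n =>
    ne_top_of_le_ne_top ENNReal.ofReal_ne_top (htd n)
  have hdd : ∀ m, ∀ a ∈ O m, ∀ b ∈ O m, dist a b ≤ dd m := by
    intro m a ha b hb
    rw [mem_thickening_iff] at ha hb
    obtain ⟨a', ha', hda⟩ := ha
    obtain ⟨b', hb', hdb⟩ := hb
    have h1 : dist a' b' ≤ (ediam (t m)).toReal := by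
      rw [dist_edist]
      exact ENNReal.toReal_mono (htop m) (edist_le_ediam_of_mem ha' hb')
    have h2 : dist a b ≤ dist a a' + dist a' b' + dist b' b := dist_triangle4 _ _ _ _
    rw [dist_comm b' b] at h2
    simp only [dd]
    linarith
  have hdd0 : ∀ m, 0 ≤ dd m := fun m => by
    have := hη0 m
    simp only [dd]
    positivity
  have hddδ : ∀ m, dd m ≤ δ := by
    intro m
    have h1 : (ediam (t m)).toReal ≤ δ / 2 := by
      have := ENNReal.toReal_mono ENNReal.ofReal_ne_top (htd m)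
      rwa [ENNReal.toReal_ofReal (by positivity)] at this
    have := hηδ m
    simp only [dd]
    linarith
  refine ⟨n, fun m => O (v m), fun m => dd (v m), par, h0, fun m h1 h2 => (hpar m h1 h2).1,
    fun m h1 h2 => (hpar m h1 h2).2, fun m _ => hdd (v m), fun m _ => ⟨hdd0 _, hddδ _⟩, ?_, ?_, ?_⟩
  · intro m hm
    exact (hFne _ (hmem m hm)).mono inter_subset_left
  · intro x hx
    obtain ⟨a, ha, hxa⟩ := hWF x hx
    rw [← himg, Finset.mem_image] at ha
    obtain ⟨m, hm, rfl⟩ := ha
    exact ⟨m, by have := Finset.mem_range.1 hm; omega, hxa⟩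
  · have hsum : ∑ m ∈ range (n + 1), dd (v m) = ∑ a ∈ F, dd a := by
      rw [← himg, Finset.sum_image]
      intro x hx y hy h
      have hx' : x < n + 1 := by simpa using hx
      have hy' : y < n + 1 := by simpa using hy
      exact hinj (show x ≤ n by omega) (show y ≤ n by omega) h
    rw [hsum]
    simp only [dd]
    rw [Finset.sum_add_distrib]
    have h1 : ∑ a ∈ F, (ediam (t a)).toReal ≤ (hausdorffMeasure 1 W).toReal + ε / 2 := by
      have hne : ∀ a ∈ F, (t a).Nonempty := by
        intro a ha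
        obtain ⟨x, hx, -⟩ := hFne a ha
        rw [mem_thickening_iff] at hx
        obtain ⟨y, hy, -⟩ := hx
        exact ⟨y, hy⟩
      have h2 : ∑ a ∈ F, ediam (t a) ≤ hausdorffMeasure 1 W + ENNReal.ofReal (ε / 2) := by
        have h3 : ∑ a ∈ F, ediam (t a) =
            ∑ a ∈ F, (⨆ _ : (t a).Nonempty, ediam (t a) ^ (1 : ℝ)) := by
          refine Finset.sum_congr rfl fun a ha => ?_
          rw [ciSup_pos (hne a ha), ENNReal.rpow_one]
        rw [h3]
        exact (ENNReal.sum_le_tsum F).trans hts.le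
      rw [← ENNReal.toReal_sum (fun a _ => htop a)]
      have h4 := ENNReal.toReal_mono (by
        exact ENNReal.add_ne_top.2 ⟨hfin.ne, ENNReal.ofReal_ne_top⟩) h2
      rwa [ENNReal.toReal_add hfin.ne ENNReal.ofReal_ne_top, ENNReal.toReal_ofReal
        (by positivity)] at h4
    have h2 : ∑ a ∈ F, 2 * η a ≤ ε / 2 := by
      have h3 : ∑ a ∈ F, 2 * η a ≤ ∑ a ∈ F, ε / 4 * (1 / 2) ^ a := by
        refine Finset.sum_le_sum fun a _ => ?_
        have := hηε a
        linarith
      refine h3.trans ?_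
      rw [← Finset.mul_sum]
      have h4 : ∑ a ∈ F, ((1 : ℝ) / 2) ^ a ≤ 2 := by
        have := summable_geometric_two.sum_le_tsum F (fun i _ => by positivity)
        rwa [tsum_geometric_two] at this
      nlinarith
    linarith

end Pool.Agent.V11216.Nerve
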