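import Mathlib

/-!
# Flows on trees of small sets and a lower bound for the length of a continuum
-/

namespace Pool.Agent.V11216.TreeFlow

open Set Finset

variable {E : Type*} [NormedAddCommGroup E] [InnerProductSpace ℝ E]
variable {ι : Type*} [Fintype ι] [DecidableEq ι]

/-- the terminals sitting below the vertex `m`, when `par` is the parent map and the terminal `i`
sits at the vertex `k i`. -/
def Below (par : ℕ → ℕ) (k : ι → ℕ) (m : ℕ) : Set ι := {i | ∃ t : ℕ, par^[t] (k i) = m}

theorem iterate_le {par : ℕ → ℕ} {n : ℕ} (hpar : ∀ m, 1 ≤ m → m ≤ n → par m < m)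
    (h0 : par 0 = 0) (t : ℕ) {a : ℕ} (ha : a ≤ n) : par^[t] a ≤ a := by
  induction t with
  | zero => simp
  | succ t ih =>
    rw [Function.iterate_succ_apply']
    rcases Nat.eq_zero_or_pos (par^[t] a) with h | h
    · rw [h, h0]; omega
    · have := hpar _ h (by omega)
      omega

/-- blocks of terminals below vertices are nested or disjoint -/
theorem laminar (par : ℕ → ℕ) (k : ι → ℕ) (m m' : ℕ) :
    Below par k m ⊆ Below par k m' ∨ Below par k m' ⊆ Below par k m ∨
      Disjoint (Below par k m) (Below par k m') := by
  by_cases h : Disjoint (Below par k m) (Below par k m')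
  · exact Or.inr (Or.inr h)
  rw [Set.not_disjoint_iff] at h
  obtain ⟨i, ⟨t, ht⟩, ⟨t', ht'⟩⟩ := h
  rcases le_total t t' with h | h
  · left
    rintro j ⟨s, hs⟩
    refine ⟨(t' - t) + s, ?_⟩
    rw [Function.iterate_add_apply, hs, ← ht, ← Function.iterate_add_apply]
    rw [Nat.sub_add_cancel h, ht']
  · right; left
    rintro j ⟨s, hs⟩
    refine ⟨(t - t') + s, ?_⟩
    rw [Function.iterate_add_apply, hs, ← ht', ← Function.iterate_add_apply]
    rw [Nat.sub_add_cancel h, ht]

open Classical in
/-- The flow bound on a tree of sets. -/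
theorem flow_bound (U : ℕ → Set E) (d : ℕ → ℝ) (δ : ℝ) (par : ℕ → ℕ) (e : ι → E)
    (hsum : ∑ i, e i = 0) (hδ : 0 ≤ δ) (h0 : par 0 = 0) :
    ∀ (n : ℕ), (∀ m, 1 ≤ m → m ≤ n → par m < m) →
      (∀ m, 1 ≤ m → m ≤ n → (U m ∩ U (par m)).Nonempty) →
      (∀ m, m ≤ n → ∀ a ∈ U m, ∀ b ∈ U m, dist a b ≤ d m) →
      (∀ m, m ≤ n → 0 ≤ d m ∧ d m ≤ δ) →
      ∀ (k : ι → ℕ) (x : ℕ → E), (∀ i, k i ≤ n) → (∀ m, m ≤ n → x m ∈ U m) →
        (∀ m, 1 ≤ m → m ≤ n → ‖∑ i with i ∈ Below par k m, e i‖ ≤ 1) →
        ∑ i, inner ℝ (e i) (x (k i)) ≤
          ∑ m ∈ range (n + 1), d m + δ * ((univ : Finset ι).image k).card := by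
  intro n
  induction n with
  | zero =>
    intro _ _ _ hd k x hk _ _
    have : ∀ i, k i = 0 := fun i => by have := hk i; omega
    simp only [this]
    rw [← sum_inner, hsum, inner_zero_left]
    have := (hd 0 le_rfl).1
    simp only [zero_add, sum_range_one]
    positivity
  | succ n ih =>
    intro hpar hne hdiam hd k x hk hx hval
    set l := par (n + 1) with hl
    have hln : l < n + 1 := hpar (n + 1) (by omega) le_rfl
    obtain ⟨z, hz1, hz2⟩ := hne (n + 1) (by omega) le_rfl
    have hpar' : ∀ m, 1 ≤ m → m ≤ n → par m < m := fun m h1 h2 => hpar m h1 (by omega)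
    have hne' : ∀ m, 1 ≤ m → m ≤ n → (U m ∩ U (par m)).Nonempty :=
      fun m h1 h2 => hne m h1 (by omega)
    have hdiam' : ∀ m, m ≤ n → ∀ a ∈ U m, ∀ b ∈ U m, dist a b ≤ d m :=
      fun m h => hdiam m (by omega)
    have hd' : ∀ m, m ≤ n → 0 ≤ d m ∧ d m ≤ δ := fun m h => hd m (by omega)
    -- the new location map
    let k' : ι → ℕ := fun i => if k i = n + 1 then l else k i
    have hk' : ∀ i, k' i ≤ n := by
      intro i
      by_cases h : k i = n + 1
      · simp only [k', h, if_true]; omega
      · have := hk i
        simp only [k', h, if_false]; omega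
    have hbelow : ∀ m, 1 ≤ m → m ≤ n → Below par k' m = Below par k m := by
      intro m h1 h2
      ext i
      by_cases h : k i = n + 1
      · have e1 : k' i = l := by simp [k', h]
        constructor
        · rintro ⟨t, ht⟩
          refine ⟨t + 1, ?_⟩
          rw [Function.iterate_succ_apply, h, ← hl, ← e1, ht]
        · rintro ⟨t, ht⟩
          cases t with
          | zero => simp only [Function.iterate_zero, id_eq] at ht; omega
          | succ t =>
            refine ⟨t, ?_⟩
            rw [Function.iterate_succ_apply, h, ← hl, ← e1] at ht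
            exact ht
      · have e1 : k' i = k i := by simp [k', h]
        simp only [Below, Set.mem_setOf_eq, e1]
    have hval' : ∀ m, 1 ≤ m → m ≤ n → ‖∑ i with i ∈ Below par k' m, e i‖ ≤ 1 := by
      intro m h1 h2
      rw [hbelow m h1 h2]
      exact hval m h1 (by omega)
    -- the block at the last vertex
    have hlast : Below par k (n + 1) = {i | k i = n + 1} := by
      ext i
      constructor
      · rintro ⟨t, ht⟩
        by_contra h
        have h1 : k i ≤ n := by
          have := hk i
          have h2 : k i ≠ n + 1 := h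
          omega
        have := iterate_le hpar' h0 t h1
        omega
      · intro h
        exact ⟨0, h⟩
    have hJ : ‖∑ i with k i = n + 1, e i‖ ≤ 1 := by
      have := hval (n + 1) (by omega) le_rfl
      rw [hlast] at this
      simpa using this
    have hcard : ((univ : Finset ι).image k').card ≤ ((univ : Finset ι).image k).card := by
      have : (univ : Finset ι).image k' = ((univ : Finset ι).image k).image
          (fun a => if a = n + 1 then l else a) := by
        rw [Finset.image_image]; rfl
      rw [this]
      exact Finset.card_image_le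
    by_cases hJe : ∃ i, k i = n + 1
    swap
    · push Not at hJe
      have e1 : k' = k := by
        funext i; simp [k', hJe i]
      have := ih hpar' hne' hdiam' hd' k' x hk' (fun m hm => hx m (by omega)) hval'
      rw [e1] at this
      refine this.trans ?_
      rw [Finset.sum_range_succ (n := n + 1)]
      have := (hd (n + 1) le_rfl).1
      linarith
    by_cases hlo : ∃ i, k i = l
    · -- merge at an occupied vertex
      have hIH := ih hpar' hne' hdiam' hd' k' x hk' (fun m hm => hx m (by omega)) hval'
      have hcard' : ((univ : Finset ι).image k').card + 1 ≤ ((univ : Finset ι).image k).card := by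
        have hsub : (univ : Finset ι).image k' ⊆ ((univ : Finset ι).image k).erase (n + 1) := by
          intro a ha
          rw [Finset.mem_image] at ha
          obtain ⟨i, -, rfl⟩ := ha
          rw [Finset.mem_erase]
          refine ⟨by have := hk' i; omega, ?_⟩
          by_cases h : k i = n + 1
          · obtain ⟨j, hj⟩ := hlo
            rw [Finset.mem_image]
            exact ⟨j, Finset.mem_univ _, by simp [k', h, hj]⟩
          · rw [Finset.mem_image]
            exact ⟨i, Finset.mem_univ _, by simp [k', h]⟩
        have hmem : n + 1 ∈ (univ : Finset ι).image k := by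
          obtain ⟨i, hi⟩ := hJe
          rw [Finset.mem_image]; exact ⟨i, Finset.mem_univ _, hi⟩
        have := Finset.card_le_card hsub
        rw [Finset.card_erase_of_mem hmem] at this
        have hpos : 0 < ((univ : Finset ι).image k).card := Finset.card_pos.2 ⟨_, hmem⟩
        omega
      have hdiff : ∑ i, inner ℝ (e i) (x (k i)) - ∑ i, inner ℝ (e i) (x (k' i)) =
          inner ℝ (∑ i with k i = n + 1, e i) (x (n + 1) - x l) := by
        rw [← Finset.sum_sub_distrib, sum_inner, Finset.sum_filter]
        refine Finset.sum_congr rfl fun i _ => ?_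
        by_cases h : k i = n + 1
        · simp [k', h, inner_sub_right]
        · simp [k', h]
      have hcs : inner ℝ (∑ i with k i = n + 1, e i) (x (n + 1) - x l) ≤ d (n + 1) + δ := by
        refine (real_inner_le_norm _ _).trans ?_
        have h1 : ‖x (n + 1) - x l‖ ≤ d (n + 1) + δ := by
          rw [← dist_eq_norm]
          refine (dist_triangle _ z _).trans (add_le_add ?_ ?_)
          · exact hdiam (n + 1) le_rfl _ (hx _ le_rfl) _ hz1
          · exact (hdiam l (by omega) _ hz2 _ (hx _ (by omega))).trans (hd l (by omega)).2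
        calc ‖∑ i with k i = n + 1, e i‖ * ‖x (n + 1) - x l‖ ≤ 1 * ‖x (n + 1) - x l‖ :=
              mul_le_mul_of_nonneg_right hJ (norm_nonneg _)
          _ ≤ _ := by rw [one_mul]; exact h1
      rw [Finset.sum_range_succ (n := n + 1)]
      have hc : ((((univ : Finset ι).image k').card : ℝ)) + 1 ≤
          (((univ : Finset ι).image k).card : ℝ) := by exact_mod_cast hcard'
      nlinarith [mul_le_mul_of_nonneg_left hc hδ]
    · -- move to an unoccupied vertex
      push Not at hlo
      let x' : ℕ → E := Function.update x l z
      have hx' : ∀ m, m ≤ n → x' m ∈ U m := by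
        intro m hm
        by_cases h : m = l
        · subst h; simp only [x', Function.update_self]; exact hz2
        · simp only [x', Function.update_of_ne h]; exact hx m (by omega)
      have hIH := ih hpar' hne' hdiam' hd' k' x' hk' hx' hval'
      have hdiff : ∑ i, inner ℝ (e i) (x (k i)) - ∑ i, inner ℝ (e i) (x' (k' i)) =
          inner ℝ (∑ i with k i = n + 1, e i) (x (n + 1) - z) := by
        rw [← Finset.sum_sub_distrib, sum_inner, Finset.sum_filter]
        refine Finset.sum_congr rfl fun i _ => ?_
        by_cases h : k i = n + 1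
        · simp [k', x', h, inner_sub_right]
        · simp [k', x', h, Function.update_of_ne (hlo i)]
      have hcs : inner ℝ (∑ i with k i = n + 1, e i) (x (n + 1) - z) ≤ d (n + 1) := by
        refine (real_inner_le_norm _ _).trans ?_
        have h1 : ‖x (n + 1) - z‖ ≤ d (n + 1) := by
          rw [← dist_eq_norm]
          exact hdiam (n + 1) le_rfl _ (hx _ le_rfl) _ hz1
        calc ‖∑ i with k i = n + 1, e i‖ * ‖x (n + 1) - z‖ ≤ 1 * ‖x (n + 1) - z‖ :=
              mul_le_mul_of_nonneg_right hJ (norm_nonneg _)
          _ ≤ _ := by rw [one_mul]; exact h1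
      rw [Finset.sum_range_succ (n := n + 1)]
      have hc : ((((univ : Finset ι).image k').card : ℝ)) ≤
          (((univ : Finset ι).image k).card : ℝ) := by exact_mod_cast hcard
      nlinarith [mul_le_mul_of_nonneg_left hc hδ]

end Pool.Agent.V11216.TreeFlow
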