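import Mathlib
import Pool.Agent.V11216.TreeFlow
import Pool.Agent.V11216.Nerve

/-!
# A lower bound for the length of a continuum by flows
-/

namespace Pool.Agent.V11216.LengthGe

open Set Finset MeasureTheory MeasureTheory.Measure ENNReal Metric
open Pool.Agent.V11216.TreeFlow Pool.Agent.V11216.Nerve

variable {E : Type*} [NormedAddCommGroup E] [InnerProductSpace ℝ E] [MeasurableSpace E]
  [BorelSpace E]
variable {ι : Type*} [Fintype ι]

open Classical in
theorem length_ge (W : Set E) (hW : IsCompact W) (hc : IsConnected W) (P : ι → E)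
    (hP : ∀ i, P i ∈ W) (L C : ℝ) (hC : 0 ≤ C)
    (H : ∀ (F : Set (Set ι)), (∀ I ∈ F, ∀ J ∈ F, I ⊆ J ∨ J ⊆ I ∨ Disjoint I J) →
      ∃ e : ι → E, ∑ i, e i = 0 ∧ (∀ I ∈ F, ‖∑ i with i ∈ I, e i‖ ≤ 1) ∧ (∀ i, ‖e i‖ ≤ C) ∧
        L ≤ ∑ i, inner ℝ (e i) (P i)) :
    ENNReal.ofReal L ≤ hausdorffMeasure 1 W := by
  classical
  rcases eq_or_ne (hausdorffMeasure 1 W) ⊤ with htop | htop
  · rw [htop]; exact le_top
  have hfin : hausdorffMeasure 1 W < ⊤ := lt_top_iff_ne_top.2 htop
  rw [ENNReal.ofReal_le_iff_le_toReal htop]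
  refine le_of_forall_pos_le_add fun ε hε => ?_
  set N : ℝ := (Fintype.card ι : ℝ) with hN
  have hN0 : 0 ≤ N := by positivity
  obtain ⟨n, U, d, par, h0, hpar, hne, hdiam, hd, hUne, hcov, hsum⟩ :=
    exists_tree W hW hc hfin (half_pos hε) (δ := ε / (2 * (N + N * C + 1))) (by positivity)
  set δ := ε / (2 * (N + N * C + 1)) with hδ
  have hδ0 : 0 < δ := by positivity
  choose k hk hPk using fun i => hcov (P i) (hP i)
  have hxex : ∀ m, ∃ x : E, m ≤ n → x ∈ U m := by
    intro m
    by_cases h : m ≤ n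
    · obtain ⟨x, hx⟩ := hUne m h
      exact ⟨x, fun _ => hx⟩
    · exact ⟨0, fun h' => absurd h' h⟩
  choose x hx using hxex
  obtain ⟨e, he0, heF, heC, heL⟩ := H (Set.range (Below par k)) (by
    rintro I ⟨m, rfl⟩ J ⟨m', rfl⟩
    exact laminar par k m m')
  have hb := flow_bound U d δ par e he0 hδ0.le h0 n hpar hne hdiam hd k x hk hx
    (fun m _ _ => by
      have := heF _ ⟨m, rfl⟩
      convert this)
  have hcard : ((((univ : Finset ι).image k).card : ℝ)) ≤ N := by
    have h1 : ((univ : Finset ι).image k).card ≤ (univ : Finset ι).card := Finset.card_image_le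
    rw [hN]
    exact_mod_cast h1
  have hdiff : ∑ i, inner ℝ (e i) (P i) ≤ ∑ i, inner ℝ (e i) (x (k i)) + N * C * δ := by
    have h1 : ∀ i, inner ℝ (e i) (P i) ≤ inner ℝ (e i) (x (k i)) + C * δ := by
      intro i
      have h2 : inner ℝ (e i) (P i - x (k i)) ≤ C * δ := by
        refine (real_inner_le_norm _ _).trans ?_
        refine mul_le_mul (heC i) ?_ (norm_nonneg _) hC
        rw [← dist_eq_norm]
        exact (hdiam (k i) (hk i) _ (hPk i) _ (hx _ (hk i))).trans (hd _ (hk i)).2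
      rw [inner_sub_right] at h2
      linarith
    calc ∑ i, inner ℝ (e i) (P i) ≤ ∑ i, (inner ℝ (e i) (x (k i)) + C * δ) :=
          Finset.sum_le_sum fun i _ => h1 i
      _ = _ := by
          rw [Finset.sum_add_distrib, Finset.sum_const, Finset.card_univ, nsmul_eq_mul, hN]
          ring
  have h3 : δ * ((((univ : Finset ι).image k).card : ℝ)) ≤ δ * N :=
    mul_le_mul_of_nonneg_left hcard hδ0.le
  have h4 : δ * (N + N * C + 1) = ε / 2 := by
    rw [hδ]; field_simp
  nlinarith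

end Pool.Agent.V11216.LengthGe
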