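import Mathlib

/-!
# Combinatorics of the partitions of eight terminals
-/

namespace Pool.Agent.V11216.SqComb

/-- index of the terminals: two signs, and whether it is an outer terminal -/
abbrev Idx := Bool × Bool × Bool

/-- sign -/
def sg (b : Bool) : ℤ := if b then 1 else -1

/-- integer weights -/
def wA (i : Idx) : ℤ := if i.2.2 then sg i.1 else 0
/-- integer weights -/
def wB (i : Idx) : ℤ := if i.2.2 then sg i.2.1 else 0
/-- integer weights -/
def wC (i : Idx) : ℤ := if i.2.2 then 0 else sg i.1
/-- integer weights -/
def wD (i : Idx) : ℤ := if i.2.2 then 0 else sg i.2.1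

/-- weighted count -/
def tot (w : Idx → ℤ) (b : Idx → Bool) : ℤ :=
  (if b (true, true, true) then w (true, true, true) else 0) +
  (if b (true, true, false) then w (true, true, false) else 0) +
  (if b (true, false, true) then w (true, false, true) else 0) +
  (if b (true, false, false) then w (true, false, false) else 0) +
  (if b (false, true, true) then w (false, true, true) else 0) +
  (if b (false, true, false) then w (false, true, false) else 0) +
  (if b (false, false, true) then w (false, false, true) else 0) +
  (if b (false, false, false) then w (false, false, false) else 0)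

/-- does the block meet the cluster? -/
def meets (b : Idx → Bool) (v : Bool) (x y : Bool) : Prop := b (x, y, true) = v ∨ b (x, y, false) = v

instance (b : Idx → Bool) (v x y : Bool) : Decidable (meets b v x y) := by
  unfold meets; infer_instance

/-- the block or its complement meets two clusters -/
def two (b : Idx → Bool) (v : Bool) : Prop :=
  ∃ x y x' y' : Bool, (x ≠ x' ∨ y ≠ y') ∧ meets b v x y ∧ meets b v x' y'

/-- the block or its complement meets three clusters -/
def three (b : Idx → Bool) (v : Bool) : Prop :=
  ∃ x y : Bool, meets b v x y ∧ meets b v (!x) y ∧ meets b v x (!y)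

instance (b : Idx → Bool) (v : Bool) : Decidable (two b v) := by
  unfold two; infer_instance

instance (b : Idx → Bool) (v : Bool) : Decidable (three b v) := by
  unfold three; infer_instance

/-- bad partitions -/
def bad (b : Idx → Bool) : Prop := ∃ v : Bool, two b v ∧ three b (!v)

instance (b : Idx → Bool) : Decidable (bad b) := by
  unfold bad; infer_instance

/-- validity for the first flow -/
def Sval (b : Idx → Bool) : Prop := tot wA b ^ 2 + 3 * tot wB b ^ 2 ≤ 4

instance (b : Idx → Bool) : Decidable (Sval b) := by
  unfold Sval; infer_instance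

/-- rational part -/
def qX (A B C D : ℤ) : ℤ := (A - C) ^ 2 + 3 * C ^ 2 + 3 * (B - D) ^ 2 + D ^ 2
/-- irrational part -/
def qY (A B C D : ℤ) : ℤ := 2 * (C * (A - C) + D * (B - D))

/-- validity for the second flow -/
def Tval (b : Idx → Bool) : Prop :=
  qY (tot wA b) (tot wB b) (tot wC b) (tot wD b) ≤ 0 ∧
  10 * qX (tot wA b) (tot wB b) (tot wC b) (tot wD b) +
    17 * qY (tot wA b) (tot wB b) (tot wC b) (tot wD b) ≤ 40

instance (b : Idx → Bool) : Decidable (Tval b) := by
  unfold Tval; infer_instance

/-- build a block from its eight membership bits -/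
def mk (b0 b1 b2 b3 b4 b5 b6 b7 : Bool) : Idx → Bool
  | (true, true, true) => b0
  | (true, true, false) => b1
  | (true, false, true) => b2
  | (true, false, false) => b3
  | (false, true, true) => b4
  | (false, true, false) => b5
  | (false, false, true) => b6
  | (false, false, false) => b7

theorem eq_mk (b : Idx → Bool) : b = mk (b (true, true, true)) (b (true, true, false))
    (b (true, false, true)) (b (true, false, false)) (b (false, true, true))
    (b (false, true, false)) (b (false, false, true)) (b (false, false, false)) := by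
  funext ⟨x, y, z⟩
  cases x <;> cases y <;> cases z <;> rfl

theorem comb1_mk : ∀ b0 b1 b2 b3 b4 b5 b6 b7 : Bool,
    bad (mk b0 b1 b2 b3 b4 b5 b6 b7) ∨ Sval (mk b0 b1 b2 b3 b4 b5 b6 b7) ∨
      ∃ v : Bool, ∀ x y z : Bool, mk b0 b1 b2 b3 b4 b5 b6 b7 (x, y, z) = (y == v) := by
  decide +kernel

theorem comb2_mk : ∀ b0 b1 b2 b3 b4 b5 b6 b7 : Bool,
    bad (mk b0 b1 b2 b3 b4 b5 b6 b7) ∨ Tval (mk b0 b1 b2 b3 b4 b5 b6 b7) ∨
      ∃ v : Bool, ∀ x y z : Bool, mk b0 b1 b2 b3 b4 b5 b6 b7 (x, y, z) = (x == v) := by
  decide +kernel

theorem comb1 (b : Idx → Bool) : bad b ∨ Sval b ∨ ∃ v : Bool, ∀ x y z : Bool, b (x, y, z) = (y == v) := by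
  rw [eq_mk b]
  exact comb1_mk _ _ _ _ _ _ _ _

theorem comb2 (b : Idx → Bool) : bad b ∨ Tval b ∨ ∃ v : Bool, ∀ x y z : Bool, b (x, y, z) = (x == v) := by
  rw [eq_mk b]
  exact comb2_mk _ _ _ _ _ _ _ _

end Pool.Agent.V11216.SqComb
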