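import Mathlib
import Pool.Agent.V11216.LengthGe
import Pool.Agent.V11216.SqComb

/-!
# The lower bound for the eight-point configuration
-/

namespace Pool.Agent.V11216.SqMain

open Set Finset MeasureTheory MeasureTheory.Measure ENNReal Metric
open Pool.Agent.V11216.SqComb Pool.Agent.V11216.LengthGe

/-- the plane -/
abbrev Pl := EuclideanSpace ℝ (Fin 2)

/-- real sign -/
noncomputable def sr (b : Bool) : ℝ := if b then 1 else -1

theorem sr_sq (b : Bool) : sr b * sr b = 1 := by cases b <;> simp [sr]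

theorem sr_sq' (b : Bool) : sr b ^ 2 = 1 := by cases b <;> simp [sr]

theorem sr_not (b : Bool) : sr (!b) = - sr b := by cases b <;> simp [sr]

theorem sr_cast (b : Bool) : ((sg b : ℤ) : ℝ) = sr b := by cases b <;> simp [sr, sg]

theorem inner_pl (a b c d : ℝ) : inner ℝ (!₂[a, b] : Pl) !₂[c, d] = a * c + b * d := by
  simp [PiLp.inner_apply, Fin.sum_univ_two]
  ring

theorem inner_pl' (a b : ℝ) (v : Pl) : inner ℝ (!₂[a, b] : Pl) v = a * v 0 + b * v 1 := by
  simp [PiLp.inner_apply, Fin.sum_univ_two]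
  ring

theorem norm_le_of_sq {v : Pl} {t : ℝ} (ht : 0 ≤ t) (h : v 0 ^ 2 + v 1 ^ 2 ≤ t ^ 2) : ‖v‖ ≤ t := by
  rw [EuclideanSpace.norm_eq, Fin.sum_univ_two]
  rw [Real.norm_eq_abs, Real.norm_eq_abs, sq_abs, sq_abs]
  exact Real.sqrt_le_iff.2 ⟨ht, h⟩

theorem norm_sq_pl (v : Pl) : ‖v‖ ^ 2 = v 0 ^ 2 + v 1 ^ 2 := by
  rw [EuclideanSpace.norm_eq, Fin.sum_univ_two, Real.sq_sqrt (by positivity)]
  simp

/-- the constants -/
noncomputable def s3 : ℝ := Real.sqrt 3

theorem s3_sq : s3 * s3 = 3 := Real.mul_self_sqrt (by norm_num)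
theorem s3_pos : 0 < s3 := Real.sqrt_pos.2 (by norm_num)
theorem s3_lt : s3 < 1.7321 := by
  rw [s3, Real.sqrt_lt' (by norm_num)]; norm_num
theorem s3_gt : 1.7 < s3 := by
  rw [s3, Real.lt_sqrt (by norm_num)]; norm_num

/-- the first flow -/
noncomputable def eS (i : Idx) : Pl :=
  if i.2.2 then !₂[sr i.1 / 2, sr i.2.1 * s3 / 2] else 0

/-- the second flow -/
noncomputable def eT (i : Idx) : Pl :=
  if i.2.2 then !₂[sr i.1 / 2, sr i.2.1 * s3 / 2]
  else !₂[sr i.1 * (s3 - 1) / 2, - sr i.2.1 * (s3 - 1) / 2]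

/-- the corner of the square belonging to a terminal -/
noncomputable def cl (i : Idx) : Pl := !₂[sr i.1 / 2, sr i.2.1 / 2]

theorem norm_eS (i : Idx) : ‖eS i‖ ≤ 1 := by
  apply norm_le_of_sq zero_le_one
  have h3 := s3_sq
  obtain ⟨x, y, z⟩ := i
  cases z
  · simp [eS]
  · simp only [eS, if_true]
    have := sr_sq' x
    have := sr_sq' y
    simp
    nlinarith

theorem norm_eT_out (x y : Bool) : ‖eT (x, y, true)‖ ≤ 1 := by
  have := norm_eS (x, y, true)
  simpa [eS, eT] using this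

theorem norm_eT_in (x y : Bool) : ‖eT (x, y, false)‖ = (s3 - 1) * Real.sqrt 2 / 2 := by
  have h1 : 0 ≤ (s3 - 1) * Real.sqrt 2 / 2 := by
    have := s3_gt
    have : 0 ≤ s3 - 1 := by linarith
    positivity
  have h2 : ‖eT (x, y, false)‖ ^ 2 = ((s3 - 1) * Real.sqrt 2 / 2) ^ 2 := by
    rw [norm_sq_pl]
    have hx := sr_sq' x
    have hy := sr_sq' y
    have h22 : Real.sqrt 2 ^ 2 = 2 := Real.sq_sqrt (by norm_num)
    simp only [eT, Bool.false_eq_true, if_false]
    simp
    ring_nf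
    rw [hx, hy, h22]
    ring
  exact (pow_left_inj₀ (norm_nonneg _) h1 two_ne_zero).1 h2

theorem norm_eT (i : Idx) : ‖eT i‖ ≤ 1 := by
  obtain ⟨x, y, z⟩ := i
  cases z
  · rw [norm_eT_in]
    have h1 := s3_lt
    have h2 := s3_gt
    have h3 : Real.sqrt 2 ≤ 1.5 := by
      rw [Real.sqrt_le_iff]; norm_num
    have h4 : 0 ≤ Real.sqrt 2 := Real.sqrt_nonneg _
    nlinarith
  · exact norm_eT_out x y

theorem sum_idx (f : Idx → ℝ) : ∑ i, f i = f (true, true, true) + f (true, true, false) +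
    f (true, false, true) + f (true, false, false) + f (false, true, true) + f (false, true, false)
    + f (false, false, true) + f (false, false, false) := by
  rw [Fintype.sum_prod_type]
  simp only [Fintype.sum_prod_type, Fintype.sum_bool]
  ring

theorem sum_idx' (f : Idx → Pl) : ∑ i, f i = f (true, true, true) + f (true, true, false) +
    f (true, false, true) + f (true, false, false) + f (false, true, true) + f (false, true, false)
    + f (false, false, true) + f (false, false, false) := by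
  rw [Fintype.sum_prod_type]
  simp only [Fintype.sum_prod_type, Fintype.sum_bool]
  abel

open Classical in
theorem sum_coord (I : Set Idx) (f : Idx → Pl) (j : Fin 2) :
    (∑ i with i ∈ I, f i) j = ∑ i, if i ∈ I then f i j else 0 := by
  rw [Finset.sum_filter]
  rw [WithLp.ofLp_sum, Finset.sum_apply]
  refine Finset.sum_congr rfl fun i _ => ?_
  split_ifs <;> rfl

open Classical in
/-- the membership bits -/
noncomputable def bits (I : Set Idx) : Idx → Bool := fun i => decide (i ∈ I)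

open Classical in
theorem tot_cast (I : Set Idx) (w : Idx → ℤ) :
    ((tot w (bits I) : ℤ) : ℝ) = ∑ i, if i ∈ I then ((w i : ℤ) : ℝ) else 0 := by
  rw [sum_idx]
  simp only [tot, bits, decide_eq_true_eq]
  push_cast
  rfl

open Classical in
theorem S_valid (I : Set Idx) (h : Sval (bits I)) : ‖∑ i with i ∈ I, eS i‖ ≤ 1 := by
  apply norm_le_of_sq zero_le_one
  rw [sum_coord, sum_coord]
  have e0 : (∑ i, if i ∈ I then eS i 0 else 0) = ((tot wA (bits I) : ℤ) : ℝ) / 2 := by
    rw [tot_cast, Finset.sum_div]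
    refine Finset.sum_congr rfl fun i _ => ?_
    obtain ⟨x, y, z⟩ := i
    split_ifs
    · cases z <;> simp [eS, wA, sr_cast]
    · simp
  have e1 : (∑ i, if i ∈ I then eS i 1 else 0) = ((tot wB (bits I) : ℤ) : ℝ) * s3 / 2 := by
    rw [tot_cast, Finset.sum_mul, Finset.sum_div]
    refine Finset.sum_congr rfl fun i _ => ?_
    obtain ⟨x, y, z⟩ := i
    split_ifs
    · cases z <;> simp [eS, wB, sr_cast]
    · simp
  rw [e0, e1]
  have h1 : ((tot wA (bits I) : ℤ) : ℝ) ^ 2 + 3 * ((tot wB (bits I) : ℤ) : ℝ) ^ 2 ≤ 4 := by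
    exact_mod_cast h
  have h3 := s3_sq
  have : (((tot wB (bits I) : ℤ) : ℝ) * s3 / 2) ^ 2 = ((tot wB (bits I) : ℤ) : ℝ) ^ 2 * (s3 * s3) / 4 := by
    ring
  rw [this, h3]
  nlinarith

open Classical in
theorem T_valid (I : Set Idx) (h : Tval (bits I)) : ‖∑ i with i ∈ I, eT i‖ ≤ 1 := by
  apply norm_le_of_sq zero_le_one
  rw [sum_coord, sum_coord]
  have e0 : (∑ i, if i ∈ I then eT i 0 else 0) =
      ((tot wA (bits I) : ℤ) : ℝ) / 2 + ((tot wC (bits I) : ℤ) : ℝ) * (s3 - 1) / 2 := by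
    rw [tot_cast, tot_cast, Finset.sum_mul, Finset.sum_div, Finset.sum_div,
      ← Finset.sum_add_distrib]
    refine Finset.sum_congr rfl fun i _ => ?_
    obtain ⟨x, y, z⟩ := i
    split_ifs
    · cases z <;> simp [eT, wA, wC, sr_cast]
    · simp
  have e1 : (∑ i, if i ∈ I then eT i 1 else 0) =
      ((tot wB (bits I) : ℤ) : ℝ) * s3 / 2 - ((tot wD (bits I) : ℤ) : ℝ) * (s3 - 1) / 2 := by
    rw [tot_cast, tot_cast, Finset.sum_mul, Finset.sum_mul, Finset.sum_div, Finset.sum_div,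
      ← Finset.sum_sub_distrib]
    refine Finset.sum_congr rfl fun i _ => ?_
    obtain ⟨x, y, z⟩ := i
    split_ifs
    · cases z <;> simp [eT, wB, wD, sr_cast]
      ring
    · simp
  rw [e0, e1]
  obtain ⟨hY, hXY⟩ := h
  simp only [qX, qY] at hY hXY
  set A : ℝ := ((tot wA (bits I) : ℤ) : ℝ) with hA
  set B : ℝ := ((tot wB (bits I) : ℤ) : ℝ) with hB
  set C : ℝ := ((tot wC (bits I) : ℤ) : ℝ) with hC
  set D : ℝ := ((tot wD (bits I) : ℤ) : ℝ) with hD
  have hY' : 2 * (C * (A - C) + D * (B - D)) ≤ 0 := by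
    rw [hA, hB, hC, hD]; exact_mod_cast hY
  have hXY' : 10 * ((A - C) ^ 2 + 3 * C ^ 2 + 3 * (B - D) ^ 2 + D ^ 2) +
      17 * (2 * (C * (A - C) + D * (B - D))) ≤ 40 := by
    rw [hA, hB, hC, hD]; exact_mod_cast hXY
  have h3 := s3_sq
  have hgt := s3_gt
  have key : (A / 2 + C * (s3 - 1) / 2) ^ 2 + (B * s3 / 2 - D * (s3 - 1) / 2) ^ 2 =
      ((A - C) ^ 2 + C ^ 2 * (s3 * s3) + (B - D) ^ 2 * (s3 * s3) + D ^ 2 +
        s3 * (2 * (C * (A - C) + D * (B - D)))) / 4 := by ring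
  rw [key, h3]
  nlinarith [mul_nonneg (sub_nonneg.2 hgt.le) (neg_nonneg.2 hY')]

end Pool.Agent.V11216.SqMain
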