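import Mathlib
import Pool.Agent.V11216.SqMain

/-!
# The lower bound for the eight-point configuration, part 2
-/

namespace Pool.Agent.V11216.SqBound

open Set Finset MeasureTheory MeasureTheory.Measure ENNReal Metric
open Pool.Agent.V11216.SqComb Pool.Agent.V11216.LengthGe Pool.Agent.V11216.SqMain

/-- a flow concentrated at one terminal -/
noncomputable def sgl (i0 : Idx) (u : Pl) : Idx → Pl := fun i => if i = i0 then u else 0

open Classical in
theorem sum_sgl (I : Set Idx) (i0 : Idx) (u : Pl) :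
    ∑ i with i ∈ I, sgl i0 u i = if i0 ∈ I then u else 0 := by
  rw [Finset.sum_filter]
  simp only [sgl]
  rw [Finset.sum_eq_single i0]
  · simp
  · intro b _ hb
    simp [hb]
  · intro h; exact absurd (Finset.mem_univ _) h

theorem sum_sgl_univ (i0 : Idx) (u : Pl) : ∑ i, sgl i0 u i = u := by
  simp [sgl]

theorem sum_inner_sgl (i0 : Idx) (u : Pl) (P : Idx → Pl) :
    ∑ i, inner ℝ (sgl i0 u i) (P i) = inner ℝ u (P i0) := by
  rw [Finset.sum_eq_single i0]
  · simp [sgl]
  · intro b _ hb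
    simp [sgl, hb]
  · intro h; exact absurd (Finset.mem_univ _) h

theorem norm_sgl (i0 : Idx) (u : Pl) (hu : ‖u‖ ≤ 1) (i : Idx) : ‖sgl i0 u i‖ ≤ 1 := by
  unfold sgl
  split_ifs
  · exact hu
  · simp

open Classical in
theorem bad_flow (P : Idx → Pl) (D : ℝ) (hP : ∀ i, dist (P i) (cl i) ≤ D)
    (F : Set (Set Idx)) (hF : ∀ I ∈ F, ∀ J ∈ F, I ⊆ J ∨ J ⊆ I ∨ Disjoint I J) (I0 : Set Idx)
    (hI0 : I0 ∈ F) (hbad : bad (bits I0)) :
    ∃ e : Idx → Pl, ∑ i, e i = 0 ∧ (∀ I ∈ F, ‖∑ i with i ∈ I, e i‖ ≤ 1) ∧ (∀ i, ‖e i‖ ≤ 5) ∧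
      2.92 - 5 * D ≤ ∑ i, inner ℝ (e i) (P i) := by
  obtain ⟨v, ⟨x, y, x', y', hxy, hm1, hm2⟩, ⟨x1, y1, hm3, hm4, hm5⟩⟩ := hbad
  have hmeets : ∀ (v x y : Bool), meets (bits I0) v x y → ∃ z, (decide ((x, y, z) ∈ I0)) = v := by
    rintro v x y (h | h)
    · exact ⟨true, h⟩
    · exact ⟨false, h⟩
  obtain ⟨z, hs⟩ := hmeets _ _ _ hm1
  obtain ⟨z', hs'⟩ := hmeets _ _ _ hm2
  obtain ⟨z0, hl⟩ := hmeets _ _ _ hm3
  obtain ⟨z1, hk⟩ := hmeets _ _ _ hm4
  obtain ⟨z2, hm⟩ := hmeets _ _ _ hm5
  set s : Idx := (x, y, z) with hsd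
  set s' : Idx := (x', y', z') with hsd'
  set l : Idx := (x1, y1, z0) with hld
  set k : Idx := (!x1, y1, z1) with hkd
  set m : Idx := (x1, !y1, z2) with hmd
  -- the vectors
  obtain ⟨u, hu, huv⟩ : ∃ u : Pl, ‖u‖ ≤ 1 ∧ inner ℝ u (cl s) - inner ℝ u (cl s') = (1 : ℝ) := by
    by_cases hx : x = x'
    · have hy : y ≠ y' := by
        rcases hxy with h | h
        · exact absurd hx h
        · exact h
      refine ⟨!₂[0, sr y], ?_, ?_⟩
      · apply norm_le_of_sq zero_le_one
        simp [sr_sq']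
      · have : sr y' = - sr y := by
          rw [← sr_not]; congr 1
          cases y <;> cases y' <;> simp_all
        simp only [cl, inner_pl]
        rw [hsd, hsd']
        simp only [this]
        have := sr_sq y
        linarith
    · refine ⟨!₂[sr x, 0], ?_, ?_⟩
      · apply norm_le_of_sq zero_le_one
        simp [sr_sq']
      · have : sr x' = - sr x := by
          rw [← sr_not]; congr 1
          cases x <;> cases x' <;> simp_all
        simp only [cl, inner_pl]
        rw [hsd, hsd']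
        simp only [this]
        have := sr_sq x
        linarith
  set gk : Pl := !₂[- sr x1 * (24 / 25), sr y1 * (7 / 25)] with hgk
  set gm : Pl := !₂[sr x1 * (7 / 25), - sr y1 * (24 / 25)] with hgm
  have hx1 := sr_sq' x1
  have hy1 := sr_sq' y1
  have ngk : ‖gk‖ ≤ 1 := by
    apply norm_le_of_sq zero_le_one
    simp [hgk]
    nlinarith
  have ngm : ‖gm‖ ≤ 1 := by
    apply norm_le_of_sq zero_le_one
    simp [hgm]
    nlinarith
  have ngkm : ‖gk + gm‖ ≤ 1 := by
    apply norm_le_of_sq zero_le_one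
    simp [hgm, hgk]
    nlinarith
  have hval : inner ℝ gk (cl k) + inner ℝ gm (cl m) - inner ℝ (gk + gm) (cl l) = (48 / 25 : ℝ) := by
    rw [inner_add_left]
    simp only [hgk, hgm, cl, inner_pl, hkd, hmd, hld, sr_not]
    have h1 := sr_sq x1
    have h2 := sr_sq y1
    linear_combination (24/25) * h1 + (24/25) * h2
  let gX : Idx → Pl := fun i => sgl s u i - sgl s' u i
  let gY : Idx → Pl := fun i => sgl k gk i + sgl m gm i - sgl l (gk + gm) i
  have sumX : ∀ I : Set Idx, ∑ i with i ∈ I, gX i =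
      (if s ∈ I then u else 0) - (if s' ∈ I then u else 0) := by
    intro I
    simp only [gX]
    rw [Finset.sum_sub_distrib, sum_sgl, sum_sgl]
  have sumY : ∀ I : Set Idx, ∑ i with i ∈ I, gY i =
      (if k ∈ I then gk else 0) + (if m ∈ I then gm else 0) - (if l ∈ I then gk + gm else 0) := by
    intro I
    simp only [gY]
    rw [Finset.sum_sub_distrib, Finset.sum_add_distrib, sum_sgl, sum_sgl, sum_sgl]
  have nX : ∀ I : Set Idx, ‖∑ i with i ∈ I, gX i‖ ≤ 1 := by
    intro I
    rw [sumX]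
    split_ifs
    · simp
    · simpa using hu
    · simpa using hu
    · simp
  have nY : ∀ I : Set Idx, ‖∑ i with i ∈ I, gY i‖ ≤ 1 := by
    intro I
    rw [sumY]
    split_ifs
    · simp
    · simpa using ngkm
    · have : gk + 0 - (gk + gm) = - gm := by abel
      rw [this, norm_neg]; exact ngm
    · simpa using ngk
    · have : 0 + gm - (gk + gm) = - gk := by abel
      rw [this, norm_neg]; exact ngk
    · simpa using ngm
    · have : (0 : Pl) + 0 - (gk + gm) = - (gk + gm) := by abel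
      rw [this, norm_neg]; exact ngkm
    · simp
  have zX : ∀ I : Set Idx, ((s ∈ I ∧ s' ∈ I) ∨ (s ∉ I ∧ s' ∉ I)) →
      ∑ i with i ∈ I, gX i = 0 := by
    intro I h
    rw [sumX]
    rcases h with ⟨h1, h2⟩ | ⟨h1, h2⟩ <;> simp [h1, h2]
  have zY : ∀ I : Set Idx, ((k ∈ I ∧ l ∈ I ∧ m ∈ I) ∨ (k ∉ I ∧ l ∉ I ∧ m ∉ I)) →
      ∑ i with i ∈ I, gY i = 0 := by
    intro I h
    rw [sumY]
    rcases h with ⟨h1, h2, h3⟩ | ⟨h1, h2, h3⟩ <;> simp [h1, h2, h3]
  refine ⟨fun i => gX i + gY i, ?_, ?_, ?_, ?_⟩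
  · rw [Finset.sum_add_distrib]
    simp only [gX, gY]
    rw [Finset.sum_sub_distrib, Finset.sum_sub_distrib, Finset.sum_add_distrib, sum_sgl_univ,
      sum_sgl_univ, sum_sgl_univ, sum_sgl_univ, sum_sgl_univ]
    simp
  · intro I hI
    rw [Finset.sum_add_distrib]
    have hcase : ((s ∈ I ∧ s' ∈ I) ∨ (s ∉ I ∧ s' ∉ I)) ∨
        ((k ∈ I ∧ l ∈ I ∧ m ∈ I) ∨ (k ∉ I ∧ l ∉ I ∧ m ∉ I)) := by
      cases v with
      | true =>
        simp only [Bool.not_true, decide_eq_false_iff_not, decide_eq_true_eq] at hs hs' hl hk hm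
        rcases hF I hI I0 hI0 with h | h | h
        · exact Or.inr (Or.inr ⟨fun h' => hk (h h'), fun h' => hl (h h'), fun h' => hm (h h')⟩)
        · exact Or.inl (Or.inl ⟨h hs, h hs'⟩)
        · exact Or.inl (Or.inr ⟨fun h' => Set.disjoint_left.1 h h' hs,
            fun h' => Set.disjoint_left.1 h h' hs'⟩)
      | false =>
        simp only [Bool.not_false, decide_eq_false_iff_not, decide_eq_true_eq] at hs hs' hl hk hm
        rcases hF I hI I0 hI0 with h | h | h
        · exact Or.inl (Or.inr ⟨fun h' => hs (h h'), fun h' => hs' (h h')⟩)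
        · exact Or.inr (Or.inl ⟨h hk, h hl, h hm⟩)
        · exact Or.inr (Or.inr ⟨fun h' => Set.disjoint_left.1 h h' hk,
            fun h' => Set.disjoint_left.1 h h' hl, fun h' => Set.disjoint_left.1 h h' hm⟩)
    rcases hcase with h | h
    · rw [zX I h, zero_add]; exact nY I
    · rw [zY I h, add_zero]; exact nX I
  · intro i
    have h1 := norm_sgl s u hu i
    have h2 := norm_sgl s' u hu i
    have h3 := norm_sgl k gk ngk i
    have h4 := norm_sgl m gm ngm i
    have h5 := norm_sgl l (gk + gm) ngkm i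
    have h6 : ‖gX i‖ ≤ 2 := by
      refine (norm_sub_le _ _).trans ?_
      linarith
    have h7 : ‖gY i‖ ≤ 3 := by
      refine (norm_sub_le _ _).trans ?_
      have := norm_add_le (sgl k gk i) (sgl m gm i)
      linarith
    refine (norm_add_le _ _).trans ?_
    linarith
  · have hexp : ∑ i, inner ℝ (gX i + gY i) (P i) = inner ℝ u (P s) - inner ℝ u (P s') +
        (inner ℝ gk (P k) + inner ℝ gm (P m) - inner ℝ (gk + gm) (P l)) := by
      simp only [gX, gY, inner_add_left, inner_sub_left]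
      rw [Finset.sum_add_distrib, Finset.sum_sub_distrib, Finset.sum_sub_distrib,
        Finset.sum_add_distrib, sum_inner_sgl, sum_inner_sgl, sum_inner_sgl, sum_inner_sgl,
        sum_inner_sgl, inner_add_left]
    rw [hexp]
    have hle : ∀ (w : Pl) (i : Idx), ‖w‖ ≤ 1 →
        |inner ℝ w (P i) - inner ℝ w (cl i)| ≤ D := by
      intro w i hw
      rw [← inner_sub_right]
      refine (abs_real_inner_le_norm _ _).trans ?_
      have h1 : ‖P i - cl i‖ ≤ D := by rw [← dist_eq_norm]; exact hP i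
      calc ‖w‖ * ‖P i - cl i‖ ≤ 1 * ‖P i - cl i‖ :=
            mul_le_mul_of_nonneg_right hw (norm_nonneg _)
        _ ≤ D := by rw [one_mul]; exact h1
    have a1 := abs_le.1 (hle u s hu)
    have a2 := abs_le.1 (hle u s' hu)
    have a3 := abs_le.1 (hle gk k ngk)
    have a4 := abs_le.1 (hle gm m ngm)
    have a5 := abs_le.1 (hle (gk + gm) l ngkm)
    linarith [a1.1, a1.2, a2.1, a2.2, a3.1, a3.2, a4.1, a4.2, a5.1, a5.2]

/-- length of the tails -/
noncomputable def cc : ℝ := 1 / 100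
/-- shift -/
noncomputable def kk : ℝ := 1 / 1000
/-- the radius -/
noncomputable def rr : ℝ := Real.sqrt 2 / 1000

theorem rr_pos : 0 < rr := by unfold rr; positivity
theorem rr_lt : rr < 0.0015 := by
  have : Real.sqrt 2 < 1.5 := by rw [Real.sqrt_lt' (by norm_num)]; norm_num
  unfold rr; linarith

/-- the points of `M` -/
noncomputable def Mt (i : Idx) : Pl :=
  if i.2.2 then !₂[sr i.1 * (1 + cc + rr) / 2, sr i.2.1 * (1 + s3 * (cc + rr)) / 2]
  else !₂[sr i.1 * (1 / 2 + kk), sr i.2.1 * (1 / 2 - kk)]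

/-- the points of `A` -/
noncomputable def At (i : Idx) : Pl :=
  if i.2.2 then !₂[sr i.1 * (1 + cc) / 2, sr i.2.1 * (1 + s3 * cc) / 2]
  else !₂[sr i.1 / 2, sr i.2.1 / 2]

/-- total length -/
noncomputable def LL : ℝ := 1 + s3 + 4 * cc

theorem dist_At_Mt (i : Idx) : dist (At i) (Mt i) ≤ rr := by
  rw [dist_eq_norm]
  apply norm_le_of_sq rr_pos.le
  obtain ⟨x, y, z⟩ := i
  have h3 := s3_sq
  have hx := sr_sq' x
  have hy := sr_sq' y
  have h2 : rr ^ 2 = 2 * kk ^ 2 := by
    unfold rr kk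
    rw [div_pow, Real.sq_sqrt (by norm_num)]; norm_num
  cases z
  · simp [At, Mt]
    rw [h2]
    nlinarith
  · simp [At, Mt]
    have e1 : sr x * (1 + cc) / 2 - sr x * (1 + cc + rr) / 2 = - sr x * rr / 2 := by ring
    have e2 : sr y * (1 + s3 * cc) / 2 - sr y * (1 + s3 * (cc + rr)) / 2 = - sr y * s3 * rr / 2 := by
      ring
    rw [e1, e2]
    have : (-sr x * rr / 2) ^ 2 + (-sr y * s3 * rr / 2) ^ 2 =
        (sr x ^ 2 + sr y ^ 2 * (s3 * s3)) * rr ^ 2 / 4 := by ring
    rw [this, h3, hx, hy]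
    nlinarith

theorem dist_Mt_cl (i : Idx) : dist (Mt i) (cl i) ≤ cc + rr := by
  rw [dist_eq_norm]
  have hr := rr_pos
  have hcr : 0 ≤ cc + rr := by unfold cc; linarith
  apply norm_le_of_sq hcr
  obtain ⟨x, y, z⟩ := i
  have h3 := s3_sq
  have hx := sr_sq' x
  have hy := sr_sq' y
  have h2 : rr ^ 2 = 2 * kk ^ 2 := by
    unfold rr kk
    rw [div_pow, Real.sq_sqrt (by norm_num)]; norm_num
  cases z
  · simp [cl, Mt]
    have e1 : sr x * (2⁻¹ + kk) - sr x / 2 = sr x * kk := by ring
    have e2 : sr y * (2⁻¹ - kk) - sr y / 2 = - sr y * kk := by ring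
    rw [e1, e2]
    have : (sr x * kk) ^ 2 + (-sr y * kk) ^ 2 = (sr x ^ 2 + sr y ^ 2) * kk ^ 2 := by ring
    rw [this, hx, hy]
    have hc : 0 ≤ cc := by unfold cc; norm_num
    nlinarith
  · simp [cl, Mt]
    have e1 : sr x * (1 + cc + rr) / 2 - sr x / 2 = sr x * (cc + rr) / 2 := by ring
    have e2 : sr y * (1 + s3 * (cc + rr)) / 2 - sr y / 2 = sr y * s3 * (cc + rr) / 2 := by
      ring
    rw [e1, e2]
    have : (sr x * (cc + rr) / 2) ^ 2 + (sr y * s3 * (cc + rr) / 2) ^ 2 =
        (sr x ^ 2 + sr y ^ 2 * (s3 * s3)) * (cc + rr) ^ 2 / 4 := by ring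
    rw [this, h3, hx, hy]
    nlinarith

theorem inner_ge (e P M : Pl) (r : ℝ) (t : ℝ) (he : ‖e‖ ≤ t) (h : dist P M ≤ r) :
    inner ℝ e M - t * r ≤ inner ℝ e P := by
  have h1 : inner ℝ e (M - P) ≤ t * r := by
    refine (real_inner_le_norm _ _).trans ?_
    have h2 : ‖M - P‖ ≤ r := by rw [← dist_eq_norm, dist_comm]; exact h
    exact mul_le_mul he h2 (norm_nonneg _) ((norm_nonneg _).trans he)
  rw [inner_sub_right] at h1
  linarith

theorem out_val (x y : Bool) (P : Pl) (h : dist P (Mt (x, y, true)) ≤ rr) :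
    (1 + s3) / 4 + cc ≤ inner ℝ (!₂[sr x / 2, sr y * s3 / 2] : Pl) P := by
  have hn : ‖(!₂[sr x / 2, sr y * s3 / 2] : Pl)‖ ≤ 1 := by
    have := norm_eS (x, y, true)
    simpa [eS] using this
  refine le_trans (le_of_eq ?_) (inner_ge _ _ _ rr 1 hn h)
  simp only [Mt, if_true, inner_pl]
  have h3 := s3_sq
  have hx := sr_sq x
  have hy := sr_sq y
  have : sr x / 2 * (sr x * (1 + cc + rr) / 2) +
      sr y * s3 / 2 * (sr y * (1 + s3 * (cc + rr)) / 2) - 1 * rr =
      (sr x * sr x) * (1 + cc + rr) / 4 + (sr y * sr y) * (s3 + (s3 * s3) * (cc + rr)) / 4 - rr := by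
    ring
  rw [this, hx, hy, h3]
  ring

theorem in_val (x y : Bool) (P : Pl) (h : dist P (Mt (x, y, false)) ≤ rr) :
    0 ≤ inner ℝ (!₂[sr x * (s3 - 1) / 2, - sr y * (s3 - 1) / 2] : Pl) P := by
  have hn : ‖(!₂[sr x * (s3 - 1) / 2, - sr y * (s3 - 1) / 2] : Pl)‖ ≤ (s3 - 1) * Real.sqrt 2 / 2 := by
    have := norm_eT_in x y
    simp only [eT, Bool.false_eq_true, if_false] at this
    exact this.le
  refine le_trans (le_of_eq ?_) (inner_ge _ _ _ rr _ hn h)
  simp only [Mt, Bool.false_eq_true, if_false, inner_pl]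
  have hx := sr_sq x
  have hy := sr_sq y
  have h22 : Real.sqrt 2 * Real.sqrt 2 = 2 := Real.mul_self_sqrt (by norm_num)
  have : sr x * (s3 - 1) / 2 * (sr x * (1 / 2 + kk)) + -sr y * (s3 - 1) / 2 * (sr y * (1 / 2 - kk)) -
      (s3 - 1) * Real.sqrt 2 / 2 * rr = (sr x * sr x) * (s3 - 1) / 2 * (1 / 2 + kk) -
      (sr y * sr y) * (s3 - 1) / 2 * (1 / 2 - kk) - (s3 - 1) * (Real.sqrt 2 * Real.sqrt 2) / 2000 := by
    unfold rr; ring
  rw [this, hx, hy, h22]
  unfold kk; ring

theorem main_lb (W : Set Pl) (hW : IsCompact W) (hc : IsConnected W) (P : Idx → Pl)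
    (hP : ∀ i, P i ∈ W) (hPM : ∀ i, dist (P i) (Mt i) ≤ rr) :
    ENNReal.ofReal LL ≤ hausdorffMeasure 1 W := by
  classical
  apply length_ge W hW hc P hP LL 5 (by norm_num)
  intro F hF
  have hPcl : ∀ i, dist (P i) (cl i) ≤ cc + 2 * rr := by
    intro i
    have := dist_triangle (P i) (Mt i) (cl i)
    have h1 := hPM i
    have h2 := dist_Mt_cl i
    linarith
  by_cases hb : ∃ I ∈ F, bad (bits I)
  · obtain ⟨I, hI, hbad⟩ := hb
    obtain ⟨e, h1, h2, h3, h4⟩ := bad_flow P (cc + 2 * rr) hPcl F hF I hI hbad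
    refine ⟨e, h1, ?_, h3, ?_⟩
    · intro J hJ
      convert h2 J hJ
    · refine le_trans ?_ h4
      have := s3_lt
      have := rr_lt
      unfold LL cc
      linarith
  push Not at hb
  by_cases hS : ∀ I ∈ F, Sval (bits I)
  · refine ⟨eS, ?_, ?_, fun i => (norm_eS i).trans (by norm_num), ?_⟩
    · ext j
      rw [sum_idx']
      fin_cases j <;> simp [eS, sr] <;> ring
    · intro I hI
      convert S_valid I (hS I hI)
    · rw [sum_idx]
      have h1 := out_val true true _ (hPM _)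
      have h2 := out_val true false _ (hPM _)
      have h3 := out_val false true _ (hPM _)
      have h4 := out_val false false _ (hPM _)
      simp only [eS, if_true, Bool.false_eq_true, if_false, inner_zero_left]
      unfold LL
      linarith
  · push Not at hS
    obtain ⟨I0, hI0, hS0⟩ := hS
    have hT : ∀ I ∈ F, Tval (bits I) := by
      intro I hI
      by_contra hTI
      obtain ⟨v, hv⟩ : ∃ v : Bool, ∀ x y z : Bool, bits I0 (x, y, z) = (y == v) := by
        rcases comb1 (bits I0) with h | h | h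
        · exact absurd h (hb I0 hI0)
        · exact absurd h hS0
        · exact h
      obtain ⟨v', hv'⟩ : ∃ v : Bool, ∀ x y z : Bool, bits I (x, y, z) = (x == v) := by
        rcases comb2 (bits I) with h | h | h
        · exact absurd h (hb I hI)
        · exact absurd h hTI
        · exact h
      have m0 : ∀ x y z : Bool, (x, y, z) ∈ I0 ↔ y = v := by
        intro x y z
        have := hv x y z
        simp only [bits] at this
        rw [← decide_eq_true_iff (p := (x, y, z) ∈ I0), this]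
        simp
      have m1 : ∀ x y z : Bool, (x, y, z) ∈ I ↔ x = v' := by
        intro x y z
        have := hv' x y z
        simp only [bits] at this
        rw [← decide_eq_true_iff (p := (x, y, z) ∈ I), this]
        simp
      rcases hF I hI I0 hI0 with h | h | h
      · have := h ((m1 v' (!v) true).2 rfl)
        rw [m0] at this
        simp at this
      · have := h ((m0 (!v') v true).2 rfl)
        rw [m1] at this
        simp at this
      · exact Set.disjoint_left.1 h ((m1 v' v true).2 rfl) ((m0 v' v true).2 rfl)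
    refine ⟨eT, ?_, ?_, fun i => (norm_eT i).trans (by norm_num), ?_⟩
    · ext j
      rw [sum_idx']
      fin_cases j <;> simp [eT, sr] <;> ring
    · intro I hI
      convert T_valid I (hT I hI)
    · rw [sum_idx]
      have h1 := out_val true true _ (hPM _)
      have h2 := out_val true false _ (hPM _)
      have h3 := out_val false true _ (hPM _)
      have h4 := out_val false false _ (hPM _)
      have i1 := in_val true true _ (hPM _)
      have i2 := in_val true false _ (hPM _)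
      have i3 := in_val false true _ (hPM _)
      have i4 := in_val false false _ (hPM _)
      simp only [eT, if_true, Bool.false_eq_true, if_false]
      unfold LL
      linarith

end Pool.Agent.V11216.SqBound
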