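import Mathlib
import Pool.Agent.V11216.SqBound

/-!
# The two Steiner trees of the eight-point configuration
-/

namespace Pool.Agent.V11216.SqSets

open Set MeasureTheory MeasureTheory.Measure ENNReal Metric
open Pool.Agent.V11216.SqComb Pool.Agent.V11216.SqMain Pool.Agent.V11216.SqBound

/-- distance of the Steiner points from the centre -/
noncomputable def h0 : ℝ := (3 - s3) / 6

theorem h0_pos : 0 < h0 := by have := s3_lt; unfold h0; linarith
theorem h0_lt : h0 < 1 / 4 := by have := s3_gt; unfold h0; linarith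

/-- Steiner points of `S` -/
noncomputable def sp (x : Bool) : Pl := !₂[sr x * h0, 0]
/-- Steiner points of `T` -/
noncomputable def tp (y : Bool) : Pl := !₂[0, sr y * h0]

/-- outer terminals -/
noncomputable def ob (x y : Bool) : Pl := At (x, y, true)
/-- inner terminals -/
noncomputable def ib (x y : Bool) : Pl := At (x, y, false)

theorem ob_eq (x y : Bool) : ob x y = !₂[sr x * (1 + cc) / 2, sr y * (1 + s3 * cc) / 2] := by
  simp [ob, At]

theorem ib_eq (x y : Bool) : ib x y = !₂[sr x / 2, sr y / 2] := by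
  simp [ib, At]

/-- first tree -/
noncomputable def SS : Set Pl :=
  segment ℝ (sp true) (sp false) ∪ ⋃ i : Bool × Bool, segment ℝ (sp i.1) (ob i.1 i.2)

/-- second tree -/
noncomputable def TT : Set Pl :=
  segment ℝ (tp true) (tp false) ∪ ⋃ i : Bool × Bool, (segment ℝ (tp i.2) (ib i.1 i.2) ∪
    segment ℝ (ib i.1 i.2) (ob i.1 i.2))

theorem compact_segment (p q : Pl) : IsCompact (segment ℝ p q) := by
  rw [segment_eq_image_lineMap]
  exact isCompact_Icc.image (by fun_prop)

theorem conn_segment (p q : Pl) : IsConnected (segment ℝ p q) :=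
  (convex_segment p q).isConnected ⟨p, left_mem_segment ℝ p q⟩

theorem SS_compact : IsCompact SS :=
  (compact_segment _ _).union (isCompact_iUnion fun _ => compact_segment _ _)

theorem TT_compact : IsCompact TT :=
  (compact_segment _ _).union (isCompact_iUnion fun _ =>
    (compact_segment _ _).union (compact_segment _ _))

theorem sp_mem (x : Bool) : sp x ∈ segment ℝ (sp true) (sp false) := by
  cases x
  · exact right_mem_segment _ _ _
  · exact left_mem_segment _ _ _

theorem tp_mem (x : Bool) : tp x ∈ segment ℝ (tp true) (tp false) := by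
  cases x
  · exact right_mem_segment _ _ _
  · exact left_mem_segment _ _ _

theorem SS_conn : IsConnected SS := by
  refine ⟨⟨sp true, Or.inl (left_mem_segment _ _ _)⟩, ?_⟩
  apply isPreconnected_of_forall (sp true)
  rintro p (hp | hp)
  · exact ⟨_, subset_union_left, left_mem_segment _ _ _, hp, (conn_segment _ _).isPreconnected⟩
  · obtain ⟨i, hi⟩ := mem_iUnion.1 hp
    refine ⟨segment ℝ (sp true) (sp false) ∪ segment ℝ (sp i.1) (ob i.1 i.2), ?_,
      Or.inl (left_mem_segment _ _ _), Or.inr hi, ?_⟩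
    · exact union_subset_union_right _ (subset_iUnion (fun i : Bool × Bool =>
        segment ℝ (sp i.1) (ob i.1 i.2)) i)
    · exact IsPreconnected.union (sp i.1) (sp_mem _) (left_mem_segment _ _ _)
        (conn_segment _ _).isPreconnected (conn_segment _ _).isPreconnected

theorem TT_conn : IsConnected TT := by
  refine ⟨⟨tp true, Or.inl (left_mem_segment _ _ _)⟩, ?_⟩
  apply isPreconnected_of_forall (tp true)
  rintro p (hp | hp)
  · exact ⟨_, subset_union_left, left_mem_segment _ _ _, hp, (conn_segment _ _).isPreconnected⟩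
  · obtain ⟨i, hi⟩ := mem_iUnion.1 hp
    refine ⟨segment ℝ (tp true) (tp false) ∪ (segment ℝ (tp i.2) (ib i.1 i.2) ∪
      segment ℝ (ib i.1 i.2) (ob i.1 i.2)), ?_, Or.inl (left_mem_segment _ _ _), Or.inr hi, ?_⟩
    · exact union_subset_union_right _ (subset_iUnion (fun i : Bool × Bool =>
        (segment ℝ (tp i.2) (ib i.1 i.2) ∪ segment ℝ (ib i.1 i.2) (ob i.1 i.2))) i)
    · refine IsPreconnected.union (tp i.2) (tp_mem _) (Or.inl (left_mem_segment _ _ _))
        (conn_segment _ _).isPreconnected ?_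
      exact IsPreconnected.union (ib i.1 i.2) (right_mem_segment _ _ _) (left_mem_segment _ _ _)
        (conn_segment _ _).isPreconnected (conn_segment _ _).isPreconnected

theorem ib_mem_segment (x y : Bool) : ib x y ∈ segment ℝ (sp x) (ob x y) := by
  have hs := s3_pos
  have hs2 := s3_sq
  have hc : 0 < cc := by unfold cc; norm_num
  rw [segment_eq_image]
  refine ⟨(s3 / 3) / (s3 / 3 + cc), ⟨by positivity, ?_⟩, ?_⟩
  · rw [div_le_one (by positivity)]; linarith
  · have hne : s3 / 3 + cc ≠ 0 := by positivity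
    have e1 : 1 - (s3 / 3) / (s3 / 3 + cc) = cc / (s3 / 3 + cc) := by
      field_simp; ring
    show (1 - (s3 / 3) / (s3 / 3 + cc)) • sp x + ((s3 / 3) / (s3 / 3 + cc)) • ob x y = ib x y
    rw [e1, ob_eq, ib_eq]
    ext j
    fin_cases j
    · simp [sp, h0]
      field_simp
      linear_combination (0 : ℝ)
    · simp [sp, h0]
      field_simp
      linear_combination cc * sr y * hs2

theorem A_sub_S (i : Idx) : At i ∈ SS := by
  obtain ⟨x, y, z⟩ := i
  refine Or.inr (mem_iUnion.2 ⟨(x, y), ?_⟩)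
  cases z
  · exact ib_mem_segment x y
  · exact right_mem_segment _ _ _

theorem A_sub_T (i : Idx) : At i ∈ TT := by
  obtain ⟨x, y, z⟩ := i
  refine Or.inr (mem_iUnion.2 ⟨(x, y), Or.inr ?_⟩)
  cases z
  · exact left_mem_segment _ _ _
  · exact right_mem_segment _ _ _

theorem dist_le_of_sq {p q : Pl} {t : ℝ} (ht : 0 ≤ t)
    (h : (p 0 - q 0) ^ 2 + (p 1 - q 1) ^ 2 ≤ t ^ 2) : dist p q ≤ t := by
  rw [dist_eq_norm]
  exact norm_le_of_sq ht (by simpa using h)

theorem seg_le {p q : Pl} {t : ℝ} (h : dist p q ≤ t) :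
    hausdorffMeasure 1 (segment ℝ p q) ≤ ENNReal.ofReal t := by
  rw [hausdorffMeasure_segment, edist_dist]
  exact ENNReal.ofReal_le_ofReal h

theorem dist_sp : dist (sp true) (sp false) ≤ 1 - s3 / 3 := by
  have := s3_lt
  apply dist_le_of_sq (by linarith)
  simp [sp, sr, h0]
  apply le_of_eq
  ring

theorem dist_tp : dist (tp true) (tp false) ≤ 1 - s3 / 3 := by
  have := s3_lt
  apply dist_le_of_sq (by linarith)
  simp [tp, sr, h0]
  apply le_of_eq
  ring

theorem dist_sp_ob (x y : Bool) : dist (sp x) (ob x y) ≤ s3 / 3 + cc := by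
  have hs := s3_pos
  have h3 := s3_sq
  have hc : 0 < cc := by unfold cc; norm_num
  apply dist_le_of_sq (by positivity)
  rw [ob_eq]
  have hx := sr_sq' x
  have hy := sr_sq' y
  simp [sp, h0]
  apply le_of_eq
  have : (sr x * ((3 - s3) / 6) - sr x * (1 + cc) / 2) ^ 2 + (sr y * (1 + s3 * cc) / 2) ^ 2 =
    sr x ^ 2 * (s3 / 6 + cc / 2) ^ 2 + sr y ^ 2 * ((1 + s3 * cc) / 2) ^ 2 := by ring
  rw [this, hx, hy]
  linear_combination ((-1/12 : ℝ) + cc ^ 2 / 4) * h3

theorem dist_tp_ib (x y : Bool) : dist (tp y) (ib x y) ≤ s3 / 3 := by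
  have hs := s3_pos
  have h3 := s3_sq
  apply dist_le_of_sq (by positivity)
  rw [ib_eq]
  have hx := sr_sq' x
  have hy := sr_sq' y
  simp [tp, h0]
  apply le_of_eq
  have : (sr x / 2) ^ 2 + (sr y * ((3 - s3) / 6) - sr y / 2) ^ 2 =
    sr x ^ 2 / 4 + sr y ^ 2 * (s3 / 6) ^ 2 := by ring
  rw [this, hx, hy]
  linear_combination (-1/12 : ℝ) * h3

theorem dist_ib_ob (x y : Bool) : dist (ib x y) (ob x y) ≤ cc := by
  have h3 := s3_sq
  have hc : 0 < cc := by unfold cc; norm_num
  apply dist_le_of_sq hc.le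
  rw [ib_eq, ob_eq]
  have hx := sr_sq' x
  have hy := sr_sq' y
  simp
  apply le_of_eq
  have : (sr x / 2 - sr x * (1 + cc) / 2) ^ 2 + (sr y / 2 - sr y * (1 + s3 * cc) / 2) ^ 2 =
    sr x ^ 2 * (cc / 2) ^ 2 + sr y ^ 2 * (s3 * s3) * (cc / 2) ^ 2 := by ring
  rw [this, hx, hy]
  linear_combination (cc ^ 2 / 4) * h3

theorem iUnion_le (f : Bool × Bool → Set Pl) (t : ℝ) (ht : 0 ≤ t)
    (h : ∀ i, hausdorffMeasure 1 (f i) ≤ ENNReal.ofReal t) :
    hausdorffMeasure 1 (⋃ i, f i) ≤ ENNReal.ofReal (4 * t) := by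
  refine (measure_iUnion_fintype_le _ _).trans ?_
  refine (Finset.sum_le_sum fun i _ => h i).trans ?_
  rw [Finset.sum_const, Finset.card_univ]
  have : Fintype.card (Bool × Bool) = 4 := rfl
  rw [this, nsmul_eq_mul]
  rw [ENNReal.ofReal_mul (by norm_num)]
  simp

theorem SS_len : hausdorffMeasure 1 SS ≤ ENNReal.ofReal LL := by
  have hs := s3_pos
  have hs' := s3_lt
  have hc : 0 < cc := by unfold cc; norm_num
  refine (measure_union_le _ _).trans ?_
  refine (add_le_add (seg_le dist_sp) (iUnion_le _ (s3 / 3 + cc) (by positivity)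
    (fun i => seg_le (dist_sp_ob i.1 i.2)))).trans ?_
  rw [← ENNReal.ofReal_add (by linarith) (by positivity)]
  apply ENNReal.ofReal_le_ofReal
  unfold LL; linarith

theorem TT_len : hausdorffMeasure 1 TT ≤ ENNReal.ofReal LL := by
  have hs := s3_pos
  have hs' := s3_lt
  have hc : 0 < cc := by unfold cc; norm_num
  refine (measure_union_le _ _).trans ?_
  refine (add_le_add (seg_le dist_tp) (iUnion_le _ (s3 / 3 + cc) (by positivity)
    (fun i => ?_))).trans ?_
  · refine (measure_union_le _ _).trans ?_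
    refine (add_le_add (seg_le (dist_tp_ib i.1 i.2)) (seg_le (dist_ib_ob i.1 i.2))).trans ?_
    rw [← ENNReal.ofReal_add (by positivity) hc.le]
  rw [← ENNReal.ofReal_add (by linarith) (by positivity)]
  apply ENNReal.ofReal_le_ofReal
  unfold LL; linarith

theorem min_of_sub (W : Set Pl) (hW : IsCompact W) (hc : IsConnected W) (h : ∀ i, At i ∈ W) :
    ENNReal.ofReal LL ≤ hausdorffMeasure 1 W :=
  main_lb W hW hc At h dist_At_Mt

theorem min_of_M (W : Set Pl) (hW : IsCompact W) (hc : IsConnected W)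
    (h : ∀ i, infDist (Mt i) W ≤ rr) : ENNReal.ofReal LL ≤ hausdorffMeasure 1 W := by
  have hex : ∀ i, ∃ p ∈ W, dist p (Mt i) ≤ rr := by
    intro i
    obtain ⟨p, hp, hpd⟩ := hW.exists_infDist_eq_dist hc.nonempty (Mt i)
    refine ⟨p, hp, ?_⟩
    rw [dist_comm, ← hpd]
    exact h i
  choose P hP hPM using hex
  exact main_lb W hW hc P hP hPM

theorem infDist_SS (i : Idx) : infDist (Mt i) SS ≤ rr := by
  refine (infDist_le_dist_of_mem (A_sub_S i)).trans ?_
  rw [dist_comm]
  exact dist_At_Mt i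

theorem inj_aux {α β α' β' : ℝ} (hα : 0 < α) (hβ : 0 < β) (hα' : 0 < α') (hβ' : 0 < β')
    (hne : α ≠ α') (f : Idx → Pl) (hf : ∀ x y, f (x, y, true) = !₂[sr x * α, sr y * β])
    (hf' : ∀ x y, f (x, y, false) = !₂[sr x * α', sr y * β']) : Function.Injective f := by
  rintro ⟨x, y, z⟩ ⟨x', y', z'⟩ h
  have key : ∀ (a b : Bool) (s t : ℝ), 0 < s → 0 < t → sr a * s = sr b * t → a = b ∧ s = t := by
    intro a b s t hs ht hst
    cases a <;> cases b <;> simp [sr] at hst ⊢ <;> linarith
  cases z <;> cases z'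
  · rw [hf', hf'] at h
    have h0 := congrArg (fun v : Pl => v 0) h
    have h1 := congrArg (fun v : Pl => v 1) h
    simp only [PiLp.toLp_apply, Matrix.cons_val_zero, Matrix.cons_val_one] at h0 h1
    obtain ⟨e1, -⟩ := key _ _ _ _ hα' hα' h0
    obtain ⟨e2, -⟩ := key _ _ _ _ hβ' hβ' h1
    rw [e1, e2]
  · rw [hf', hf] at h
    have h0 := congrArg (fun v : Pl => v 0) h
    simp only [PiLp.toLp_apply, Matrix.cons_val_zero] at h0
    obtain ⟨-, e1⟩ := key _ _ _ _ hα' hα h0
    exact absurd e1.symm hne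
  · rw [hf', hf] at h
    have h0 := congrArg (fun v : Pl => v 0) h
    simp only [PiLp.toLp_apply, Matrix.cons_val_zero] at h0
    obtain ⟨-, e1⟩ := key _ _ _ _ hα hα' h0
    exact absurd e1 hne
  · rw [hf, hf] at h
    have h0 := congrArg (fun v : Pl => v 0) h
    have h1 := congrArg (fun v : Pl => v 1) h
    simp only [PiLp.toLp_apply, Matrix.cons_val_zero, Matrix.cons_val_one] at h0 h1
    obtain ⟨e1, -⟩ := key _ _ _ _ hα hα h0
    obtain ⟨e2, -⟩ := key _ _ _ _ hβ hβ h1
    rw [e1, e2]

theorem At_inj : Function.Injective At := by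
  have hs := s3_pos
  refine inj_aux (α := (1 + cc) / 2) (β := (1 + s3 * cc) / 2) (α' := 1 / 2) (β' := 1 / 2)
    (by unfold cc; norm_num) (by unfold cc; positivity) (by norm_num) (by norm_num)
    (by unfold cc; norm_num) At ?_ ?_
  · intro x y
    simp only [At, if_true]
    rw [mul_div_assoc, mul_div_assoc]
  · intro x y
    simp only [At, Bool.false_eq_true, if_false]
    rw [mul_one_div, mul_one_div]

theorem Mt_inj : Function.Injective Mt := by
  have hs := s3_pos
  have hr := rr_pos
  refine inj_aux (α := (1 + cc + rr) / 2) (β := (1 + s3 * (cc + rr)) / 2) (α' := 1 / 2 + kk)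
    (β' := 1 / 2 - kk) (by unfold cc; positivity) (by unfold cc; positivity)
    (by unfold kk; norm_num) (by unfold kk; norm_num)
    (by unfold cc kk; intro h; linarith) Mt ?_ ?_
  · intro x y
    simp only [Mt, if_true]
    rw [mul_div_assoc, mul_div_assoc]
  · intro x y
    simp only [Mt, Bool.false_eq_true, if_false]

end Pool.Agent.V11216.SqSets
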