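import Mathlib
import Pool.Agent.V11216.SqSets

/-!
# Terminals are not interior to segments of both trees
-/

namespace Pool.Agent.V11216.SqCorner

open Set MeasureTheory MeasureTheory.Measure ENNReal Metric
open Pool.Agent.V11216.SqComb Pool.Agent.V11216.SqMain Pool.Agent.V11216.SqBound
open Pool.Agent.V11216.SqSets

theorem seg_coord {p q z : Pl} (h : z ∈ segment ℝ p q) :
    ∃ a b : ℝ, 0 ≤ a ∧ 0 ≤ b ∧ a + b = 1 ∧ z 0 = a * p 0 + b * q 0 ∧ z 1 = a * p 1 + b * q 1 := by
  obtain ⟨a, b, ha, hb, hab, rfl⟩ := h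
  exact ⟨a, b, ha, hb, hab, by simp, by simp⟩

/-- `S` lies in a rectangle -/
theorem SS_rect {z : Pl} (hz : z ∈ SS) (x y : Bool) :
    sr x * z 0 ≤ (1 + cc) / 2 ∧ sr y * z 1 ≤ (1 + s3 * cc) / 2 := by
  have hs := s3_pos
  have hh := h0_pos
  have hh' := h0_lt
  have hc : 0 < cc := by unfold cc; norm_num
  have hsc : 0 < s3 * cc := by positivity
  have gen : ∀ (p q : Pl), (sr x * p 0 ≤ (1 + cc) / 2 ∧ sr y * p 1 ≤ (1 + s3 * cc) / 2) →
      (sr x * q 0 ≤ (1 + cc) / 2 ∧ sr y * q 1 ≤ (1 + s3 * cc) / 2) → z ∈ segment ℝ p q →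
      sr x * z 0 ≤ (1 + cc) / 2 ∧ sr y * z 1 ≤ (1 + s3 * cc) / 2 := by
    intro p q hp hq h
    obtain ⟨a, b, ha, hb, hab, e0, e1⟩ := seg_coord h
    rw [e0, e1]
    constructor
    · have := mul_le_mul_of_nonneg_left hp.1 ha
      have := mul_le_mul_of_nonneg_left hq.1 hb
      have e : a * ((1 + cc) / 2) + b * ((1 + cc) / 2) = (1 + cc) / 2 := by
        rw [← add_mul, hab, one_mul]
      linarith
    · have := mul_le_mul_of_nonneg_left hp.2 ha
      have := mul_le_mul_of_nonneg_left hq.2 hb
      have e : a * ((1 + s3 * cc) / 2) + b * ((1 + s3 * cc) / 2) = (1 + s3 * cc) / 2 := by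
        rw [← add_mul, hab, one_mul]
      linarith
  have hsp : ∀ x', sr x * (sp x') 0 ≤ (1 + cc) / 2 ∧ sr y * (sp x') 1 ≤ (1 + s3 * cc) / 2 := by
    intro x'
    simp only [sp]
    constructor
    · cases x <;> cases x' <;> simp [sr] <;> linarith
    · simp
      linarith
  have hob : ∀ x' y', sr x * (ob x' y') 0 ≤ (1 + cc) / 2 ∧
      sr y * (ob x' y') 1 ≤ (1 + s3 * cc) / 2 := by
    intro x' y'
    rw [ob_eq]
    constructor
    · cases x <;> cases x' <;> simp [sr] <;> linarith
    · cases y <;> cases y' <;> simp [sr] <;> linarith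
  rcases hz with h | h
  · exact gen _ _ (hsp _) (hsp _) h
  · obtain ⟨i, hi⟩ := mem_iUnion.1 h
    exact gen _ _ (hsp _) (hob _ _) hi

theorem ext_pl {p q : Pl} (h0 : p 0 = q 0) (h1 : p 1 = q 1) : p = q := by
  ext j; fin_cases j
  · exact h0
  · exact h1

theorem sr_mul_cancel {x : Bool} {a b : ℝ} (h : sr x * a = sr x * b) : a = b := by
  cases x <;> simpa [sr] using h

/-- outer terminals are not interior to segments of `S` -/
theorem outer_not (x y : Bool) : ¬ ∃ p q : Pl, p ≠ q ∧ segment ℝ p q ⊆ SS ∧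
    At (x, y, true) ∈ openSegment ℝ p q := by
  rintro ⟨p, q, hne, hseg, hmem⟩
  obtain ⟨a, b, ha, hb, hab, h⟩ := hmem
  have hp := SS_rect (hseg (left_mem_segment ℝ p q)) x y
  have hq := SS_rect (hseg (right_mem_segment ℝ p q)) x y
  have hA0 : a * p 0 + b * q 0 = sr x * (1 + cc) / 2 := by
    have := congrArg (fun v : Pl => v 0) h
    simpa [At] using this
  have hA1 : a * p 1 + b * q 1 = sr y * (1 + s3 * cc) / 2 := by
    have := congrArg (fun v : Pl => v 1) h
    simpa [At] using this
  have hx := sr_sq x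
  have hy := sr_sq y
  have k0 : a * (sr x * p 0) + b * (sr x * q 0) = (1 + cc) / 2 := by
    linear_combination sr x * hA0 + (1 + cc) / 2 * hx
  have k1 : a * (sr y * p 1) + b * (sr y * q 1) = (1 + s3 * cc) / 2 := by
    linear_combination sr y * hA1 + (1 + s3 * cc) / 2 * hy
  have key : ∀ (P Q m : ℝ), P ≤ m → Q ≤ m → a * P + b * Q = m → P = Q := by
    intro P Q m h1 h2 h3
    have e : a * (m - P) + b * (m - Q) = 0 := by
      have : a * (m - P) + b * (m - Q) = (a + b) * m - (a * P + b * Q) := by ring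
      rw [this, hab, h3]; ring
    have n1 : 0 ≤ a * (m - P) := mul_nonneg ha.le (by linarith)
    have n2 : 0 ≤ b * (m - Q) := mul_nonneg hb.le (by linarith)
    have z1 : a * (m - P) = 0 := by linarith
    have z2 : b * (m - Q) = 0 := by linarith
    rcases mul_eq_zero.1 z1 with h | h
    · exact absurd h ha.ne'
    rcases mul_eq_zero.1 z2 with h' | h'
    · exact absurd h' hb.ne'
    linarith
  apply hne
  apply ext_pl
  · exact sr_mul_cancel (key _ _ _ hp.1 hq.1 k0)
  · exact sr_mul_cancel (key _ _ _ hp.2 hq.2 k1)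

/-- near an inner terminal, `T` lies on one side of a line -/
theorem TT_local {z : Pl} (hz : z ∈ TT) (x y : Bool) (hz0 : 0 < sr x * z 0)
    (hz1 : h0 < sr y * z 1) : sr x * z 0 ≤ sr y * z 1 ∧ (sr x * z 0 = sr y * z 1 →
      z = At (x, y, false)) := by
  have hs := s3_pos
  have hsg := s3_gt
  have hh := h0_pos
  have hh' := h0_lt
  have hc : 0 < cc := by unfold cc; norm_num
  have hsc : 0 < s3 * cc := by positivity
  have hsrx := sr_sq x
  have hsry := sr_sq y
  rcases hz with h | h
  · exfalso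
    obtain ⟨a, b, ha, hb, hab, e0, e1⟩ := seg_coord h
    simp [tp] at e0
    rw [e0] at hz0
    simp at hz0
  · obtain ⟨⟨x', y'⟩, hi⟩ := mem_iUnion.1 h
    have hx' : x' = x := by
      by_contra hne
      have e : sr x' = - sr x := by
        cases x <;> cases x' <;> simp_all [sr]
      rcases hi with hi | hi
      · obtain ⟨a, b, ha, hb, hab, e0, e1⟩ := seg_coord hi
        rw [ib_eq] at e0
        simp [tp, e] at e0
        have : sr x * z 0 = - (b * (1 / 2)) := by rw [e0]; linear_combination (-b / 2) * hsrx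
        nlinarith
      · obtain ⟨a, b, ha, hb, hab, e0, e1⟩ := seg_coord hi
        rw [ib_eq, ob_eq] at e0
        simp [e] at e0
        have : sr x * z 0 = - (a * (1 / 2)) - (b * ((1 + cc) / 2)) := by
          rw [e0]; linear_combination (-a / 2 - b * (1 + cc) / 2) * hsrx
        have : 0 ≤ b * ((1 + cc) / 2) := by positivity
        nlinarith
    have hy' : y' = y := by
      by_contra hne
      have e : sr y' = - sr y := by
        cases y <;> cases y' <;> simp_all [sr]
      rcases hi with hi | hi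
      · obtain ⟨a, b, ha, hb, hab, e0, e1⟩ := seg_coord hi
        rw [ib_eq] at e1
        simp [tp, e] at e1
        have : sr y * z 1 = - (a * h0) - (b * (1 / 2)) := by
          rw [e1]; linear_combination (-a * h0 - b / 2) * hsry
        have : 0 ≤ a * h0 := by positivity
        nlinarith
      · obtain ⟨a, b, ha, hb, hab, e0, e1⟩ := seg_coord hi
        rw [ib_eq, ob_eq] at e1
        simp [e] at e1
        have : sr y * z 1 = - (a * (1 / 2)) - (b * ((1 + s3 * cc) / 2)) := by
          rw [e1]; linear_combination (-a / 2 - b * (1 + s3 * cc) / 2) * hsry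
        have : 0 ≤ b * ((1 + s3 * cc) / 2) := by positivity
        nlinarith
    subst hx' hy'
    rcases hi with hi | hi
    · obtain ⟨a, b, ha, hb, hab, e0, e1⟩ := seg_coord hi
      rw [ib_eq] at e0 e1
      simp [tp] at e0 e1
      have k0 : sr x' * z 0 = b / 2 := by rw [e0]; linear_combination (b / 2) * hsrx
      have k1 : sr y' * z 1 = a * h0 + b / 2 := by
        rw [e1]; linear_combination (a * h0 + b / 2) * hsry
      have : 0 ≤ a * h0 := by positivity
      refine ⟨by linarith, fun heq => ?_⟩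
      have ha0 : a * h0 = 0 := by linarith
      have ha0' : a = 0 := by
        rcases mul_eq_zero.1 ha0 with h | h
        · exact h
        · exact absurd h hh.ne'
      have hb1 : b = 1 := by linarith
      apply ext_pl
      · rw [e0, hb1]; simp [At]
      · rw [e1, hb1, ha0']; simp [At]
    · obtain ⟨a, b, ha, hb, hab, e0, e1⟩ := seg_coord hi
      rw [ib_eq, ob_eq] at e0 e1
      simp at e0 e1
      have k0 : sr x' * z 0 = 1 / 2 + b * cc / 2 := by
        rw [e0]; linear_combination (a / 2 + b * (1 + cc) / 2) * hsrx + (1 / 2) * hab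
      have k1 : sr y' * z 1 = 1 / 2 + b * s3 * cc / 2 := by
        rw [e1]; linear_combination (a / 2 + b * (1 + s3 * cc) / 2) * hsry + (1 / 2) * hab
      have h1 : 0 ≤ b * cc * (s3 - 1) := by
        have : 0 ≤ s3 - 1 := by linarith
        positivity
      refine ⟨by nlinarith, fun heq => ?_⟩
      have h2 : b * (cc * (s3 - 1)) = 0 := by linarith
      have hb0 : b = 0 := by
        rcases mul_eq_zero.1 h2 with h | h
        · exact h
        · exfalso
          have : 0 < cc * (s3 - 1) := mul_pos hc (by linarith)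
          linarith
      have ha1 : a = 1 := by linarith
      apply ext_pl
      · rw [e0, hb0, ha1]; simp [At]
      · rw [e1, hb0, ha1]; simp [At]

/-- inner terminals are not interior to segments of `T` -/
theorem inner_not (x y : Bool) : ¬ ∃ p q : Pl, p ≠ q ∧ segment ℝ p q ⊆ TT ∧
    At (x, y, false) ∈ openSegment ℝ p q := by
  rintro ⟨p, q, hne, hseg, hmem⟩
  obtain ⟨a, b, ha, hb, hab, h⟩ := hmem
  have hh := h0_pos
  have hh' := h0_lt
  have hsrx := sr_sq x
  have hsry := sr_sq y
  set z := At (x, y, false) with hz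
  have hz0 : z 0 = sr x / 2 := by simp [hz, At]
  have hz1 : z 1 = sr y / 2 := by simp [hz, At]
  set v : Pl := q - p with hv
  -- a small step
  set N : ℝ := |v 0| + |v 1| + 1 with hN
  have hN1 : 1 ≤ N := by
    have := abs_nonneg (v 0)
    have := abs_nonneg (v 1)
    rw [hN]; linarith
  set s : ℝ := min (min a b) (1 / 8) / N with hs
  have hm0 : 0 < min (min a b) (1 / 8 : ℝ) := lt_min (lt_min ha hb) (by norm_num)
  have hs0 : 0 < s := div_pos hm0 (by linarith)
  have hsm : s ≤ min (min a b) (1 / 8 : ℝ) := div_le_self hm0.le hN1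
  have hsa : s ≤ a := hsm.trans ((min_le_left _ _).trans (min_le_left _ _))
  have hsb : s ≤ b := hsm.trans ((min_le_left _ _).trans (min_le_right _ _))
  have hsN : s * N ≤ 1 / 8 := by
    rw [hs, div_mul_cancel₀ _ (by linarith)]
    exact min_le_right _ _
  have hv0 : s * |v 0| ≤ 1 / 8 := by
    refine le_trans (mul_le_mul_of_nonneg_left ?_ hs0.le) hsN
    have := abs_nonneg (v 1)
    rw [hN]; linarith
  have hv1 : s * |v 1| ≤ 1 / 8 := by
    refine le_trans (mul_le_mul_of_nonneg_left ?_ hs0.le) hsN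
    have := abs_nonneg (v 0)
    rw [hN]; linarith
  have hmemT : ∀ t : ℝ, |t| ≤ s → z + t • v ∈ TT := by
    intro t ht
    apply hseg
    refine ⟨a - t, b + t, ?_, ?_, by linarith, ?_⟩
    · have := (abs_le.1 ht).2
      linarith
    · have := (abs_le.1 ht).1
      linarith
    · rw [← h, hv]
      module
  have habsr : ∀ (b : Bool), |sr b| = 1 := by intro b; cases b <;> simp [sr]
  have hG : ∀ t : ℝ, |t| ≤ s → 0 < sr x * (z + t • v) 0 ∧ h0 < sr y * (z + t • v) 1 := by
    intro t ht
    have e0 : (z + t • v) 0 = sr x / 2 + t * v 0 := by simp [hz0]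
    have e1 : (z + t • v) 1 = sr y / 2 + t * v 1 := by simp [hz1]
    rw [e0, e1]
    have b0 : |sr x * (t * v 0)| ≤ 1 / 8 := by
      rw [abs_mul, habsr, one_mul, abs_mul]
      exact (mul_le_mul_of_nonneg_right ht (abs_nonneg _)).trans hv0
    have b1 : |sr y * (t * v 1)| ≤ 1 / 8 := by
      rw [abs_mul, habsr, one_mul, abs_mul]
      exact (mul_le_mul_of_nonneg_right ht (abs_nonneg _)).trans hv1
    have c0 := (abs_le.1 b0).1
    have c1 := (abs_le.1 b1).1
    constructor
    · have : sr x * (sr x / 2 + t * v 0) = sr x * sr x / 2 + sr x * (t * v 0) := by ring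
      rw [this, hsrx]; linarith
    · have : sr y * (sr y / 2 + t * v 1) = sr y * sr y / 2 + sr y * (t * v 1) := by ring
      rw [this, hsry]; linarith
  have hp := TT_local (hmemT s (by rw [abs_of_pos hs0])) x y (hG s (by rw [abs_of_pos hs0])).1
    (hG s (by rw [abs_of_pos hs0])).2
  have hm := TT_local (hmemT (-s) (by rw [abs_neg, abs_of_pos hs0])) x y
    (hG (-s) (by rw [abs_neg, abs_of_pos hs0])).1 (hG (-s) (by rw [abs_neg, abs_of_pos hs0])).2
  have ep0 : (z + s • v) 0 = sr x / 2 + s * v 0 := by simp [hz0]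
  have ep1 : (z + s • v) 1 = sr y / 2 + s * v 1 := by simp [hz1]
  have em0 : (z + (-s) • v) 0 = sr x / 2 - s * v 0 := by simp [hz0]; ring
  have em1 : (z + (-s) • v) 1 = sr y / 2 - s * v 1 := by simp [hz1]; ring
  have i1 := hp.1
  have i2 := hm.1
  rw [ep0, ep1] at i1
  rw [em0, em1] at i2
  have heq : sr x * (z + s • v) 0 = sr y * (z + s • v) 1 := by
    rw [ep0, ep1]
    nlinarith
  have := hp.2 heq
  have hv0' : s • v = 0 := by
    have h1 : z + s • v = z + 0 := by rw [this, add_zero]
    exact add_left_cancel h1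
  rcases smul_eq_zero.1 hv0' with h1 | h1
  · exact absurd h1 hs0.ne'
  · exact hne (sub_eq_zero.1 h1).symm

theorem SS_ne_TT : SS ≠ TT := by
  intro h
  have hh := h0_pos
  have h1 : tp true ∈ SS := by
    rw [h]; exact Or.inl (left_mem_segment _ _ _)
  have hs := s3_pos
  have hc : 0 < cc := by unfold cc; norm_num
  rcases h1 with h1 | h1
  · obtain ⟨a, b, ha, hb, hab, e0, e1⟩ := seg_coord h1
    simp [tp, sp, sr] at e1
    linarith
  · obtain ⟨⟨x, y⟩, hi⟩ := mem_iUnion.1 h1
    obtain ⟨a, b, ha, hb, hab, e0, e1⟩ := seg_coord hi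
    rw [ob_eq] at e0
    simp [tp, sp] at e0
    have hx := sr_sq x
    have k : a * h0 + b * ((1 + cc) / 2) = 0 := by
      linear_combination (-sr x) * e0 - (a * h0 + b * (1 + cc) / 2) * hx
    have n1 : 0 ≤ a * h0 := by positivity
    have n2 : 0 ≤ b * ((1 + cc) / 2) := by positivity
    have z1 : a * h0 = 0 := by linarith
    have z2 : b * ((1 + cc) / 2) = 0 := by linarith
    rcases mul_eq_zero.1 z1 with ha0 | h'
    · rcases mul_eq_zero.1 z2 with hb0 | h'
      · linarith
      · linarith
    · exact absurd h' hh.ne'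

end Pool.Agent.V11216.SqCorner
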