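import Mathlib

/-!
Co-consonant spaces: definitions, and the characterisation by finite sets.
-/

set_option autoImplicit false

namespace Pool.Agent.V11216.CoCons

open Set TopologicalSpace

universe u

/-- Scott open subsets of a poset. -/
def ScottOpen {P : Type u} [PartialOrder P] (F : Set P) : Prop :=
  IsUpperSet F ∧ ∀ D : Set P, D.Nonempty → DirectedOn (· ≤ ·) D → ∀ x, IsLUB D x → x ∈ F →
    (D ∩ F).Nonempty

/-- Open sets of the upper topology: it is generated by the complements of principal ideals. -/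
def UpperOpen {P : Type u} [PartialOrder P] (F : Set P) : Prop :=
  @IsOpen P (TopologicalSpace.generateFrom {S | ∃ x : P, S = (Iic x)ᶜ}) F

/-- `X` is co-consonant if the upper and the Scott topology on the lattice of open sets agree. -/
def CoConsonant (X : Type u) [TopologicalSpace X] : Prop :=
  ∀ F : Set (Opens X), UpperOpen F ↔ ScottOpen F

/-- Points of the Smyth powerspace: nonempty compact saturated sets (saturated: equal to the
intersection of the open sets containing it). -/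
def Smyth (X : Type u) [TopologicalSpace X] : Type u :=
  {K : Set X // K.Nonempty ∧ IsCompact K ∧ K = ⋂₀ {U | IsOpen U ∧ K ⊆ U}}

/-- The upper Vietoris topology, generated by the sets `□U = {K : K ⊆ U}`. -/
instance (X : Type u) [TopologicalSpace X] : TopologicalSpace (Smyth X) :=
  TopologicalSpace.generateFrom {S | ∃ U : Set X, IsOpen U ∧ S = {K : Smyth X | K.1 ⊆ U}}

/-- Points of the lower powerspace: all closed sets. -/
def Lower (X : Type u) [TopologicalSpace X] : Type u := {C : Set X // IsClosed C}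

/-- The lower Vietoris topology, generated by the sets `◇U = {C : C ∩ U ≠ ∅}`. -/
instance (X : Type u) [TopologicalSpace X] : TopologicalSpace (Lower X) :=
  TopologicalSpace.generateFrom {S | ∃ U : Set X, IsOpen U ∧ S = {C : Lower X | (C.1 ∩ U).Nonempty}}

/-- Scott open families of open sets, in terms of sets. -/
structure ScottFam {X : Type u} [TopologicalSpace X] (F : Set (Set X)) : Prop where
  isOpen : ∀ U ∈ F, IsOpen U
  upper : ∀ U ∈ F, ∀ V : Set X, IsOpen V → U ⊆ V → V ∈ F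
  dir : ∀ D : Set (Set X), D.Nonempty → DirectedOn (· ⊆ ·) D → (∀ U ∈ D, IsOpen U) →
    ⋃₀ D ∈ F → ∃ U ∈ D, U ∈ F

theorem upperOpen_finite {X : Type u} [TopologicalSpace X] {F : Set (Opens X)} (hF : UpperOpen F)
    {U : Opens X} (hU : U ∈ F) :
    ∃ E : Set X, E.Finite ∧ E ⊆ U ∧ ∀ V : Opens X, E ⊆ V → V ∈ F := by
  induction hF generalizing U with
  | basic S hS =>
    obtain ⟨W, rfl⟩ := hS
    have h1 : ¬ U ≤ W := hU
    rw [← SetLike.coe_subset_coe, not_subset] at h1
    obtain ⟨x, hxU, hxW⟩ := h1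
    exact ⟨{x}, finite_singleton x, singleton_subset_iff.2 hxU, fun V hV h2 => hxW (h2 (hV rfl))⟩
  | univ => exact ⟨∅, finite_empty, empty_subset _, fun V _ => trivial⟩
  | inter S T _ _ ihS ihT =>
    obtain ⟨E, hE, hEU, hEF⟩ := ihS hU.1
    obtain ⟨E', hE', hEU', hEF'⟩ := ihT hU.2
    exact ⟨E ∪ E', hE.union hE', union_subset hEU hEU', fun V hV =>
      ⟨hEF V (subset_union_left.trans hV), hEF' V (subset_union_right.trans hV)⟩⟩
  | sUnion 𝒮 _ ih =>
    obtain ⟨S, hS, hUS⟩ := hU
    obtain ⟨E, hE, hEU, hEF⟩ := ih S hS hUS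
    exact ⟨E, hE, hEU, fun V hV => ⟨S, hS, hEF V hV⟩⟩

theorem scottOpen_of_finite {X : Type u} [TopologicalSpace X] {F : Set (Opens X)}
    (h : ∀ U ∈ F, ∃ E : Set X, E.Finite ∧ E ⊆ U ∧ ∀ V : Opens X, E ⊆ V → V ∈ F) : ScottOpen F := by
  constructor
  · intro U V hUV hU
    obtain ⟨E, hE, hEU, hEF⟩ := h U hU
    exact hEF V (hEU.trans hUV)
  · intro D hD hdir U hlub hU
    obtain ⟨E, hE, hEU, hEF⟩ := h U hU
    have hUD : U = sSup D := hlub.unique (isLUB_sSup D)
    have key : ∃ V ∈ D, E ⊆ V := by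
      clear hEF
      induction E, hE using Set.Finite.induction_on with
      | empty =>
        obtain ⟨V, hV⟩ := hD
        exact ⟨V, hV, empty_subset _⟩
      | insert _ _ ih =>
        rename_i x E _ _
        obtain ⟨V, hV, hEV⟩ := ih ((subset_insert x E).trans hEU)
        have hx : x ∈ U := hEU (mem_insert x E)
        rw [hUD, Opens.mem_sSup] at hx
        obtain ⟨V', hV', hx⟩ := hx
        obtain ⟨V'', hV'', h1, h2⟩ := hdir V hV V' hV'
        exact ⟨V'', hV'', insert_subset (h2 hx) (hEV.trans h1)⟩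
    obtain ⟨V, hV, hEV⟩ := key
    exact ⟨V, hV, hEF V hEV⟩

theorem upperOpen_of_finite {X : Type u} [TopologicalSpace X] {F : Set (Opens X)}
    (h : ∀ U ∈ F, ∃ E : Set X, E.Finite ∧ E ⊆ U ∧ ∀ V : Opens X, E ⊆ V → V ∈ F) : UpperOpen F := by
  let _ : TopologicalSpace (Opens X) := generateFrom {S | ∃ x : Opens X, S = (Iic x)ᶜ}
  change IsOpen F
  rw [isOpen_iff_forall_mem_open]
  intro U hU
  obtain ⟨E, hE, hEU, hEF⟩ := h U hU
  refine ⟨{V | E ⊆ V}, fun V hV => hEF V hV, ?_, hEU⟩
  have h1 : {V : Opens X | E ⊆ V} = ⋂ x ∈ E, (Iic (⟨(closure {x})ᶜ, isClosed_closure.isOpen_compl⟩ :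
      Opens X))ᶜ := by
    ext V
    constructor
    · intro hV
      refine mem_iInter₂.2 fun x hx h2 => ?_
      exact (h2 (hV hx) : x ∈ (closure {x})ᶜ) (subset_closure rfl)
    · intro hV x hx
      have h2 := mem_iInter₂.1 hV x hx
      by_contra h3
      apply h2
      intro y hy h4
      obtain ⟨w, hw, hw'⟩ := mem_closure_iff.1 h4 V V.isOpen hy
      rw [show w = x from hw'] at hw
      exact h3 hw
  rw [h1]
  exact hE.isOpen_biInter fun x _ => isOpen_generateFrom_of_mem ⟨_, rfl⟩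

/-- A space is co-consonant iff Scott open families are generated by finite sets. -/
theorem coConsonant_iff {X : Type u} [TopologicalSpace X] : CoConsonant X ↔
    ∀ F : Set (Set X), ScottFam F → ∀ U ∈ F, ∃ E : Set X, E.Finite ∧ E ⊆ U ∧
      ∀ V : Set X, IsOpen V → E ⊆ V → V ∈ F := by
  constructor
  · intro h F hF U hU
    have h1 : ScottOpen {V : Opens X | (V : Set X) ∈ F} := by
      constructor
      · intro V W hVW hV
        exact hF.upper _ hV _ W.isOpen hVW
      · intro D hD hdir W hlub hW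
        have hWD : W = sSup D := hlub.unique (isLUB_sSup D)
        have h2 : ⋃₀ ((fun V : Opens X => (V : Set X)) '' D) ∈ F := by
          have h3 : ⋃₀ ((fun V : Opens X => (V : Set X)) '' D) = (W : Set X) := by
            rw [hWD, Opens.coe_sSup, sUnion_image]
          rw [h3]
          exact hW
        obtain ⟨_, ⟨V, hV, rfl⟩, hVF⟩ := hF.dir _ (hD.image _) (by
          rintro _ ⟨V, hV, rfl⟩ _ ⟨V', hV', rfl⟩
          obtain ⟨V'', hV'', h1, h2⟩ := hdir V hV V' hV'
          exact ⟨_, ⟨V'', hV'', rfl⟩, h1, h2⟩) (by rintro _ ⟨V, _, rfl⟩; exact V.isOpen) h2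
        exact ⟨V, hV, hVF⟩
    have h2 := (h _).2 h1
    obtain ⟨E, hE, hEU, hEF⟩ := upperOpen_finite h2 (U := ⟨U, hF.isOpen U hU⟩) hU
    exact ⟨E, hE, hEU, fun V hV hEV => hEF ⟨V, hV⟩ hEV⟩
  · intro h F
    constructor
    · intro hF
      exact scottOpen_of_finite fun U hU => upperOpen_finite hF hU
    · intro hF
      apply upperOpen_of_finite
      intro U hU
      have h1 : ScottFam {W : Set X | ∃ hW : IsOpen W, (⟨W, hW⟩ : Opens X) ∈ F} := by
        refine ⟨fun V hV => hV.1, fun V hV W hW hVW => ⟨hW, hF.1 hVW hV.2⟩, ?_⟩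
        rintro D hD hdir hop ⟨hWo, hW⟩
        obtain ⟨V, hVD, hVF⟩ := hF.2 {V : Opens X | (V : Set X) ∈ D} (by
            obtain ⟨V, hV⟩ := hD
            exact ⟨⟨V, hop V hV⟩, hV⟩) (by
            intro V hV V' hV'
            obtain ⟨V'', hV'', h1, h2⟩ := hdir _ hV _ hV'
            exact ⟨⟨V'', hop _ hV''⟩, hV'', h1, h2⟩) ⟨⋃₀ D, hWo⟩ (by
            constructor
            · intro V hV
              exact subset_sUnion_of_mem (show (V : Set X) ∈ D from hV)
            · intro V hV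
              refine sUnion_subset fun W hW => ?_
              exact hV (show (⟨W, hop W hW⟩ : Opens X) ∈ {V : Opens X | (V : Set X) ∈ D} from hW)) hW
        exact ⟨V, hVD, V.isOpen, hVF⟩
      obtain ⟨E, hE, hEU, hEF⟩ := h _ h1 U ⟨U.isOpen, hU⟩
      exact ⟨E, hE, hEU, fun V hV => (hEF V V.isOpen hV).2⟩

theorem Smyth.isOpen_box {X : Type u} [TopologicalSpace X] {U : Set X} (hU : IsOpen U) :
    IsOpen {K : Smyth X | K.1 ⊆ U} :=
  TopologicalSpace.isOpen_generateFrom_of_mem ⟨U, hU, rfl⟩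

theorem Lower.isOpen_dia {X : Type u} [TopologicalSpace X] {U : Set X} (hU : IsOpen U) :
    IsOpen {C : Lower X | (C.1 ∩ U).Nonempty} :=
  TopologicalSpace.isOpen_generateFrom_of_mem ⟨U, hU, rfl⟩

theorem Smyth.exists_box {X : Type u} [TopologicalSpace X] {W : Set (Smyth X)} (hW : IsOpen W)
    {K : Smyth X} (hK : K ∈ W) : ∃ U : Set X, IsOpen U ∧ K.1 ⊆ U ∧ {L : Smyth X | L.1 ⊆ U} ⊆ W := by
  induction hW generalizing K with
  | basic S hS =>
    obtain ⟨U, hU, rfl⟩ := hS
    exact ⟨U, hU, hK, subset_rfl⟩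
  | univ => exact ⟨univ, isOpen_univ, subset_univ _, subset_univ _⟩
  | inter S T _ _ ihS ihT =>
    obtain ⟨U, hU, hKU, hUS⟩ := ihS hK.1
    obtain ⟨V, hV, hKV, hVT⟩ := ihT hK.2
    exact ⟨U ∩ V, hU.inter hV, subset_inter hKU hKV, fun L hL =>
      ⟨hUS (hL.trans inter_subset_left), hVT (hL.trans inter_subset_right)⟩⟩
  | sUnion 𝒮 _ ih =>
    obtain ⟨S, hS, hKS⟩ := hK
    obtain ⟨U, hU, hKU, hUS⟩ := ih S hS hKS
    exact ⟨U, hU, hKU, hUS.trans (subset_sUnion_of_mem hS)⟩

end Pool.Agent.V11216.CoCons
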