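import Pool.Agent.V11216.CoCons

/-!
A co-consonant `T₀` space whose lower and Smyth powerspaces are not co-consonant.
-/

set_option autoImplicit false

namespace Pool.Agent.V11216.CoX

open Set TopologicalSpace Pool.Agent.V11216.CoCons

/-- The points. -/
inductive Pt : Type
  | a : Pt
  | b : Pt
  | z : Pt
  | zS : Pt
  | d (g : ℕ → ℕ) : Pt
  | s (i j : ℕ) : Pt

open Pt

/-- The open sets. -/
def Op (W : Set Pt) : Prop :=
  (∀ g g' : ℕ → ℕ, g' ≤ g → d g ∈ W → d g' ∈ W) ∧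
  (z ∈ W → ∃ n, ∀ g : ℕ → ℕ, (∀ i < n, g i = 0) → d g ∈ W) ∧
  ((zS ∈ W ∨ ∃ i j, s i j ∈ W) → ∀ g, d g ∈ W) ∧
  (∀ i j j', j ≤ j' → s i j ∈ W → s i j' ∈ W) ∧
  (zS ∈ W → ∀ i, ∃ j, s i j ∈ W)

instance : TopologicalSpace Pt where
  IsOpen := Op
  isOpen_univ := ⟨fun _ _ _ _ => trivial, fun _ => ⟨0, fun _ _ => trivial⟩, fun _ _ => trivial,
    fun _ _ _ _ _ => trivial, fun _ _ => ⟨0, trivial⟩⟩
  isOpen_inter := by
    rintro U V ⟨h1, h2, h3, h4, h5⟩ ⟨k1, k2, k3, k4, k5⟩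
    refine ⟨fun g g' hg h => ⟨h1 g g' hg h.1, k1 g g' hg h.2⟩, fun h => ?_, fun h g => ?_,
      fun i j j' hj h => ⟨h4 i j j' hj h.1, k4 i j j' hj h.2⟩, fun h i => ?_⟩
    · obtain ⟨n, hn⟩ := h2 h.1
      obtain ⟨n', hn'⟩ := k2 h.2
      exact ⟨max n n', fun g hg => ⟨hn g fun i hi => hg i (lt_max_of_lt_left hi),
        hn' g fun i hi => hg i (lt_max_of_lt_right hi)⟩⟩
    · rcases h with h | ⟨i, j, h⟩
      · exact ⟨h3 (Or.inl h.1) g, k3 (Or.inl h.2) g⟩
      · exact ⟨h3 (Or.inr ⟨i, j, h.1⟩) g, k3 (Or.inr ⟨i, j, h.2⟩) g⟩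
    · obtain ⟨j, hj⟩ := h5 h.1 i
      obtain ⟨j', hj'⟩ := k5 h.2 i
      exact ⟨max j j', h4 i _ _ (le_max_left _ _) hj, k4 i _ _ (le_max_right _ _) hj'⟩
  isOpen_sUnion := by
    intro S hS
    refine ⟨fun g g' hg h => ?_, fun h => ?_, fun h g => ?_, fun i j j' hj h => ?_, fun h i => ?_⟩
    · obtain ⟨U, hU, h⟩ := h
      exact ⟨U, hU, (hS U hU).1 g g' hg h⟩
    · obtain ⟨U, hU, h⟩ := h
      obtain ⟨n, hn⟩ := (hS U hU).2.1 h
      exact ⟨n, fun g hg => ⟨U, hU, hn g hg⟩⟩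
    · rcases h with ⟨U, hU, h⟩ | ⟨i, j, U, hU, h⟩
      · exact ⟨U, hU, (hS U hU).2.2.1 (Or.inl h) g⟩
      · exact ⟨U, hU, (hS U hU).2.2.1 (Or.inr ⟨i, j, h⟩) g⟩
    · obtain ⟨U, hU, h⟩ := h
      exact ⟨U, hU, (hS U hU).2.2.2.1 i j j' hj h⟩
    · obtain ⟨U, hU, h⟩ := h
      obtain ⟨j, hj⟩ := (hS U hU).2.2.2.2 h i
      exact ⟨j, U, hU, hj⟩

/-- A convenient open neighbourhood. -/
def nb : Pt → Set Pt
  | a => {a}
  | b => {b}
  | z => {z} ∪ range d
  | zS => {zS} ∪ range d ∪ {x | ∃ i j, x = s i j}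
  | d g => {x | ∃ g' ≤ g, x = d g'}
  | s i j => range d ∪ {x | ∃ j' ≥ j, x = s i j'}

theorem mem_nb (x : Pt) : x ∈ nb x := by
  cases x with
  | a => rfl
  | b => rfl
  | z => exact Or.inl rfl
  | zS => exact Or.inl (Or.inl rfl)
  | d g => exact ⟨g, le_rfl, rfl⟩
  | s i j => exact Or.inr ⟨j, le_rfl, rfl⟩

theorem isOpen_nb (x : Pt) : IsOpen (nb x) := by
  cases x with
  | a => exact ⟨fun g g' _ h => (by cases h), fun h => (by cases h),
      fun h => (by rcases h with h | ⟨_, _, h⟩ <;> cases h), fun _ _ _ _ h => (by cases h),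
      fun h => (by cases h)⟩
  | b => exact ⟨fun g g' _ h => (by cases h), fun h => (by cases h),
      fun h => (by rcases h with h | ⟨_, _, h⟩ <;> cases h), fun _ _ _ _ h => (by cases h),
      fun h => (by cases h)⟩
  | z =>
    refine ⟨fun g g' _ h => Or.inr ⟨g', rfl⟩, fun h => ⟨0, fun g _ => Or.inr ⟨g, rfl⟩⟩,
      fun h g => Or.inr ⟨g, rfl⟩, fun _ _ _ _ h => ?_, fun h => ?_⟩
    · rcases h with h | ⟨_, h⟩ <;> cases h
    · rcases h with h | ⟨_, h⟩ <;> cases h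
  | zS =>
    exact ⟨fun g g' _ h => Or.inl (Or.inr ⟨g', rfl⟩), fun h => ⟨0, fun g _ => Or.inl (Or.inr ⟨g, rfl⟩)⟩,
      fun h g => Or.inl (Or.inr ⟨g, rfl⟩), fun i j j' _ h => Or.inr ⟨i, j', rfl⟩,
      fun h i => ⟨0, Or.inr ⟨i, 0, rfl⟩⟩⟩
  | d g =>
    refine ⟨fun g₁ g₂ h12 h => ?_, fun h => ?_, fun h => ?_, fun _ _ _ _ h => ?_, fun h => ?_⟩
    · obtain ⟨g', hg', h⟩ := h
      cases h
      exact ⟨g₂, h12.trans hg', rfl⟩
    · obtain ⟨_, _, h⟩ := h; cases h
    · rcases h with ⟨_, _, h⟩ | ⟨_, _, _, _, h⟩ <;> cases h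
    · obtain ⟨_, _, h⟩ := h; cases h
    · obtain ⟨_, _, h⟩ := h; cases h
  | s i j =>
    refine ⟨fun g₁ g₂ h12 h => Or.inl ⟨g₂, rfl⟩, fun h => ?_, fun h g => Or.inl ⟨g, rfl⟩,
      fun _ _ j₂ hj h => ?_, fun h => ?_⟩
    · rcases h with ⟨_, h⟩ | ⟨_, _, h⟩ <;> cases h
    · rcases h with ⟨_, h⟩ | ⟨j', hj', h⟩
      · cases h
      · cases h
        exact Or.inr ⟨j₂, le_trans hj' hj, rfl⟩
    · rcases h with ⟨_, h⟩ | ⟨_, _, h⟩ <;> cases h

/-- For points other than `z, zS`, `nb x` is the smallest neighbourhood. -/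
theorem nb_subset {x : Pt} (hz : x ≠ z) (hzS : x ≠ zS) {V : Set Pt} (hV : IsOpen V) (hx : x ∈ V) :
    nb x ⊆ V := by
  cases x with
  | a => rintro y hy; rw [show y = a from hy]; exact hx
  | b => rintro y hy; rw [show y = b from hy]; exact hx
  | z => exact absurd rfl hz
  | zS => exact absurd rfl hzS
  | d g =>
    rintro y ⟨g', hg', rfl⟩
    exact hV.1 g g' hg' hx
  | s i j =>
    rintro y (⟨g, rfl⟩ | ⟨j', hj', rfl⟩)
    · exact hV.2.2.1 (Or.inr ⟨i, j, hx⟩) g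
    · exact hV.2.2.2.1 i j j' hj' hx

instance : T0Space Pt := by
  rw [t0Space_iff_inseparable]
  intro x y hxy
  rw [inseparable_iff_forall_isOpen] at hxy
  have h1 := (hxy _ (isOpen_nb x)).1 (mem_nb x)
  have h2 := (hxy _ (isOpen_nb y)).2 (mem_nb y)
  cases x with
  | a => exact h1.symm
  | b => exact h1.symm
  | z =>
    rcases h1 with h1 | ⟨g, h1⟩
    · exact h1.symm
    · subst h1
      obtain ⟨_, _, h⟩ := h2
      cases h
  | zS =>
    rcases h1 with (h1 | ⟨g, h1⟩) | ⟨i, j, h1⟩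
    · exact h1.symm
    · subst h1
      obtain ⟨_, _, h⟩ := h2
      cases h
    · subst h1
      rcases h2 with ⟨_, h⟩ | ⟨_, _, h⟩ <;> cases h
  | d g =>
    obtain ⟨g', hg', h1⟩ := h1
    subst h1
    obtain ⟨g'', hg'', h2⟩ := h2
    cases h2
    rw [le_antisymm hg' hg'']
  | s i j =>
    rcases h1 with ⟨g, h1⟩ | ⟨j', hj', h1⟩
    · subst h1
      obtain ⟨_, _, h⟩ := h2
      cases h
    · subst h1
      rcases h2 with ⟨_, h⟩ | ⟨j'', hj'', h⟩
      · cases h
      · cases h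
        rw [le_antisymm hj' hj'']

/-- generated by a finite set -/
def Good (F : Set (Set Pt)) (W : Set Pt) : Prop :=
  ∃ E : Set Pt, E.Finite ∧ E ⊆ W ∧ ∀ V : Set Pt, IsOpen V → E ⊆ V → V ∈ F

theorem seq {F : Set (Set Pt)} (hF : ScottFam F)
    {W : Set Pt} (hW : W ∈ F) (V : ℕ → Set Pt) (hmono : Monotone V) (hV : ∀ n, IsOpen (V n))
    (hWV : W ⊆ ⋃ n, V n) : ∃ n, V n ∈ F := by
  have h1 : (⋃ n, V n) ∈ F := hF.upper W hW _ (isOpen_iUnion hV) hWV
  rw [← sUnion_range] at h1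
  obtain ⟨U, ⟨n, rfl⟩, hU⟩ := hF.dir (range V) (range_nonempty V)
    (directedOn_range.2 (hmono.directed_le)) (by rintro _ ⟨n, rfl⟩; exact hV n) h1
  exact ⟨n, hU⟩

/-- Reduction to finitely many smallest neighbourhoods. -/
theorem reduce {F : Set (Set Pt)} (hF : ScottFam F) {W : Set Pt} (hW : W ∈ F) (B : Set Pt)
    (hB : ∀ E : Set Pt, E ⊆ W → E.Finite → IsOpen (B ∪ ⋃ x ∈ E \ {z, zS}, nb x))
    (hWB : ∀ x ∈ W, x ∈ B ∨ (x ≠ z ∧ x ≠ zS)) :
    ∃ E : Set Pt, E.Finite ∧ E ⊆ W ∧ (B ∪ ⋃ x ∈ E \ {z, zS}, nb x) ∈ F := by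
  have h1 : W ⊆ ⋃₀ {V | ∃ E : Set Pt, E.Finite ∧ E ⊆ W ∧ V = B ∪ ⋃ x ∈ E \ {z, zS}, nb x} := by
    intro x hx
    rcases hWB x hx with h | ⟨h1, h2⟩
    · exact ⟨_, ⟨∅, finite_empty, empty_subset _, rfl⟩, Or.inl h⟩
    · refine ⟨_, ⟨{x}, finite_singleton x, singleton_subset_iff.2 hx, rfl⟩, Or.inr ?_⟩
      refine mem_biUnion ⟨rfl, ?_⟩ (mem_nb x)
      rintro (h | h)
      · exact h1 h
      · exact h2 h
  have hop : ∀ V ∈ {V | ∃ E : Set Pt, E.Finite ∧ E ⊆ W ∧ V = B ∪ ⋃ x ∈ E \ {z, zS}, nb x}, IsOpen V := by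
    rintro V ⟨E, hE, hEW, rfl⟩
    exact hB E hEW hE
  obtain ⟨V, ⟨E, hE, hEW, rfl⟩, hVF⟩ := hF.dir
    {V | ∃ E : Set Pt, E.Finite ∧ E ⊆ W ∧ V = B ∪ ⋃ x ∈ E \ {z, zS}, nb x}
    ⟨_, ∅, finite_empty, empty_subset _, rfl⟩ (by
      rintro _ ⟨E, hE, hEW, rfl⟩ _ ⟨E', hE', hEW', rfl⟩
      refine ⟨_, ⟨E ∪ E', hE.union hE', union_subset hEW hEW', rfl⟩, ?_, ?_⟩
      · exact union_subset_union_right _ (biUnion_subset_biUnion_left
          (sdiff_subset_sdiff_left subset_union_left))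
      · exact union_subset_union_right _ (biUnion_subset_biUnion_left
          (sdiff_subset_sdiff_left subset_union_right))) hop
    (hF.upper W hW _ (isOpen_sUnion hop) h1)
  exact ⟨E, hE, hEW, hVF⟩

theorem good_none {F : Set (Set Pt)} (hF : ScottFam F) {W : Set Pt} (hW : W ∈ F)
    (hzS : zS ∉ W) (hz : z ∉ W) : Good F W := by
  obtain ⟨E, hE, hEW, hEF⟩ := reduce hF hW ∅ (by
      intro E hEW hE
      rw [empty_union]
      exact isOpen_biUnion fun x _ => isOpen_nb x) (by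
      intro x hx
      right
      constructor <;> rintro rfl
      · exact hz hx
      · exact hzS hx)
  refine ⟨E, hE, hEW, fun V hV hEV => hF.upper _ hEF V hV ?_⟩
  rw [empty_union]
  refine iUnion₂_subset fun x hx => nb_subset ?_ ?_ hV (hEV hx.1)
  · exact fun h => hx.2 (Or.inl h)
  · exact fun h => hx.2 (Or.inr h)

/-- the set of `d g` with `g` vanishing below `n` -/
def N (n : ℕ) : Set Pt := {x | ∃ g : ℕ → ℕ, (∀ i < n, g i = 0) ∧ x = d g}

theorem N_anti {n m : ℕ} (h : n ≤ m) : N m ⊆ N n := by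
  rintro x ⟨g, hg, rfl⟩
  exact ⟨g, fun i hi => hg i (hi.trans_le h), rfl⟩

theorem good_z {F : Set (Set Pt)} (hF : ScottFam F) {W : Set Pt} (hW : W ∈ F)
    (hS : ∀ i j, s i j ∉ W) (hzS : zS ∉ W) (hz : z ∈ W) : Good F W := by
  classical
  have hWo := hF.isOpen W hW
  obtain ⟨n, hn⟩ := hWo.2.1 hz
  -- an auxiliary openness lemma
  have hnbS : ∀ x ∈ W, x ≠ z → (∀ i j, s i j ∉ nb x) ∧ zS ∉ nb x ∧ z ∉ nb x := by
    intro x hx hxz
    cases x with
    | a => exact ⟨fun i j h => (by cases h), fun h => (by cases h), fun h => (by cases h)⟩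
    | b => exact ⟨fun i j h => (by cases h), fun h => (by cases h), fun h => (by cases h)⟩
    | z => exact absurd rfl hxz
    | zS => exact absurd hx hzS
    | d g => exact ⟨fun i j h => (by obtain ⟨_, _, h⟩ := h; cases h),
        fun h => (by obtain ⟨_, _, h⟩ := h; cases h), fun h => (by obtain ⟨_, _, h⟩ := h; cases h)⟩
    | s i j => exact absurd hx (hS i j)
  have hopen : ∀ (E : Set Pt) (m : ℕ) (R : Set Pt), E ⊆ W → N m ⊆ R → (∀ x ∈ R, ∃ g, x = d g) →
      (∀ g g' : ℕ → ℕ, g' ≤ g → d g ∈ R → d g' ∈ R) →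
      IsOpen (({z} ∪ R) ∪ ⋃ x ∈ E \ {z, zS}, nb x) := by
    intro E m R hEW hmR hRd hRl
    have key : ∀ i j, s i j ∉ (({z} ∪ R) ∪ ⋃ x ∈ E \ {z, zS}, nb x) := by
      rintro i j ((h | h) | h)
      · cases h
      · obtain ⟨g, hg⟩ := hRd _ h
        cases hg
      · obtain ⟨x, hx, h⟩ := mem_iUnion₂.1 h
        exact (hnbS x (hEW hx.1) (fun h => hx.2 (Or.inl h))).1 i j h
    have key2 : zS ∉ (({z} ∪ R) ∪ ⋃ x ∈ E \ {z, zS}, nb x) := by
      rintro ((h | h) | h)
      · cases h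
      · obtain ⟨g, hg⟩ := hRd _ h
        cases hg
      · obtain ⟨x, hx, h⟩ := mem_iUnion₂.1 h
        exact (hnbS x (hEW hx.1) (fun h => hx.2 (Or.inl h))).2.1 h
    refine ⟨fun g g' hg h => ?_, fun _ => ⟨m, fun g hg => Or.inl (Or.inr (hmR ⟨g, hg, rfl⟩))⟩,
      fun h => ?_, fun i j j' _ h => absurd h (key i j), fun h => absurd h key2⟩
    · rcases h with (h | h) | h
      · cases h
      · exact Or.inl (Or.inr (hRl g g' hg h))
      · obtain ⟨x, hx, h⟩ := mem_iUnion₂.1 h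
        exact Or.inr (mem_biUnion hx ((isOpen_nb x).1 g g' hg h))
    · rcases h with h | ⟨i, j, h⟩
      · exact absurd h key2
      · exact absurd h (key i j)
  have hNlow : ∀ m (g g' : ℕ → ℕ), g' ≤ g → d g ∈ N m → d g' ∈ N m := by
    rintro m g g' hg ⟨g₀, h0, h⟩
    cases h
    exact ⟨g', fun i hi => Nat.le_zero.1 ((hg i).trans (h0 i hi).le), rfl⟩
  obtain ⟨E, hE, hEW, hEF⟩ := reduce hF hW ({z} ∪ N n) (by
      intro E hEW hE
      refine hopen E n (N n) hEW subset_rfl ?_ (hNlow n)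
      rintro x ⟨g, -, rfl⟩
      exact ⟨g, rfl⟩) (by
      intro x hx
      by_cases h : x = z
      · exact Or.inl (Or.inl h)
      · refine Or.inr ⟨h, ?_⟩
        rintro rfl
        exact hzS hx)
  set A : Set Pt := ⋃ x ∈ E \ {z, zS}, nb x with hA
  by_contra hcon
  -- bad sets
  have hk : ∀ h : ℕ → ℕ, (∀ i < n, h i = 0) → ∃ k, (({z} ∪ (N k ∪ nb (d h))) ∪ A) ∉ F := by
    intro h hh
    have h1 : ∃ V : Set Pt, IsOpen V ∧ ({z, d h} ∪ E) ⊆ V ∧ V ∉ F := by
      by_contra h2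
      push Not at h2
      exact hcon ⟨{z, d h} ∪ E, (Set.toFinite _).union hE, by
        rintro x ((hx | hx) | hx)
        · rw [show x = z from hx]; exact hz
        · rw [show x = d h from hx]; exact hn h hh
        · exact hEW hx, h2⟩
    obtain ⟨V, hV, hEV, hVF⟩ := h1
    obtain ⟨k, hk⟩ := hV.2.1 (hEV (Or.inl (Or.inl rfl)))
    refine ⟨k, fun hmem => hVF (hF.upper _ hmem V hV ?_)⟩
    rintro x ((hx | hx | hx) | hx)
    · rw [show x = z from hx]; exact hEV (Or.inl (Or.inl rfl))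
    · obtain ⟨g, hg, rfl⟩ := hx
      exact hk g hg
    · exact nb_subset (by intro h; cases h) (by intro h; cases h) hV (hEV (Or.inl (Or.inr rfl))) hx
    · obtain ⟨y, hy, hx⟩ := mem_iUnion₂.1 hx
      exact nb_subset (fun h => hy.2 (Or.inl h)) (fun h => hy.2 (Or.inr h)) hV (hEV (Or.inr hy.1)) hx
  -- the sets Z m τ
  let R : ℕ → (ℕ → ℕ) → Set Pt := fun m τ => {x | ∃ g : ℕ → ℕ, (∀ i < m, g i ≤ τ i) ∧ x = d g}
  have hRlow : ∀ m τ (g g' : ℕ → ℕ), g' ≤ g → d g ∈ R m τ → d g' ∈ R m τ := by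
    rintro m τ g g' hg ⟨g₀, h0, h⟩
    cases h
    exact ⟨g', fun i hi => (hg i).trans (h0 i hi), rfl⟩
  have hNR : ∀ m τ, N m ⊆ R m τ := by
    rintro m τ x ⟨g, hg, rfl⟩
    exact ⟨g, fun i hi => by rw [hg i hi]; exact Nat.zero_le _, rfl⟩
  let P : ℕ → (ℕ → ℕ) → Prop := fun m τ => (({z} ∪ R m τ) ∪ A) ∈ F
  have hstep : ∀ m τ, ∃ c, P m τ → ∀ c' ≥ c, P (m + 1) (Function.update τ m c') := by
    intro m τ
    by_cases hP : P m τ
    · have hmono : Monotone fun c => (({z} ∪ R (m + 1) (Function.update τ m c)) ∪ A) := by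
        intro c c' hcc'
        refine union_subset_union_left _ (union_subset_union_right _ ?_)
        rintro x ⟨g, hg, rfl⟩
        refine ⟨g, fun i hi => (hg i hi).trans ?_, rfl⟩
        rcases Nat.lt_succ_iff_lt_or_eq.1 hi with h | rfl
        · rw [Function.update_of_ne h.ne, Function.update_of_ne h.ne]
        · simpa using hcc'
      obtain ⟨c, hc⟩ := seq hF hP (fun c => (({z} ∪ R (m + 1) (Function.update τ m c)) ∪ A)) hmono
        (fun c => hopen E (m + 1) _ hEW (hNR _ _) (by rintro x ⟨g, -, rfl⟩; exact ⟨g, rfl⟩)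
          (hRlow _ _)) (by
        rintro x ((hx | hx) | hx)
        · exact mem_iUnion.2 ⟨0, Or.inl (Or.inl hx)⟩
        · obtain ⟨g, hg, rfl⟩ := hx
          refine mem_iUnion.2 ⟨g m, Or.inl (Or.inr ⟨g, fun i hi => ?_, rfl⟩)⟩
          rcases Nat.lt_succ_iff_lt_or_eq.1 hi with h | rfl
          · rw [Function.update_of_ne h.ne]
            exact hg i h
          · simp
        · exact mem_iUnion.2 ⟨0, Or.inr hx⟩)
      exact ⟨c, fun _ c' hc' => hF.upper _ hc _ (hopen E (m + 1) _ hEW (hNR _ _)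
        (by rintro x ⟨g, -, rfl⟩; exact ⟨g, rfl⟩) (hRlow _ _)) (hmono hc')⟩
    · exact ⟨0, fun h => absurd h hP⟩
  have hf : ∀ m τ k, ∃ f : ℕ → ℕ, P m τ → ∀ h : ℕ → ℕ, (∀ i < m, h i = τ i) →
      (({z} ∪ (N k ∪ nb (d h))) ∪ A) ∉ F → ¬ ∀ i ≥ m, f i ≤ h i := by
    intro m τ k
    by_cases hP : P m τ
    · by_contra h2
      push Not at h2
      have hT : ∀ f : ℕ → ℕ, (({z} ∪ (N (max k m) ∪
          {x | ∃ g : ℕ → ℕ, (∀ i < m, g i ≤ τ i) ∧ (∀ i ≥ m, g i ≤ f i) ∧ x = d g})) ∪ A) ∉ F := by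
        intro f hmem
        obtain ⟨-, h, hhτ, hhF, hhf⟩ := h2 f
        apply hhF
        refine hF.upper _ hmem _ (hopen E k _ hEW subset_union_left ?_ ?_) ?_
        · rintro x (⟨g, -, rfl⟩ | ⟨g, -, rfl⟩) <;> exact ⟨g, rfl⟩
        · rintro g g' hg (h' | h')
          · exact Or.inl (hNlow k g g' hg h')
          · exact Or.inr ((isOpen_nb (d h)).1 g g' hg h')
        · refine union_subset_union_left _ (union_subset_union_right _ ?_)
          rintro x (hx | ⟨g, hg1, hg2, rfl⟩)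
          · exact Or.inl (N_anti (le_max_left _ _) hx)
          · refine Or.inr ⟨g, fun i => ?_, rfl⟩
            rcases lt_or_ge i m with hi | hi
            · rw [hhτ i hi]
              exact hg1 i hi
            · exact (hg2 i hi).trans (hhf i hi)
      have hop : ∀ V ∈ range (fun f : ℕ → ℕ => (({z} ∪ (N (max k m) ∪
          {x | ∃ g : ℕ → ℕ, (∀ i < m, g i ≤ τ i) ∧ (∀ i ≥ m, g i ≤ f i) ∧ x = d g})) ∪ A)), IsOpen V := by
        rintro _ ⟨f, rfl⟩
        refine hopen E (max k m) _ hEW subset_union_left ?_ ?_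
        · rintro x (⟨g, -, rfl⟩ | ⟨g, -, -, rfl⟩) <;> exact ⟨g, rfl⟩
        · rintro g g' hg (h' | ⟨g₀, h1, h2, h⟩)
          · exact Or.inl (hNlow _ g g' hg h')
          · cases h
            exact Or.inr ⟨g', fun i hi => (hg i).trans (h1 i hi), fun i hi => (hg i).trans (h2 i hi), rfl⟩
      obtain ⟨V, ⟨f, rfl⟩, hVF⟩ := hF.dir _ (range_nonempty _) (by
          rintro _ ⟨f, rfl⟩ _ ⟨f', rfl⟩
          refine ⟨_, ⟨f ⊔ f', rfl⟩, ?_, ?_⟩
          · refine union_subset_union_left _ (union_subset_union_right _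
              (union_subset_union_right _ ?_))
            rintro x ⟨g, h1, h2, rfl⟩
            exact ⟨g, h1, fun i hi => (h2 i hi).trans (le_max_left _ _), rfl⟩
          · refine union_subset_union_left _ (union_subset_union_right _
              (union_subset_union_right _ ?_))
            rintro x ⟨g, h1, h2, rfl⟩
            exact ⟨g, h1, fun i hi => (h2 i hi).trans (le_max_right _ _), rfl⟩) hop
        (hF.upper _ hP _ (isOpen_sUnion hop) (by
          rintro x ((hx | hx) | hx)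
          · exact ⟨_, ⟨0, rfl⟩, Or.inl (Or.inl hx)⟩
          · obtain ⟨g, hg, rfl⟩ := hx
            exact ⟨_, ⟨g, rfl⟩, Or.inl (Or.inr (Or.inr ⟨g, hg, fun _ _ => le_rfl, rfl⟩))⟩
          · exact ⟨_, ⟨0, rfl⟩, Or.inr hx⟩))
      exact hT f hVF
    · exact ⟨0, fun h => absurd h hP⟩
  choose c hc using hstep
  choose f hf using hf
  -- the recursion
  let tr : ℕ → (ℕ → ℕ) → (ℕ → ℕ) := fun j τ i => if i < j then τ i else 0
  let v : ℕ → (ℕ → ℕ) → ℕ := fun m τ => if m < n then 0 else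
    max (c m τ) ((Finset.range (m + 1)).sup fun j => (Finset.range (m + 1)).sup fun k =>
      f j (tr j τ) k m)
  let H : ℕ → (ℕ → ℕ) := fun m => Nat.rec (fun _ => 0) (fun m τ => Function.update τ m (v m τ)) m
  have hH0 : H 0 = fun _ => 0 := rfl
  have hHs : ∀ m, H (m + 1) = Function.update (H m) m (v m (H m)) := fun m => rfl
  let h : ℕ → ℕ := fun i => H (i + 1) i
  have hh : ∀ i, h i = v i (H i) := by
    intro i
    change H (i + 1) i = _
    rw [hHs, Function.update_self]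
  have hHtr : ∀ m i, H m i = if i < m then h i else 0 := by
    intro m
    induction m with
    | zero => intro i; simp [hH0]
    | succ m ih =>
      intro i
      rw [hHs]
      by_cases him : i = m
      · subst him
        rw [Function.update_self, if_pos (Nat.lt_succ_self _), hh]
      · rw [Function.update_of_ne him, ih i]
        by_cases h1 : i < m
        · rw [if_pos h1, if_pos (by omega)]
        · rw [if_neg h1, if_neg (by omega)]
  have htr : ∀ j m, j ≤ m → tr j (H m) = H j := by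
    intro j m hjm
    funext i
    change (if i < j then H m i else 0) = H j i
    rw [hHtr m i, hHtr j i]
    by_cases h1 : i < j
    · rw [if_pos h1, if_pos h1, if_pos (by omega)]
    · rw [if_neg h1, if_neg h1]
  have hhn : ∀ i < n, h i = 0 := by
    intro i hi
    rw [hh]
    exact if_pos hi
  have hPn : ∀ m, n ≤ m → P m (H m) := by
    intro m hm
    induction m, hm using Nat.le_induction with
    | base =>
      have h1 : R n (H n) = N n := by
        ext x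
        constructor
        · rintro ⟨g, hg, rfl⟩
          refine ⟨g, fun i hi => ?_, rfl⟩
          have := hg i hi
          rw [hHtr, if_pos hi, hhn i hi] at this
          exact Nat.le_zero.1 this
        · exact fun hx => hNR n _ hx
      change (({z} ∪ R n (H n)) ∪ A) ∈ F
      rw [h1]
      exact hEF
    | succ m hm ih =>
      rw [hHs]
      refine hc m (H m) ih _ ?_
      change c m (H m) ≤ if m < n then 0 else _
      rw [if_neg (not_lt.2 hm)]
      exact le_max_left _ _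
  obtain ⟨k, hkF⟩ := hk h hhn
  refine hf (max n k) (H (max n k)) k (hPn _ (le_max_left _ _)) h (fun i hi => ?_) hkF
    (fun i hi => ?_)
  · rw [hHtr, if_pos hi]
  · rw [hh i]
    change _ ≤ if i < n then 0 else _
    rw [if_neg (not_lt.2 ((le_max_left n k).trans hi))]
    refine le_trans ?_ (le_max_right _ _)
    have h1 : f (max n k) (H (max n k)) k i = f (max n k) (tr (max n k) (H i)) k i := by
      rw [htr _ _ hi]
    rw [h1]
    refine le_trans ?_ (Finset.le_sup (f := fun j => (Finset.range (i + 1)).sup fun k =>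
      f j (tr j (H i)) k i) (Finset.mem_range.2 (Nat.lt_succ_of_le hi)))
    exact Finset.le_sup (f := fun k' => f (max n k) (tr (max n k) (H i)) k' i)
      (Finset.mem_range.2 (Nat.lt_succ_of_le ((le_max_right n k).trans hi)))

theorem good_noS {F : Set (Set Pt)} (hF : ScottFam F) {W : Set Pt} (hW : W ∈ F)
    (hS : ∀ i j, s i j ∉ W) (hzS : zS ∉ W) : Good F W := by
  by_cases hz : z ∈ W
  · exact good_z hF hW hS hzS hz
  · exact good_none hF hW hzS hz

/-- the `S`-part -/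
def SS : Set Pt := {x | x = zS ∨ ∃ i j, x = s i j}

theorem good_S {F : Set (Set Pt)} (hF : ScottFam F) {W : Set Pt} (hW : W ∈ F)
    (hS : (W ∩ SS).Nonempty) : Good F W := by
  classical
  have hWo := hF.isOpen W hW
  have hD : ∀ g, d g ∈ W := by
    apply hWo.2.2.1
    obtain ⟨x, hxW, hx | ⟨i, j, hx⟩⟩ := hS
    · exact Or.inl (hx ▸ hxW)
    · exact Or.inr ⟨i, j, hx ▸ hxW⟩
  by_cases hW0 : W \ SS ∈ F
  · obtain ⟨E, hE, hEW, hEF⟩ := good_noS hF hW0 (fun i j h => h.2 (Or.inr ⟨i, j, rfl⟩))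
      (fun h => h.2 (Or.inl rfl))
    exact ⟨E, hE, hEW.trans sdiff_subset, hEF⟩
  -- least elements of the spines
  let w : ℕ → ℕ := fun i => if h : ∃ j, s i j ∈ W then Nat.find h else 0
  have hw : ∀ i j, s i j ∈ W → s i (w i) ∈ W ∧ w i ≤ j := by
    intro i j hij
    have h : ∃ j, s i j ∈ W := ⟨j, hij⟩
    have h1 : w i = Nat.find h := dif_pos h
    rw [h1]
    exact ⟨Nat.find_spec h, Nat.find_min' h hij⟩
  by_cases hzS : zS ∈ W
  · by_contra hcon
    have h1 : ∀ p : ℕ, ∃ V : Set Pt, IsOpen V ∧ ((W ∩ {a, b, z}) ∪ {zS} ∪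
        (fun i => s i (w i)) '' (Finset.range p : Set ℕ)) ⊆ V ∧ V ∉ F := by
      intro p
      by_contra h2
      push Not at h2
      refine hcon ⟨_, (((Set.toFinite {a, b, z}).inter_of_right W).union (finite_singleton zS)).union
        ((Finset.finite_toSet _).image _), ?_, h2⟩
      rintro x ((hx | hx) | ⟨i, -, rfl⟩)
      · exact hx.1
      · rw [show x = zS from hx]; exact hzS
      · obtain ⟨j, hj⟩ := hWo.2.2.2.2 hzS i
        exact (hw i j hj).1
    choose V hV hEV hVF using h1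
    let W' : ℕ → Set Pt := fun p => {x | x ∈ W ∧ ∀ q ≥ p, x ∈ V q}
    have hVzS : ∀ q, zS ∈ V q := fun q => hEV q (Or.inl (Or.inr rfl))
    have hVd : ∀ q g, d g ∈ V q := fun q g => (hV q).2.2.1 (Or.inl (hVzS q)) g
    have hVs : ∀ q i j, i < q → s i j ∈ W → s i j ∈ V q := by
      intro q i j hiq hij
      refine (hV q).2.2.2.1 i (w i) j (hw i j hij).2 (hEV q (Or.inr ⟨i, ?_, rfl⟩))
      simpa using hiq
    have hopen : ∀ p, IsOpen (W' p) := by
      intro p
      refine ⟨fun g g' hg _ => ⟨hD g', fun q _ => hVd q g'⟩, fun _ => ⟨0, fun g _ => ⟨hD g,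
        fun q _ => hVd q g⟩⟩, fun _ g => ⟨hD g, fun q _ => hVd q g⟩, fun i j j' hj h =>
        ⟨hWo.2.2.2.1 i j j' hj h.1, fun q hq => (hV q).2.2.2.1 i j j' hj (h.2 q hq)⟩, fun _ i => ?_⟩
      obtain ⟨j₀, hj₀⟩ := hWo.2.2.2.2 hzS i
      choose g hg using fun q => (hV q).2.2.2.2 (hVzS q) i
      refine ⟨max j₀ ((Finset.range (i + 1)).sup g), hWo.2.2.2.1 i _ _ (le_max_left _ _) hj₀,
        fun q hq => ?_⟩
      by_cases hqi : q ≤ i
      · refine (hV q).2.2.2.1 i (g q) _ (le_trans ?_ (le_max_right _ _)) (hg q)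
        exact Finset.le_sup (f := g) (Finset.mem_range.2 (Nat.lt_succ_of_le hqi))
      · exact hVs q i _ (not_le.1 hqi) (hWo.2.2.2.1 i _ _ (le_max_left _ _) hj₀)
    obtain ⟨p, hp⟩ := seq hF hW W' (fun p p' hpp' x hx => ⟨hx.1, fun q hq => hx.2 q (hpp'.trans hq)⟩)
      hopen (by
        intro x hx
        cases x with
        | a => exact mem_iUnion.2 ⟨0, hx, fun q _ => hEV q (Or.inl (Or.inl ⟨hx, by simp⟩))⟩
        | b => exact mem_iUnion.2 ⟨0, hx, fun q _ => hEV q (Or.inl (Or.inl ⟨hx, by simp⟩))⟩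
        | z => exact mem_iUnion.2 ⟨0, hx, fun q _ => hEV q (Or.inl (Or.inl ⟨hx, by simp⟩))⟩
        | zS => exact mem_iUnion.2 ⟨0, hx, fun q _ => hVzS q⟩
        | d g => exact mem_iUnion.2 ⟨0, hx, fun q _ => hVd q g⟩
        | s i j => exact mem_iUnion.2 ⟨i + 1, hx, fun q hq => hVs q i j hq hx⟩)
    exact hVF p (hF.upper _ hp _ (hV p) fun x hx => hx.2 p le_rfl)
  · let V : ℕ → Set Pt := fun k => {x | x ∈ W ∧ ∀ i j, x = s i j → i < k}
    have hVo : ∀ k, IsOpen (V k) := by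
      intro k
      refine ⟨fun g g' hg _ => ⟨hD g', fun _ _ h => (by cases h)⟩, fun _ => ⟨0, fun g _ => ⟨hD g,
        fun _ _ h => (by cases h)⟩⟩, fun _ g => ⟨hD g, fun _ _ h => (by cases h)⟩,
        fun i j j' hj h => ⟨hWo.2.2.2.1 i j j' hj h.1, fun i' j'' h' => ?_⟩, fun h => absurd h.1 hzS⟩
      cases h'
      exact h.2 i j rfl
    obtain ⟨k, hk⟩ := seq hF hW V (fun k k' hkk' x hx => ⟨hx.1, fun i j h => (hx.2 i j h).trans_le hkk'⟩)
      hVo (by
        intro x hx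
        by_cases h : ∃ i j, x = s i j
        · obtain ⟨i, j, rfl⟩ := h
          refine mem_iUnion.2 ⟨i + 1, hx, fun i' j' h => ?_⟩
          cases h
          exact Nat.lt_succ_self _
        · push Not at h
          exact mem_iUnion.2 ⟨0, hx, fun i j h' => absurd h' (h i j)⟩)
    -- some spine point belongs to `V k`
    have hne : ∃ i j, s i j ∈ V k := by
      by_contra hcon
      push Not at hcon
      apply hW0
      have h1 : V k = W \ SS := by
        ext x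
        constructor
        · intro hx
          refine ⟨hx.1, ?_⟩
          rintro (h | ⟨i, j, h⟩)
          · rw [h] at hx
            exact hzS hx.1
          · rw [h] at hx
            exact hcon i j hx
        · intro hx
          exact ⟨hx.1, fun i j h => absurd (Or.inr ⟨i, j, h⟩) hx.2⟩
      rw [← h1]
      exact hk
    obtain ⟨i₀, j₀, hij₀⟩ := hne
    refine ⟨(W ∩ {a, b, z}) ∪ (W ∩ (fun i => s i (w i)) '' (Finset.range k : Set ℕ)),
      ((Set.toFinite {a, b, z}).inter_of_right W).union (((Finset.finite_toSet _).image _).inter_of_right W),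
      union_subset inter_subset_left inter_subset_left, fun V' hV' hEV => ?_⟩
    have hs : ∀ i j, s i j ∈ V k → s i j ∈ V' := by
      intro i j hij
      have h1 := hw i j hij.1
      refine hV'.2.2.2.1 i (w i) j h1.2 (hEV (Or.inr ⟨h1.1, i, ?_, rfl⟩))
      simpa using hij.2 i j rfl
    refine hF.upper _ hk V' hV' fun x hx => ?_
    cases x with
    | a => exact hEV (Or.inl ⟨hx.1, by simp⟩)
    | b => exact hEV (Or.inl ⟨hx.1, by simp⟩)
    | z => exact hEV (Or.inl ⟨hx.1, by simp⟩)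
    | zS => exact absurd hx.1 hzS
    | d g => exact hV'.2.2.1 (Or.inr ⟨i₀, j₀, hs i₀ j₀ hij₀⟩) g
    | s i j => exact hs i j hx

theorem good {F : Set (Set Pt)} (hF : ScottFam F) {W : Set Pt} (hW : W ∈ F) : Good F W := by
  by_cases hS : (W ∩ SS).Nonempty
  · exact good_S hF hW hS
  · rw [not_nonempty_iff_eq_empty] at hS
    refine good_noS hF hW (fun i j h => ?_) (fun h => ?_)
    · exact (Set.ext_iff.1 hS (s i j)).1 ⟨h, Or.inr ⟨i, j, rfl⟩⟩
    · exact (Set.ext_iff.1 hS zS).1 ⟨h, Or.inl rfl⟩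

theorem coConsonant : CoConsonant Pt := coConsonant_iff.2 fun _ hF _ hU => good hF hU

end Pool.Agent.V11216.CoX
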