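import Mathlib

/-!
A countable consonant `T₀` space `Pt` for which the Hoare and the Smyth power spaces are not
consonant.  It consists of a copy `{zM} ∪ {m i j}` of the metric fan (open), a copy
`{zS} ∪ {s i j}` of the sequential fan (closed), where every neighbourhood of `s i j` contains
`m i j`, and two isolated points.
-/

set_option autoImplicit false

namespace Pool.Agent.V11216.ConsonX

open Set

/-- The points. -/
inductive Pt : Type
  | a : Pt
  | b : Pt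
  | zM : Pt
  | zS : Pt
  | m (i j : ℕ) : Pt
  | s (i j : ℕ) : Pt

open Pt

/-- The open sets. -/
def Op (W : Set Pt) : Prop :=
  (∀ i j, s i j ∈ W → m i j ∈ W) ∧ (zM ∈ W → ∃ n, ∀ i, n ≤ i → ∀ j, m i j ∈ W) ∧
    (zS ∈ W → ∀ i, ∃ n, ∀ j, n ≤ j → s i j ∈ W)

instance : TopologicalSpace Pt where
  IsOpen := Op
  isOpen_univ := ⟨fun _ _ _ => trivial, fun _ => ⟨0, fun _ _ _ => trivial⟩,
    fun _ _ => ⟨0, fun _ _ => trivial⟩⟩
  isOpen_inter := by
    rintro U V ⟨h1, h2, h3⟩ ⟨k1, k2, k3⟩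
    refine ⟨fun i j h => ⟨h1 i j h.1, k1 i j h.2⟩, fun h => ?_, fun h i => ?_⟩
    · obtain ⟨n, hn⟩ := h2 h.1
      obtain ⟨n', hn'⟩ := k2 h.2
      exact ⟨max n n', fun i hi j => ⟨hn i (le_of_max_le_left hi) j, hn' i (le_of_max_le_right hi) j⟩⟩
    · obtain ⟨n, hn⟩ := h3 h.1 i
      obtain ⟨n', hn'⟩ := k3 h.2 i
      exact ⟨max n n', fun j hj => ⟨hn j (le_of_max_le_left hj), hn' j (le_of_max_le_right hj)⟩⟩
  isOpen_sUnion := by
    intro S hS
    refine ⟨fun i j h => ?_, fun h => ?_, fun h i => ?_⟩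
    · obtain ⟨U, hU, h⟩ := h
      exact ⟨U, hU, (hS U hU).1 i j h⟩
    · obtain ⟨U, hU, h⟩ := h
      obtain ⟨n, hn⟩ := (hS U hU).2.1 h
      exact ⟨n, fun i hi j => ⟨U, hU, hn i hi j⟩⟩
    · obtain ⟨U, hU, h⟩ := h
      obtain ⟨n, hn⟩ := (hS U hU).2.2 h i
      exact ⟨n, fun j hj => ⟨U, hU, hn j hj⟩⟩

theorem isOpen_iff {W : Set Pt} : IsOpen W ↔ Op W := Iff.rfl

/-- isolated points -/
theorem isOpen_a : IsOpen ({a} : Set Pt) :=
  ⟨fun i j h => (by cases h), fun h => (by cases h), fun h => (by cases h)⟩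

theorem isOpen_b : IsOpen ({b} : Set Pt) :=
  ⟨fun i j h => (by cases h), fun h => (by cases h), fun h => (by cases h)⟩

theorem isOpen_m (i j : ℕ) : IsOpen ({m i j} : Set Pt) :=
  ⟨fun i j h => (by cases h), fun h => (by cases h), fun h => (by cases h)⟩

theorem isOpen_s (i j : ℕ) : IsOpen ({m i j, s i j} : Set Pt) := by
  refine ⟨fun i' j' h => ?_, fun h => ?_, fun h => ?_⟩
  · rcases h with h | h
    · cases h
    · cases h
      exact Or.inl rfl
  · rcases h with h | h <;> cases h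
  · rcases h with h | h <;> cases h

theorem isOpen_M : IsOpen ({zM} ∪ {x | ∃ i j, x = m i j} : Set Pt) := by
  refine ⟨fun i' j' h => ?_, fun h => ?_, fun h => ?_⟩
  · rcases h with h | ⟨i, j, h⟩
    · cases h
    · cases h
  · exact ⟨0, fun i _ j => Or.inr ⟨i, j, rfl⟩⟩
  · rcases h with h | ⟨i, j, h⟩
    · cases h
    · cases h

instance : T0Space Pt := by
  rw [t0Space_iff_inseparable]
  intro x y hxy
  rw [inseparable_iff_forall_isOpen] at hxy
  have ha := hxy _ isOpen_a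
  have hb := hxy _ isOpen_b
  have hM := hxy _ isOpen_M
  cases x with
  | a => exact (ha.1 rfl).symm
  | b => exact (hb.1 rfl).symm
  | m i j => exact ((hxy _ (isOpen_m i j)).1 rfl).symm
  | zM =>
    have h1 := hM.1 (Or.inl rfl)
    rcases h1 with h1 | ⟨i, j, h1⟩
    · exact h1.symm
    · subst h1
      have := (hxy _ (isOpen_m i j)).2 rfl
      cases this
  | s i j =>
    have h1 := (hxy _ (isOpen_s i j)).1 (Or.inr rfl)
    rcases h1 with h1 | h1
    · change y = m i j at h1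
      subst h1
      have := (hxy _ (isOpen_m i j)).2 rfl
      cases this
    · exact h1.symm
  | zS =>
    cases y with
    | a => exact absurd (ha.2 rfl) (by intro h; cases h)
    | b => exact absurd (hb.2 rfl) (by intro h; cases h)
    | m i j => exact absurd ((hxy _ (isOpen_m i j)).2 rfl) (by intro h; cases h)
    | s i j =>
      have h1 := (hxy _ (isOpen_s i j)).2 (Or.inr rfl)
      rcases h1 with h1 | h1 <;> cases h1
    | zS => rfl
    | zM =>
      have h1 := hM.2 (Or.inl rfl)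
      rcases h1 with h1 | ⟨i, j, h1⟩ <;> cases h1

/-- A set `K` whose traces are small is compact. -/
theorem isCompact_of {K : Set Pt}
    (h : ∀ W₁ W₂ : Set Pt, IsOpen W₁ → IsOpen W₂ → (zM ∈ K → zM ∈ W₁) → (zS ∈ K → zS ∈ W₂) →
      (K \ (W₁ ∪ W₂)).Finite) : IsCompact K := by
  classical
  rw [isCompact_iff_finite_subcover]
  intro ι U hU hKU
  have h1 : ∃ (t : Finset ι), zM ∈ K → zM ∈ ⋃ i ∈ t, U i := by
    by_cases hz : zM ∈ K
    · obtain ⟨i, hi⟩ := mem_iUnion.1 (hKU hz)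
      exact ⟨{i}, fun _ => mem_biUnion (Finset.mem_singleton_self i) hi⟩
    · exact ⟨∅, fun h => absurd h hz⟩
  have h2 : ∃ (t : Finset ι), zS ∈ K → zS ∈ ⋃ i ∈ t, U i := by
    by_cases hz : zS ∈ K
    · obtain ⟨i, hi⟩ := mem_iUnion.1 (hKU hz)
      exact ⟨{i}, fun _ => mem_biUnion (Finset.mem_singleton_self i) hi⟩
    · exact ⟨∅, fun h => absurd h hz⟩
  obtain ⟨t₁, ht₁⟩ := h1
  obtain ⟨t₂, ht₂⟩ := h2
  have hfin := h _ _ (isOpen_biUnion fun i (_ : i ∈ t₁) => hU i)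
    (isOpen_biUnion fun i (_ : i ∈ t₂) => hU i) ht₁ ht₂
  have hcov : (K \ ((⋃ i ∈ t₁, U i) ∪ (⋃ i ∈ t₂, U i))) ⊆ ⋃ i, U i := fun x hx => hKU hx.1
  obtain ⟨t₃, ht₃⟩ := hfin.isCompact.elim_finite_subcover U hU hcov
  refine ⟨t₁ ∪ t₂ ∪ t₃, fun x hx => ?_⟩
  by_cases hx' : x ∈ (⋃ i ∈ t₁, U i) ∪ (⋃ i ∈ t₂, U i)
  · rcases hx' with hx' | hx'
    · obtain ⟨i, hi, hxi⟩ := mem_iUnion₂.1 hx'
      exact mem_biUnion (by simp [hi]) hxi
    · obtain ⟨i, hi, hxi⟩ := mem_iUnion₂.1 hx'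
      exact mem_biUnion (by simp [hi]) hxi
  · obtain ⟨i, hi, hxi⟩ := mem_iUnion₂.1 (ht₃ ⟨hx, hx'⟩)
    exact mem_biUnion (by simp [hi]) hxi

/-- Scott open families of open sets. -/
structure ScottOpen {X : Type} [TopologicalSpace X] (F : Set (Set X)) : Prop where
  isOpen : ∀ U ∈ F, IsOpen U
  upper : ∀ U ∈ F, ∀ V : Set X, IsOpen V → U ⊆ V → V ∈ F
  dir : ∀ D : Set (Set X), D.Nonempty → DirectedOn (· ⊆ ·) D → (∀ U ∈ D, IsOpen U) →
    ⋃₀ D ∈ F → ∃ U ∈ D, U ∈ F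

theorem ScottOpen.seq {X : Type} [TopologicalSpace X] {F : Set (Set X)} (hF : ScottOpen F)
    {W : Set X} (hW : W ∈ F) (V : ℕ → Set X) (hmono : Monotone V) (hV : ∀ n, IsOpen (V n))
    (hWV : W ⊆ ⋃ n, V n) : ∃ n, V n ∈ F := by
  have h1 : (⋃ n, V n) ∈ F := hF.upper W hW _ (isOpen_iUnion hV) hWV
  rw [← sUnion_range] at h1
  obtain ⟨U, ⟨n, rfl⟩, hU⟩ := hF.dir (range V) (range_nonempty V)
    (directedOn_range.2 (hmono.directed_le)) (by rintro _ ⟨n, rfl⟩; exact hV n) h1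
  exact ⟨n, hU⟩

/-- The sequential fan argument: if `W ∈ F` contains `zS`, then there is `p` such that every open
set containing `zS`, a set `A ⊆ W` of other points with ..., and the first `p` spines of `W`
lies in `F`. -/
theorem spine {F : Set (Set Pt)} (hF : ScottOpen F) {W : Set Pt} (hW : W ∈ F) (hz : zS ∈ W)
    (A : Set Pt) (hAW : A ⊆ W)
    (hA : ∀ x ∈ W, x ∈ A ∨ x = zS ∨ ∃ i j, s i j ∈ W ∧ (x = s i j ∨ x = m i j))
    (hzM : zM ∈ W → ∃ n, ∀ i, n ≤ i → ∀ j, m i j ∈ A) :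
    ∃ p : ℕ, ∀ V : Set Pt, IsOpen V → A ⊆ V → zS ∈ V → (∀ i < p, ∀ j, s i j ∈ W → s i j ∈ V) →
      V ∈ F := by
  by_contra hcon
  push Not at hcon
  choose V hV hAV hzV hpV hVF using hcon
  let W' : ℕ → Set Pt := fun p => {x | x ∈ W ∧ ∀ q, p ≤ q → x ∈ V q}
  have hWo := hF.isOpen W hW
  have hmono : Monotone W' := fun p p' hpp' x hx => ⟨hx.1, fun q hq => hx.2 q (hpp'.trans hq)⟩
  have hopen : ∀ p, IsOpen (W' p) := by
    intro p
    refine ⟨fun i j h => ⟨hWo.1 i j h.1, fun q hq => (hV q).1 i j (h.2 q hq)⟩, fun h => ?_,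
      fun h i => ?_⟩
    · obtain ⟨n, hn⟩ := hzM h.1
      exact ⟨n, fun i hi j => ⟨hAW (hn i hi j), fun q hq => hAV q (hn i hi j)⟩⟩
    · obtain ⟨n, hn⟩ := hWo.2.2 hz i
      choose g hg using fun q => (hV q).2.2 (hzV q) i
      refine ⟨max n ((Finset.range (i + 1)).sup g), fun j hj => ⟨hn j (le_of_max_le_left hj),
        fun q hq => ?_⟩⟩
      by_cases hqi : q ≤ i
      · refine hg q j (le_trans ?_ (le_of_max_le_right hj))
        exact Finset.le_sup (f := g) (Finset.mem_range.2 (Nat.lt_succ_of_le hqi))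
      · exact hpV q i (not_le.1 hqi) j (hn j (le_of_max_le_left hj))
  have hcov : W ⊆ ⋃ p, W' p := by
    intro x hx
    rcases hA x hx with h | h | ⟨i, j, hs, h⟩
    · exact mem_iUnion.2 ⟨0, hx, fun q _ => hAV q h⟩
    · subst h
      exact mem_iUnion.2 ⟨0, hx, fun q _ => hzV q⟩
    · refine mem_iUnion.2 ⟨i + 1, hx, fun q hq => ?_⟩
      have h1 := hpV q i hq j hs
      rcases h with h | h
      · rw [h]; exact h1
      · rw [h]; exact (hV q).1 i j h1
  obtain ⟨p, hp⟩ := hF.seq hW W' hmono hopen hcov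
  exact hVF p (hF.upper _ hp _ (hV p) fun x hx => hx.2 p le_rfl)

theorem finite_box (N : ℕ) (f : ℕ → ℕ) :
    ({a, b} ∪ {x : Pt | ∃ i j, i < N ∧ j < f i ∧ (x = m i j ∨ x = s i j)}).Finite := by
  apply Set.Finite.union (by simp)
  have h1 : {x : Pt | ∃ i j, i < N ∧ j < f i ∧ (x = m i j ∨ x = s i j)} ⊆
      ⋃ i ∈ Finset.range N, ⋃ j ∈ Finset.range (f i), ({m i j, s i j} : Set Pt) := by
    rintro x ⟨i, j, hi, hj, h⟩
    refine mem_biUnion (Finset.mem_range.2 hi) (mem_biUnion (Finset.mem_range.2 hj) ?_)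
    rcases h with h | h
    · exact Or.inl h
    · exact Or.inr h
  refine Set.Finite.subset ?_ h1
  refine Set.Finite.biUnion (Finset.finite_toSet _) fun i _ => ?_
  refine Set.Finite.biUnion (Finset.finite_toSet _) fun j _ => ?_
  simp

/-- The conclusion of consonance at `W`. -/
def Good (F : Set (Set Pt)) (W : Set Pt) : Prop :=
  ∃ K : Set Pt, IsCompact K ∧ K ⊆ W ∧ ∀ V : Set Pt, IsOpen V → K ⊆ V → V ∈ F

theorem good_zS_zM {F : Set (Set Pt)} (hF : ScottOpen F) {W : Set Pt} (hW : W ∈ F)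
    (hzS : zS ∈ W) (hzM : zM ∈ W) : Good F W := by
  have hWo := hF.isOpen W hW
  let A : Set Pt := {x | x ∈ W ∧ x ≠ zS ∧ ∀ i j, x ≠ s i j}
  obtain ⟨p, hp⟩ := spine hF hW hzS A (fun x hx => hx.1) (by
      intro x hx
      by_cases h1 : x = zS
      · exact Or.inr (Or.inl h1)
      by_cases h2 : ∃ i j, x = s i j
      · obtain ⟨i, j, h2⟩ := h2
        exact Or.inr (Or.inr ⟨i, j, h2 ▸ hx, Or.inl h2⟩)
      · push Not at h2
        exact Or.inl ⟨hx, h1, h2⟩) (by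
      intro _
      obtain ⟨n, hn⟩ := hWo.2.1 hzM
      exact ⟨n, fun i hi j => ⟨hn i hi j, (by intro h; cases h), (by intro _ _ h; cases h)⟩⟩)
  refine ⟨A ∪ {zS} ∪ {x | x ∈ W ∧ ∃ i j, i < p ∧ x = s i j}, ?_, ?_, ?_⟩
  · apply isCompact_of
    intro W₁ W₂ hW₁ hW₂ h1 h2
    have h1' := h1 (Or.inl (Or.inl ⟨hzM, (by intro h; cases h), (by intro _ _ h; cases h)⟩))
    have h2' := h2 (Or.inl (Or.inr rfl))
    obtain ⟨n, hn⟩ := hW₁.2.1 h1'
    choose f hf using hW₂.2.2 h2'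
    refine (finite_box (max n p) f).subset ?_
    rintro x ⟨hx, hx'⟩
    rw [mem_union, not_or] at hx'
    cases x with
    | a => exact Or.inl (Or.inl rfl)
    | b => exact Or.inl (Or.inr rfl)
    | zM => exact absurd h1' hx'.1
    | zS => exact absurd h2' hx'.2
    | m i j =>
      refine Or.inr ⟨i, j, ?_, ?_, Or.inl rfl⟩
      · by_contra hcon
        exact hx'.1 (hn i (by omega) j)
      · by_contra hcon
        exact hx'.2 (hW₂.1 i j (hf i j (by omega)))
    | s i j =>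
      rcases hx with (hx | hx) | ⟨hx, i', j', hi', hx2⟩
      · exact absurd rfl (hx.2.2 i j)
      · cases hx
      · cases hx2
        refine Or.inr ⟨i, j, by omega, ?_, Or.inr rfl⟩
        by_contra hcon
        exact hx'.2 (hf i j (by omega))
  · rintro x ((hx | hx) | hx)
    · exact hx.1
    · rw [hx]; exact hzS
    · exact hx.1
  · intro V hV hKV
    exact hp V hV (fun x hx => hKV (Or.inl (Or.inl hx))) (hKV (Or.inl (Or.inr rfl)))
      (fun i hi j hs => hKV (Or.inr ⟨hs, i, j, hi, rfl⟩))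

theorem good_zS {F : Set (Set Pt)} (hF : ScottOpen F) {W : Set Pt} (hW : W ∈ F)
    (hzS : zS ∈ W) (hzM : zM ∉ W) : Good F W := by
  have hWo := hF.isOpen W hW
  let E : ℕ → Set Pt := fun k => {x | x ∈ W ∧ (x = a ∨ x = b ∨ ∃ i j, i < k ∧ j < k ∧ x = m i j)}
  let V : ℕ → Set Pt := fun k => {x | x ∈ W ∧ (x = zS ∨ (∃ i j, s i j ∈ W ∧ (x = s i j ∨ x = m i j)) ∨
    x = a ∨ x = b ∨ ∃ i j, i < k ∧ j < k ∧ x = m i j)}
  obtain ⟨k, hk⟩ := hF.seq hW V (by
      rintro k k' hkk' x ⟨hx, h | h | h | h | ⟨i, j, hi, hj, h⟩⟩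
      · exact ⟨hx, Or.inl h⟩
      · exact ⟨hx, Or.inr (Or.inl h)⟩
      · exact ⟨hx, Or.inr (Or.inr (Or.inl h))⟩
      · exact ⟨hx, Or.inr (Or.inr (Or.inr (Or.inl h)))⟩
      · exact ⟨hx, Or.inr (Or.inr (Or.inr (Or.inr ⟨i, j, hi.trans_le hkk', hj.trans_le hkk', h⟩)))⟩)
    (by
      intro k
      refine ⟨fun i j h => ⟨hWo.1 i j h.1, Or.inr (Or.inl ⟨i, j, h.1, Or.inr rfl⟩)⟩,
        fun h => absurd h.1 hzM, fun _ i => ?_⟩
      obtain ⟨n, hn⟩ := hWo.2.2 hzS i
      exact ⟨n, fun j hj => ⟨hn j hj, Or.inr (Or.inl ⟨i, j, hn j hj, Or.inl rfl⟩)⟩⟩)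
    (by
      intro x hx
      cases x with
      | a => exact mem_iUnion.2 ⟨0, hx, by simp⟩
      | b => exact mem_iUnion.2 ⟨0, hx, by simp⟩
      | zM => exact absurd hx hzM
      | zS => exact mem_iUnion.2 ⟨0, hx, by simp⟩
      | m i j => exact mem_iUnion.2 ⟨i + j + 1, hx, Or.inr (Or.inr (Or.inr (Or.inr
          ⟨i, j, by omega, by omega, rfl⟩)))⟩
      | s i j => exact mem_iUnion.2 ⟨0, hx, Or.inr (Or.inl ⟨i, j, hx, Or.inl rfl⟩)⟩)
  obtain ⟨p, hp⟩ := spine hF hk ⟨hzS, Or.inl rfl⟩ (E k) (fun x hx => ⟨hx.1, by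
      rcases hx.2 with h | h | h
      · exact Or.inr (Or.inr (Or.inl h))
      · exact Or.inr (Or.inr (Or.inr (Or.inl h)))
      · exact Or.inr (Or.inr (Or.inr (Or.inr h)))⟩) (by
      rintro x ⟨hx, h | ⟨i, j, hs, h⟩ | h | h | h⟩
      · exact Or.inr (Or.inl h)
      · exact Or.inr (Or.inr ⟨i, j, ⟨hs, Or.inr (Or.inl ⟨i, j, hs, Or.inl rfl⟩)⟩, h⟩)
      · exact Or.inl ⟨hx, Or.inl h⟩
      · exact Or.inl ⟨hx, Or.inr (Or.inl h)⟩
      · exact Or.inl ⟨hx, Or.inr (Or.inr h)⟩) (fun h => absurd h.1 hzM)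
  refine ⟨E k ∪ {zS} ∪ {x | x ∈ W ∧ ∃ i j, i < p ∧ x = s i j}, ?_, ?_, ?_⟩
  · apply isCompact_of
    intro W₁ W₂ hW₁ hW₂ h1 h2
    have h2' := h2 (Or.inl (Or.inr rfl))
    choose f hf using hW₂.2.2 h2'
    refine (finite_box (max k p) (fun i => max k (f i))).subset ?_
    rintro x ⟨hx, hx'⟩
    rw [mem_union, not_or] at hx'
    rcases hx with (⟨-, hx | hx | ⟨i, j, hi, hj, hx⟩⟩ | hx) | ⟨hx, i, j, hi, hx2⟩
    · exact Or.inl (Or.inl hx)
    · exact Or.inl (Or.inr hx)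
    · exact Or.inr ⟨i, j, by omega, lt_max_of_lt_left hj, Or.inl hx⟩
    · rw [hx] at hx'
      exact absurd h2' hx'.2
    · subst hx2
      refine Or.inr ⟨i, j, by omega, ?_, Or.inr rfl⟩
      by_contra hcon
      exact hx'.2 (hf i j (le_of_max_le_right (not_lt.1 hcon)))
  · rintro x ((hx | hx) | hx)
    · exact hx.1
    · rw [hx]; exact hzS
    · exact hx.1
  · intro V hV hKV
    exact hp V hV (fun x hx => hKV (Or.inl (Or.inl hx))) (hKV (Or.inl (Or.inr rfl)))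
      (fun i hi j hs => hKV (Or.inr ⟨hs.1, i, j, hi, rfl⟩))

theorem good_none {F : Set (Set Pt)} (hF : ScottOpen F) {W : Set Pt} (hW : W ∈ F)
    (hzS : zS ∉ W) (hzM : zM ∉ W) : Good F W := by
  have hWo := hF.isOpen W hW
  let V : ℕ → Set Pt := fun k => {x | x ∈ W ∧ (x = a ∨ x = b ∨
    ∃ i j, i < k ∧ j < k ∧ (x = m i j ∨ x = s i j))}
  have hVo : ∀ k, IsOpen (V k) := by
    intro k
    refine ⟨fun i j h => ⟨hWo.1 i j h.1, ?_⟩, fun h => absurd h.1 hzM, fun h => absurd h.1 hzS⟩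
    rcases h.2 with h | h | ⟨i', j', hi', hj', h | h⟩
    · cases h
    · cases h
    · cases h
    · cases h
      exact Or.inr (Or.inr ⟨i, j, hi', hj', Or.inl rfl⟩)
  obtain ⟨k, hk⟩ := hF.seq hW V (by
      rintro k k' hkk' x ⟨hx, h | h | ⟨i, j, hi, hj, h⟩⟩
      · exact ⟨hx, Or.inl h⟩
      · exact ⟨hx, Or.inr (Or.inl h)⟩
      · exact ⟨hx, Or.inr (Or.inr ⟨i, j, hi.trans_le hkk', hj.trans_le hkk', h⟩)⟩) hVo
    (by
      intro x hx
      cases x with
      | a => exact mem_iUnion.2 ⟨0, hx, by simp⟩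
      | b => exact mem_iUnion.2 ⟨0, hx, by simp⟩
      | zM => exact absurd hx hzM
      | zS => exact absurd hx hzS
      | m i j => exact mem_iUnion.2 ⟨i + j + 1, hx, Or.inr (Or.inr
          ⟨i, j, by omega, by omega, Or.inl rfl⟩)⟩
      | s i j => exact mem_iUnion.2 ⟨i + j + 1, hx, Or.inr (Or.inr
          ⟨i, j, by omega, by omega, Or.inr rfl⟩)⟩)
  refine ⟨V k, Set.Finite.isCompact ((finite_box k (fun _ => k)).subset ?_), fun x hx => hx.1, ?_⟩
  · rintro x ⟨-, h | h | h⟩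
    · exact Or.inl (Or.inl h)
    · exact Or.inl (Or.inr h)
    · exact Or.inr h
  · intro V' hV' hKV
    exact hF.upper _ hk _ hV' hKV

theorem good_zM {F : Set (Set Pt)} (hF : ScottOpen F) {W : Set Pt} (hW : W ∈ F)
    (hzS : zS ∉ W) (hzM : zM ∈ W) : Good F W := by
  have hWo := hF.isOpen W hW
  -- reduce to finitely many points `s i j`
  let V : ℕ → Set Pt := fun k => {x | x ∈ W ∧ ∀ i j, x = s i j → i < k ∧ j < k}
  obtain ⟨k, hk⟩ := hF.seq hW V (by
      rintro k k' hkk' x ⟨hx, h⟩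
      exact ⟨hx, fun i j hij => ⟨(h i j hij).1.trans_le hkk', (h i j hij).2.trans_le hkk'⟩⟩)
    (by
      intro k
      refine ⟨fun i j h => ⟨hWo.1 i j h.1, (by intro _ _ h; cases h)⟩, fun h => ?_,
        fun h => absurd h.1 hzS⟩
      obtain ⟨n, hn⟩ := hWo.2.1 hzM
      exact ⟨n, fun i hi j => ⟨hn i hi j, (by intro _ _ h; cases h)⟩⟩)
    (by
      intro x hx
      by_cases h : ∃ i j, x = s i j
      · obtain ⟨i, j, rfl⟩ := h
        refine mem_iUnion.2 ⟨i + j + 1, hx, fun i' j' h => ?_⟩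
        cases h
        constructor <;> omega
      · push Not at h
        exact mem_iUnion.2 ⟨0, hx, fun i j hij => absurd hij (h i j)⟩)
  -- the recursive construction
  let St := {U : Set Pt // U ∈ F ∧ U ⊆ V k ∧ zM ∈ U}
  have step : ∀ (i : ℕ) (U : St), ∃ (U' : St) (g : ℕ),
      U'.1 = {x | x ∈ U.1 ∧ ∀ j, x = m i j → j < max k g} := by
    rintro i ⟨U, hUF, hUV, hzU⟩
    have hUo := hF.isOpen U hUF
    obtain ⟨g, hg⟩ := hF.seq hUF (fun g => {x | x ∈ U ∧ ∀ j, x = m i j → j < max k g}) (by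
        rintro g g' hgg' x ⟨hx, h⟩
        exact ⟨hx, fun j hj => (h j hj).trans_le (max_le_max le_rfl hgg')⟩)
      (by
        intro g
        refine ⟨fun i' j' h => ⟨hUo.1 i' j' h.1, fun j hj => ?_⟩, fun h => ?_, fun h => ?_⟩
        · cases hj
          exact lt_max_of_lt_left (((hUV h.1).2 _ _ rfl).2)
        · obtain ⟨n, hn⟩ := hUo.2.1 hzU
          refine ⟨max n (i + 1), fun i' hi' j' => ⟨hn i' (le_of_max_le_left hi') j',
            fun j hj => ?_⟩⟩
          cases hj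
          have := le_of_max_le_right hi'
          omega
        · exact absurd (hUV h.1).1 hzS)
      (by
        intro x hx
        by_cases h : ∃ j, x = m i j
        · obtain ⟨j, rfl⟩ := h
          refine mem_iUnion.2 ⟨j + 1, hx, fun j' h => ?_⟩
          cases h
          exact lt_max_of_lt_right (Nat.lt_succ_self _)
        · push Not at h
          exact mem_iUnion.2 ⟨0, hx, fun j hj => absurd hj (h j)⟩)
    exact ⟨⟨_, hg, fun x hx => hUV hx.1, hzU, (by intro _ h; cases h)⟩, g, rfl⟩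
  choose nx gx hnx using step
  let U : ℕ → St := fun n => Nat.rec (⟨V k, hk, fun x hx => hx, hzM, (by intro _ _ h; cases h)⟩ : St)
    (fun i U => nx i U) n
  have hU0 : (U 0).1 = V k := rfl
  have hUs : ∀ n, (U (n + 1)).1 = {x | x ∈ (U n).1 ∧ ∀ j, x = m n j → j < max k (gx n (U n))} :=
    fun n => hnx n (U n)
  have hanti : ∀ n, (U (n + 1)).1 ⊆ (U n).1 := by
    intro n x hx
    rw [hUs] at hx
    exact hx.1
  have hantitone : Antitone fun n => (U n).1 := antitone_nat_of_succ_le hanti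
  refine ⟨⋂ n, (U n).1, ?_, ?_, ?_⟩
  · apply isCompact_of
    intro W₁ W₂ hW₁ hW₂ h1 h2
    have h1' := h1 (mem_iInter.2 fun n => (U n).2.2.2)
    obtain ⟨n, hn⟩ := hW₁.2.1 h1'
    refine (finite_box (max n k) (fun i => max k (gx i (U i)))).subset ?_
    rintro x ⟨hx, hx'⟩
    rw [mem_union, not_or] at hx'
    rw [mem_iInter] at hx
    have hx0 := hx 0
    rw [hU0] at hx0
    cases x with
    | a => exact Or.inl (Or.inl rfl)
    | b => exact Or.inl (Or.inr rfl)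
    | zM => exact absurd h1' hx'.1
    | zS => exact absurd hx0.1 hzS
    | m i j =>
      refine Or.inr ⟨i, j, ?_, ?_, Or.inl rfl⟩
      · by_contra hcon
        exact hx'.1 (hn i (by omega) j)
      · have := hx (i + 1)
        rw [hUs] at this
        exact this.2 j rfl
    | s i j =>
      have := hx0.2 i j rfl
      exact Or.inr ⟨i, j, lt_max_of_lt_right this.1, lt_max_of_lt_left this.2, Or.inr rfl⟩
  · intro x hx
    exact (mem_iInter.1 hx 0).1
  · intro V' hV' hKV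
    have hz := hKV (mem_iInter.2 fun n => (U n).2.2.2)
    obtain ⟨n, hn⟩ := hV'.2.1 hz
    refine hF.upper _ (U n).2.1 _ hV' fun x hx => ?_
    by_cases h : ∃ i j, n ≤ i ∧ x = m i j
    · obtain ⟨i, j, hi, rfl⟩ := h
      exact hn i hi j
    · push Not at h
      apply hKV
      rw [mem_iInter]
      intro q
      rcases le_total q n with hq | hq
      · exact hantitone hq hx
      · induction q, hq using Nat.le_induction with
        | base => exact hx
        | succ q hq ih =>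
          rw [hUs]
          exact ⟨ih, fun j hj => absurd hj (h q j hq)⟩

theorem consonant {F : Set (Set Pt)} (hF : ScottOpen F) {W : Set Pt} (hW : W ∈ F) : Good F W := by
  by_cases h1 : zS ∈ W
  · by_cases h2 : zM ∈ W
    · exact good_zS_zM hF hW h1 h2
    · exact good_zS hF hW h1 h2
  · by_cases h2 : zM ∈ W
    · exact good_zM hF hW h1 h2
    · exact good_none hF hW h1 h2

end Pool.Agent.V11216.ConsonX
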