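import Mathlib

namespace Pool.Agent.V11216.FSens

open Set

/-! ### Definitions (topological dynamics) -/

/-- A nonempty open set. -/
def Opene {X : Type*} [TopologicalSpace X] (U : Set X) : Prop := IsOpen U ∧ U.Nonempty

/-- `N_T(U,V)`: the set of `n ≥ 0` with `T^n U ∩ V ≠ ∅`. -/
def hitSet {X : Type*} (T : X → X) (U V : Set X) : Set ℕ := {n | ((T^[n] '' U) ∩ V).Nonempty}

/-- Every `N_T(U,V)` with `U`, `V` nonempty open is nonempty. -/
def TopTransitive {X : Type*} [TopologicalSpace X] (T : X → X) : Prop :=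
  ∀ U V : Set X, Opene U → Opene V → (hitSet T U V).Nonempty

/-- `T × T` is transitive. -/
def WeaklyMixing {X : Type*} [TopologicalSpace X] (T : X → X) : Prop :=
  TopTransitive (Prod.map T T : X × X → X × X)

/-- `S_T(U,δ)`: the set of `n ≥ 0` for which some `x, y ∈ U` have `d(T^n x, T^n y) > δ`. -/
def sensSet {X : Type*} [MetricSpace X] (T : X → X) (U : Set X) (δ : ℝ) : Set ℕ :=
  {n | ∃ x ∈ U, ∃ y ∈ U, δ < dist (T^[n] x) (T^[n] y)}

/-- The family of all sets containing `S_T(U,δ)` for some nonempty open `U`. -/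
def sensFam {X : Type*} [MetricSpace X] (T : X → X) (δ : ℝ) : Set (Set ℕ) :=
  {A | ∃ U : Set X, Opene U ∧ sensSet T U δ ⊆ A}

/-- A family that is neither empty nor everything and is closed under intersection. -/
def IsFilterFam (F : Set (Set ℕ)) : Prop :=
  F ≠ ∅ ∧ F ≠ univ ∧ ∀ A ∈ F, ∀ B ∈ F, A ∩ B ∈ F

/-- `(X,T)` is filter-sensitive. -/
def FilterSensitive {X : Type*} [MetricSpace X] (T : X → X) : Prop :=
  ∃ δ : ℝ, 0 < δ ∧ IsFilterFam (sensFam T δ)

/-- The set contains arbitrarily long intervals of consecutive integers. -/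
def Thick (A : Set ℕ) : Prop := ∀ N : ℕ, ∃ a : ℕ, ∀ n : ℕ, a ≤ n → n < a + N → n ∈ A

/-- `(X,T)` is thickly sensitive. -/
def ThicklySensitive {X : Type*} [MetricSpace X] (T : X → X) : Prop :=
  ∃ δ : ℝ, 0 < δ ∧ ∀ U : Set X, Opene U → Thick (sensSet T U δ)

theorem WeaklyMixing.transitive {X : Type*} [TopologicalSpace X] {T : X → X}
    (h : WeaklyMixing T) : TopTransitive T := by
  intro U V hU hV
  obtain ⟨n, p, ⟨q, hq, hqp⟩, hp⟩ := h (U ×ˢ U) (V ×ˢ V)
    ⟨hU.1.prod hU.1, hU.2.prod hU.2⟩ ⟨hV.1.prod hV.1, hV.2.prod hV.2⟩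
  have hit : ∀ (n : ℕ) (q : X × X), ((Prod.map T T)^[n] q).1 = T^[n] q.1 := by
    intro n
    induction n with
    | zero => intro q; rfl
    | succ n ih =>
      intro q
      rw [Function.iterate_succ_apply, ih, Function.iterate_succ_apply]
      rfl
  refine ⟨n, p.1, ⟨q.1, hq.1, ?_⟩, hp.1⟩
  rw [← hqp, hit]

/-! ### The subshift -/

/-- A bijection between `ℕ` and `ℤ × ℕ` sending `0` to `(0,0)`. -/
noncomputable def E : ℕ ≃ ℤ × ℕ :=
  (Denumerable.eqv (ℤ × ℕ)).symm.trans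
    (Equiv.swap ((Denumerable.eqv (ℤ × ℕ)).symm 0) ((0 : ℤ), (0 : ℕ)))

theorem E_zero : E 0 = (0, 0) := by
  simp [E]

/-- position `i`, level `j` -/
noncomputable def idx (i : ℤ) (j : ℕ) : ℕ := E.symm (i, j)

theorem idx_zero : idx 0 0 = 0 := by
  rw [idx, ← E_zero, Equiv.symm_apply_apply]

theorem E_idx (i : ℤ) (j : ℕ) : E (idx i j) = (i, j) := by simp [idx]

theorem idx_E (c : ℕ) : idx (E c).1 (E c).2 = c := by simp [idx]

/-- The stretches at which a marker of type `t` on level `j` forces zeros. -/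
def Z (j : ℕ) (t : Fin 3) : Set ℤ :=
  {q | ∃ i : ℕ, (Nat.unpair i).1 = 3 * j + t.val ∧ (i : ℤ) ^ 2 ≤ q ∧ q ≤ (i : ℤ) ^ 2 + 2 * j}

/-- Admissible configurations. -/
def Good (x : ℕ → Fin 3) : Prop :=
  (∀ (j : ℕ) (p q : ℤ), x (idx p j) ≠ 0 → x (idx q j) ≠ 0 → p ≠ q → 2 * (j : ℤ) < |p - q|) ∧
  (∀ (j j' : ℕ) (p q : ℤ), x (idx p j) ≠ 0 → j' < j → q - p ∈ Z j (x (idx p j)) →
    x (idx q j') = 0)

theorem isClosed_good : IsClosed {x : ℕ → Fin 3 | Good x} := by
  have h1 : ∀ (a b : ℕ) (P : Fin 3 → Fin 3 → Prop), IsClosed {x : ℕ → Fin 3 | P (x a) (x b)} := by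
    intro a b P
    have hc : Continuous (fun x : ℕ → Fin 3 => (x a, x b)) :=
      (continuous_apply a).prodMk (continuous_apply b)
    exact (isClosed_discrete {p : Fin 3 × Fin 3 | P p.1 p.2}).preimage hc
  have : {x : ℕ → Fin 3 | Good x} =
      (⋂ (j : ℕ), ⋂ (p : ℤ), ⋂ (q : ℤ), {x : ℕ → Fin 3 | x (idx p j) ≠ 0 → x (idx q j) ≠ 0 →
        p ≠ q → 2 * (j : ℤ) < |p - q|}) ∩
      (⋂ (j : ℕ), ⋂ (j' : ℕ), ⋂ (p : ℤ), ⋂ (q : ℤ), {x : ℕ → Fin 3 | x (idx p j) ≠ 0 → j' < j →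
        q - p ∈ Z j (x (idx p j)) → x (idx q j') = 0}) := by
    ext x
    simp only [Good, mem_ofPred_eq, mem_inter_iff, mem_iInter]
  rw [this]
  refine IsClosed.inter ?_ ?_
  · refine isClosed_iInter fun j => isClosed_iInter fun p => isClosed_iInter fun q => ?_
    exact h1 (idx p j) (idx q j) (fun a b => a ≠ 0 → b ≠ 0 → p ≠ q → 2 * (j : ℤ) < |p - q|)
  · refine isClosed_iInter fun j => isClosed_iInter fun j' => isClosed_iInter fun p =>
      isClosed_iInter fun q => ?_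
    exact h1 (idx p j) (idx q j') (fun a b => a ≠ 0 → j' < j → q - p ∈ Z j a → b = 0)

/-- The space. -/
def X : Type := {x : ℕ → Fin 3 // Good x}

noncomputable instance : MetricSpace X :=
  MetricSpace.induced (Subtype.val : X → (ℕ → Fin 3)) Subtype.val_injective PiNat.metricSpace

theorem dist_def (x y : X) : dist x y = (PiNat.dist.dist x.1 y.1 : ℝ) := rfl

theorem continuous_val : Continuous (fun x : X => x.1) := continuous_induced_dom

theorem isInducing_val : Topology.IsInducing (Subtype.val : X → (ℕ → Fin 3)) := ⟨rfl⟩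

instance : CompactSpace X := by
  have h : IsCompact (range (Subtype.val : X → (ℕ → Fin 3))) := by
    have : range (Subtype.val : X → (ℕ → Fin 3)) = {x | Good x} := Subtype.range_val
    rw [this]
    exact isClosed_good.isCompact
  have := (isInducing_val.isCompact_iff (s := univ)).2 (by rwa [image_univ])
  exact ⟨this⟩

theorem continuous_mk {Y : Type*} [TopologicalSpace Y] {f : Y → X}
    (hf : Continuous fun y => (f y).1) : Continuous f :=
  isInducing_val.continuous_iff.2 hf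

/-- The shift of raw configurations by `n`. -/
noncomputable def shiftRaw (n : ℤ) (x : ℕ → Fin 3) : ℕ → Fin 3 :=
  fun c => x (idx ((E c).1 + n) (E c).2)

theorem shiftRaw_idx (n : ℤ) (x : ℕ → Fin 3) (i : ℤ) (j : ℕ) :
    shiftRaw n x (idx i j) = x (idx (i + n) j) := by
  simp [shiftRaw, E_idx]

theorem good_shift (n : ℤ) {x : ℕ → Fin 3} (h : Good x) : Good (shiftRaw n x) := by
  constructor
  · intro j p q hp hq hpq
    rw [shiftRaw_idx] at hp hq
    have := h.1 j (p + n) (q + n) hp hq (fun e => hpq (by linarith))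
    rwa [show p + n - (q + n) = p - q by ring] at this
  · intro j j' p q hp hj hz
    rw [shiftRaw_idx] at hp hz ⊢
    refine h.2 j j' (p + n) (q + n) hp hj ?_
    rwa [show q + n - (p + n) = q - p by ring]

/-- The shift map. -/
noncomputable def T (x : X) : X := ⟨shiftRaw 1 x.1, good_shift 1 x.2⟩

theorem T_idx (x : X) (i : ℤ) (j : ℕ) : (T x).1 (idx i j) = x.1 (idx (i + 1) j) :=
  shiftRaw_idx 1 x.1 i j

theorem iter_idx (n : ℕ) (x : X) (i : ℤ) (j : ℕ) :
    (T^[n] x).1 (idx i j) = x.1 (idx (i + n) j) := by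
  induction n generalizing x i with
  | zero => simp
  | succ n ih =>
    rw [Function.iterate_succ_apply', T_idx, ih]
    push_cast
    rw [show i + 1 + (n : ℤ) = i + (n + 1) by ring]

theorem continuous_T : Continuous T := by
  refine continuous_mk ?_
  refine continuous_pi fun c => ?_
  exact (continuous_apply (idx ((E c).1 + 1) (E c).2)).comp continuous_val

theorem surjective_T : Function.Surjective T := by
  intro x
  refine ⟨⟨shiftRaw (-1) x.1, good_shift (-1) x.2⟩, ?_⟩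
  apply Subtype.ext
  funext c
  obtain ⟨i, j, rfl⟩ : ∃ i j, c = idx i j := ⟨(E c).1, (E c).2, (idx_E c).symm⟩
  rw [T_idx]
  change shiftRaw (-1) x.1 (idx (i + 1) j) = _
  rw [shiftRaw_idx]
  simp

/-! ### Metric facts -/

theorem lt_dist_of_ne {x y : X} (h : x.1 (idx 0 0) ≠ y.1 (idx 0 0)) : dist x y = 1 := by
  rw [idx_zero] at h
  have hne : x.1 ≠ y.1 := fun e => h (by rw [e])
  rw [dist_def, PiNat.dist_eq_of_ne hne]
  have : PiNat.firstDiff x.1 y.1 = 0 := by
    by_contra hc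
    exact h (PiNat.apply_eq_of_lt_firstDiff (Nat.pos_of_ne_zero hc))
  rw [this, pow_zero]

theorem exists_ne_of_lt_dist {δ : ℝ} {K : ℕ} (hK : (1 / 2 : ℝ) ^ K ≤ δ) {x y : X}
    (h : δ < dist x y) : ∃ c < K, x.1 c ≠ y.1 c := by
  by_contra hc
  push Not at hc
  have : x.1 ∈ PiNat.cylinder y.1 K := by
    rw [PiNat.mem_cylinder_iff]
    exact hc
  have h2 := PiNat.mem_cylinder_iff_dist_le.1 this
  rw [dist_def] at h
  linarith

/-- Open sets contain window cylinders. -/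
theorem exists_window {U : Set X} (hU : IsOpen U) {z : X} (hz : z ∈ U) :
    ∃ L : ℕ, ∀ y : X, (∀ (i : ℤ) (j : ℕ), |i| ≤ L → j ≤ L → y.1 (idx i j) = z.1 (idx i j)) →
      y ∈ U := by
  obtain ⟨ε, hε, hball⟩ := Metric.isOpen_iff.1 hU z hz
  obtain ⟨n, hn⟩ : ∃ n : ℕ, (1 / 2 : ℝ) ^ n < ε := exists_pow_lt_of_lt_one hε one_half_lt_one
  have hb : ∃ L : ℕ, ∀ c < n, (E c).1.natAbs ≤ L ∧ (E c).2 ≤ L := by
    refine ⟨∑ c ∈ Finset.range n, ((E c).1.natAbs + (E c).2), fun c hc => ?_⟩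
    have := Finset.single_le_sum (f := fun c => (E c).1.natAbs + (E c).2)
      (fun _ _ => Nat.zero_le _) (Finset.mem_range.2 hc)
    omega
  obtain ⟨L, hL⟩ := hb
  refine ⟨L, fun y hy => hball ?_⟩
  rw [Metric.mem_ball, dist_def]
  refine lt_of_le_of_lt ?_ hn
  rw [← PiNat.mem_cylinder_iff_dist_le, PiNat.mem_cylinder_iff]
  intro c hc
  have := hy (E c).1 (E c).2 (by rw [Int.abs_eq_natAbs]; exact_mod_cast (hL c hc).1) (hL c hc).2
  rwa [idx_E] at this

/-! ### Gluing -/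

open Classical in
/-- The glued configuration. -/
noncomputable def glueRaw (z w : ℕ → Fin 3) (L : ℕ) (n : ℤ) : ℕ → Fin 3 := fun c =>
  if |(E c).1| ≤ L ∧ (E c).2 ≤ L then z c
  else if |(E c).1 - n| ≤ L ∧ (E c).2 ≤ L then w (idx ((E c).1 - n) (E c).2) else 0

theorem glueRaw_left (z w : ℕ → Fin 3) (L : ℕ) (n : ℤ) {i : ℤ} {j : ℕ} (hi : |i| ≤ L)
    (hj : j ≤ L) : glueRaw z w L n (idx i j) = z (idx i j) := by
  simp [glueRaw, E_idx, hi, hj]

theorem glueRaw_right (z w : ℕ → Fin 3) (L : ℕ) {n : ℤ} (hn : 4 * (L : ℤ) < n) {i : ℤ} {j : ℕ}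
    (hi : |i| ≤ L) (hj : j ≤ L) : glueRaw z w L n (idx (n + i) j) = w (idx i j) := by
  have h1 : ¬ (|n + i| ≤ L ∧ j ≤ L) := by
    rintro ⟨h, -⟩
    rw [abs_le] at h hi
    linarith [h.2, hi.1]
  simp only [glueRaw, E_idx]
  rw [if_neg h1, show n + i - n = i by ring, if_pos ⟨hi, hj⟩]

theorem glueRaw_ne {z w : ℕ → Fin 3} {L : ℕ} {n : ℤ} {i : ℤ} {j : ℕ}
    (h : glueRaw z w L n (idx i j) ≠ 0) :
    (|i| ≤ L ∧ j ≤ L ∧ z (idx i j) ≠ 0 ∧ glueRaw z w L n (idx i j) = z (idx i j)) ∨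
    (|i - n| ≤ L ∧ j ≤ L ∧ w (idx (i - n) j) ≠ 0 ∧
      glueRaw z w L n (idx i j) = w (idx (i - n) j)) := by
  simp only [glueRaw, E_idx] at h ⊢
  by_cases h1 : |i| ≤ L ∧ j ≤ L
  · rw [if_pos h1] at h ⊢
    exact Or.inl ⟨h1.1, h1.2, h, rfl⟩
  · rw [if_neg h1] at h ⊢
    by_cases h2 : |i - n| ≤ L ∧ j ≤ L
    · rw [if_pos h2] at h ⊢
      exact Or.inr ⟨h2.1, h2.2, h, rfl⟩
    · rw [if_neg h2] at h
      exact absurd rfl h

theorem Z_nonneg {j : ℕ} {t : Fin 3} {q : ℤ} (h : q ∈ Z j t) : 0 ≤ q := by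
  obtain ⟨i, -, h1, -⟩ := h
  exact le_trans (sq_nonneg _) h1

theorem good_glue {z w : ℕ → Fin 3} (hz : Good z) (hw : Good w) {L : ℕ} {n : ℤ}
    (hn : 4 * (L : ℤ) < n)
    (h : ∀ (p q : ℤ) (j j' : ℕ), |p| ≤ L → |q| ≤ L → j ≤ L → j' < j → z (idx p j) ≠ 0 →
      w (idx q j') ≠ 0 → n + q - p ∉ Z j (z (idx p j))) :
    Good (glueRaw z w L n) := by
  constructor
  · intro j p q hp hq hpq
    rcases glueRaw_ne hp with ⟨p1, pj, p2, -⟩ | ⟨p1, pj, p2, -⟩ <;>
    rcases glueRaw_ne hq with ⟨q1, qj, q2, -⟩ | ⟨q1, qj, q2, -⟩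
    · exact hz.1 j p q p2 q2 hpq
    · rw [abs_le] at p1 q1
      have : (j : ℤ) ≤ L := by exact_mod_cast pj
      rw [lt_abs]
      right
      linarith [p1.2, q1.1]
    · rw [abs_le] at p1 q1
      have : (j : ℤ) ≤ L := by exact_mod_cast pj
      rw [lt_abs]
      left
      linarith [p1.1, q1.2]
    · have := hw.1 j (p - n) (q - n) p2 q2 (fun e => hpq (by linarith))
      rwa [show p - n - (q - n) = p - q by ring] at this
  · intro j j' p q hp hj hZ
    by_contra hq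
    rcases glueRaw_ne hp with ⟨p1, pj, p2, p3⟩ | ⟨p1, pj, p2, p3⟩ <;>
    rcases glueRaw_ne hq with ⟨q1, qj, q2, -⟩ | ⟨q1, qj, q2, -⟩
    · rw [p3] at hZ
      exact q2 (hz.2 j j' p q p2 hj hZ)
    · rw [p3] at hZ
      refine h p (q - n) j j' p1 q1 pj hj p2 q2 ?_
      rwa [show n + (q - n) - p = q - p by ring]
    · have := Z_nonneg hZ
      rw [abs_le] at p1 q1
      linarith [p1.1, q1.2]
    · rw [p3] at hZ
      refine q2 (hw.2 j j' (p - n) (q - n) p2 hj ?_)
      rwa [show q - n - (p - n) = q - p by ring]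

/-- A single symbol. -/
noncomputable def single (t : Fin 3) (j : ℕ) : ℕ → Fin 3 := fun c => if c = idx 0 j then t else 0

theorem idx_inj {i i' : ℤ} {j j' : ℕ} (h : idx i j = idx i' j') : i = i' ∧ j = j' := by
  have := E.symm.injective h
  exact ⟨congrArg Prod.fst this, congrArg Prod.snd this⟩

theorem single_ne {t : Fin 3} {j : ℕ} {i : ℤ} {j' : ℕ} (h : single t j (idx i j') ≠ 0) :
    i = 0 ∧ j' = j := by
  unfold single at h
  split_ifs at h with h1
  · exact idx_inj h1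
  · exact absurd rfl h

theorem good_single (t : Fin 3) (j : ℕ) : Good (single t j) := by
  constructor
  · intro k p q hp hq hpq
    exact absurd ((single_ne hp).1.trans (single_ne hq).1.symm) hpq
  · intro k k' p q hp hk hZ
    by_contra hq
    have h1 := (single_ne hp).2
    have h2 := (single_ne hq).2
    omega

theorem gap {I L : ℕ} {v : ℤ} (h1 : (I : ℤ) ^ 2 + 2 * L < v) (h2 : v < ((I : ℤ) + 1) ^ 2)
    {j : ℕ} (hj : j ≤ L) (t : Fin 3) : v ∉ Z j t := by
  rintro ⟨i, -, h3, h4⟩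
  have hj' : (j : ℤ) ≤ L := by exact_mod_cast hj
  rcases Nat.lt_or_ge I i with hi | hi
  · have : (I : ℤ) + 1 ≤ i := by exact_mod_cast hi
    nlinarith
  · have : (i : ℤ) ≤ I := by exact_mod_cast hi
    nlinarith

theorem isolate {I L m : ℕ} (hI : 2 * m + 3 * L + 2 ≤ I) {t t' : Fin 3}
    (ht : (Nat.unpair I).1 = 3 * m + t.val) {p : ℤ} (hp : |p| ≤ L) {j : ℕ} (hj : j ≤ L)
    (h : (I : ℤ) ^ 2 + m - p ∈ Z j t') : j = m ∧ t' = t ∧ |p| ≤ m := by
  obtain ⟨i, hi, h1, h2⟩ := h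
  rw [abs_le] at hp
  have hj' : (j : ℤ) ≤ L := by exact_mod_cast hj
  have hI' : 2 * (m : ℤ) + 3 * L + 2 ≤ I := by exact_mod_cast hI
  have hm0 : (0 : ℤ) ≤ m := Int.natCast_nonneg m
  have hL0 : (0 : ℤ) ≤ L := Int.natCast_nonneg L
  have hiI : i = I := by
    rcases lt_trichotomy i I with hlt | he | hgt
    · exfalso
      have : (i : ℤ) + 1 ≤ I := by exact_mod_cast hlt
      have h0 : (0 : ℤ) ≤ i := Int.natCast_nonneg i
      nlinarith [hp.2]
    · exact he
    · exfalso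
      have : (I : ℤ) + 1 ≤ i := by exact_mod_cast hgt
      nlinarith [hp.1]
  subst hiI
  have h3 : 3 * j + t'.val = 3 * m + t.val := by rw [← hi, ht]
  have ht1 := t.isLt
  have ht2 := t'.isLt
  have hjm : j = m := by omega
  have htt : t' = t := by
    apply Fin.ext
    omega
  refine ⟨hjm, htt, ?_⟩
  subst hjm
  rw [abs_le]
  constructor <;> linarith

theorem sq_gap_arith {L N I n p : ℤ} (hL : 0 ≤ L) (hI : 6 * L + N + 2 ≤ I)
    (h1 : I ^ 2 + 4 * L + 1 ≤ n) (h2 : n ≤ I ^ 2 + 4 * L + 1 + N) (hp : |p| ≤ 2 * L) :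
    I ^ 2 + 2 * L < n - p ∧ n - p < (I + 1) ^ 2 := by
  rw [abs_le] at hp
  constructor
  · linarith [hp.2]
  · nlinarith [hp.1]

/-! ### The shift is weakly mixing -/

theorem weaklyMixing_T : WeaklyMixing T := by
  intro U V hU hV
  obtain ⟨⟨z1, z2⟩, hz⟩ := hU.2
  obtain ⟨⟨w1, w2⟩, hw⟩ := hV.2
  obtain ⟨A1, A2, hA1, hA2, hz1, hz2, hA⟩ := isOpen_prod_iff.1 hU.1 z1 z2 hz
  obtain ⟨B1, B2, hB1, hB2, hw1, hw2, hB⟩ := isOpen_prod_iff.1 hV.1 w1 w2 hw
  obtain ⟨L1, hL1⟩ := exists_window hA1 hz1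
  obtain ⟨L2, hL2⟩ := exists_window hA2 hz2
  obtain ⟨L3, hL3⟩ := exists_window hB1 hw1
  obtain ⟨L4, hL4⟩ := exists_window hB2 hw2
  set L : ℕ := L1 + L2 + L3 + L4 with hLdef
  set I : ℕ := 6 * L + 2 with hIdef
  set n : ℕ := I ^ 2 + 4 * L + 1 with hndef
  have hn : 4 * (L : ℤ) < (n : ℤ) := by
    have : 4 * L < n := by omega
    exact_mod_cast this
  have key : ∀ (z w : X), Good (glueRaw z.1 w.1 L n) := by
    intro z w
    refine good_glue z.2 w.2 hn ?_
    intro p q j j' hp hq hj _ _ _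
    have hpq : |p - q| ≤ 2 * (L : ℤ) := by
      rw [abs_le] at hp hq ⊢
      constructor <;> linarith [hp.1, hp.2, hq.1, hq.2]
    have h3 := sq_gap_arith (L := L) (N := 0) (I := I) (n := n) (p := p - q)
      (Int.natCast_nonneg L) (by rw [hIdef]; push_cast; linarith)
      (by rw [hndef]; push_cast; linarith) (by rw [hndef]; push_cast; linarith) hpq
    have h4 := gap (I := I) (L := L) (v := n - (p - q)) h3.1 h3.2 hj (z.1 (idx p j))
    rwa [show (n : ℤ) + q - p = n - (p - q) by ring]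
  have hit : ∀ (n : ℕ) (q : X × X), (Prod.map T T)^[n] q = (T^[n] q.1, T^[n] q.2) := by
    intro n
    induction n with
    | zero => intro q; rfl
    | succ n ih =>
      intro q
      rw [Function.iterate_succ_apply, ih, Function.iterate_succ_apply,
        Function.iterate_succ_apply]
      rfl
  let y1 : X := ⟨glueRaw z1.1 w1.1 L n, key z1 w1⟩
  let y2 : X := ⟨glueRaw z2.1 w2.1 L n, key z2 w2⟩
  have hleft : ∀ (z w : X) (L' : ℕ), L' ≤ L → ∀ (i : ℤ) (j : ℕ), |i| ≤ L' → j ≤ L' →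
      glueRaw z.1 w.1 L n (idx i j) = z.1 (idx i j) := by
    intro z w L' hL' i j hi hj
    exact glueRaw_left _ _ _ _ (hi.trans (by exact_mod_cast hL')) (hj.trans hL')
  have hright : ∀ (z w : X) (hg : Good (glueRaw z.1 w.1 L n)) (L' : ℕ), L' ≤ L →
      ∀ (i : ℤ) (j : ℕ), |i| ≤ L' → j ≤ L' →
      (T^[n] (⟨glueRaw z.1 w.1 L n, hg⟩ : X)).1 (idx i j) = w.1 (idx i j) := by
    intro z w hg L' hL' i j hi hj
    rw [iter_idx]
    change glueRaw z.1 w.1 L n (idx (i + n) j) = _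
    rw [add_comm i]
    exact glueRaw_right _ _ _ hn (hi.trans (by exact_mod_cast hL')) (hj.trans hL')
  refine ⟨n, (T^[n] y1, T^[n] y2), ⟨(y1, y2), ?_, ?_⟩, ?_⟩
  · apply hA
    exact ⟨hL1 y1 (hleft z1 w1 L1 (by omega)), hL2 y2 (hleft z2 w2 L2 (by omega))⟩
  · rw [hit]
  · apply hB
    exact ⟨hL3 _ (hright z1 w1 _ L3 (by omega)), hL4 _ (hright z2 w2 _ L4 (by omega))⟩

/-! ### Sensitivity -/

/-- If the marker condition allows it, `n` is a sensitivity time of `W`. -/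
theorem mem_sensSet {W : Set X} {z : X} {L : ℕ}
    (hL : ∀ y : X, (∀ (i : ℤ) (j : ℕ), |i| ≤ L → j ≤ L → y.1 (idx i j) = z.1 (idx i j)) → y ∈ W)
    {n : ℕ} (hn : 4 * L < n)
    (h : ∀ (p : ℤ) (j : ℕ), |p| ≤ L → j ≤ L → 0 < j → z.1 (idx p j) ≠ 0 →
      (n : ℤ) - p ∉ Z j (z.1 (idx p j))) {δ : ℝ} (hδ : δ < 1) : n ∈ sensSet T W δ := by
  have hn' : 4 * (L : ℤ) < (n : ℤ) := by exact_mod_cast hn
  have key : ∀ t : Fin 3, Good (glueRaw z.1 (single t 0) L n) := by
    intro t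
    refine good_glue z.2 (good_single t 0) hn' ?_
    intro p q j j' hp hq hj hjj hz hw
    have := single_ne hw
    rw [this.1, add_zero]
    exact h p j hp hj (by omega) hz
  have hval : ∀ t : Fin 3, (T^[n] (⟨glueRaw z.1 (single t 0) L n, key t⟩ : X)).1 (idx 0 0) = t := by
    intro t
    rw [iter_idx]
    change glueRaw z.1 (single t 0) L n (idx (0 + n) 0) = _
    rw [add_comm, glueRaw_right _ _ _ hn' (by simp) (Nat.zero_le _)]
    simp [single]
  refine ⟨⟨_, key 1⟩, hL _ fun i j hi hj => glueRaw_left _ _ _ _ hi hj, ⟨_, key 0⟩,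
    hL _ fun i j hi hj => glueRaw_left _ _ _ _ hi hj, ?_⟩
  rw [lt_dist_of_ne]
  · exact hδ
  · rw [hval, hval]
    decide

theorem thicklySensitive_T : ThicklySensitive T := by
  refine ⟨1 / 2, by norm_num, ?_⟩
  intro U hU N
  obtain ⟨z, hz⟩ := hU.2
  obtain ⟨L, hL⟩ := exists_window hU.1 hz
  set I : ℕ := 6 * L + N + 2 with hIdef
  refine ⟨I ^ 2 + 4 * L + 1, fun n hn1 hn2 => mem_sensSet hL (by omega) ?_ (by norm_num)⟩
  intro p j hp hj _ _
  have hp' : |p| ≤ 2 * (L : ℤ) := by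
    have : (0 : ℤ) ≤ L := Int.natCast_nonneg L
    linarith
  have h1 : (I : ℤ) ^ 2 + 4 * L + 1 ≤ n := by exact_mod_cast hn1
  have h2 : (n : ℤ) < (I : ℤ) ^ 2 + 4 * L + 1 + N := by exact_mod_cast hn2
  have h3 := sq_gap_arith (L := L) (N := N) (I := I) (n := n) (p := p)
    (Int.natCast_nonneg L) (by rw [hIdef]; push_cast; linarith) h1 h2.le hp'
  exact gap h3.1 h3.2 hj _

theorem not_filterSensitive_T : ¬ FilterSensitive T := by
  rintro ⟨δ, hδ, -, hne, hinter⟩
  rcases le_or_gt 1 δ with h1 | h1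
  · apply hne
    apply eq_univ_of_forall
    intro A
    refine ⟨univ, ⟨isOpen_univ, ⟨⟨single 0 0, good_single 0 0⟩, mem_univ _⟩⟩, ?_⟩
    rintro n ⟨x, -, y, -, hxy⟩
    exfalso
    have : dist (T^[n] x) (T^[n] y) ≤ 1 := PiNat.dist_le_one _ _
    linarith
  · obtain ⟨K, hK⟩ : ∃ K : ℕ, (1 / 2 : ℝ) ^ K < δ := exists_pow_lt_of_lt_one hδ one_half_lt_one
    -- the visible window
    obtain ⟨m, hm0, hm⟩ : ∃ m : ℕ, 0 < m ∧ ∀ c < K, |(E c).1| ≤ m ∧ (E c).2 < m := by
      refine ⟨∑ c ∈ Finset.range K, ((E c).1.natAbs + (E c).2) + 1, Nat.succ_pos _,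
        fun c hc => ?_⟩
      have := Finset.single_le_sum (f := fun c => (E c).1.natAbs + (E c).2)
        (fun _ _ => Nat.zero_le _) (Finset.mem_range.2 hc)
      constructor
      · rw [Int.abs_eq_natAbs]
        exact_mod_cast (by omega)
      · omega
    let U : Fin 3 → Set X := fun t => {x | x.1 (idx 0 m) = t}
    have hUo : ∀ t, Opene (U t) := by
      intro t
      constructor
      · have hc : Continuous (fun x : X => x.1 (idx 0 m)) :=
          (continuous_apply (idx 0 m)).comp continuous_val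
        exact (isOpen_discrete {t}).preimage hc
      · refine ⟨⟨single t m, good_single t m⟩, ?_⟩
        change single t m (idx 0 m) = t
        simp [single]
    -- times that are not sensitive
    have hno : ∀ (t : Fin 3), t ≠ 0 → ∀ I : ℕ, (Nat.unpair I).1 = 3 * m + t.val →
        I ^ 2 + m ∉ sensSet T (U t) δ := by
      rintro t ht I hI ⟨x, hx, y, hy, hxy⟩
      obtain ⟨c, hc, hne'⟩ := exists_ne_of_lt_dist hK.le hxy
      apply hne'
      have hz : ∀ x ∈ U t, (T^[I ^ 2 + m] x).1 c = 0 := by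
        intro x hx
        rw [← idx_E c, iter_idx]
        have hx' : x.1 (idx 0 m) = t := hx
        refine x.2.2 m (E c).2 0 _ (by rw [hx']; exact ht) (hm c hc).2 ?_
        rw [hx']
        have := abs_le.1 (hm c hc).1
        refine ⟨I, hI, ?_, ?_⟩
        · push_cast
          linarith [this.1]
        · push_cast
          linarith [this.2]
      rw [hz x hx, hz y hy]
    obtain ⟨W, hW, hWsub⟩ := hinter _ ⟨U 1, hUo 1, subset_rfl⟩ _ ⟨U 2, hUo 2, subset_rfl⟩
    obtain ⟨z, hz⟩ := hW.2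
    obtain ⟨L0, hL0⟩ := exists_window hW.1 hz
    -- enlarge the window
    set L : ℕ := L0 + m with hLdef
    have hL : ∀ y : X, (∀ (i : ℤ) (j : ℕ), |i| ≤ L → j ≤ L → y.1 (idx i j) = z.1 (idx i j)) →
        y ∈ W := by
      intro y hy
      refine hL0 y fun i j hi hj => hy i j (hi.trans ?_) (hj.trans (by omega))
      have : L0 ≤ L := by omega
      exact_mod_cast this
    -- sensitive times
    have hyes : ∀ (t : Fin 3), (∀ p : ℤ, |p| ≤ m → z.1 (idx p m) ≠ t ∨ t = 0) → t ≠ 0 →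
        ∃ I : ℕ, (Nat.unpair I).1 = 3 * m + t.val ∧ I ^ 2 + m ∈ sensSet T W δ := by
      intro t ht ht0
      set I : ℕ := Nat.pair (3 * m + t.val) (2 * m + 4 * L + 2) with hIdef
      have hIge : 2 * m + 4 * L + 2 ≤ I := Nat.right_le_pair _ _
      have hIun : (Nat.unpair I).1 = 3 * m + t.val := by rw [hIdef, Nat.unpair_pair]
      refine ⟨I, hIun, mem_sensSet hL ?_ ?_ h1⟩
      · nlinarith
      · intro p j hp hj hj0 hzp hZ
        push_cast at hZ
        obtain ⟨e1, e2, e3⟩ := isolate (by omega) hIun hp hj hZ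
        subst e1
        rcases ht p e3 with h | h
        · exact h e2
        · exact ht0 h
    by_cases hc : ∃ p : ℤ, |p| ≤ m ∧ z.1 (idx p m) = 1
    · obtain ⟨p, hp, hzp⟩ := hc
      obtain ⟨I, hI, hmem⟩ := hyes 2 (by
        intro q hq
        left
        intro hzq
        rcases eq_or_ne p q with e | e
        · rw [e, hzq] at hzp
          exact absurd hzp (by decide)
        · have := z.2.1 m p q (by rw [hzp]; decide) (by rw [hzq]; decide) e
          have h2 : |p - q| ≤ |p| + |q| := abs_sub p q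
          linarith) (by decide)
      exact hno 2 (by decide) I hI (hWsub hmem).2
    · push Not at hc
      obtain ⟨I, hI, hmem⟩ := hyes 1 (fun q hq => Or.inl (hc q hq)) (by decide)
      exact hno 1 (by decide) I hI (hWsub hmem).1

instance : Nontrivial X := by
  refine ⟨⟨single 0 0, good_single 0 0⟩, ⟨single 1 0, good_single 1 0⟩, ?_⟩
  intro h
  have := congrArg (fun x : X => x.1 (idx 0 0)) h
  simp [single] at this

end Pool.Agent.V11216.FSens
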