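import Pool.Agent.V11216.HNHphi

/-!
Homogeneous non-Hausdorff surfaces in which the points not separated from a given point form
one copy of a fixed one-dimensional fibre `F` (a line or a circle).
-/

set_option linter.unusedSectionVars false

open Set Filter Topology
open Pool.Agent.V11216.HNHphi

namespace Pool.Agent.V11216.HNH

noncomputable section

/-- The points `y ≠ z` that cannot be separated from `z` by open sets. -/
def NH {M : Type} [TopologicalSpace M] (z : M) : Set M :=
  {y | y ≠ z ∧ ∀ U V : Set M, IsOpen U → IsOpen V → y ∈ U → z ∈ V → (U ∩ V).Nonempty}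

/-- `M` is an `n`-manifold: connected, every point has an open neighbourhood homeomorphic to
`ℝⁿ`. -/
def IsManifold (n : ℕ) (M : Type) [TopologicalSpace M] : Prop :=
  ConnectedSpace M ∧
    ∀ x : M, ∃ U : Set M, IsOpen U ∧ x ∈ U ∧ Nonempty (U ≃ₜ EuclideanSpace ℝ (Fin n))

/-- homogeneity -/
def Homogeneous (M : Type) [TopologicalSpace M] : Prop :=
  ∀ x y : M, ∃ f : M ≃ₜ M, f x = y

/-- `M` is an HNH-`n`-manifold. -/
def IsHNH (n : ℕ) (M : Type) [TopologicalSpace M] : Prop :=
  IsManifold n M ∧ Homogeneous M ∧ ¬ T2Space M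

open Classical in
/-- the part of `B` at or above `s` -/
def tail (B : Finset ℝ) (s : ℝ) : Finset ℝ := B.filter (fun b => s ≤ b)

lemma mem_tail {B : Finset ℝ} {s b : ℝ} : b ∈ tail B s ↔ b ∈ B ∧ s ≤ b := by
  classical
  unfold tail; rw [Finset.mem_filter]

lemma tail_eq_iff {B B' : Finset ℝ} {s : ℝ} :
    tail B s = tail B' s ↔ ∀ b, s ≤ b → (b ∈ B ↔ b ∈ B') := by
  constructor
  · intro h b hb
    have := Finset.ext_iff.1 h b
    rw [mem_tail, mem_tail] at this
    tauto
  · intro h
    ext b
    rw [mem_tail, mem_tail]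
    constructor
    · rintro ⟨h1, h2⟩; exact ⟨(h b h2).1 h1, h2⟩
    · rintro ⟨h1, h2⟩; exact ⟨(h b h2).2 h1, h2⟩

/-- the accumulated shear -/
def Phi (B : Finset ℝ) (s : ℝ) : ℝ := ∑ b ∈ B, phi (s - b)

variable {F : Type} [AddCommGroup F] [TopologicalSpace F]

/-- the surface -/
def M (_e : ℝ →+ F) : Type := {p : (ℝ × Finset ℝ) × F // ∀ b ∈ p.1.2, p.1.1 ≤ b}

variable (e : ℝ →+ F)

/-- the sheets -/
def sheet (B : Finset ℝ) (q : ℝ × F) : M e :=
  ⟨((q.1, tail B q.1), q.2 + e (Phi B q.1)), fun _ hb => (mem_tail.1 hb).2⟩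

instance : TopologicalSpace (M e) :=
  ⨆ B : Finset ℝ, TopologicalSpace.coinduced (sheet e B) inferInstance

variable {e}

lemma isOpen_iff {U : Set (M e)} : IsOpen U ↔ ∀ B, IsOpen (sheet e B ⁻¹' U) := by
  have : IsOpen U ↔ ∀ B, IsOpen[TopologicalSpace.coinduced (sheet e B) inferInstance] U :=
    isOpen_iSup_iff
  rw [this]
  exact forall_congr' fun B => isOpen_coinduced

lemma continuous_sheet (B : Finset ℝ) : Continuous (sheet e B) :=
  continuous_def.2 fun _ hU => isOpen_iff.1 hU B

lemma continuous_of {X : Type} [TopologicalSpace X] {f : M e → X}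
    (hf : ∀ B, Continuous (f ∘ sheet e B)) : Continuous f :=
  continuous_def.2 fun U hU => isOpen_iff.2 fun B => (hf B).isOpen_preimage U hU

/-- height -/
def ht (x : M e) : ℝ := x.1.1.1
/-- label -/
def lab (x : M e) : Finset ℝ := x.1.1.2
/-- fibre coordinate -/
def fib (x : M e) : F := x.1.2

lemma M_ext {x y : M e} (h1 : ht x = ht y) (h2 : lab x = lab y) (h3 : fib x = fib y) : x = y :=
  Subtype.ext (Prod.ext (Prod.ext h1 h2) h3)

lemma ht_le (x : M e) : ∀ b ∈ lab x, ht x ≤ b := x.2

@[simp] lemma ht_sheet (B : Finset ℝ) (q : ℝ × F) : ht (sheet e B q) = q.1 := rfl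
@[simp] lemma lab_sheet (B : Finset ℝ) (q : ℝ × F) : lab (sheet e B q) = tail B q.1 := rfl
@[simp] lemma fib_sheet (B : Finset ℝ) (q : ℝ × F) :
    fib (sheet e B q) = q.2 + e (Phi B q.1) := rfl

lemma continuous_ht : Continuous (ht : M e → ℝ) :=
  continuous_of fun _ => continuous_fst

lemma Phi_zero {A : Finset ℝ} {s : ℝ} (h : ∀ b ∈ A, s ≤ b) : Phi A s = 0 :=
  Finset.sum_eq_zero fun b hb => phi_nonpos (by linarith [h b hb])

lemma tail_self {A : Finset ℝ} {s : ℝ} (h : ∀ b ∈ A, s ≤ b) : tail A s = A := by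
  ext b; rw [mem_tail]; exact ⟨fun h => h.1, fun hb => ⟨hb, h b hb⟩⟩

lemma sheet_self (x : M e) : sheet e (lab x) (ht x, fib x) = x := by
  refine M_ext rfl ?_ ?_
  · rw [lab_sheet]; exact tail_self (ht_le x)
  · rw [fib_sheet]; simp only [Phi_zero (ht_le x), map_zero, add_zero]

lemma tail_eq_open {B B' : Finset ℝ} {s : ℝ} (h : tail B s = tail B' s) :
    ∀ᶠ t in 𝓝 s, tail B t = tail B' t := by
  classical
  rw [tail_eq_iff] at h
  have h1 : ∀ b ∈ symmDiff B B', ∀ᶠ t in 𝓝 s, b < t := by
    intro b hb
    apply lt_mem_nhds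
    by_contra hlt
    have := h b (not_lt.1 hlt)
    rw [Finset.mem_symmDiff] at hb
    tauto
  have h2 := (Filter.eventually_all_finset (symmDiff B B')).2 h1
  filter_upwards [h2] with t ht
  rw [tail_eq_iff]
  intro b hb
  by_contra hne
  have : b ∈ symmDiff B B' := by rw [Finset.mem_symmDiff]; tauto
  exact absurd (ht b this) (not_lt.2 hb)

lemma Phi_sub_cont {B B' : Finset ℝ} {s : ℝ} (h : tail B s = tail B' s) :
    ContinuousAt (fun t => Phi B t - Phi B' t) s := by
  classical
  rw [tail_eq_iff] at h
  have e1 : (fun t => Phi B t - Phi B' t) =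
      fun t => ∑ b ∈ B \ B', phi (t - b) - ∑ b ∈ B' \ B, phi (t - b) := by
    funext t
    exact (Finset.sum_sdiff_sub_sum_sdiff (f := fun b => phi (t - b))).symm
  rw [e1]
  have h1 : ∀ b, s ≤ b → b ∈ B → b ∈ B' → True := fun _ _ _ _ => trivial
  refine ContinuousAt.sub ?_ ?_
  · refine tendsto_finsetSum _ fun b hb => ?_
    rw [Finset.mem_sdiff] at hb
    have hlt : b < s := by
      by_contra hlt
      have := h b (not_lt.1 hlt)
      tauto
    exact ContinuousAt.comp (f := fun t : ℝ => t - b) (phi_contAt (sub_pos.2 hlt)) (by fun_prop)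
  · refine tendsto_finsetSum _ fun b hb => ?_
    rw [Finset.mem_sdiff] at hb
    have hlt : b < s := by
      by_contra hlt
      have := h b (not_lt.1 hlt)
      tauto
    exact ContinuousAt.comp (f := fun t : ℝ => t - b) (phi_contAt (sub_pos.2 hlt)) (by fun_prop)

variable [IsTopologicalAddGroup F]

lemma sheet_inj (B : Finset ℝ) : Function.Injective (sheet e B) := by
  rintro ⟨s, y⟩ ⟨s', y'⟩ h
  have h1 : s = s' := congrArg ht h
  subst h1
  have h2 : y + e (Phi B s) = y' + e (Phi B s) := congrArg fib h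
  rw [add_right_cancel h2]

lemma isOpenMap_sheet (he : Continuous e) (B : Finset ℝ) : IsOpenMap (sheet e B) := by
  intro U hU
  rw [isOpen_iff]
  intro B'
  rw [isOpen_iff_mem_nhds]
  rintro ⟨s, y⟩ ⟨⟨s1, y1⟩, hU1, heq⟩
  have h1 : s1 = s := congrArg ht heq
  subst h1
  have h2 : tail B s1 = tail B' s1 := congrArg lab heq
  have h3 : y1 + e (Phi B s1) = y + e (Phi B' s1) := congrArg fib heq
  have c1 : ContinuousAt (fun t => Phi B' t - Phi B t) s1 := Phi_sub_cont h2.symm
  have c : ContinuousAt (fun q : ℝ × F => (q.1, q.2 + e (Phi B' q.1 - Phi B q.1))) (s1, y) := by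
    refine ContinuousAt.prodMk continuousAt_fst (ContinuousAt.add continuousAt_snd ?_)
    exact he.continuousAt.comp (ContinuousAt.comp (f := Prod.fst) (x := ((s1, y) : ℝ × F))
      (g := fun t => Phi B' t - Phi B t) c1 continuousAt_fst)
  have v : (fun q : ℝ × F => (q.1, q.2 + e (Phi B' q.1 - Phi B q.1))) (s1, y) = (s1, y1) := by
    have : y1 = y + (e (Phi B' s1) - e (Phi B s1)) := by
      rw [← add_sub_assoc, ← h3]; abel
    simp only [map_sub]
    rw [this]
  have h4 : ∀ᶠ q in 𝓝 ((s1, y) : ℝ × F), (q.1, q.2 + e (Phi B' q.1 - Phi B q.1)) ∈ U :=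
    c.eventually (by rw [v]; exact hU.mem_nhds hU1)
  have h5 : ∀ᶠ q in 𝓝 ((s1, y) : ℝ × F), tail B q.1 = tail B' q.1 :=
    (continuousAt_fst (p := ((s1, y) : ℝ × F))).eventually (tail_eq_open h2)
  filter_upwards [h4, h5] with q h6 h7
  refine ⟨_, h6, M_ext rfl h7 ?_⟩
  simp only [fib_sheet, map_sub]
  abel

lemma isOpenEmbedding_sheet (he : Continuous e) (B : Finset ℝ) :
    IsOpenEmbedding (sheet e B) :=
  IsOpenEmbedding.of_continuous_injective_isOpenMap (continuous_sheet B) (sheet_inj B)
    (isOpenMap_sheet he B)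

open Classical in
/-- the basic self-maps -/
def act (σ : ℝ ≃o ℝ) (D : Finset ℝ) (l : ℝ → F) : M e ≃ M e where
  toFun x := ⟨((σ (ht x), tail (symmDiff ((lab x).map σ.toEquiv.toEmbedding) D) (σ (ht x))),
    fib x + l (ht x)), fun _ hb => (mem_tail.1 hb).2⟩
  invFun x := ⟨((σ.symm (ht x), tail (symmDiff ((lab x).map σ.symm.toEquiv.toEmbedding)
    (D.map σ.symm.toEquiv.toEmbedding)) (σ.symm (ht x))), fib x - l (σ.symm (ht x))),
    fun _ hb => (mem_tail.1 hb).2⟩
  left_inv x := by
    refine M_ext ?_ ?_ ?_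
    · show σ.symm (σ (ht x)) = ht x
      simp
    · show tail _ (σ.symm (σ (ht x))) = lab x
      ext b
      have hx := ht_le x b
      simp only [mem_tail, Finset.mem_symmDiff, Finset.mem_map_equiv, lab, ht] at *
      simp only [OrderIso.symm_apply_apply, OrderIso.toEquiv_symm, Equiv.symm_symm,
        RelIso.coe_fn_toEquiv, σ.le_iff_le]
      have e1 : σ.toEquiv.symm (σ b) = b := σ.symm_apply_apply b
      rw [e1]
      tauto
    · show fib x + l (ht x) - l (σ.symm (σ (ht x))) = fib x
      simp
  right_inv x := by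
    refine M_ext ?_ ?_ ?_
    · show σ (σ.symm (ht x)) = ht x
      simp
    · show tail _ (σ (σ.symm (ht x))) = lab x
      ext b
      have hx := ht_le x b
      simp only [mem_tail, Finset.mem_symmDiff, Finset.mem_map_equiv, lab, ht] at *
      simp only [OrderIso.apply_symm_apply, OrderIso.toEquiv_symm, Equiv.symm_symm,
        RelIso.coe_fn_toEquiv]
      have e2 : σ (σ.toEquiv.symm b) = b := σ.apply_symm_apply b
      have e3 : σ.symm x.1.1.1 ≤ σ.toEquiv.symm b ↔ x.1.1.1 ≤ b := σ.symm.le_iff_le
      simp only [e2, e3]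
      tauto
    · show fib x - l (σ.symm (ht x)) + l (σ.symm (ht x)) = fib x
      simp

open Classical in
/-- the sheet reached from the sheet `B` -/
def tgt (σ : ℝ ≃o ℝ) (D B : Finset ℝ) : Finset ℝ := symmDiff (B.map σ.toEquiv.toEmbedding) D

/-- the shear of `act` between sheets -/
def kap (e : ℝ →+ F) (σ : ℝ ≃o ℝ) (D : Finset ℝ) (l : ℝ → F) (B : Finset ℝ) (s : ℝ) : F :=
  e (Phi B s) + l s - e (Phi (tgt σ D B) (σ s))

lemma act_sheet (σ : ℝ ≃o ℝ) (D : Finset ℝ) (l : ℝ → F) (B : Finset ℝ) (q : ℝ × F) :
    act σ D l (sheet e B q) = sheet e (tgt σ D B) (σ q.1, q.2 + kap e σ D l B q.1) := by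
  classical
  refine M_ext rfl ?_ ?_
  · show tail (symmDiff ((tail B q.1).map σ.toEquiv.toEmbedding) D) (σ q.1) =
      tail (tgt σ D B) (σ q.1)
    ext b
    simp only [tgt, mem_tail, Finset.mem_symmDiff, Finset.mem_map_equiv]
    have e2 : q.1 ≤ σ.toEquiv.symm b ↔ σ q.1 ≤ b := by
      have := σ.le_iff_le (x := q.1) (y := σ.toEquiv.symm b)
      have e3 : σ (σ.toEquiv.symm b) = b := σ.apply_symm_apply b
      rw [e3] at this
      exact this.symm
    rw [e2]
    tauto
  · show q.2 + e (Phi B q.1) + l q.1 = q.2 + kap e σ D l B q.1 + e (Phi (tgt σ D B) (σ q.1))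
    unfold kap
    abel

lemma tgt_surj (σ : ℝ ≃o ℝ) (D B' : Finset ℝ) : ∃ B, tgt σ D B = B' := by
  classical
  refine ⟨(symmDiff B' D).map σ.symm.toEquiv.toEmbedding, ?_⟩
  ext b
  simp only [tgt, Finset.mem_symmDiff, Finset.mem_map_equiv, OrderIso.toEquiv_symm,
    Equiv.symm_symm]
  have e2 : σ.toEquiv (σ.toEquiv.symm b) = b := σ.apply_symm_apply b
  rw [e2]
  tauto

/-- the homeomorphism of `ℝ × F` between sheets -/
def kh (σ : ℝ ≃o ℝ) (k : ℝ → F) (hk : Continuous k) : (ℝ × F) ≃ₜ (ℝ × F) where
  toFun q := (σ q.1, q.2 + k q.1)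
  invFun q := (σ.symm q.1, q.2 - k (σ.symm q.1))
  left_inv q := by simp
  right_inv q := by simp
  continuous_toFun := by
    have := σ.continuous
    fun_prop
  continuous_invFun := by
    have := σ.symm.continuous
    fun_prop

/-- `act` as a homeomorphism -/
def actH (σ : ℝ ≃o ℝ) (D : Finset ℝ) (l : ℝ → F) (hk : ∀ B, Continuous (kap e σ D l B)) :
    M e ≃ₜ M e where
  toEquiv := act σ D l
  continuous_toFun := by
    refine continuous_of fun B => ?_
    have : (act σ D l) ∘ (sheet e B) = sheet e (tgt σ D B) ∘ (kh σ _ (hk B)) := by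
      funext q; exact act_sheet σ D l B q
    show Continuous ((act σ D l) ∘ (sheet e B))
    rw [this]
    exact (continuous_sheet _).comp (kh σ _ (hk B)).continuous
  continuous_invFun := by
    refine continuous_of fun B' => ?_
    obtain ⟨B, rfl⟩ := tgt_surj σ D B'
    have : ((act σ D l).symm : M e → M e) ∘ (sheet e (tgt σ D B)) =
        sheet e B ∘ (kh σ _ (hk B)).symm := by
      funext q
      show (act σ D l).symm (sheet e (tgt σ D B) q) = sheet e B ((kh σ _ (hk B)).symm q)
      rw [Equiv.symm_apply_eq, act_sheet]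
      exact congrArg _ ((kh σ _ (hk B)).apply_symm_apply q).symm
    show Continuous (((act σ D l).symm : M e → M e) ∘ (sheet e (tgt σ D B)))
    rw [this]
    exact (continuous_sheet _).comp (kh σ _ (hk B)).symm.continuous

/-! ### translations -/

/-- translation of the line -/
def trl (c : ℝ) : ℝ ≃o ℝ := OrderIso.addRight c

lemma kap_trl (c : ℝ) (d : F) (B : Finset ℝ) : kap e (trl c) ∅ (fun _ => d) B = fun _ => d := by
  classical
  funext s
  have : Phi (tgt (trl c) ∅ B) (trl c s) = Phi B s := by
    have h0 : tgt (trl c) ∅ B = B.map (trl c).toEquiv.toEmbedding := by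
      ext b; simp [tgt, Finset.mem_symmDiff]
    rw [h0]
    unfold Phi
    rw [Finset.sum_map]
    refine Finset.sum_congr rfl fun b _ => ?_
    congr 1
    show s + c - (b + c) = s - b
    ring
  unfold kap
  rw [this]
  abel

/-- translation homeomorphism -/
def T (c : ℝ) (d : F) : M e ≃ₜ M e :=
  actH (trl c) ∅ (fun _ => d) fun B => by rw [kap_trl]; exact continuous_const

lemma T_ht (c : ℝ) (d : F) (x : M e) : ht (T c d x) = ht x + c := rfl
lemma T_fib (c : ℝ) (d : F) (x : M e) : fib (T c d x) = fib x + d := rfl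
lemma T_lab (c : ℝ) (d : F) (x : M e) {b : ℝ} : b ∈ lab (T c d x) ↔ b - c ∈ lab x := by
  classical
  show b ∈ tail (symmDiff ((lab x).map (trl c).toEquiv.toEmbedding) ∅) (ht x + c) ↔ _
  simp only [mem_tail, Finset.mem_symmDiff, Finset.mem_map_equiv]
  have e1 : (trl c).toEquiv.symm b = b - c := by
    show b + -c = b - c
    ring
  rw [e1]
  have := ht_le x (b - c)
  constructor
  · rintro ⟨h, _⟩; simpa using h
  · intro h
    exact ⟨Or.inl ⟨h, by simp⟩, by linarith [this h]⟩

lemma T_card (c : ℝ) (d : F) (x : M e) : (lab (T c d x)).card = (lab x).card := by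
  classical
  have : lab (T c d x) = (lab x).map (trl c).toEquiv.toEmbedding := by
    ext b
    rw [T_lab, Finset.mem_map_equiv]
    have e1 : (trl c).toEquiv.symm b = b - c := by
      show b + -c = b - c
      ring
    rw [e1]
  rw [this, Finset.card_map]

/-! ### the flip -/

lemma cube_mono : StrictMono (fun x : ℝ => x ^ 3) := Odd.strictMono_pow (by decide)

lemma cube_surj : Function.Surjective (fun x : ℝ => x ^ 3) :=
  (continuous_pow 3).surjective (tendsto_pow_atTop (by norm_num))
    (by
      have h : Tendsto (fun x : ℝ => -((-x) ^ 3)) atBot atBot :=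
        tendsto_neg_atTop_atBot.comp
          ((tendsto_pow_atTop (by norm_num)).comp tendsto_neg_atBot_atTop)
      refine h.congr fun x => ?_
      ring)

/-- `x ↦ x^3` as an order isomorphism -/
def cube : ℝ ≃o ℝ := cube_mono.orderIsoOfSurjective _ cube_surj

lemma cube_apply (x : ℝ) : cube x = x ^ 3 := rfl

lemma kap_flip (he : Continuous e) (B : Finset ℝ) :
    Continuous (kap e cube {0} (fun s => -e (phi s)) B) := by
  classical
  have hD : ∀ b ∈ B.erase 0, Continuous (fun s : ℝ => phi (s - b) - phi (s ^ 3 - b ^ 3)) :=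
    fun b hb => D_cont (Finset.mem_erase.1 hb).1
  have hS : Continuous (fun s : ℝ => ∑ b ∈ B.erase 0, (phi (s - b) - phi (s ^ 3 - b ^ 3))) :=
    continuous_finsetSum _ hD
  have z0 : cube.toEquiv.symm 0 = 0 := by
    rw [Equiv.symm_apply_eq]
    show (0:ℝ) = 0 ^ 3
    norm_num
  by_cases h0 : (0:ℝ) ∈ B
  · have e1 : tgt cube {0} B = (B.erase 0).map cube.toEquiv.toEmbedding := by
      ext b
      simp only [tgt, Finset.mem_symmDiff, Finset.mem_map_equiv, Finset.mem_singleton,
        Finset.mem_erase]
      by_cases hb : b = 0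
      · subst hb; simp [z0, h0]
      · have : cube.toEquiv.symm b ≠ 0 := by
          intro h; apply hb; rw [← z0] at h; exact cube.toEquiv.symm.injective h
        tauto
    have e2 : kap e cube {0} (fun s => -e (phi s)) B = fun s =>
        e (∑ b ∈ B.erase 0, (phi (s - b) - phi (s ^ 3 - b ^ 3))) := by
      funext s
      have k1 : Phi B s = phi s + ∑ b ∈ B.erase 0, phi (s - b) := by
        unfold Phi; rw [← Finset.add_sum_erase B _ h0, sub_zero]
      have k2 : Phi ((B.erase 0).map cube.toEquiv.toEmbedding) (cube s) =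
          ∑ b ∈ B.erase 0, phi (s ^ 3 - b ^ 3) := by
        unfold Phi; rw [Finset.sum_map]; rfl
      unfold kap
      rw [e1, k1, k2, Finset.sum_sub_distrib, map_sub, map_add]
      have hab : ∀ a b c : F, a + b + -a - c = b - c := by intros; abel
      exact hab _ _ _
    rw [e2]
    exact he.comp hS
  · have e0 : B.erase 0 = B := Finset.erase_eq_of_notMem h0
    rw [e0] at hS
    have hn : (0:ℝ) ∉ B.map cube.toEquiv.toEmbedding := by
      rw [Finset.mem_map_equiv, z0]; exact h0
    have e1 : tgt cube {0} B = insert 0 (B.map cube.toEquiv.toEmbedding) := by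
      ext b
      simp only [tgt, Finset.mem_symmDiff, Finset.mem_map_equiv, Finset.mem_singleton,
        Finset.mem_insert]
      by_cases hb : b = 0
      · subst hb; simp [z0, h0]
      · tauto
    have e2 : kap e cube {0} (fun s => -e (phi s)) B = fun s =>
        e (∑ b ∈ B, (phi (s - b) - phi (s ^ 3 - b ^ 3))) - e (phi s + phi (s ^ 3)) := by
      funext s
      have k1 : Phi B s = ∑ b ∈ B, phi (s - b) := rfl
      have k2 : Phi (insert 0 (B.map cube.toEquiv.toEmbedding)) (cube s) =
          phi (s ^ 3) + ∑ b ∈ B, phi (s ^ 3 - b ^ 3) := by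
        unfold Phi; rw [Finset.sum_insert hn, Finset.sum_map, cube_apply, sub_zero]; rfl
      unfold kap
      rw [e1, k1, k2, Finset.sum_sub_distrib, map_sub, map_add, map_add]
      have hab : ∀ a b c d : F, a + -b - (c + d) = a - d - (b + c) := by intros; abel
      exact hab _ _ _ _
    rw [e2]
    exact (he.comp hS).sub (he.comp E_cont)

/-- the flip at height `0` -/
def flip (he : Continuous e) : M e ≃ₜ M e := actH cube {0} (fun s => -e (phi s)) (kap_flip he)

lemma flip_card (he : Continuous e) (x : M e) (h0 : (0:ℝ) ∈ lab x) :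
    (lab (flip he x)).card < (lab x).card := by
  classical
  have e1 : lab (flip he x) ⊆ ((lab x).map cube.toEquiv.toEmbedding).erase 0 := by
    intro b hb
    have hb' : b ∈ tail (symmDiff ((lab x).map cube.toEquiv.toEmbedding) {0}) (cube (ht x)) := hb
    rw [mem_tail, Finset.mem_symmDiff] at hb'
    rw [Finset.mem_erase]
    have z0 : cube.toEquiv.symm 0 = 0 := by
      rw [Equiv.symm_apply_eq]
      show (0:ℝ) = 0 ^ 3
      norm_num
    have hz : (0:ℝ) ∈ (lab x).map cube.toEquiv.toEmbedding := by
      rw [Finset.mem_map_equiv, z0]; exact h0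
    rcases hb'.1 with ⟨h1, h2⟩ | ⟨h1, h2⟩
    · exact ⟨fun h => h2 (Finset.mem_singleton.2 h), h1⟩
    · rw [Finset.mem_singleton] at h1
      subst h1
      exact absurd hz h2
  have hz : (0:ℝ) ∈ (lab x).map cube.toEquiv.toEmbedding := by
    have z0 : cube.toEquiv.symm 0 = 0 := by
      rw [Equiv.symm_apply_eq]
      show (0:ℝ) = 0 ^ 3
      norm_num
    rw [Finset.mem_map_equiv, z0]; exact h0
  calc (lab (flip he x)).card ≤ _ := Finset.card_le_card e1
    _ < ((lab x).map cube.toEquiv.toEmbedding).card := Finset.card_erase_lt_of_mem hz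
    _ = (lab x).card := Finset.card_map _

/-- base point -/
def base : M e := sheet e ∅ (0, 0)

lemma to_base (he : Continuous e) : ∀ (n : ℕ) (x : M e), (lab x).card = n →
    ∃ f : M e ≃ₜ M e, f x = base := by
  intro n
  induction n using Nat.strong_induction_on with
  | _ n ih =>
    intro x hx
    rcases (lab x).eq_empty_or_nonempty with h0 | h0
    · refine ⟨T (-ht x) (-fib x), M_ext ?_ ?_ ?_⟩
      · rw [T_ht]; simp [base]
      · ext b
        rw [T_lab, h0]
        simp [base, tail]
      · rw [T_fib]; simp [base, Phi]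
    · set m := (lab x).min' h0
      have hm : m ∈ lab x := Finset.min'_mem _ _
      set y := T (e := e) (-m) 0 x with hy
      have hy0 : (0:ℝ) ∈ lab y := by rw [hy, T_lab]; simpa using hm
      have hc : (lab (flip he y)).card < n := by
        have := flip_card he y hy0
        rw [hy, T_card, hx] at this
        exact this
      obtain ⟨f, hf⟩ := ih _ hc _ rfl
      exact ⟨((T (e := e) (-m) 0).trans (flip he)).trans f, hf⟩

lemma homogeneous (he : Continuous e) : Homogeneous (M e) := by
  intro x y
  obtain ⟨f, hf⟩ := to_base he _ x rfl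
  obtain ⟨g, hg⟩ := to_base he _ y rfl
  refine ⟨f.trans g.symm, ?_⟩
  show g.symm (f x) = y
  rw [hf, ← hg, Homeomorph.symm_apply_apply]

/-! ### the non-separated points -/

variable [T2Space F]

open Classical in
/-- the partner label -/
def mate (x : M e) : Finset ℝ := symmDiff (lab x) {ht x}

lemma mate_ge (x : M e) : ∀ b ∈ mate x, ht x ≤ b := by
  classical
  intro b hb
  unfold mate at hb
  rw [Finset.mem_symmDiff, Finset.mem_singleton] at hb
  rcases hb with ⟨h, _⟩ | ⟨h, _⟩
  · exact ht_le x b h
  · exact h.ge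

lemma nh_iff (he : Continuous e) (hsurj : Function.Surjective e) (x w : M e) :
    w ∈ NH x ↔ ht w = ht x ∧ lab w = mate x := by
  classical
  constructor
  · rintro ⟨hne, hsep⟩
    have h1 : ht w = ht x := by
      by_contra hd
      obtain ⟨U, V, hU, hV, hwU, hxV, hUV⟩ := t2_separation hd
      obtain ⟨p, hp1, hp2⟩ := hsep (ht ⁻¹' U) (ht ⁻¹' V) (hU.preimage continuous_ht)
        (hV.preimage continuous_ht) hwU hxV
      exact Set.disjoint_left.1 hUV hp1 hp2
    refine ⟨h1, ?_⟩
    by_contra hlab
    by_cases hsame : lab w = lab x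
    · -- same sheet
      have hf : fib w ≠ fib x := fun h => hne (M_ext h1 hsame h)
      have hw := sheet_self w
      have hx := sheet_self x
      rw [hsame, h1] at hw
      have hd : ((ht x, fib w) : ℝ × F) ≠ (ht x, fib x) := fun h => hf (Prod.ext_iff.1 h).2
      obtain ⟨U, V, hU, hV, hwU, hxV, hUV⟩ := t2_separation hd
      obtain ⟨p, ⟨q, hq, rfl⟩, ⟨q', hq', heq⟩⟩ := hsep (sheet e (lab x) '' U)
        (sheet e (lab x) '' V) (isOpenMap_sheet he _ _ hU) (isOpenMap_sheet he _ _ hV)
        ⟨_, hwU, hw⟩ ⟨_, hxV, hx⟩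
      have := sheet_inj _ heq
      subst this
      exact Set.disjoint_left.1 hUV hq hq'
    · -- there is a difference above `ht x`
      have hm : ∃ m, ht x < m ∧ ¬ (m ∈ lab w ↔ m ∈ lab x) := by
        by_contra hcon
        push Not at hcon
        by_cases hs : (ht x ∈ lab w ↔ ht x ∈ lab x)
        · apply hsame
          ext b
          rcases lt_trichotomy b (ht x) with h | h | h
          · have a1 : b ∉ lab w := fun hb => by
              have := ht_le w b hb
              rw [h1] at this
              linarith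
            have a2 : b ∉ lab x := fun hb => by
              have := ht_le x b hb
              linarith
            tauto
          · rw [h]; exact hs
          · exact hcon b h
        · apply hlab
          ext b
          unfold mate
          rw [Finset.mem_symmDiff, Finset.mem_singleton]
          rcases lt_trichotomy b (ht x) with h | h | h
          · have a1 : b ∉ lab w := fun hb => by
              have := ht_le w b hb
              rw [h1] at this
              linarith
            have a2 : b ∉ lab x := fun hb => by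
              have := ht_le x b hb
              linarith
            have a3 : b ≠ ht x := h.ne
            tauto
          · rw [h]; tauto
          · have a3 : b ≠ ht x := h.ne'
            have := hcon b h
            tauto
      obtain ⟨m, hm1, hm2⟩ := hm
      have hO : IsOpen ((Iio m ×ˢ univ : Set (ℝ × F))) := isOpen_Iio.prod isOpen_univ
      obtain ⟨p, ⟨q, hq, rfl⟩, ⟨q', hq', heq⟩⟩ := hsep (sheet e (lab w) '' (Iio m ×ˢ univ))
        (sheet e (lab x) '' (Iio m ×ˢ univ)) (isOpenMap_sheet he _ _ hO)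
        (isOpenMap_sheet he _ _ hO) ⟨(ht w, fib w), ⟨by rw [h1]; exact hm1, trivial⟩, sheet_self w⟩
        ⟨(ht x, fib x), ⟨hm1, trivial⟩, sheet_self x⟩
      have h3 : q'.1 = q.1 := congrArg ht heq
      have h4 : tail (lab x) q'.1 = tail (lab w) q.1 := congrArg lab heq
      rw [h3] at h4
      have h5 := tail_eq_iff.1 h4 m (le_of_lt hq.1)
      tauto
  · rintro ⟨h1, h2⟩
    have hne : w ≠ x := by
      rintro rfl
      have := Finset.ext_iff.1 h2 (ht w)
      unfold mate at this
      rw [Finset.mem_symmDiff, Finset.mem_singleton] at this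
      tauto
    refine ⟨hne, fun U V hU hV hwU hxV => ?_⟩
    have hw := sheet_self w
    have hx := sheet_self x
    rw [h2, h1] at hw
    -- neighbourhoods in the sheets
    have c1 : ∀ᶠ t in 𝓝 (ht x), sheet e (mate x) (t, fib w) ∈ U := by
      have : Continuous (fun t : ℝ => sheet e (mate x) (t, fib w)) :=
        (continuous_sheet _).comp (by fun_prop)
      refine this.continuousAt.eventually ?_
      show ∀ᶠ z in 𝓝 (sheet e (mate x) (ht x, fib w)), z ∈ U
      rw [hw]; exact hU.mem_nhds hwU
    have c2 : ∀ᶠ t in 𝓝 (ht x), sheet e (lab x) (t, fib x) ∈ V := by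
      have : Continuous (fun t : ℝ => sheet e (lab x) (t, fib x)) :=
        (continuous_sheet _).comp (by fun_prop)
      refine this.continuousAt.eventually ?_
      show ∀ᶠ z in 𝓝 (sheet e (lab x) (ht x, fib x)), z ∈ V
      rw [hx]; exact hV.mem_nhds hxV
    obtain ⟨δ, hδ, hball⟩ := Metric.eventually_nhds_iff.1 (c1.and c2)
    have htail : ∀ t, ht x < t → tail (mate x) t = tail (lab x) t := by
      intro t htt
      rw [tail_eq_iff]
      intro b hb
      unfold mate
      rw [Finset.mem_symmDiff, Finset.mem_singleton]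
      have : b ≠ ht x := by
        intro h; linarith
      tauto
    by_cases hs : ht x ∈ lab x
    · -- mate = erase
      have hm : mate x = (lab x).erase (ht x) := by
        ext b
        unfold mate
        rw [Finset.mem_symmDiff, Finset.mem_singleton, Finset.mem_erase]
        by_cases hb : b = ht x
        · subst hb; tauto
        · tauto
      obtain ⟨r, hr⟩ := hsurj (fib w - fib x)
      obtain ⟨u, hu0, hu1, hu2⟩ := phi_surj r hδ
      have hb := hball (y := ht x + u) (by rw [Real.dist_eq]; simpa [abs_of_pos hu0] using hu1)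
      refine ⟨_, hb.1, ?_⟩
      have : sheet e (mate x) (ht x + u, fib w) = sheet e (lab x) (ht x + u, fib x) := by
        refine M_ext rfl (htail _ (by linarith)) ?_
        show fib w + e (Phi (mate x) (ht x + u)) = fib x + e (Phi (lab x) (ht x + u))
        have : Phi (lab x) (ht x + u) = phi u + Phi (mate x) (ht x + u) := by
          rw [hm]
          unfold Phi
          rw [← Finset.add_sum_erase _ _ hs]
          congr 2
          ring
        rw [this, map_add, hu2, hr]
        abel
      rw [this]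
      exact hb.2
    · have hm : mate x = insert (ht x) (lab x) := by
        ext b
        unfold mate
        rw [Finset.mem_symmDiff, Finset.mem_singleton, Finset.mem_insert]
        by_cases hb : b = ht x
        · subst hb; tauto
        · tauto
      obtain ⟨r, hr⟩ := hsurj (fib x - fib w)
      obtain ⟨u, hu0, hu1, hu2⟩ := phi_surj r hδ
      have hb := hball (y := ht x + u) (by rw [Real.dist_eq]; simpa [abs_of_pos hu0] using hu1)
      refine ⟨_, hb.1, ?_⟩
      have : sheet e (mate x) (ht x + u, fib w) = sheet e (lab x) (ht x + u, fib x) := by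
        refine M_ext rfl (htail _ (by linarith)) ?_
        show fib w + e (Phi (mate x) (ht x + u)) = fib x + e (Phi (lab x) (ht x + u))
        have : Phi (mate x) (ht x + u) = phi u + Phi (lab x) (ht x + u) := by
          rw [hm]
          unfold Phi
          rw [Finset.sum_insert hs]
          congr 2
          ring
        rw [this, map_add, hu2, hr]
        abel
      rw [this]
      exact hb.2

/-- `NH x` is homeomorphic to the fibre. -/
lemma nh_homeo (he : Continuous e) (hsurj : Function.Surjective e) (x : M e) :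
    Nonempty (NH x ≃ₜ F) := by
  have hemb : IsEmbedding (fun Y : F => sheet e (mate x) (ht x, Y)) :=
    (isOpenEmbedding_sheet he (mate x)).isEmbedding.comp (isEmbedding_prodMkRight (ht x))
  have hr : range (fun Y : F => sheet e (mate x) (ht x, Y)) = NH x := by
    ext w
    rw [nh_iff he hsurj]
    constructor
    · rintro ⟨Y, rfl⟩
      exact ⟨rfl, tail_self (mate_ge x)⟩
    · rintro ⟨h1, h2⟩
      refine ⟨fib w, ?_⟩
      have := sheet_self w
      rw [h1, h2] at this
      exact this
  exact ⟨(hemb.toHomeomorph.trans (Homeomorph.setCongr hr)).symm⟩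

lemma connected (he : Continuous e) (hsurj : Function.Surjective e) : ConnectedSpace (M e) := by
  classical
  have : ConnectedSpace F := hsurj.connectedSpace he
  have hne : Nonempty (M e) := ⟨base⟩
  have hpre : ∀ B, IsPreconnected (range (sheet e B)) := fun B =>
    isPreconnected_range (continuous_sheet B)
  have huniv : IsPreconnected (univ : Set (M e)) := by
    refine isPreconnected_of_forall base fun y _ => ?_
    refine ⟨range (sheet e ∅) ∪ range (sheet e (lab y)), subset_univ _,
      Or.inl ⟨_, rfl⟩, Or.inr ⟨_, sheet_self y⟩, ?_⟩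
    -- a common point
    obtain ⟨K, hK⟩ : ∃ K : ℝ, ∀ b ∈ lab y, b < K := by
      obtain ⟨K, hK⟩ := (lab y).exists_le
      exact ⟨K + 1, fun b hb => by linarith [hK b hb]⟩
    refine IsPreconnected.union (sheet e (lab y) (K, 0)) ?_ ⟨_, rfl⟩ (hpre _) (hpre _)
    refine ⟨(K, e (Phi (lab y) K)), M_ext rfl ?_ ?_⟩
    · rw [lab_sheet, lab_sheet, tail_eq_iff]
      intro b hb
      constructor
      · intro h; exact absurd h (Finset.notMem_empty b)
      · intro h; exact absurd (hK b h) (not_lt.2 hb)
    · rw [fib_sheet, fib_sheet]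
      simp [Phi]
  exact { isPreconnected_univ := huniv, toNonempty := hne }

lemma isHNH (he : Continuous e) (hsurj : Function.Surjective e)
    (hloc : ∀ y : F, ∃ V : Set F, IsOpen V ∧ y ∈ V ∧ Nonempty (V ≃ₜ ℝ)) : IsHNH 2 (M e) := by
  refine ⟨⟨connected he hsurj, fun x => ?_⟩, homogeneous he, fun hT2 => ?_⟩
  · obtain ⟨V, hV, hyV, ⟨g⟩⟩ := hloc (fib x)
    have hj : IsOpenEmbedding (fun p : ℝ × V => sheet e (lab x) (p.1, p.2.1)) :=
      (isOpenEmbedding_sheet he (lab x)).comp
        (IsOpenEmbedding.id.prodMap hV.isOpenEmbedding_subtypeVal)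
    refine ⟨range (fun p : ℝ × V => sheet e (lab x) (p.1, p.2.1)), hj.isOpen_range,
      ⟨(ht x, ⟨fib x, hyV⟩), sheet_self x⟩, ⟨?_⟩⟩
    exact (hj.isEmbedding.toHomeomorph.symm.trans ((Homeomorph.refl ℝ).prodCongr g)).trans
      ((Homeomorph.finTwoArrow (X := ℝ)).symm.trans
        (EuclideanSpace.equiv (Fin 2) ℝ).symm.toHomeomorph)
  · obtain ⟨g⟩ := nh_homeo he hsurj (base (e := e))
    have w := g.symm 0
    obtain ⟨U, V, hU, hV, hwU, hxV, hUV⟩ := t2_separation w.2.1
    obtain ⟨p, hp1, hp2⟩ := w.2.2 U V hU hV hwU hxV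
    exact Set.disjoint_left.1 hUV hp1 hp2

end

end Pool.Agent.V11216.HNH
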