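import Mathlib

/-!
A slowly oscillating wild function `phi` on the line: it vanishes on `(-∞,0]`, is continuous on
`(0,∞)`, takes every real value in each interval `(0,δ)`, satisfies `phi u + phi (u^3) → 0` as
`u → 0+`, and `phi (s-b) - phi (s^3-b^3)` extends continuously by `0` at every `b ≠ 0`.
-/

open Set Filter Topology

namespace Pool.Agent.V11216.HNHphi

noncomputable section

/-- `h w = √w cos (π w)` -/
def h (w : ℝ) : ℝ := Real.sqrt w * Real.cos (Real.pi * w)

/-- `H v = h (log₃ (max 1 v))` -/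
def H (v : ℝ) : ℝ := h (Real.log (max 1 v) / Real.log 3)

/-- the wild function -/
def phi (u : ℝ) : ℝ := if 0 < u then H (-Real.log u) else 0

lemma log3_pos : 0 < Real.log 3 := Real.log_pos (by norm_num)

lemma h_cont : Continuous h := by
  unfold h; fun_prop

lemma H_cont : Continuous H := by
  unfold H
  refine h_cont.comp (Continuous.div_const ?_ _)
  refine Continuous.log (by fun_prop) (fun v => ?_)
  have : (1:ℝ) ≤ max 1 v := le_max_left _ _
  linarith

lemma phi_nonpos {u : ℝ} (hu : u ≤ 0) : phi u = 0 := by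
  unfold phi; rw [if_neg (not_lt.2 hu)]

lemma phi_contAt {u : ℝ} (hu : 0 < u) : ContinuousAt phi u := by
  have h1 : ContinuousAt (fun u => H (-Real.log u)) u :=
    H_cont.continuousAt.comp (Real.continuousAt_log hu.ne').neg
  refine h1.congr ?_
  filter_upwards [lt_mem_nhds hu] with x hx
  unfold phi; rw [if_pos hx]

lemma h_diff (w w' : ℝ) (hw : 0 ≤ w) (hw' : 0 ≤ w') :
    |h w' - h w| ≤ Real.sqrt |w' - w| + Real.sqrt w * (Real.pi * |w' - w|) := by
  have e1 : h w' - h w = (Real.sqrt w' - Real.sqrt w) * Real.cos (Real.pi * w') +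
      Real.sqrt w * (Real.cos (Real.pi * w') - Real.cos (Real.pi * w)) := by
    unfold h; ring
  have e2 : |Real.sqrt w' - Real.sqrt w| ≤ Real.sqrt |w' - w| := by
    rcases le_total w w' with hle | hle
    · have h1 : Real.sqrt w ≤ Real.sqrt w' := Real.sqrt_le_sqrt hle
      rw [abs_of_nonneg (sub_nonneg.2 h1), abs_of_nonneg (sub_nonneg.2 hle)]
      have h2 : Real.sqrt w' ≤ Real.sqrt w + Real.sqrt (w' - w) := by
        rw [Real.sqrt_le_left (by positivity)]
        have := Real.sq_sqrt hw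
        have := Real.sq_sqrt (sub_nonneg.2 hle)
        nlinarith [Real.sqrt_nonneg w, Real.sqrt_nonneg (w' - w),
          mul_nonneg (Real.sqrt_nonneg w) (Real.sqrt_nonneg (w' - w))]
      linarith
    · have h1 : Real.sqrt w' ≤ Real.sqrt w := Real.sqrt_le_sqrt hle
      rw [abs_sub_comm, abs_of_nonneg (sub_nonneg.2 h1), abs_sub_comm w' w,
        abs_of_nonneg (sub_nonneg.2 hle)]
      have h2 : Real.sqrt w ≤ Real.sqrt w' + Real.sqrt (w - w') := by
        rw [Real.sqrt_le_left (by positivity)]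
        have := Real.sq_sqrt hw'
        have := Real.sq_sqrt (sub_nonneg.2 hle)
        nlinarith [Real.sqrt_nonneg w', Real.sqrt_nonneg (w - w'),
          mul_nonneg (Real.sqrt_nonneg w') (Real.sqrt_nonneg (w - w'))]
      linarith
  have e3 : |Real.cos (Real.pi * w') - Real.cos (Real.pi * w)| ≤ Real.pi * |w' - w| := by
    have := Real.abs_cos_sub_cos_le (Real.pi * w') (Real.pi * w)
    calc _ ≤ |Real.pi * w' - Real.pi * w| := this
      _ = Real.pi * |w' - w| := by
        rw [← mul_sub, abs_mul, abs_of_pos Real.pi_pos]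
  rw [e1]
  refine (abs_add_le _ _).trans ?_
  rw [abs_mul, abs_mul, abs_of_nonneg (Real.sqrt_nonneg w)]
  have e4 : |Real.cos (Real.pi * w')| ≤ 1 := Real.abs_cos_le_one _
  have e5 : |Real.sqrt w' - Real.sqrt w| * |Real.cos (Real.pi * w')| ≤ Real.sqrt |w' - w| := by
    calc _ ≤ |Real.sqrt w' - Real.sqrt w| * 1 := by gcongr
      _ ≤ _ := by rw [mul_one]; exact e2
  have e6 : Real.sqrt w * |Real.cos (Real.pi * w') - Real.cos (Real.pi * w)| ≤
      Real.sqrt w * (Real.pi * |w' - w|) := by gcongr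
  linarith

lemma log_diff {v v' C : ℝ} (hC : 0 ≤ C) (hv : 2 * C + 2 ≤ v) (hvv : |v' - v| ≤ C) :
    |Real.log v' - Real.log v| ≤ 2 * C / v := by
  have hv0 : 0 < v := by linarith
  have hv' : v / 2 ≤ v' := by
    have := (abs_le.1 hvv).1
    linarith
  have hv'0 : 0 < v' := by linarith
  have h1 : Real.log v' - Real.log v ≤ 2 * C / v := by
    rw [← Real.log_div hv'0.ne' hv0.ne']
    have := Real.log_le_sub_one_of_pos (div_pos hv'0 hv0)
    have h2 : v' / v - 1 = (v' - v) / v := by field_simp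
    have h3 : (v' - v) / v ≤ 2 * C / v := by
      gcongr
      have := (abs_le.1 hvv).2
      linarith
    linarith
  have h2 : Real.log v - Real.log v' ≤ 2 * C / v := by
    rw [← Real.log_div hv0.ne' hv'0.ne']
    have := Real.log_le_sub_one_of_pos (div_pos hv0 hv'0)
    have h2 : v / v' - 1 = (v - v') / v' := by field_simp
    have h3 : (v - v') / v' ≤ 2 * C / v := by
      rw [div_le_div_iff₀ hv'0 hv0]
      have h4 := (abs_le.1 hvv).1
      have h5 : v - v' ≤ C := by linarith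
      nlinarith
    linarith
  rw [abs_le]; constructor <;> linarith

lemma H_slow {C : ℝ} (hC : 0 ≤ C) {ε : ℝ} (hε : 0 < ε) :
    ∃ V : ℝ, ∀ v v' : ℝ, V ≤ v → |v' - v| ≤ C → |H v' - H v| < ε := by
  have hL := log3_pos
  set L := Real.log 3 with hLdef
  -- bound tends to zero
  have t1 : Tendsto (fun v : ℝ => Real.sqrt (2 * C / L * v⁻¹)) atTop (𝓝 0) := by
    have : Tendsto (fun v : ℝ => 2 * C / L * v⁻¹) atTop (𝓝 0) := by
      simpa using (tendsto_inv_atTop_zero (𝕜 := ℝ)).const_mul (2 * C / L)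
    have h2 := (Real.continuous_sqrt.tendsto 0).comp this
    rw [Real.sqrt_zero] at h2
    exact h2
  have t2 : Tendsto (fun v : ℝ => (1 + Real.log v / L) * (Real.pi * (2 * C / L) * v⁻¹)) atTop
      (𝓝 0) := by
    have a1 : Tendsto (fun v : ℝ => Real.log v * v⁻¹) atTop (𝓝 0) := by
      have := Real.isLittleO_log_id_atTop.tendsto_div_nhds_zero
      simpa [div_eq_mul_inv] using this
    have a2 : Tendsto (fun v : ℝ => (Real.pi * (2 * C / L)) * v⁻¹ +
        (Real.pi * (2 * C / L) / L) * (Real.log v * v⁻¹)) atTop (𝓝 (0 + 0)) := by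
      refine Tendsto.add ?_ ?_
      · simpa using (tendsto_inv_atTop_zero (𝕜 := ℝ)).const_mul (Real.pi * (2 * C / L))
      · simpa using a1.const_mul (Real.pi * (2 * C / L) / L)
    rw [add_zero] at a2
    refine a2.congr (fun v => ?_)
    ring
  have t3 := (t1.add t2).eventually (gt_mem_nhds (show (0:ℝ) + 0 < ε by simpa using hε))
  obtain ⟨V0, hV0⟩ := (t3.and (eventually_ge_atTop (2 * C + 2))).exists_forall_of_atTop
  refine ⟨V0, fun v v' hv hvv => ?_⟩
  obtain ⟨hb, hv2⟩ := hV0 v hv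
  have hv1 : (1:ℝ) ≤ v := by linarith
  have hv'1 : (1:ℝ) ≤ v' := by
    have := (abs_le.1 hvv).1
    linarith
  have hd := log_diff hC hv2 hvv
  have hlv : 0 ≤ Real.log v := Real.log_nonneg hv1
  have hlv' : 0 ≤ Real.log v' := Real.log_nonneg hv'1
  unfold H
  rw [max_eq_right hv1, max_eq_right hv'1]
  have hdw : |Real.log v' / L - Real.log v / L| ≤ 2 * C / L * v⁻¹ := by
    rw [← sub_div, abs_div, abs_of_pos hL]
    calc |Real.log v' - Real.log v| / L ≤ (2 * C / v) / L := by gcongr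
      _ = 2 * C / L * v⁻¹ := by field_simp
  have hmain := h_diff (Real.log v / L) (Real.log v' / L) (by positivity) (by positivity)
  have hs : Real.sqrt (Real.log v / L) ≤ 1 + Real.log v / L := by
    rw [Real.sqrt_le_left (by positivity)]
    have : 0 ≤ Real.log v / L := by positivity
    nlinarith
  have hw0 : 0 ≤ Real.log v / L := by positivity
  have b1 : Real.sqrt |Real.log v' / L - Real.log v / L| ≤ Real.sqrt (2 * C / L * v⁻¹) :=
    Real.sqrt_le_sqrt hdw
  have b2 : Real.sqrt (Real.log v / L) * (Real.pi * |Real.log v' / L - Real.log v / L|) ≤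
      (1 + Real.log v / L) * (Real.pi * (2 * C / L) * v⁻¹) := by
    have : Real.pi * |Real.log v' / L - Real.log v / L| ≤ Real.pi * (2 * C / L) * v⁻¹ := by
      calc _ ≤ Real.pi * (2 * C / L * v⁻¹) := by gcongr
        _ = _ := by ring
    gcongr
  linarith

lemma neg_log_tendsto : Tendsto (fun u : ℝ => -Real.log u) (𝓝[>] 0) atTop :=
  tendsto_neg_atBot_atTop.comp Real.tendsto_log_nhdsGT_zero

/-- `phi u + phi (u^3) → 0`. -/
lemma phi_flip : Tendsto (fun u : ℝ => phi u + phi (u ^ 3)) (𝓝[>] 0) (𝓝 0) := by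
  have hL := log3_pos
  -- for v ≥ 1:  H v + H (3 v) = (√w - √(w+1)) cos (π w)
  have key : ∀ v : ℝ, 1 ≤ v → |H v + H (3 * v)| ≤
      Real.sqrt (Real.log v / Real.log 3 + 1) - Real.sqrt (Real.log v / Real.log 3) := by
    intro v hv
    have hw : 0 ≤ Real.log v / Real.log 3 := div_nonneg (Real.log_nonneg hv) hL.le
    have e1 : Real.log (3 * v) / Real.log 3 = Real.log v / Real.log 3 + 1 := by
      rw [Real.log_mul (by norm_num) (by linarith)]
      field_simp
      ring
    unfold H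
    rw [max_eq_right hv, max_eq_right (by linarith : (1:ℝ) ≤ 3 * v), e1]
    set w := Real.log v / Real.log 3
    have e2 : Real.cos (Real.pi * (w + 1)) = - Real.cos (Real.pi * w) := by
      rw [mul_add, mul_one, Real.cos_add_pi]
    have e3 : h w + h (w + 1) = -((Real.sqrt (w + 1) - Real.sqrt w) * Real.cos (Real.pi * w)) := by
      unfold h; rw [e2]; ring
    have hs : Real.sqrt w ≤ Real.sqrt (w + 1) := Real.sqrt_le_sqrt (by linarith)
    rw [e3, abs_neg, abs_mul, abs_of_nonneg (sub_nonneg.2 hs)]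
    calc _ ≤ (Real.sqrt (w + 1) - Real.sqrt w) * 1 :=
          mul_le_mul_of_nonneg_left (Real.abs_cos_le_one _) (sub_nonneg.2 hs)
      _ = _ := mul_one _
  have hwT : Tendsto (fun u : ℝ => Real.log (-Real.log u) / Real.log 3) (𝓝[>] 0) atTop :=
    (Real.tendsto_log_atTop.comp neg_log_tendsto).atTop_div_const hL
  have hdiff : Tendsto (fun w : ℝ => Real.sqrt (w + 1) - Real.sqrt w) atTop (𝓝 0) := by
    have b1 : Tendsto (fun w : ℝ => (Real.sqrt w)⁻¹) atTop (𝓝 0) :=
      tendsto_inv_atTop_zero.comp Real.tendsto_sqrt_atTop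
    refine squeeze_zero' (Eventually.of_forall fun w => sub_nonneg.2 (Real.sqrt_le_sqrt (by linarith)))
      ?_ b1
    filter_upwards [eventually_gt_atTop 0] with w hw
    have hs : 0 < Real.sqrt w := Real.sqrt_pos.2 hw
    have h1 : Real.sqrt (w + 1) ≤ Real.sqrt w + (Real.sqrt w)⁻¹ := by
      rw [Real.sqrt_le_left (by positivity)]
      have h2 := Real.sq_sqrt hw.le
      have h3 : (Real.sqrt w + (Real.sqrt w)⁻¹) ^ 2 = w + 2 + ((Real.sqrt w)⁻¹) ^ 2 := by
        rw [add_sq, h2, mul_assoc, mul_inv_cancel₀ hs.ne']; ring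
      rw [h3]
      nlinarith [sq_nonneg ((Real.sqrt w)⁻¹)]
    linarith
  have hb := hdiff.comp hwT
  refine squeeze_zero_norm' ?_ hb
  have h1 : ∀ᶠ u : ℝ in 𝓝[>] 0, 1 ≤ -Real.log u := neg_log_tendsto.eventually_ge_atTop 1
  filter_upwards [h1, self_mem_nhdsWithin] with u hu hu0
  have hu0' : (0:ℝ) < u := hu0
  have e1 : phi u = H (-Real.log u) := by unfold phi; rw [if_pos hu0']
  have e2 : phi (u ^ 3) = H (3 * (-Real.log u)) := by
    unfold phi; rw [if_pos (by positivity), Real.log_pow]; congr 1; push_cast; ring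
  rw [e1, e2, Real.norm_eq_abs]
  exact key _ hu

/-- bi-Lipschitz slowness of `phi` -/
lemma phi_slow {b : ℝ} {l : ℝ → ℝ} (hl : ContinuousAt l b) (hlb : 0 < l b) :
    Tendsto (fun s : ℝ => phi (s - b) - phi ((s - b) * l s)) (𝓝[>] b) (𝓝 0) := by
  rw [Metric.tendsto_nhds]
  intro ε hε
  set C := |Real.log (l b)| + 1 with hC
  have hC0 : 0 ≤ C := by positivity
  obtain ⟨V, hV⟩ := H_slow hC0 hε
  have t1 : Tendsto (fun s : ℝ => s - b) (𝓝[>] b) (𝓝[>] 0) := by
    refine tendsto_nhdsWithin_iff.2 ⟨?_, ?_⟩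
    · have : Tendsto (fun s : ℝ => s - b) (𝓝 b) (𝓝 (b - b)) := by
        exact (continuous_id.sub continuous_const).tendsto b
      rw [sub_self] at this
      exact this.mono_left nhdsWithin_le_nhds
    · filter_upwards [self_mem_nhdsWithin] with s hs
      exact sub_pos.2 (mem_Ioi.1 hs)
  have t2 : ∀ᶠ s : ℝ in 𝓝[>] b, V ≤ -Real.log (s - b) :=
    t1.eventually (neg_log_tendsto.eventually_ge_atTop V)
  have t3 : ∀ᶠ s : ℝ in 𝓝[>] b, |Real.log (l s)| ≤ C := by
    have c1 : ContinuousAt (fun s => |Real.log (l s)|) b :=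
      ((Real.continuousAt_log hlb.ne').comp hl).abs
    have : ∀ᶠ s : ℝ in 𝓝 b, |Real.log (l s)| < C :=
      c1.eventually (gt_mem_nhds (by rw [hC]; simp))
    exact (this.filter_mono nhdsWithin_le_nhds).mono fun s hs => hs.le
  have t4 : ∀ᶠ s : ℝ in 𝓝[>] b, 0 < l s :=
    (hl.eventually (lt_mem_nhds hlb)).filter_mono nhdsWithin_le_nhds
  filter_upwards [t2, t3, t4, self_mem_nhdsWithin] with s h2 h3 h4 h5
  have hs : 0 < s - b := sub_pos.2 h5
  have e1 : phi (s - b) = H (-Real.log (s - b)) := by unfold phi; rw [if_pos hs]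
  have e2 : phi ((s - b) * l s) = H (-Real.log (s - b) - Real.log (l s)) := by
    unfold phi; rw [if_pos (mul_pos hs h4), Real.log_mul hs.ne' h4.ne']; congr 1; ring
  rw [Real.dist_eq, sub_zero, e1, e2, abs_sub_comm]
  refine hV _ _ h2 ?_
  have : -Real.log (s - b) - Real.log (l s) - -Real.log (s - b) = -Real.log (l s) := by ring
  rw [this, abs_neg]
  exact h3

/-- `phi` takes every value in `(0,δ)`. -/
lemma phi_surj (y : ℝ) {δ : ℝ} (hδ : 0 < δ) : ∃ u : ℝ, 0 < u ∧ u < δ ∧ phi u = y := by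
  have hL := log3_pos
  -- choose n
  obtain ⟨n1, hn1⟩ := exists_nat_ge (y ^ 2)
  -- exp (-3^(w)) < δ for w ≥ n2
  obtain ⟨n2, hn2⟩ := exists_nat_gt (-Real.log δ)
  set n := 2 * (n1 + n2 + 1) with hn
  have hcosn : ∀ m : ℕ, Real.cos (Real.pi * (2 * m : ℕ)) = 1 := by
    intro m
    have := Real.cos_nat_mul_two_pi m
    rw [← this]; congr 1; push_cast; ring
  have hcosn1 : Real.cos (Real.pi * ((n:ℝ) + 1)) = -1 := by
    rw [mul_add, mul_one, Real.cos_add_pi, hn, hcosn]
  have hcosn0 : Real.cos (Real.pi * (n:ℝ)) = 1 := by rw [hn, hcosn]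
  have hny : y ^ 2 ≤ (n:ℝ) := by
    have : (n1:ℝ) ≤ n := by rw [hn]; push_cast; nlinarith [Nat.cast_nonneg (α := ℝ) n1, Nat.cast_nonneg (α := ℝ) n2]
    linarith
  have habs : |y| ≤ Real.sqrt n := by
    rw [← Real.sqrt_sq_eq_abs]; exact Real.sqrt_le_sqrt hny
  have hn_up : y ≤ h n := by
    unfold h; rw [hcosn0, mul_one]; exact (le_abs_self y).trans habs
  have hn_dn : h ((n:ℝ) + 1) ≤ y := by
    unfold h; rw [hcosn1]
    have h1 : Real.sqrt n ≤ Real.sqrt ((n:ℝ) + 1) := Real.sqrt_le_sqrt (by linarith)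
    have h2 := neg_abs_le y
    linarith
  obtain ⟨w, ⟨hw1, hw2⟩, hwy⟩ := intermediate_value_Icc' (show (n:ℝ) ≤ n + 1 by linarith)
    h_cont.continuousOn ⟨hn_dn, hn_up⟩
  refine ⟨Real.exp (-(Real.exp (w * Real.log 3))), Real.exp_pos _, ?_, ?_⟩
  · -- < δ
    rw [← Real.lt_log_iff_exp_lt hδ]
    have h1 : (n2:ℝ) ≤ w := by
      have : (n2:ℝ) ≤ n := by rw [hn]; push_cast; nlinarith [Nat.cast_nonneg (α := ℝ) n1, Nat.cast_nonneg (α := ℝ) n2]
      linarith
    have hw0 : 0 ≤ w := (Nat.cast_nonneg n2).trans h1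
    have h2 : w ≤ Real.exp (w * Real.log 3) := by
      have h3 : (1:ℝ) ≤ Real.log 3 := by
        rw [Real.le_log_iff_exp_le (by norm_num)]
        exact Real.exp_one_lt_d9.le.trans (by norm_num)
      have := Real.add_one_le_exp (w * Real.log 3)
      nlinarith
    linarith
  · unfold phi
    rw [if_pos (Real.exp_pos _), Real.log_exp, neg_neg]
    unfold H
    have hw0 : 0 ≤ w := (Nat.cast_nonneg n).trans hw1
    have : (1:ℝ) ≤ Real.exp (w * Real.log 3) := Real.one_le_exp (by positivity)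
    rw [max_eq_right this, Real.log_exp, mul_div_assoc, div_self hL.ne', mul_one]
    exact hwy

/-- `s ↦ phi (s-b) - phi (s^3-b^3)` is continuous for `b ≠ 0`. -/
lemma D_cont {b : ℝ} (hb : b ≠ 0) : Continuous (fun s : ℝ => phi (s - b) - phi (s ^ 3 - b ^ 3)) := by
  have hmono : StrictMono (fun x : ℝ => x ^ 3) := Odd.strictMono_pow (by decide)
  rw [continuous_iff_continuousAt]
  intro s
  rcases lt_trichotomy s b with hs | hs | hs
  · have : (fun s : ℝ => phi (s - b) - phi (s ^ 3 - b ^ 3)) =ᶠ[𝓝 s] fun _ => 0 := by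
      filter_upwards [gt_mem_nhds hs] with t ht
      have h3 : t ^ 3 < b ^ 3 := hmono ht
      rw [phi_nonpos (by linarith), phi_nonpos (by linarith), sub_zero]
    exact (continuousAt_const.congr this.symm)
  · subst hs
    unfold ContinuousAt
    have h0 : phi (s - s) - phi (s ^ 3 - s ^ 3) = 0 := by simp
    simp only [h0]
    rw [← nhdsLE_sup_nhdsGT, tendsto_sup]
    constructor
    · refine tendsto_const_nhds.congr' ?_
      filter_upwards [self_mem_nhdsWithin] with t ht
      have ht' : t ≤ s := ht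
      have h3 : t ^ 3 ≤ s ^ 3 := hmono.monotone ht'
      rw [phi_nonpos (by linarith), phi_nonpos (by linarith), sub_zero]
    · have hs2 : 0 < s ^ 2 := by positivity
      have := phi_slow (b := s) (l := fun t => t ^ 2 + t * s + s ^ 2)
        (by fun_prop) (by show 0 < s ^ 2 + s * s + s ^ 2; nlinarith)
      refine this.congr (fun t => ?_)
      congr 2; ring
  · have h3 : b ^ 3 < s ^ 3 := hmono hs
    refine ContinuousAt.sub ?_ ?_
    · exact ContinuousAt.comp (f := fun s : ℝ => s - b) (phi_contAt (sub_pos.2 hs)) (by fun_prop)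
    · exact ContinuousAt.comp (f := fun s : ℝ => s ^ 3 - b ^ 3) (phi_contAt (sub_pos.2 h3))
        (by fun_prop)

/-- `s ↦ phi s + phi (s^3)` is continuous. -/
lemma E_cont : Continuous (fun s : ℝ => phi s + phi (s ^ 3)) := by
  have hmono : StrictMono (fun x : ℝ => x ^ 3) := Odd.strictMono_pow (by decide)
  rw [continuous_iff_continuousAt]
  intro s
  rcases lt_trichotomy s 0 with hs | hs | hs
  · have : (fun s : ℝ => phi s + phi (s ^ 3)) =ᶠ[𝓝 s] fun _ => 0 := by
      filter_upwards [gt_mem_nhds hs] with t ht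
      have h3 : t ^ 3 < 0 := by simpa using hmono ht
      rw [phi_nonpos ht.le, phi_nonpos h3.le, add_zero]
    exact (continuousAt_const.congr this.symm)
  · subst hs
    unfold ContinuousAt
    have h0 : (fun s : ℝ => phi s + phi (s ^ 3)) 0 = 0 := by simp [phi_nonpos le_rfl]
    rw [h0]
    have hsplit : 𝓝 (0:ℝ) = 𝓝[≤] 0 ⊔ 𝓝[>] 0 := (nhdsLE_sup_nhdsGT 0).symm
    rw [show Tendsto (fun s : ℝ => phi s + phi (s ^ 3)) (𝓝 0) (𝓝 0) ↔
      Tendsto (fun s : ℝ => phi s + phi (s ^ 3)) (𝓝[≤] 0 ⊔ 𝓝[>] 0) (𝓝 0) by rw [← hsplit],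
      tendsto_sup]
    constructor
    · refine tendsto_const_nhds.congr' ?_
      filter_upwards [self_mem_nhdsWithin] with t ht
      have ht' : t ≤ 0 := ht
      have h3 : t ^ 3 ≤ 0 := by simpa using hmono.monotone ht'
      rw [phi_nonpos ht', phi_nonpos h3, add_zero]
    · exact phi_flip
  · have h3 : (0:ℝ) < s ^ 3 := by positivity
    refine ContinuousAt.add (phi_contAt hs) ?_
    exact ContinuousAt.comp (f := fun s : ℝ => s ^ 3) (phi_contAt h3) (by fun_prop)

end

end Pool.Agent.V11216.HNHphi
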