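import Mathlib

/-!
# Filtered Lie algebras with associated graded `𝔤[t]`, `𝔤 = so₃`: the abstract induction
-/

namespace Pool.Agent.V11216.Loop

open Submodule

variable {𝔤 𝔏 : Type*} [LieRing 𝔤] [LieAlgebra ℂ 𝔤] [LieRing 𝔏] [LieAlgebra ℂ 𝔏]

/-- `F m` = elements with pole order at most `m`, `ld m` = coefficient of `λ^{-m}`. -/
structure Filt (F : ℕ → Submodule ℂ 𝔏) (ld : ℕ → 𝔏 →ₗ[ℂ] 𝔤) : Prop where
  ker : ∀ m x, x ∈ F (m + 1) → ld (m + 1) x = 0 → x ∈ F m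
  mono : ∀ m, F m ≤ F (m + 1)
  ld_zero : ∀ m x, x ∈ F m → ld (m + 1) x = 0
  bra_mem : ∀ a b x y, x ∈ F a → y ∈ F b → ⁅x, y⁆ ∈ F (a + b)
  bra_ld : ∀ a b x y, x ∈ F a → y ∈ F b → ld (a + b) ⁅x, y⁆ = ⁅ld a x, ld b y⁆
  exh : ∀ x, ∃ m, x ∈ F m

/-- a basis of so₃-type. -/
structure SoBasis (b : Module.Basis (Fin 3) ℂ 𝔤) : Prop where
  bra : ∀ i, ⁅b i, b (i + 1)⁆ = - b (i + 2)

namespace SoBasis

variable {b : Module.Basis (Fin 3) ℂ 𝔤} (hb : SoBasis b)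
include hb

theorem bra' (i : Fin 3) : ⁅b (i + 1), b i⁆ = b (i + 2) := by
  rw [← lie_skew, hb.bra, neg_neg]

theorem bra12 (i : Fin 3) : ⁅b (i + 1), b (i + 2)⁆ = - b i := by
  have := hb.bra (i + 1)
  rw [show i + 1 + 1 = i + 2 by fin_cases i <;> rfl, show i + 1 + 2 = i by fin_cases i <;> rfl]
    at this
  exact this

theorem bra20 (i : Fin 3) : ⁅b (i + 2), b i⁆ = - b (i + 1) := by
  have := hb.bra (i + 2)
  rw [show i + 2 + 1 = i by fin_cases i <;> rfl, show i + 2 + 2 = i + 1 by fin_cases i <;> rfl]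
    at this
  exact this

theorem bra02 (i : Fin 3) : ⁅b i, b (i + 2)⁆ = b (i + 1) := by
  rw [← lie_skew, hb.bra20, neg_neg]

end SoBasis

section

variable {F : ℕ → Submodule ℂ 𝔏} {ld : ℕ → 𝔏 →ₗ[ℂ] 𝔤} (hF : Filt F ld)
  {b : Module.Basis (Fin 3) ℂ 𝔤} (hb : SoBasis b)
  {E : 𝔤 →ₗ[ℂ] 𝔏}

/-- `S k j` has pole order `k + 1` and leading coefficient `b j`. -/
noncomputable def S (b : Module.Basis (Fin 3) ℂ 𝔤) (E : 𝔤 →ₗ[ℂ] 𝔏) : ℕ → Fin 3 → 𝔏
  | 0, j => E (b j)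
  | k + 1, j => - ⁅E (b (j + 1)), S b E k (j + 2)⁆

/-- the span of the `S l j`, `l < k`. -/
def V (b : Module.Basis (Fin 3) ℂ 𝔤) (E : 𝔤 →ₗ[ℂ] 𝔏) (k : ℕ) : Submodule ℂ 𝔏 :=
  span ℂ {x | ∃ l j, l < k ∧ x = S b E l j}

/-- linear extension of `S k`. -/
noncomputable def s (b : Module.Basis (Fin 3) ℂ 𝔤) (E : 𝔤 →ₗ[ℂ] 𝔏) (k : ℕ) : 𝔤 →ₗ[ℂ] 𝔏 :=
  b.constr ℂ (S b E k)

theorem s_basis (k : ℕ) (j : Fin 3) : s b E k (b j) = S b E k j := by
  unfold s
  rw [Module.Basis.constr_basis]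

theorem s_zero : s b E 0 = E := by
  apply b.ext
  intro j
  rw [s_basis]
  rfl

theorem V_mono {k l : ℕ} (h : k ≤ l) : V b E k ≤ V b E l := by
  apply span_mono
  rintro x ⟨l', j, h1, h2⟩
  exact ⟨l', j, by omega, h2⟩

theorem S_mem_V {k l : ℕ} (h : l < k) (j : Fin 3) : S b E l j ∈ V b E k :=
  subset_span ⟨l, j, h, rfl⟩

theorem s_mem_V {k l : ℕ} (h : l < k) (x : 𝔤) : s b E l x ∈ V b E k := by
  rw [← b.sum_repr x, map_sum]
  apply sum_mem
  intro j _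
  rw [map_smul, s_basis]
  exact smul_mem _ _ (S_mem_V h j)

theorem V_succ_dec {k : ℕ} {x : 𝔏} (hx : x ∈ V b E (k + 1)) :
    ∃ v ∈ V b E k, ∃ y : 𝔤, x = v + s b E k y := by
  induction hx using span_induction with
  | mem x hx =>
    obtain ⟨l, j, h1, rfl⟩ := hx
    rcases Nat.lt_succ_iff_lt_or_eq.1 h1 with h | h
    · exact ⟨_, S_mem_V h j, 0, by simp⟩
    · exact ⟨0, zero_mem _, b j, by rw [s_basis, h, zero_add]⟩
  | zero => exact ⟨0, zero_mem _, 0, by simp⟩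
  | add x y _ _ hx hy =>
    obtain ⟨v, hv, z, rfl⟩ := hx
    obtain ⟨v', hv', z', rfl⟩ := hy
    exact ⟨v + v', add_mem hv hv', z + z', by rw [map_add]; abel⟩
  | smul a x _ hx =>
    obtain ⟨v, hv, z, rfl⟩ := hx
    exact ⟨a • v, smul_mem _ _ hv, a • z, by rw [map_smul, smul_add]⟩

include hF hb

theorem S_mem_F (hE : ∀ x, E x ∈ F 1) (hE1 : ∀ x, ld 1 (E x) = x) (k : ℕ) :
    ∀ j, S b E k j ∈ F (k + 1) ∧ ld (k + 1) (S b E k j) = b j := by
  induction k with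
  | zero => exact fun j => ⟨hE _, hE1 _⟩
  | succ k ih =>
    intro j
    have h1 := hF.bra_mem 1 (k + 1) _ _ (hE (b (j + 1))) (ih (j + 2)).1
    have h2 := hF.bra_ld 1 (k + 1) _ _ (hE (b (j + 1))) (ih (j + 2)).1
    rw [show 1 + (k + 1) = k + 1 + 1 by omega] at h1 h2
    refine ⟨neg_mem h1, ?_⟩
    show ld (k + 1 + 1) (- ⁅E (b (j + 1)), S b E k (j + 2)⁆) = b j
    rw [map_neg, h2, hE1, (ih (j + 2)).2, hb.bra12, neg_neg]

omit hF hb in
theorem F_mono' (hF : Filt F ld) {k l : ℕ} (h : k ≤ l) : F k ≤ F l := by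
  induction h with
  | refl => exact le_rfl
  | step _ ih => exact ih.trans (hF.mono _)

theorem s_ld (hE : ∀ x, E x ∈ F 1) (hE1 : ∀ x, ld 1 (E x) = x) (k : ℕ) (x : 𝔤) :
    ld (k + 1) (s b E k x) = x := by
  have : (ld (k + 1)) ∘ₗ (s b E k) = LinearMap.id := by
    apply b.ext
    intro j
    rw [LinearMap.comp_apply, s_basis, (S_mem_F hF hb hE hE1 k j).2]
    rfl
  exact LinearMap.congr_fun this x

theorem V_le_F (hE : ∀ x, E x ∈ F 1) (hE1 : ∀ x, ld 1 (E x) = x) (k : ℕ) : V b E k ≤ F k := by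
  apply span_le.2
  rintro x ⟨l, j, h, rfl⟩
  exact F_mono' hF (show l + 1 ≤ k by omega) (S_mem_F hF hb hE hE1 l j).1

theorem V_inter (hE : ∀ x, E x ∈ F 1) (hE1 : ∀ x, ld 1 (E x) = x) {k : ℕ} {x : 𝔏}
    (hx : x ∈ V b E (k + 1)) (hx' : ld (k + 1) x = 0) : x ∈ V b E k := by
  obtain ⟨v, hv, y, rfl⟩ := V_succ_dec hx
  have h1 : ld (k + 1) v = 0 := hF.ld_zero k v (V_le_F hF hb hE hE1 k hv)
  rw [map_add, h1, s_ld hF hb hE hE1, zero_add] at hx'
  rw [hx', map_zero, add_zero]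
  exact hv

/-- closedness of the `V`'s under `E x`, up to level `k`. -/
def Cl (b : Module.Basis (Fin 3) ℂ 𝔤) (E : 𝔤 →ₗ[ℂ] 𝔏) (k : ℕ) : Prop :=
  ∀ x, ∀ v ∈ V b E k, ⁅E x, v⁆ ∈ V b E (k + 1)

omit hF hb in
theorem prod_mem {m : ℕ} (H : ∀ k < m, Cl b E k) (a : ℕ) : ∀ c, a + c ≤ m →
    ∀ x ∈ V b E a, ∀ y ∈ V b E c, ⁅x, y⁆ ∈ V b E (a + c) := by
  induction a with
  | zero =>
    intro c _ x hx y _
    have hx0 : x = 0 := by
      have : V b E 0 = ⊥ := by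
        unfold V
        rw [span_eq_bot]
        rintro x ⟨l, j, h, _⟩
        omega
      rw [this] at hx
      exact (mem_bot ℂ).1 hx
    rw [hx0, zero_lie]
    exact zero_mem _
  | succ a ih =>
    intro c hac x hx y hy
    induction hx using span_induction with
    | mem x hx =>
      obtain ⟨l, j, hl, rfl⟩ := hx
      rcases Nat.lt_succ_iff_lt_or_eq.1 hl with h | h
      · exact V_mono (by omega) (ih c (by omega) _ (S_mem_V h j) y hy)
      · subst h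
        rcases l with _ | l
        · show ⁅E (b j), y⁆ ∈ _
          have := H c (by omega) (b j) y hy
          rwa [show 0 + 1 + c = c + 1 by omega]
        · show ⁅- ⁅E (b (j + 1)), S b E l (j + 2)⁆, y⁆ ∈ _
          rw [neg_lie, lie_lie]
          apply neg_mem
          apply sub_mem
          · have h1 := ih c (by omega) _ (S_mem_V (b := b) (E := E) (Nat.lt_succ_self l) (j + 2))
              y hy
            have h2 := H (l + 1 + c) (by omega) (b (j + 1)) _ h1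
            rwa [show l + 1 + c + 1 = l + 1 + 1 + c by omega] at h2
          · have h1 := H c (by omega) (b (j + 1)) y hy
            have h2 := ih (c + 1) (by omega) _
              (S_mem_V (b := b) (E := E) (Nat.lt_succ_self l) (j + 2)) _ h1
            rwa [show l + 1 + (c + 1) = l + 1 + 1 + c by omega] at h2
    | zero =>
      rw [zero_lie]
      exact zero_mem _
    | add x y _ _ hx hy =>
      rw [add_lie]
      exact add_mem hx hy
    | smul r x _ hx =>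
      rw [smul_lie]
      exact smul_mem _ _ hx

end

end Pool.Agent.V11216.Loop
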