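import Pool.Agent.V11216.LoopA

/-!
# The main step of the induction and the conclusion
-/

namespace Pool.Agent.V11216.Loop

open Submodule

variable {𝔤 𝔏 : Type*} [LieRing 𝔤] [LieAlgebra ℂ 𝔤] [LieRing 𝔏] [LieAlgebra ℂ 𝔏]
  {F : ℕ → Submodule ℂ 𝔏} {ld : ℕ → 𝔏 →ₗ[ℂ] 𝔤} (hF : Filt F ld)
  {b : Module.Basis (Fin 3) ℂ 𝔤} (hb : SoBasis b)
  {E : 𝔤 →ₗ[ℂ] 𝔏} (hE : ∀ x, E x ∈ F 1) (hE1 : ∀ x, ld 1 (E x) = x)

include hF hb hE hE1

theorem rel {m : ℕ} (H : ∀ k < m, Cl b E k) {k : ℕ} (hk : k + 2 ≤ m) (x z : 𝔤) :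
    ⁅E x, s b E k z⁆ - s b E (k + 1) ⁅x, z⁆ ∈ V b E (k + 1) := by
  apply V_inter hF hb hE hE1
  · exact sub_mem (H (k + 1) (by omega) x _ (s_mem_V (Nat.lt_succ_self k) z))
      (s_mem_V (Nat.lt_succ_self (k + 1)) _)
  · have h1 : E x ∈ F 1 := hE x
    have h2 : s b E k z ∈ F (k + 1) :=
      V_le_F hF hb hE hE1 (k + 1) (s_mem_V (Nat.lt_succ_self k) z)
    have h3 := hF.bra_ld 1 (k + 1) _ _ h1 h2
    rw [show 1 + (k + 1) = k + 1 + 1 by omega, hE1, s_ld hF hb hE hE1] at h3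
    rw [map_sub, h3, s_ld hF hb hE hE1, sub_self]

theorem rel2 {m : ℕ} (H : ∀ k < m, Cl b E k) {k p : ℕ} (hk : k + p + 2 ≤ m) (x z : 𝔤) :
    ⁅s b E k x, s b E p z⁆ - s b E (k + p + 1) ⁅x, z⁆ ∈ V b E (k + p + 1) := by
  apply V_inter hF hb hE hE1
  · refine sub_mem ?_ (s_mem_V (Nat.lt_succ_self _) _)
    have := prod_mem H (k + 1) (p + 1) (by omega) _
      (s_mem_V (b := b) (E := E) (Nat.lt_succ_self k) x) _ (s_mem_V (Nat.lt_succ_self p) z)
    rwa [show k + 1 + (p + 1) = k + p + 1 + 1 by omega] at this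
  · have h1 : s b E k x ∈ F (k + 1) :=
      V_le_F hF hb hE hE1 (k + 1) (s_mem_V (Nat.lt_succ_self k) x)
    have h2 : s b E p z ∈ F (p + 1) :=
      V_le_F hF hb hE hE1 (p + 1) (s_mem_V (Nat.lt_succ_self p) z)
    have h3 := hF.bra_ld (k + 1) (p + 1) _ _ h1 h2
    rw [show k + 1 + (p + 1) = k + p + 1 + 1 by omega, s_ld hF hb hE hE1,
      s_ld hF hb hE hE1] at h3
    rw [map_sub, h3, s_ld hF hb hE hE1, sub_self]

/-- the basic identity. -/
theorem ident {m : ℕ} (H : ∀ k < m, Cl b E k) {k p : ℕ} (hk : k + p + 2 = m) (x z w : 𝔤) :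
    (V b E m).mkQ ⁅s b E (k + 1) ⁅x, z⁆, s b E p w⁆ =
      (V b E m).mkQ ⁅E x, s b E (k + p + 1) ⁅z, w⁆⁆ -
        (V b E m).mkQ ⁅s b E k z, s b E (p + 1) ⁅x, w⁆⁆ := by
  have r1 := rel hF hb hE hE1 H (k := k) (by omega) x z
  have r2 := rel2 hF hb hE hE1 H (k := k) (p := p) (by omega) z w
  have r3 := rel hF hb hE hE1 H (k := p) (by omega) x w
  set R1 := ⁅E x, s b E k z⁆ - s b E (k + 1) ⁅x, z⁆ with hR1
  set R2 := ⁅s b E k z, s b E p w⁆ - s b E (k + p + 1) ⁅z, w⁆ with hR2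
  set R3 := ⁅E x, s b E p w⁆ - s b E (p + 1) ⁅x, w⁆ with hR3
  have e1 : s b E (k + 1) ⁅x, z⁆ = ⁅E x, s b E k z⁆ - R1 := by rw [hR1]; abel
  have e2 : s b E (k + p + 1) ⁅z, w⁆ = ⁅s b E k z, s b E p w⁆ - R2 := by rw [hR2]; abel
  have e3 : s b E (p + 1) ⁅x, w⁆ = ⁅E x, s b E p w⁆ - R3 := by rw [hR3]; abel
  rw [← map_sub, ← sub_eq_zero, ← map_sub, mkQ_apply, Quotient.mk_eq_zero, e1, e2, e3]
  have m1 : ⁅R1, s b E p w⁆ ∈ V b E m := by
    have := prod_mem H (k + 1) (p + 1) (by omega) _ r1 _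
      (s_mem_V (b := b) (E := E) (Nat.lt_succ_self p) w)
    rwa [show k + 1 + (p + 1) = m by omega] at this
  have m2 : ⁅E x, R2⁆ ∈ V b E m := by
    have := H (k + p + 1) (by omega) x _ r2
    rwa [show k + p + 1 + 1 = m by omega] at this
  have m3 : ⁅s b E k z, R3⁆ ∈ V b E m := by
    have := prod_mem H (k + 1) (p + 1) (by omega) _
      (s_mem_V (b := b) (E := E) (Nat.lt_succ_self k) z) _ r3
    rwa [show k + 1 + (p + 1) = m by omega] at this
  have : ⁅⁅E x, s b E k z⁆ - R1, s b E p w⁆ - (⁅E x, ⁅s b E k z, s b E p w⁆ - R2⁆ -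
      ⁅s b E k z, ⁅E x, s b E p w⁆ - R3⁆) =
      - ⁅R1, s b E p w⁆ + ⁅E x, R2⁆ - ⁅s b E k z, R3⁆ := by
    simp only [sub_lie, lie_sub, lie_lie]
    abel
  rw [this]
  exact sub_mem (add_mem (neg_mem m1) m2) m3

omit hF hb hE hE1 in
theorem fin3 (i : Fin 3) : i + 1 + 1 = i + 2 ∧ i + 1 + 2 = i ∧ i + 2 + 1 = i ∧ i + 2 + 2 = i + 1 := by
  revert i
  decide

theorem main_step {m : ℕ} (hm : 3 ≤ m) (H : ∀ k < m, Cl b E k) : Cl b E m := by
  set π := (V b E m).mkQ with hπ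
  set β : ℕ → ℕ → Fin 3 → Fin 3 → 𝔏 ⧸ V b E m := fun k q i j => π ⁅S b E k i, S b E q j⁆ with hβ
  have key : ∀ k p, k + p + 2 = m → ∀ x z w : 𝔤,
      π ⁅s b E (k + 1) ⁅x, z⁆, s b E p w⁆ =
      π ⁅E x, s b E (k + p + 1) ⁅z, w⁆⁆ - π ⁅s b E k z, s b E (p + 1) ⁅x, w⁆⁆ :=
    fun k p hk x z w => ident hF hb hE hE1 H hk x z w
  have S0 : ∀ j, S b E 0 j = E (b j) := fun j => rfl
  have b1 : ∀ k p, k + p + 2 = m → ∀ i, β (k + 1) p (i + 2) i = - β 0 (k + p + 1) i (i + 2) := by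
    intro k p hk i
    have := key k p hk (b i) (b (i + 1)) (b i)
    rw [hb.bra, hb.bra', lie_self] at this
    simp only [map_neg, map_zero, neg_lie, lie_zero, sub_zero, s_basis] at this
    simp only [hβ, S0]
    rw [← this, neg_neg]
  have b2 : ∀ k p, k + p + 2 = m → ∀ i, β (k + 1) p (i + 2) (i + 2) =
      β 0 (k + p + 1) i i + β k (p + 1) (i + 1) (i + 1) := by
    intro k p hk i
    have := key k p hk (b i) (b (i + 1)) (b (i + 2))
    rw [hb.bra, hb.bra12, hb.bra02] at this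
    simp only [map_neg, neg_lie, lie_neg, s_basis] at this
    simp only [hβ, S0]
    rw [← neg_inj, this]
    abel
  have b3 : ∀ k p, k + p + 2 = m → ∀ i, β (k + 1) p (i + 2) (i + 2) =
      β 0 (k + p + 1) (i + 1) (i + 1) + β k (p + 1) i i := by
    intro k p hk i
    have := key k p hk (b (i + 1)) (b i) (b (i + 2))
    rw [hb.bra', hb.bra12, hb.bra02] at this
    simp only [map_neg, lie_neg, s_basis] at this
    simp only [hβ, S0]
    rw [this]
    abel
  have b4 : ∀ k p, k + p + 2 = m → ∀ i, β 0 (k + p + 1) i (i + 2) = β k (p + 1) i (i + 2) := by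
    intro k p hk i
    have := key k p hk (b i) (b i) (b (i + 1))
    rw [hb.bra, lie_self] at this
    simp only [map_zero, zero_lie, map_neg, lie_neg, s_basis] at this
    simp only [hβ, S0]
    rw [← sub_eq_zero, ← neg_eq_zero, this]
    abel
  have b5 : ∀ k p, k + p + 2 = m → ∀ i, β 0 (k + p + 1) i (i + 1) = β k (p + 1) i (i + 1) := by
    intro k p hk i
    have := key k p hk (b i) (b i) (b (i + 2))
    rw [hb.bra02, lie_self] at this
    simp only [map_zero, zero_lie, s_basis] at this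
    simp only [hβ, S0]
    rw [← sub_eq_zero, this]
  obtain ⟨n, rfl⟩ : ∃ n, m = n + 3 := ⟨m - 3, by omega⟩
  -- off-diagonal
  have off : ∀ i, β 0 (n + 2) (i + 2) i = - β 0 (n + 2) i (i + 2) := by
    intro i
    have h1 := b1 0 (n + 1) (by omega) i
    have h2 := b5 1 n (by omega) (i + 2)
    rw [(fin3 i).2.2.1] at h2
    rw [show 0 + (n + 1) + 1 = n + 2 by omega] at h1
    rw [show 1 + n + 1 = n + 2 by omega] at h2
    rw [h2]
    exact h1
  -- diagonal
  set d : Fin 3 → 𝔏 ⧸ V b E (n + 3) := fun i => β 0 (n + 2) i i with hd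
  have e1 : ∀ i, β 1 (n + 1) (i + 2) (i + 2) = d i + d (i + 1) := by
    intro i
    have := b2 0 (n + 1) (by omega) i
    rw [show 0 + (n + 1) + 1 = n + 2 by omega] at this
    exact this
  have e2 : ∀ i, d i + β 1 (n + 1) (i + 1) (i + 1) = d (i + 1) + β 1 (n + 1) i i := by
    intro i
    have h1 := b2 1 n (by omega) i
    have h2 := b3 1 n (by omega) i
    rw [show 1 + n + 1 = n + 2 by omega] at h1 h2
    exact h1.symm.trans h2
  have e3 : ∀ i, d i = d (i + 1) := by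
    intro i
    have h1 := e1 (i + 2)
    have h2 := e1 (i + 1)
    have h3 := e2 i
    rw [(fin3 i).2.2.2, (fin3 i).2.2.1] at h1
    rw [(fin3 i).2.1, (fin3 i).1] at h2
    rw [h1, h2] at h3
    have h4 : (2 : ℂ) • (d i - d (i + 1)) = 0 := by
      rw [smul_sub, two_smul, two_smul, ← sub_eq_zero.2 h3]
      abel
    have h5 := (smul_eq_zero.1 h4).resolve_left two_ne_zero
    exact sub_eq_zero.1 h5
  have e4 : ∀ i, d i = d 0 := by
    intro i
    have h0 := e3 0
    have h1 := e3 1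
    rw [show (0 : Fin 3) + 1 = 1 from rfl] at h0
    rw [show (1 : Fin 3) + 1 = 2 from rfl] at h1
    fin_cases i
    · rfl
    · exact h0.symm
    · exact (h0.trans h1).symm
  have e5 : ∀ k q, k + q = n + 2 → ∀ i, β k q i i = ((k : ℂ) + 1) • d 0 := by
    intro k
    induction k with
    | zero =>
      intro q hq i
      obtain rfl : q = n + 2 := by omega
      rw [Nat.cast_zero, zero_add, one_smul]
      exact e4 i
    | succ k ih =>
      intro q hq i
      have h1 := b2 k q (by omega) (i + 1)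
      rw [(fin3 i).2.1, (fin3 i).1] at h1
      rw [h1, ih (q + 1) (by omega), show k + q + 1 = n + 2 by omega]
      have h2 : β 0 (n + 2) (i + 1) (i + 1) = d 0 := e4 (i + 1)
      rw [h2]
      push_cast
      module
  have e6 : d 0 = 0 := by
    have h1 := e5 (n + 2) 0 (by omega) 0
    have h2 : β (n + 2) 0 0 0 = - d 0 := by
      simp only [hβ, hd]
      rw [← map_neg, lie_skew]
    rw [h2] at h1
    have h3 : ((n : ℂ) + 2 + 1 + 1) • d 0 = 0 := by
      rw [add_smul _ (1 : ℂ), one_smul]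
      push_cast at h1
      rw [← h1]
      abel
    refine (smul_eq_zero.1 h3).resolve_left ?_
    have : ((n : ℂ) + 2 + 1 + 1) = ((n + 4 : ℕ) : ℂ) := by push_cast; ring
    rw [this]
    exact Nat.cast_ne_zero.2 (by omega)
  -- conclusion
  have hπ0 : ∀ x, π x = 0 → x ∈ V b E (n + 3) := by
    intro x hx
    rwa [hπ, mkQ_apply, Quotient.mk_eq_zero] at hx
  have top1 : ∀ i, ⁅E (b i), S b E (n + 2) (i + 1)⁆ ∈ V b E (n + 3 + 1) := by
    intro i
    have h1 : S b E (n + 3) (i + 2) ∈ V b E (n + 3 + 1) := S_mem_V (Nat.lt_succ_self _) _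
    have h2 : S b E (n + 3) (i + 2) = - ⁅E (b i), S b E (n + 2) (i + 1)⁆ := by
      show - ⁅E (b (i + 2 + 1)), S b E (n + 2) (i + 2 + 2)⁆ = _
      rw [(fin3 i).2.2.1, (fin3 i).2.2.2]
    rw [h2] at h1
    exact (neg_mem_iff).1 h1
  have top0 : ∀ i, ⁅E (b i), S b E (n + 2) i⁆ ∈ V b E (n + 3 + 1) := by
    intro i
    apply V_mono (Nat.le_succ _)
    apply hπ0
    have : β 0 (n + 2) i i = 0 := (e4 i).trans e6
    exact this
  have top2 : ∀ i, ⁅E (b i), S b E (n + 2) (i + 2)⁆ ∈ V b E (n + 3 + 1) := by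
    intro i
    have h1 : ⁅E (b i), S b E (n + 2) (i + 2)⁆ + ⁅E (b (i + 2)), S b E (n + 2) i⁆ ∈
        V b E (n + 3) := by
      apply hπ0
      have h2 := off i
      simp only [hβ, S0] at h2
      rw [map_add, h2]
      abel
    have h2 := top1 (i + 2)
    rw [(fin3 i).2.2.1] at h2
    have h3 := sub_mem (V_mono (b := b) (E := E) (Nat.le_succ _) h1) h2
    rwa [add_sub_cancel_right] at h3
  have top : ∀ i j, ⁅E (b i), S b E (n + 2) j⁆ ∈ V b E (n + 3 + 1) := by
    intro i j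
    have : j = i ∨ j = i + 1 ∨ j = i + 2 := by
      revert i j
      decide
    rcases this with rfl | rfl | rfl
    · exact top0 _
    · exact top1 _
    · exact top2 _
  have topx : ∀ x j, ⁅E x, S b E (n + 2) j⁆ ∈ V b E (n + 3 + 1) := by
    intro x j
    rw [← b.sum_repr x, map_sum, sum_lie]
    apply sum_mem
    intro i _
    rw [map_smul, smul_lie]
    exact smul_mem _ _ (top i j)
  intro x v hv
  induction hv using span_induction with
  | mem v hv =>
    obtain ⟨l, j, hl, rfl⟩ := hv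
    rcases (show l < n + 2 ∨ l = n + 2 by omega) with h | rfl
    · exact V_mono (by omega) (H (n + 2) (by omega) x _ (S_mem_V h j))
    · exact topx x j
  | zero =>
    rw [lie_zero]
    exact zero_mem _
  | add v w _ _ hv hw =>
    rw [lie_add]
    exact add_mem hv hw
  | smul r v _ hv =>
    rw [lie_smul]
    exact smul_mem _ _ hv

omit hF hb hE hE1 in
theorem all_Cl_one (b : Module.Basis (Fin 3) ℂ 𝔤) (E : 𝔤 →ₗ[ℂ] 𝔏) : Cl b E 1 := by
  -- level one
  have base : ∀ i j, ⁅E (b i), E (b j)⁆ ∈ V b E 2 := by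
    intro i j
    have h1 : ∀ i, ⁅E (b i), E (b (i + 1))⁆ ∈ V b E 2 := by
      intro i
      have h1 : S b E 1 (i + 2) ∈ V b E 2 := S_mem_V (by omega) _
      have h2 : S b E 1 (i + 2) = - ⁅E (b i), E (b (i + 1))⁆ := by
        show - ⁅E (b (i + 2 + 1)), E (b (i + 2 + 2))⁆ = _
        rw [(fin3 i).2.2.1, (fin3 i).2.2.2]
      rw [h2] at h1
      exact neg_mem_iff.1 h1
    have : j = i ∨ j = i + 1 ∨ i = j + 1 := by
      revert i j
      decide
    rcases this with rfl | rfl | rfl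
    · rw [lie_self]
      exact zero_mem _
    · exact h1 _
    · rw [← lie_skew]
      exact neg_mem (h1 _)
  intro x v hv
  have hv' : ∃ y, v = E y := by
    obtain ⟨w, hw, y, rfl⟩ := V_succ_dec hv
    have : V b E 0 = ⊥ := by
      unfold V
      rw [span_eq_bot]
      rintro x ⟨l, j, h, _⟩
      omega
    rw [this] at hw
    rw [(mem_bot ℂ).1 hw, zero_add, s_zero]
    exact ⟨y, rfl⟩
  obtain ⟨y, rfl⟩ := hv'
  rw [← b.sum_repr x, map_sum, sum_lie]
  apply sum_mem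
  intro i _
  rw [map_smul, smul_lie]
  apply smul_mem
  rw [← b.sum_repr y, map_sum, lie_sum]
  apply sum_mem
  intro j _
  rw [map_smul, lie_smul]
  exact smul_mem _ _ (base i j)

theorem all_Cl (h2 : Cl b E 2) (m : ℕ) : Cl b E m := by
  induction m using Nat.strong_induction_on with
  | _ m ih =>
    rcases (show m < 2 ∨ m = 2 ∨ 3 ≤ m by omega) with h | h | h
    · rcases (show m = 0 ∨ m = 1 by omega) with rfl | rfl
      · intro x v hv
        have : V b E 0 = ⊥ := by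
          unfold V
          rw [span_eq_bot]
          rintro x ⟨l, j, h, _⟩
          omega
        rw [this] at hv
        rw [(mem_bot ℂ).1 hv, lie_zero]
        exact zero_mem _
      · exact all_Cl_one b E
    · rw [h]
      exact h2
    · exact main_step hF hb hE hE1 h ih

end Pool.Agent.V11216.Loop
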