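import Pool.Agent.V11216.LoopB

/-!
# The loop algebra `𝔤((λ)) = ℂ((λ)) ⊗ 𝔤` and factoring subalgebras
-/

-- use the natural `ℂ`-algebra structure of `LaurentSeries ℂ`
attribute [-instance] HahnSeries.powerSeriesAlgebra

namespace Pool.Agent.V11216.Loop

open Submodule TensorProduct

/-! ## abstract conclusion -/

section concl

variable {𝔤 𝔏 : Type*} [LieRing 𝔤] [LieAlgebra ℂ 𝔤] [LieRing 𝔏] [LieAlgebra ℂ 𝔏]
  {F : ℕ → Submodule ℂ 𝔏} {ld : ℕ → 𝔏 →ₗ[ℂ] 𝔤} (hF : Filt F ld)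
  {b : Module.Basis (Fin 3) ℂ 𝔤} (hb : SoBasis b)
  {E : 𝔤 →ₗ[ℂ] 𝔏} (hE : ∀ x, E x ∈ F 1) (hE1 : ∀ x, ld 1 (E x) = x)

theorem V_zero : V b E 0 = ⊥ := by
  unfold V
  rw [span_eq_bot]
  rintro x ⟨l, j, h, _⟩
  omega

theorem mem_of_Cl (hCl : ∀ m, Cl b E m) {x : 𝔏}
    (hx : x ∈ LieSubalgebra.lieSpan ℂ 𝔏 (Set.range fun i => E (b i))) : ∃ k, x ∈ V b E k := by
  -- `W` = union of the `V k`
  let W : Submodule ℂ 𝔏 :=
    { carrier := {x | ∃ k, x ∈ V b E k}
      zero_mem' := ⟨0, zero_mem _⟩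
      add_mem' := by
        rintro x y ⟨k, hx⟩ ⟨l, hy⟩
        exact ⟨max k l, add_mem (V_mono (le_max_left _ _) hx) (V_mono (le_max_right _ _) hy)⟩
      smul_mem' := by
        rintro r x ⟨k, hx⟩
        exact ⟨k, smul_mem _ _ hx⟩ }
  have hWE : ∀ i, E (b i) ∈ W := fun i => ⟨1, S_mem_V (b := b) (E := E) Nat.zero_lt_one i⟩
  let N : LieSubalgebra ℂ 𝔏 :=
    { carrier := {x | ∀ w ∈ W, ⁅x, w⁆ ∈ W}
      zero_mem' := fun w _ => by rw [zero_lie]; exact zero_mem _
      add_mem' := fun {x y} hx hy w hw => by rw [add_lie]; exact add_mem (hx w hw) (hy w hw)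
      smul_mem' := fun r x hx w hw => by rw [smul_lie]; exact smul_mem _ _ (hx w hw)
      lie_mem' := fun {x y} hx hy w hw => by
        rw [lie_lie]
        exact sub_mem (hx _ (hy w hw)) (hy _ (hx w hw)) }
  have hN : LieSubalgebra.lieSpan ℂ 𝔏 (Set.range fun i => E (b i)) ≤ N := by
    rw [LieSubalgebra.lieSpan_le]
    rintro _ ⟨i, rfl⟩ w ⟨k, hw⟩
    exact ⟨k + 1, hCl k (b i) w hw⟩
  have hSU : ∀ k j, S b E k j ∈ LieSubalgebra.lieSpan ℂ 𝔏 (Set.range fun i => E (b i)) := by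
    intro k
    induction k with
    | zero => exact fun j => LieSubalgebra.subset_lieSpan ⟨j, rfl⟩
    | succ k ih =>
      intro j
      exact neg_mem (LieSubalgebra.lie_mem _ (LieSubalgebra.subset_lieSpan ⟨j + 1, rfl⟩)
        (ih (j + 2)))
  have hVU : ∀ k, ∀ x ∈ V b E k, x ∈ LieSubalgebra.lieSpan ℂ 𝔏 (Set.range fun i => E (b i)) := by
    intro k x hx
    have : V b E k ≤ (LieSubalgebra.lieSpan ℂ 𝔏 (Set.range fun i => E (b i))).toSubmodule := by
      apply span_le.2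
      rintro _ ⟨l, j, _, rfl⟩
      exact hSU l j
    exact this hx
  let W' : LieSubalgebra ℂ 𝔏 :=
    { W with
      lie_mem' := fun {x y} hx hy => by
        obtain ⟨k, hk⟩ := hx
        exact hN (hVU k x hk) y hy }
  have hW' : LieSubalgebra.lieSpan ℂ 𝔏 (Set.range fun i => E (b i)) ≤ W' := by
    rw [LieSubalgebra.lieSpan_le]
    rintro _ ⟨i, rfl⟩
    exact hWE i
  exact hW' hx

include hF hb hE hE1

theorem isCompl_of_Cl (h2 : Cl b E 2) :
    IsCompl (F 0) (LieSubalgebra.lieSpan ℂ 𝔏 (Set.range fun i => E (b i))).toSubmodule := by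
  have hCl := all_Cl hF hb hE hE1 h2
  constructor
  · rw [disjoint_iff, eq_bot_iff]
    rintro x ⟨hx0, hxU⟩
    obtain ⟨k, hk⟩ := mem_of_Cl hCl hxU
    have : x ∈ V b E 0 := by
      clear hxU
      induction k with
      | zero => exact hk
      | succ k ih =>
        apply ih
        apply V_inter hF hb hE hE1 hk
        exact hF.ld_zero k x (F_mono' hF (Nat.zero_le k) hx0)
    rw [V_zero] at this
    exact this
  · rw [codisjoint_iff, eq_top_iff]
    rintro x -
    obtain ⟨m, hm⟩ := hF.exh x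
    induction m generalizing x with
    | zero => exact mem_sup_left hm
    | succ m ih =>
      have h1 : x - s b E m (ld (m + 1) x) ∈ F m := by
        apply hF.ker
        · exact sub_mem hm (V_le_F hF hb hE hE1 (m + 1) (s_mem_V (Nat.lt_succ_self m) _))
        · rw [map_sub, s_ld hF hb hE hE1, sub_self]
      have h2 := ih h1
      have h3 : s b E m (ld (m + 1) x) ∈
          (LieSubalgebra.lieSpan ℂ 𝔏 (Set.range fun i => E (b i))).toSubmodule := by
        have hSU : ∀ k j, S b E k j ∈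
            LieSubalgebra.lieSpan ℂ 𝔏 (Set.range fun i => E (b i)) := by
          intro k
          induction k with
          | zero => exact fun j => LieSubalgebra.subset_lieSpan ⟨j, rfl⟩
          | succ k ih =>
            intro j
            exact neg_mem (LieSubalgebra.lie_mem _ (LieSubalgebra.subset_lieSpan ⟨j + 1, rfl⟩)
              (ih (j + 2)))
        rw [← b.sum_repr (ld (m + 1) x), map_sum]
        apply sum_mem
        intro j _
        rw [map_smul, s_basis]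
        exact smul_mem _ _ (hSU m j)
      have := add_mem h2 (mem_sup_right h3)
      rwa [sub_add_cancel] at this

end concl

/-! ## the loop algebra -/

/-- The loop algebra `𝔤((λ)) = ℂ((λ)) ⊗ 𝔤` of a finite-dimensional Lie algebra `𝔤`. -/
def LoopAlg (𝔤 : Type*) [LieRing 𝔤] [LieAlgebra ℂ 𝔤] : Type _ := LaurentSeries ℂ ⊗[ℂ] 𝔤

noncomputable instance (𝔤 : Type*) [LieRing 𝔤] [LieAlgebra ℂ 𝔤] : LieRing (LoopAlg 𝔤) :=
  @LieAlgebra.ExtendScalars.instLieRing ℂ (LaurentSeries ℂ) 𝔤 Complex.commRing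
    HahnSeries.instCommRing HahnSeries.instAlgebra _ _

noncomputable instance (𝔤 : Type*) [LieRing 𝔤] [LieAlgebra ℂ 𝔤] : LieAlgebra ℂ (LoopAlg 𝔤) :=
  @LieAlgebra.ExtendScalars.instBaseLieAlgebra ℂ (LaurentSeries ℂ) 𝔤 Complex.commRing
    HahnSeries.instCommRing HahnSeries.instAlgebra _ _

/-- coefficient of `λ^n` of a Laurent series, as a linear map. -/
noncomputable def lcoeff (n : ℤ) : LaurentSeries ℂ →ₗ[ℂ] ℂ where
  toFun f := f.coeff n
  map_add' _ _ := rfl
  map_smul' _ _ := rfl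

section loop

variable {𝔤 : Type*} [LieRing 𝔤] [LieAlgebra ℂ 𝔤]

/-- the element `f ⊗ x = f x` of the loop algebra. -/
noncomputable def tm (f : LaurentSeries ℂ) (x : 𝔤) : LoopAlg 𝔤 := f ⊗ₜ[ℂ] x

/-- the coefficient of `λ^n`, on the tensor product. -/
noncomputable def cf0 (𝔤 : Type*) [LieRing 𝔤] [LieAlgebra ℂ 𝔤] (n : ℤ) :
    (LaurentSeries ℂ ⊗[ℂ] 𝔤) →ₗ[ℂ] 𝔤 :=
  TensorProduct.lift ((LinearMap.lsmul ℂ 𝔤) ∘ₗ lcoeff n)

/-- the coefficient of `λ^n` of an element of the loop algebra. -/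
noncomputable def cf (n : ℤ) : LoopAlg 𝔤 →ₗ[ℂ] 𝔤 where
  toFun X := cf0 𝔤 n X
  map_add' X Y := map_add (cf0 𝔤 n) X Y
  map_smul' c X := map_smul (cf0 𝔤 n) c X

theorem cf_tm (n : ℤ) (f : LaurentSeries ℂ) (x : 𝔤) : cf n (tm f x) = f.coeff n • x := rfl

theorem lie_tm (f g : LaurentSeries ℂ) (x y : 𝔤) : ⁅tm f x, tm g y⁆ = tm (f * g) ⁅x, y⁆ := rfl

/-- elements with pole of order at most `m`. -/
def Pole (𝔤 : Type*) [LieRing 𝔤] [LieAlgebra ℂ 𝔤] (m : ℕ) : Submodule ℂ (LoopAlg 𝔤) where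
  carrier := {X | ∀ n : ℤ, n < -(m : ℤ) → cf n X = 0}
  zero_mem' := fun n _ => map_zero _
  add_mem' := fun {x y} hx hy n hn => by rw [map_add, hx n hn, hy n hn, add_zero]
  smul_mem' := fun r x hx n hn => by rw [map_smul, hx n hn, smul_zero]

/-- the Taylor series `𝔤[[λ]]`: elements without negative powers of `λ`. -/
def Taylor (𝔤 : Type*) [LieRing 𝔤] [LieAlgebra ℂ 𝔤] : Submodule ℂ (LoopAlg 𝔤) where
  carrier := {X | ∀ n : ℤ, n < 0 → cf n X = 0}
  zero_mem' := fun n _ => map_zero _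
  add_mem' := fun {x y} hx hy n hn => by rw [map_add, hx n hn, hy n hn, add_zero]
  smul_mem' := fun r x hx n hn => by rw [map_smul, hx n hn, smul_zero]

theorem Pole_zero : Pole 𝔤 0 = Taylor 𝔤 := by
  ext X
  show (∀ n : ℤ, n < -((0 : ℕ) : ℤ) → cf n X = 0) ↔ (∀ n : ℤ, n < 0 → cf n X = 0)
  simp

theorem hahn_zero {f g : LaurentSeries ℂ} {p q n : ℤ} (hf : ∀ i < p, f.coeff i = 0)
    (hg : ∀ j < q, g.coeff j = 0) (hn : n < p + q) : (f * g).coeff n = 0 := by
  rw [HahnSeries.coeff_mul]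
  apply Finset.sum_eq_zero
  rintro ⟨i, j⟩ hij
  simp only [Finset.mem_antidiagonal, HahnSeries.mem_support] at hij
  obtain ⟨h1, h2, h3⟩ := hij
  have h4 : p ≤ i := by
    by_contra h
    exact h1 (hf i (by omega))
  have h5 : q ≤ j := by
    by_contra h
    exact h2 (hg j (by omega))
  omega

theorem hahn_lead {f g : LaurentSeries ℂ} {p q : ℤ} (hf : ∀ i < p, f.coeff i = 0)
    (hg : ∀ j < q, g.coeff j = 0) : (f * g).coeff (p + q) = f.coeff p * g.coeff q := by
  rw [HahnSeries.coeff_mul]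
  by_cases h : f.coeff p = 0 ∨ g.coeff q = 0
  · rw [mul_eq_zero.2 h]
    apply Finset.sum_eq_zero
    rintro ⟨i, j⟩ hij
    simp only [Finset.mem_antidiagonal, HahnSeries.mem_support] at hij
    obtain ⟨h1, h2, h3⟩ := hij
    have h4 : p ≤ i := by
      by_contra h
      exact h1 (hf i (by omega))
    have h5 : q ≤ j := by
      by_contra h
      exact h2 (hg j (by omega))
    have h6 : i = p := by omega
    have h7 : j = q := by omega
    subst h6
    subst h7
    exact (h.elim h1 h2).elim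
  · push Not at h
    rw [Finset.sum_eq_single (p, q)]
    · rintro ⟨i, j⟩ hij hne
      simp only [Finset.mem_antidiagonal, HahnSeries.mem_support] at hij
      obtain ⟨h1, h2, h3⟩ := hij
      exfalso
      have h4 : p ≤ i := by
        by_contra h
        exact h1 (hf i (by omega))
      have h5 : q ≤ j := by
        by_contra h
        exact h2 (hg j (by omega))
      apply hne
      rw [Prod.mk.injEq]
      omega
    · intro h'
      exfalso
      apply h'
      simp only [Finset.mem_antidiagonal, HahnSeries.mem_support]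
      exact ⟨h.1, h.2, trivial⟩

variable {ι : Type*} [Fintype ι] (bb : Module.Basis ι ℂ 𝔤)

theorem exists_repr (X : LoopAlg 𝔤) : ∃ r : ι → LaurentSeries ℂ, X = ∑ i, tm (r i) (bb i) := by
  have key : ∀ Y : LaurentSeries ℂ ⊗[ℂ] 𝔤, ∃ r : ι → LaurentSeries ℂ,
      Y = ∑ i, r i ⊗ₜ[ℂ] bb i := by
    intro Y
    refine ⟨fun i => (bb.baseChange (LaurentSeries ℂ)).repr Y i, ?_⟩
    conv_lhs => rw [← (bb.baseChange (LaurentSeries ℂ)).sum_repr Y]
    apply Finset.sum_congr rfl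
    intro i _
    rw [Module.Basis.baseChange_apply, TensorProduct.smul_tmul', smul_eq_mul, mul_one]
  exact key X

theorem cf_repr (r : ι → LaurentSeries ℂ) (n : ℤ) :
    cf n (∑ i, tm (r i) (bb i)) = ∑ i, (r i).coeff n • bb i := by
  rw [map_sum]
  rfl

theorem coeff_zero_of_cf {r : ι → LaurentSeries ℂ} {n : ℤ}
    (h : cf n (∑ i, tm (r i) (bb i)) = 0) (i : ι) : (r i).coeff n = 0 := by
  rw [cf_repr] at h
  exact (Fintype.linearIndependent_iff.1 bb.linearIndependent) _ h i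

theorem lie_sum_tmul (r t : ι → LaurentSeries ℂ) :
    ⁅∑ i, tm (r i) (bb i), ∑ i, tm (t i) (bb i)⁆ = ∑ i, ∑ j, tm (r i * t j) ⁅bb i, bb j⁆ := by
  rw [sum_lie_sum]
  rfl

include bb in
theorem filt : Filt (𝔤 := 𝔤) (𝔏 := LoopAlg 𝔤) (Pole 𝔤) (fun m => cf (-(m : ℤ))) where
  ker := by
    intro m x hx h n hn
    rcases (show n < -((m + 1 : ℕ) : ℤ) ∨ n = -((m + 1 : ℕ) : ℤ) by push_cast; omega) with h1 | h1
    · exact hx n h1
    · rw [h1]
      exact h
  mono := fun m x hx n hn => hx n (by push_cast at hn; omega)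
  ld_zero := fun m x hx => hx _ (by push_cast; omega)
  bra_mem := by
    intro a c X Y hX hY n hn
    obtain ⟨r, rfl⟩ := exists_repr bb X
    obtain ⟨t, rfl⟩ := exists_repr bb Y
    rw [lie_sum_tmul, map_sum]
    apply Finset.sum_eq_zero
    intro i _
    rw [map_sum]
    apply Finset.sum_eq_zero
    intro j _
    rw [cf_tm]
    rw [hahn_zero (p := -(a : ℤ)) (q := -(c : ℤ)) (fun k hk => coeff_zero_of_cf bb (hX k hk) i)
      (fun k hk => coeff_zero_of_cf bb (hY k hk) j) (by push_cast at hn; omega), zero_smul]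
  bra_ld := by
    intro a c X Y hX hY
    obtain ⟨r, rfl⟩ := exists_repr bb X
    obtain ⟨t, rfl⟩ := exists_repr bb Y
    show cf (-((a + c : ℕ) : ℤ)) _ = ⁅cf (-(a : ℤ)) _, cf (-(c : ℤ)) _⁆
    rw [cf_repr, cf_repr, lie_sum_tmul, sum_lie_sum, map_sum]
    apply Finset.sum_congr rfl
    intro i _
    rw [map_sum]
    apply Finset.sum_congr rfl
    intro j _
    rw [cf_tm]
    have := hahn_lead (p := -(a : ℤ)) (q := -(c : ℤ))
      (fun k hk => coeff_zero_of_cf bb (hX k hk) i) (fun k hk => coeff_zero_of_cf bb (hY k hk) j)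
    rw [show -((a + c : ℕ) : ℤ) = -(a : ℤ) + -(c : ℤ) by push_cast; ring, this, smul_lie, lie_smul,
      smul_smul]
  exh := by
    intro X
    obtain ⟨r, rfl⟩ := exists_repr bb X
    have h1 : ∀ i, ∃ m : ℕ, ∀ n : ℤ, n < -(m : ℤ) → (r i).coeff n = 0 := by
      intro i
      refine ⟨(-(r i).order).toNat, fun n hn => ?_⟩
      apply HahnSeries.coeff_eq_zero_of_lt_order
      omega
    choose m hm using h1
    refine ⟨∑ i, m i, fun n hn => ?_⟩
    rw [cf_repr]
    apply Finset.sum_eq_zero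
    intro i _
    rw [hm i n, zero_smul]
    have : m i ≤ ∑ i, m i := Finset.single_le_sum (fun _ _ => Nat.zero_le _) (Finset.mem_univ i)
    omega

end loop

end Pool.Agent.V11216.Loop
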