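import Pool.Agent.V11216.LoopC

-- use the natural `ℂ`-algebra structure of `LaurentSeries ℂ`
attribute [-instance] HahnSeries.powerSeriesAlgebra

/-!
# The cubic relations (R)
-/

namespace Pool.Agent.V11216.Loop

open Submodule

section rel

variable {𝔏 : Type*} [LieRing 𝔏] [LieAlgebra ℂ 𝔏]

/-- `K = ([E₃,E₁], [E₁,E₂], [E₂,E₃])ᵀ`. -/
def K (E : Fin 3 → 𝔏) : Fin 3 → 𝔏 := ![⁅E 2, E 0⁆, ⁅E 0, E 1⁆, ⁅E 1, E 2⁆]

/-- `F = (E₂, E₃, E₁)ᵀ`. -/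
def F (E : Fin 3 → 𝔏) : Fin 3 → 𝔏 := ![E 1, E 2, E 0]

/-- the left hand side of the first system of (R). -/
def lhs1 (E : Fin 3 → 𝔏) : Fin 3 → 𝔏 :=
  ![⁅E 0, ⁅E 1, E 2⁆⁆, ⁅E 2, ⁅E 0, E 1⁆⁆, ⁅E 1, ⁅E 2, E 0⁆⁆]

/-- the left hand side of the second system of (R). -/
def lhs2 (E : Fin 3 → 𝔏) : Fin 3 → 𝔏 :=
  ![⁅E 2, ⁅E 1, E 2⁆⁆ + ⁅E 0, ⁅E 0, E 1⁆⁆,
    ⁅E 0, ⁅E 2, E 0⁆⁆ + ⁅E 1, ⁅E 1, E 2⁆⁆,
    ⁅E 1, ⁅E 0, E 1⁆⁆ + ⁅E 2, ⁅E 2, E 0⁆⁆]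

/-- the relations (R). -/
def RelR (E : Fin 3 → 𝔏) : Prop :=
  ∃ A B C D : Matrix (Fin 3) (Fin 3) ℂ,
    (∀ i, lhs1 E i = ∑ j, A i j • K E j + ∑ j, B i j • F E j) ∧
    (∀ i, lhs2 E i = ∑ j, C i j • K E j + ∑ j, D i j • F E j)

variable {𝔤 : Type*} [LieRing 𝔤] [LieAlgebra ℂ 𝔤] (b : Module.Basis (Fin 3) ℂ 𝔤)
  (L : 𝔤 →ₗ[ℂ] 𝔏)

theorem Cl_two_of {E : Fin 3 → 𝔏} (hLb : ∀ i, L (b i) = E i)
    (hd : ∀ i, ⁅E i, ⁅E (i + 1), E (i + 2)⁆⁆ ∈ V b L 2)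
    (ho : ∀ i, ⁅E i, ⁅E i, E (i + 1)⁆⁆ + ⁅E (i + 2), ⁅E (i + 1), E (i + 2)⁆⁆ ∈ V b L 2) :
    Cl b L 2 := by
  have hS1 : ∀ j, S b L 1 j = - ⁅E (j + 1), E (j + 2)⁆ := fun j => by
    show - ⁅L (b (j + 1)), L (b (j + 2))⁆ = _
    rw [hLb, hLb]
  have t1 : ∀ i, ⁅L (b i), S b L 1 (i + 1)⁆ ∈ V b L 3 := by
    intro i
    have h3 : S b L 2 (i + 2) ∈ V b L 3 := S_mem_V (by omega) _
    have h4 : S b L 2 (i + 2) = - ⁅L (b i), S b L 1 (i + 1)⁆ := by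
      show - ⁅L (b (i + 2 + 1)), S b L 1 (i + 2 + 2)⁆ = _
      rw [(fin3 i).2.2.1, (fin3 i).2.2.2]
    rw [h4] at h3
    exact neg_mem_iff.1 h3
  have t0 : ∀ i, ⁅L (b i), S b L 1 i⁆ ∈ V b L 3 := by
    intro i
    apply V_mono (show 2 ≤ 3 by omega)
    rw [hS1, hLb, lie_neg]
    exact neg_mem (hd i)
  have t2 : ∀ i, ⁅L (b i), S b L 1 (i + 2)⁆ ∈ V b L 3 := by
    intro i
    have h3 := V_mono (b := b) (E := L) (show 2 ≤ 3 by omega) (ho i)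
    have h4 := t1 (i + 2)
    rw [(fin3 i).2.2.1] at h4
    have h5 : ⁅L (b i), S b L 1 (i + 2)⁆ =
        -(⁅E i, ⁅E i, E (i + 1)⁆⁆ + ⁅E (i + 2), ⁅E (i + 1), E (i + 2)⁆⁆) -
          ⁅L (b (i + 2)), S b L 1 i⁆ := by
      rw [hS1, hS1, hLb, hLb, (fin3 i).2.2.1, (fin3 i).2.2.2, lie_neg, lie_neg]
      abel
    rw [h5]
    exact sub_mem (neg_mem h3) h4
  have tt : ∀ i j, ⁅L (b i), S b L 1 j⁆ ∈ V b L 3 := by
    intro i j
    have : j = i ∨ j = i + 1 ∨ j = i + 2 := by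
      revert i j
      decide
    rcases this with rfl | rfl | rfl
    · exact t0 _
    · exact t1 _
    · exact t2 _
  have hbase : Cl b L 1 := all_Cl_one b L
  intro x v hv
  obtain ⟨w, hw, y, rfl⟩ := V_succ_dec hv
  rw [lie_add]
  refine add_mem (V_mono (by omega) (hbase x w hw)) ?_
  rw [← b.sum_repr x, map_sum, sum_lie]
  apply sum_mem
  intro i _
  rw [map_smul, smul_lie]
  apply smul_mem
  rw [← b.sum_repr y, map_sum, lie_sum]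
  apply sum_mem
  intro j _
  rw [map_smul, lie_smul, s_basis]
  exact smul_mem _ _ (tt i j)

theorem E_mem_V {E : Fin 3 → 𝔏} (hLb : ∀ i, L (b i) = E i) (i : Fin 3) : E i ∈ V b L 2 := by
  rw [← hLb]
  exact S_mem_V (b := b) (E := L) (l := 0) (by omega) i

theorem K_mem_V {E : Fin 3 → 𝔏} (hLb : ∀ i, L (b i) = E i) (j : Fin 3) :
    ⁅E (j + 1), E (j + 2)⁆ ∈ V b L 2 := by
  have h3 : S b L 1 j ∈ V b L 2 := S_mem_V (by omega) j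
  have hS1 : S b L 1 j = - ⁅E (j + 1), E (j + 2)⁆ := by
    show - ⁅L (b (j + 1)), L (b (j + 2))⁆ = _
    rw [hLb, hLb]
  rw [hS1] at h3
  exact neg_mem_iff.1 h3

theorem Cl_two_of_RelR {E : Fin 3 → 𝔏} (hLb : ∀ i, L (b i) = E i) (hR : RelR E) :
    Cl b L 2 := by
  obtain ⟨A, B, C, D, h1, h2⟩ := hR
  have hKV' : ∀ j, K E j ∈ V b L 2 := by
    intro j
    fin_cases j
    · exact K_mem_V b L hLb 1
    · exact K_mem_V b L hLb 2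
    · exact K_mem_V b L hLb 0
  have hFV' : ∀ j, F E j ∈ V b L 2 := by
    intro j
    fin_cases j
    · exact E_mem_V b L hLb 1
    · exact E_mem_V b L hLb 2
    · exact E_mem_V b L hLb 0
  have hl1 : ∀ i, lhs1 E i ∈ V b L 2 := fun i => by
    rw [h1]
    exact add_mem (sum_mem fun j _ => smul_mem _ _ (hKV' j))
      (sum_mem fun j _ => smul_mem _ _ (hFV' j))
  have hl2 : ∀ i, lhs2 E i ∈ V b L 2 := fun i => by
    rw [h2]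
    exact add_mem (sum_mem fun j _ => smul_mem _ _ (hKV' j))
      (sum_mem fun j _ => smul_mem _ _ (hFV' j))
  apply Cl_two_of b L hLb
  · intro i
    fin_cases i
    · exact hl1 0
    · exact hl1 2
    · exact hl1 1
  · intro i
    rw [add_comm]
    fin_cases i
    · exact hl2 0
    · exact hl2 1
    · exact hl2 2

end rel

section final

open TensorProduct

variable {𝔤 : Type*} [LieRing 𝔤] [LieAlgebra ℂ 𝔤]

/-- `g λ⁻¹` as an element of `𝔤((λ))`. -/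
noncomputable def overLambda (g : 𝔤) : LoopAlg 𝔤 :=
  tm (HahnSeries.single (-1 : ℤ) (1 : ℂ) : LaurentSeries ℂ) g

/-- A Lie subalgebra `U` of `𝔤((λ))` is factoring if `𝔤((λ)) = 𝔤[[λ]] ⊕ U` as complex
vector spaces. -/
def Factoring (U : LieSubalgebra ℂ (LoopAlg 𝔤)) : Prop := IsCompl (Taylor 𝔤) U.toSubmodule

theorem cf_E {g : 𝔤} {X : LoopAlg 𝔤} (hX : X - overLambda g ∈ Taylor 𝔤) (n : ℤ) (hn : n < 0) :
    cf n X = (HahnSeries.single (-1 : ℤ) (1 : ℂ) : LaurentSeries ℂ).coeff n • g := by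
  have h1 := hX n hn
  rw [map_sub, sub_eq_zero] at h1
  rw [h1]
  rfl

theorem cf_L {ι : Type*} (b : Module.Basis ι ℂ 𝔤) (E : ι → LoopAlg 𝔤)
    (hE : ∀ i, E i - overLambda (b i) ∈ Taylor 𝔤) (L : 𝔤 →ₗ[ℂ] LoopAlg 𝔤)
    (hLb : ∀ i, L (b i) = E i) (n : ℤ) (hn : n < 0) (x : 𝔤) :
    cf n (L x) = (HahnSeries.single (-1 : ℤ) (1 : ℂ) : LaurentSeries ℂ).coeff n • x := by
  generalize hc : (HahnSeries.single (-1 : ℤ) (1 : ℂ) : LaurentSeries ℂ).coeff n = c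
  have : (cf n) ∘ₗ L = c • (LinearMap.id : 𝔤 →ₗ[ℂ] 𝔤) := b.ext fun i => by
    rw [LinearMap.comp_apply, hLb, cf_E (hE i) n hn, hc]
    rfl
  exact LinearMap.congr_fun this x

theorem exists_L {ι : Type*} (b : Module.Basis ι ℂ 𝔤) (E : ι → LoopAlg 𝔤)
    (hE : ∀ i, E i - overLambda (b i) ∈ Taylor 𝔤) :
    ∃ L : 𝔤 →ₗ[ℂ] LoopAlg 𝔤, (∀ i, L (b i) = E i) ∧ (∀ x, L x ∈ Pole 𝔤 1) ∧
      (∀ x, cf (-((1 : ℕ) : ℤ)) (L x) = x) := by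
  refine ⟨b.constr ℂ E, fun i => Module.Basis.constr_basis _ _ _ _, ?_, ?_⟩
  · intro x n hn
    rw [cf_L b E hE _ (fun i => Module.Basis.constr_basis _ _ _ _) n (by omega),
      HahnSeries.coeff_single_of_ne (by push_cast at hn; omega), zero_smul]
  · intro x
    rw [cf_L b E hE _ (fun i => Module.Basis.constr_basis _ _ _ _) _ (by norm_num)]
    have : (HahnSeries.single (-1 : ℤ) (1 : ℂ) : LaurentSeries ℂ).coeff (-((1 : ℕ) : ℤ)) = 1 :=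
      HahnSeries.coeff_single_same _ _
    rw [this, one_smul]

theorem factoring_of_RelR (b : Module.Basis (Fin 3) ℂ 𝔤) (hb : SoBasis b) (E : Fin 3 → LoopAlg 𝔤)
    (hE : ∀ i, E i - overLambda (b i) ∈ Taylor 𝔤) (hR : RelR E) :
    Factoring (LieSubalgebra.lieSpan ℂ (LoopAlg 𝔤) (Set.range E)) := by
  obtain ⟨L, hLb, hL1, hL2⟩ := exists_L b E hE
  have hCl : Cl b L 2 := Cl_two_of_RelR b L hLb hR
  have := isCompl_of_Cl (filt b) hb hL1 hL2 hCl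
  rw [Pole_zero] at this
  have hfun : (fun i => L (b i)) = E := funext hLb
  rw [hfun] at this
  exact this

end final

end Pool.Agent.V11216.Loop
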