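import Mathlib

/-!
A core compact `T₀` space with an irreducible closed subset that is not a Rudin set.
-/

set_option autoImplicit false

namespace Pool.Agent.V11216.NonRudin

open Set Topology Filter

/-- The points: pairs `(p, s)` with `s ∈ Xs p`. -/
@[ext] structure Pt (B : Type) (Xs : B → Set ℝ) : Type where
  p : B
  s : ℝ
  mem : s ∈ Xs p

variable {B : Type} [ConditionallyCompleteLinearOrderBot B] [TopologicalSpace B] [OrderTopology B]
  {Xs : B → Set ℝ}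

/-- A basic open set contains all points above level `t` outside a closed bounded set `C`. -/
instance : TopologicalSpace (Pt B Xs) where
  IsOpen U := ∀ x ∈ U, ∃ C : Set B, IsClosed C ∧ BddAbove C ∧ x.p ∉ C ∧ ∃ t < x.s,
    ∀ y : Pt B Xs, y.p ∉ C → t < y.s → y ∈ U
  isOpen_univ := fun x _ => ⟨∅, isClosed_empty, bddAbove_empty, notMem_empty _, x.s - 1, by linarith,
    fun _ _ _ => trivial⟩
  isOpen_inter := by
    rintro U V hU hV x ⟨hxU, hxV⟩
    obtain ⟨C, hC, hCb, hxC, t, ht, h⟩ := hU x hxU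
    obtain ⟨C', hC', hCb', hxC', t', ht', h'⟩ := hV x hxV
    refine ⟨C ∪ C', hC.union hC', hCb.union hCb', fun h0 => h0.elim hxC hxC', max t t',
      max_lt ht ht', fun y hy hys => ⟨h y (fun h0 => hy (Or.inl h0)) ((le_max_left _ _).trans_lt hys),
        h' y (fun h0 => hy (Or.inr h0)) ((le_max_right _ _).trans_lt hys)⟩⟩
  isOpen_sUnion := by
    rintro S hS x ⟨U, hU, hx⟩
    obtain ⟨C, hC, hCb, hxC, t, ht, h⟩ := hS U hU x hx
    exact ⟨C, hC, hCb, hxC, t, ht, fun y hy hys => ⟨U, hU, h y hy hys⟩⟩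

theorem isOpen_def {U : Set (Pt B Xs)} : IsOpen U ↔ ∀ x ∈ U, ∃ C : Set B, IsClosed C ∧ BddAbove C ∧
    x.p ∉ C ∧ ∃ t < x.s, ∀ y : Pt B Xs, y.p ∉ C → t < y.s → y ∈ U := Iff.rfl

/-- basic open sets -/
theorem isOpen_level (t : ℝ) : IsOpen {y : Pt B Xs | t < y.s} := fun _ hx =>
  ⟨∅, isClosed_empty, bddAbove_empty, notMem_empty _, t, hx, fun _ _ h => h⟩

theorem isOpen_out {C : Set B} (hC : IsClosed C) (hCb : BddAbove C) :
    IsOpen {y : Pt B Xs | y.p ∉ C} := fun x hx =>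
  ⟨C, hC, hCb, hx, x.s - 1, by linarith, fun _ h _ => h⟩

theorem isOpen_or {C : Set B} (hC : IsClosed C) (hCb : BddAbove C) (t : ℝ) :
    IsOpen {y : Pt B Xs | y.p ∉ C ∨ t < y.s} := (isOpen_out hC hCb).union (isOpen_level t)

theorem isOpen_and {C : Set B} (hC : IsClosed C) (hCb : BddAbove C) (t : ℝ) :
    IsOpen {y : Pt B Xs | y.p ∉ C ∧ t < y.s} := (isOpen_out hC hCb).inter (isOpen_level t)

instance : T0Space (Pt B Xs) := by
  rw [t0Space_iff_inseparable]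
  intro x y hxy
  rw [inseparable_iff_forall_isOpen] at hxy
  have hp : x.p = y.p := by
    by_contra h
    have := hxy _ (isOpen_out (Xs := Xs) (isClosed_singleton (x := y.p)) (bddAbove_singleton))
    exact this.1 h rfl
  have hs : x.s = y.s := by
    rcases lt_trichotomy x.s y.s with h | h | h
    · exact absurd (show x.s < x.s from (hxy _ (isOpen_level x.s)).2 h) (lt_irrefl _)
    · exact h
    · exact absurd (show y.s < y.s from (hxy _ (isOpen_level y.s)).1 h) (lt_irrefl _)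
  exact Pt.ext hp hs

/-- `Pt` is core compact. -/
theorem coreCompact (hd : ∀ p t t', t < t' → ∃ r ∈ Xs p, t < r ∧ r < t') (hmax : ∀ b : B, ∃ b', b < b')
    (U : Set (Pt B Xs)) (hU : IsOpen U) (x : Pt B Xs) (hx : x ∈ U) :
    ∃ V : Set (Pt B Xs), IsOpen V ∧ x ∈ V ∧ V ⊆ U ∧
        ∀ 𝒰 : Set (Set (Pt B Xs)), (∀ W ∈ 𝒰, IsOpen W) → U ⊆ ⋃₀ 𝒰 →
          ∃ 𝒱 ⊆ 𝒰, 𝒱.Finite ∧ V ⊆ ⋃₀ 𝒱 := by
  classical
  obtain ⟨C, hC, hCb, hxC, t, ht, hCU⟩ := hU x hx
  -- a closed neighbourhood `O` of `x.p` missing `C`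
  obtain ⟨O, ⟨hO, hOcl⟩, hOC⟩ := (closed_nhds_basis x.p).mem_iff.1 (hC.isOpen_compl.mem_nhds hxC)
  obtain ⟨β, hβ⟩ := hCb
  obtain ⟨β', hβ'⟩ := hmax β
  -- `C' = Iic β' \ interior O`
  obtain ⟨t₁, ht₁, ht₁'⟩ := exists_between ht
  have hC'cl : IsClosed (Iic β' ∩ (interior O)ᶜ) := isClosed_Iic.inter isOpen_interior.isClosed_compl
  have hC'b : BddAbove (Iic β' ∩ (interior O)ᶜ) := bddAbove_Iic.mono inter_subset_left
  have hxC' : x.p ∉ Iic β' ∩ (interior O)ᶜ := fun h => h.2 (mem_interior_iff_mem_nhds.2 hO)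
  have hCC' : C ⊆ Iio β' ∩ Oᶜ := fun c hc => ⟨(hβ hc).trans_lt hβ', fun h => hOC h hc⟩
  refine ⟨{y | y.p ∉ Iic β' ∩ (interior O)ᶜ ∧ t₁ < y.s}, isOpen_and hC'cl hC'b t₁, ⟨hxC', ht₁'⟩,
    fun y hy => hCU y (fun h => hy.1 ⟨(hCC' h).1.le, fun h' => (hCC' h).2 (interior_subset h')⟩)
      (ht₁.trans hy.2), fun 𝒰 h𝒰 hcov => ?_⟩
  -- the relevant closed set of indices
  set D : Set B := (Iio β' ∩ Oᶜ)ᶜ with hD
  have hDcl : IsClosed D := (isOpen_Iio.inter hOcl.isOpen_compl).isClosed_compl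
  have hDy : ∀ q, q ∉ Iic β' ∩ (interior O)ᶜ → q ∈ D := by
    intro q hq h
    exact hq ⟨h.1.le, fun h' => h.2 (interior_subset h')⟩
  have key : ∀ q ∈ D, ∃ W ∈ 𝒰, ∃ C₁ : Set B, IsClosed C₁ ∧ BddAbove C₁ ∧ q ∉ C₁ ∧
      ∀ y : Pt B Xs, y.p ∉ C₁ → t₁ < y.s → y ∈ W := by
    intro q hq
    obtain ⟨r, hr, htr, hrt⟩ := hd q t t₁ ht₁
    have h1 : (⟨q, r, hr⟩ : Pt B Xs) ∈ U := hCU _ (fun h => hq (hCC' h)) htr
    obtain ⟨W, hW, hqW⟩ := hcov h1
    obtain ⟨C₁, hC₁, hC₁b, hqC₁, t₂, ht₂, h2⟩ := h𝒰 W hW _ hqW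
    exact ⟨W, hW, C₁, hC₁, hC₁b, hqC₁, fun y hy hys => h2 y hy ((lt_trans ht₂ hrt).trans hys)⟩
  by_cases hDne : D.Nonempty
  · obtain ⟨q₀, hq₀⟩ := hDne
    choose! W hW C₁ hC₁ hC₁b hqC₁ hC₁W using key
    -- `D ∩ C₁ q₀` is compact
    have hcomp : IsCompact (D ∩ C₁ q₀) := by
      obtain ⟨γ, hγ⟩ := hC₁b q₀ hq₀
      have h1 : IsCompact (Icc (⊥ : B) γ) := isCompact_Icc
      exact h1.of_isClosed_subset (hDcl.inter (hC₁ q₀ hq₀)) fun q hq => ⟨bot_le, hγ hq.2⟩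
    obtain ⟨F, hF⟩ := hcomp.elim_finite_subcover (fun q : D => (C₁ q)ᶜ)
      (fun q => (hC₁ q q.2).isOpen_compl) (fun q hq => mem_iUnion.2 ⟨⟨q, hq.1⟩, hqC₁ q hq.1⟩)
    refine ⟨(fun q : D => W q) '' (insert (⟨q₀, hq₀⟩ : D) F : Set D), ?_, ?_, ?_⟩
    · rintro _ ⟨q, -, rfl⟩
      exact hW q q.2
    · exact ((Finset.finite_toSet F).insert _).image _
    · rintro y ⟨hyp, hys⟩
      by_cases h1 : y.p ∈ C₁ q₀
      · obtain ⟨q, hqF, hyq⟩ := mem_iUnion₂.1 (hF ⟨hDy _ hyp, h1⟩)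
        exact ⟨_, ⟨q, Or.inr hqF, rfl⟩, hC₁W q q.2 y hyq hys⟩
      · exact ⟨_, ⟨⟨q₀, hq₀⟩, Or.inl rfl, rfl⟩, hC₁W q₀ hq₀ y h1 hys⟩
  · refine ⟨∅, empty_subset _, finite_empty, fun y hy => ?_⟩
    exact absurd ⟨_, hDy _ hy.1⟩ hDne

/-- The closed set `A`. -/
def A (B : Type) (Xs : B → Set ℝ) : Set (Pt B Xs) := {y | y.s ≤ 0}

theorem isClosed_A : IsClosed (A B Xs) := by
  rw [← isOpen_compl_iff]
  have : (A B Xs)ᶜ = {y | 0 < y.s} := by
    ext y
    simp [A]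
  rw [this]
  exact isOpen_level 0

theorem exists_notMem_of_bdd (hmax : ∀ b : B, ∃ b', b < b') {C : Set B} (hC : BddAbove C) :
    ∃ q, q ∉ C := by
  obtain ⟨β, hβ⟩ := hC
  obtain ⟨β', hβ'⟩ := hmax β
  exact ⟨β', fun h => absurd (hβ h) (not_le.2 hβ')⟩

theorem isIrreducible_A (hd : ∀ p t t', t < t' → ∃ r ∈ Xs p, t < r ∧ r < t')
    (hmax : ∀ b : B, ∃ b', b < b') : IsIrreducible (A B Xs) := by
  constructor
  · obtain ⟨r, hr, -, hr0⟩ := hd ⊥ (-1) 0 (by norm_num)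
    exact ⟨⟨⊥, r, hr⟩, hr0.le⟩
  · rintro U V hU hV ⟨x, hxA, hxU⟩ ⟨y, hyA, hyV⟩
    obtain ⟨C, hC, hCb, hxC, t, ht, h⟩ := hU x hxU
    obtain ⟨C', hC', hCb', hxC', t', ht', h'⟩ := hV y hyV
    obtain ⟨q, hq⟩ := exists_notMem_of_bdd hmax (hCb.union hCb')
    have ht0 : t < 0 := ht.trans_le hxA
    have ht0' : t' < 0 := ht'.trans_le hyA
    obtain ⟨r, hr, htr, hr0⟩ := hd q (max t t') 0 (max_lt ht0 ht0')
    exact ⟨⟨q, r, hr⟩, hr0.le, h _ (fun h0 => hq (Or.inl h0)) ((le_max_left _ _).trans_lt htr),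
      h' _ (fun h0 => hq (Or.inr h0)) ((le_max_right _ _).trans_lt htr)⟩

/-- In `B`, the intersection of a decreasing sequence of closed unbounded sets is unbounded. -/
theorem unbounded_iInter (hB : ∀ S : Set B, S.Countable → BddAbove S) (L : ℕ → Set B)
    (hL : ∀ n, IsClosed (L n)) (hanti : Antitone L) (hunb : ∀ n, ¬ BddAbove (L n)) (b : B) :
    ∃ x ∈ ⋂ n, L n, b < x := by
  have h1 : ∀ n (a : B), ∃ x ∈ L n, a < x := by
    intro n a
    have := hunb n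
    rw [not_bddAbove_iff] at this
    exact this a
  choose g hgL hg using h1
  let x : ℕ → B := fun n => Nat.rec (g 0 b) (fun n a => g (n + 1) a) n
  have hx0 : x 0 = g 0 b := rfl
  have hxs : ∀ n, x (n + 1) = g (n + 1) (x n) := fun n => rfl
  have hxL : ∀ n, x n ∈ L n := by
    intro n
    cases n with
    | zero => exact hgL 0 b
    | succ n => exact hgL (n + 1) _
  have hmono : Monotone x := monotone_nat_of_le_succ fun n => by rw [hxs]; exact (hg _ _).le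
  have hbdd : BddAbove (range x) := hB _ (countable_range x)
  have hlim : Tendsto x atTop (𝓝 (⨆ n, x n)) := tendsto_atTop_ciSup hmono hbdd
  refine ⟨⨆ n, x n, mem_iInter.2 fun n => ?_, ?_⟩
  · refine (hL n).mem_of_tendsto hlim ?_
    filter_upwards [eventually_ge_atTop n] with m hm
    exact hanti hm (hxL m)
  · exact (hg 0 b).trans_le (le_ciSup hbdd 0)

/-- `A` is not a Rudin set. -/
theorem not_rudin (hd : ∀ p t t', t < t' → ∃ r ∈ Xs p, t < r ∧ r < t')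
    (hdisj : ∀ p p' r, r ∈ Xs p → r ∈ Xs p' → p = p') (hmax : ∀ b : B, ∃ b', b < b')
    (hB : ∀ S : Set B, S.Countable → BddAbove S) (𝒦 : Set (Set (Pt B Xs)))
    (hc : ∀ K ∈ 𝒦, IsCompact K) (hfil : ∀ K₁ ∈ 𝒦, ∀ K₂ ∈ 𝒦, ∃ K₃ ∈ 𝒦, K₃ ⊆ K₁ ∩ K₂)
    (hmeet : ∀ K ∈ 𝒦, (A B Xs ∩ K).Nonempty)
    (hmin : ∀ D : Set (Pt B Xs), IsClosed D → D ⊆ A B Xs → (∀ K ∈ 𝒦, (D ∩ K).Nonempty) → D = A B Xs) :
    False := by
  classical
  -- Step a
  have ha : ∃ K ∈ 𝒦, ∀ y ∈ K, -1 < y.s := by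
    have hcl : IsClosed ({y : Pt B Xs | -1 < y.s}ᶜ ∩ A B Xs) :=
      (isOpen_level (-1)).isClosed_compl.inter isClosed_A
    have hne : ({y : Pt B Xs | -1 < y.s}ᶜ ∩ A B Xs) ≠ A B Xs := by
      intro h
      obtain ⟨r, hr, hr1, hr0⟩ := hd ⊥ (-1) 0 (by norm_num)
      have h1 : (⟨⊥, r, hr⟩ : Pt B Xs) ∈ A B Xs := hr0.le
      rw [← h] at h1
      exact h1.1 hr1
    by_contra hcon
    push Not at hcon
    apply hne
    refine hmin _ hcl inter_subset_right fun K hK => ?_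
    obtain ⟨y, hy, hys⟩ := hcon K hK
    exact ⟨y, ⟨not_lt.2 hys, le_trans hys (by norm_num)⟩, hy⟩
  obtain ⟨K, hK, hK1⟩ := ha
  have hKc := hc K hK
  -- the level sets
  let L : ℝ → Set B := fun c => {p | ∃ y ∈ K, y.p = p ∧ y.s ≤ c}
  have hLmono : Monotone L := fun c c' hcc' p ⟨y, hy, hyp, hys⟩ => ⟨y, hy, hyp, hys.trans hcc'⟩
  -- Claim 2
  have hLcl : ∀ c, IsClosed (L c) := by
    intro c
    rw [← isOpen_compl_iff, isOpen_iff_mem_nhds]
    intro p₀ hp₀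
    obtain ⟨b', hb'⟩ := hmax p₀
    -- closed bounded neighbourhoods of `p₀`
    let ι := {C : Set B // C ∈ 𝓝 p₀ ∧ IsClosed C ∧ BddAbove C}
    obtain ⟨F, hF⟩ := hKc.elim_finite_subcover (fun C : ι => {y : Pt B Xs | y.p ∉ C.1 ∨ c < y.s})
      (fun C => isOpen_or C.2.2.1 C.2.2.2 c) (by
        intro y hy
        rw [mem_iUnion]
        by_cases h : c < y.s
        · exact ⟨⟨Iic b', Iic_mem_nhds hb', isClosed_Iic, bddAbove_Iic⟩, Or.inr h⟩
        · have hne : y.p ≠ p₀ := by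
            intro h'
            exact hp₀ ⟨y, hy, h', not_lt.1 h⟩
          obtain ⟨C, ⟨hC, hCcl⟩, hCy⟩ := (closed_nhds_basis p₀).mem_iff.1
            (isOpen_compl_singleton.mem_nhds (show p₀ ∈ ({y.p} : Set B)ᶜ from hne.symm))
          exact ⟨⟨C ∩ Iic b', inter_mem hC (Iic_mem_nhds hb'), hCcl.inter isClosed_Iic,
            bddAbove_Iic.mono inter_subset_right⟩, Or.inl fun h' => hCy h'.1 rfl⟩)
    have hmem : (⋂ C ∈ F, C.1) ∈ 𝓝 p₀ := (Filter.biInter_finset_mem F).2 fun C _ => C.2.1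
    filter_upwards [hmem] with p hp
    rintro ⟨y, hy, rfl, hys⟩
    obtain ⟨C, hC, h⟩ := mem_iUnion₂.1 (hF hy)
    rcases h with h | h
    · exact h (mem_iInter₂.1 hp C hC)
    · exact absurd hys (not_le.2 h)
  -- Claim 1
  have hLinter : ∀ (c : ℝ) (p : B), (∀ c' > c, p ∈ L c') → p ∈ L c := by
    intro c p hp
    by_contra hcon
    obtain ⟨F, hF⟩ := hKc.elim_finite_subcover
      (fun t : {t : ℝ // c < t} => {y : Pt B Xs | y.p ∉ ({p} : Set B) ∨ t.1 < y.s})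
      (fun t => isOpen_or isClosed_singleton bddAbove_singleton _) (by
        intro y hy
        rw [mem_iUnion]
        by_cases h : y.p = p
        · have hys : c < y.s := by
            by_contra h'
            exact hcon ⟨y, hy, h, not_lt.1 h'⟩
          obtain ⟨t, ht, ht'⟩ := exists_between hys
          exact ⟨⟨t, ht⟩, Or.inr ht'⟩
        · exact ⟨⟨c + 1, by simp⟩, Or.inl h⟩)
    -- a common level
    have hlev : ∃ t > c, ∀ t' ∈ F, t ≤ t'.1 := by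
      clear hF
      induction F using Finset.induction_on with
      | empty => exact ⟨c + 1, by simp, by simp⟩
      | insert t₀ F _ ih =>
        obtain ⟨t, ht, htF⟩ := ih
        refine ⟨min t t₀.1, lt_min ht t₀.2, fun t' ht' => ?_⟩
        rcases Finset.mem_insert.1 ht' with rfl | h
        · exact min_le_right _ _
        · exact (min_le_left _ _).trans (htF t' h)
    obtain ⟨t, ht, htF⟩ := hlev
    obtain ⟨y, hy, hyp, hys⟩ := hp t ht
    obtain ⟨t', ht', h⟩ := mem_iUnion₂.1 (hF hy)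
    rcases h with h | h
    · exact h hyp
    · exact absurd (hys.trans (htF t' ht')) (not_le.2 h)
  -- Claim 3
  have hL0 : ¬ BddAbove (L 0) := by
    intro hbdd
    have hopen := isOpen_or (Xs := Xs) (hLcl 0) hbdd 0
    have hcl : IsClosed ({y : Pt B Xs | y.p ∉ L 0 ∨ 0 < y.s}ᶜ) := hopen.isClosed_compl
    have hsub : {y : Pt B Xs | y.p ∉ L 0 ∨ 0 < y.s}ᶜ ⊆ A B Xs := by
      intro y hy
      exact not_lt.1 fun h => hy (Or.inr h)
    have heq := hmin _ hcl hsub (fun K' hK' => by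
      obtain ⟨K'', hK'', hsub⟩ := hfil K hK K' hK'
      obtain ⟨y, hyA, hy⟩ := hmeet K'' hK''
      refine ⟨y, ?_, (hsub hy).2⟩
      rintro (h | h)
      · exact h ⟨y, (hsub hy).1, rfl, hyA⟩
      · exact absurd (show y.s ≤ 0 from hyA) (not_le.2 h))
    obtain ⟨q, hq⟩ := exists_notMem_of_bdd hmax hbdd
    obtain ⟨r, hr, -, hr0⟩ := hd q (-1) 0 (by norm_num)
    have h1 : (⟨q, r, hr⟩ : Pt B Xs) ∈ A B Xs := hr0.le
    rw [← heq] at h1
    exact h1 (Or.inl hq)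
  -- the critical level
  let S : Set ℝ := {c | ¬ BddAbove (L c)}
  have hSne : S.Nonempty := ⟨0, hL0⟩
  have hSbdd : BddBelow S := by
    refine ⟨-1, fun c hc' => ?_⟩
    by_contra h
    rw [not_le] at h
    apply hc'
    have : L c = ∅ := by
      ext p
      constructor
      · rintro ⟨y, hy, -, hys⟩
        exact absurd (hK1 y hy) (not_lt.2 (hys.trans h.le))
      · intro h'; cases h'
    rw [this]
    exact bddAbove_empty
  set c := sInf S with hcdef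
  have hup : ∀ c' > c, ¬ BddAbove (L c') := by
    intro c' hc'
    obtain ⟨c'', hc'', hlt⟩ := exists_lt_of_csInf_lt hSne hc'
    exact fun h => hc'' (h.mono (hLmono hlt.le))
  have hlow : ∀ c' < c, BddAbove (L c') := by
    intro c' hc'
    by_contra h
    exact absurd (csInf_le hSbdd h) (not_le.2 hc')
  -- an upper bound for the lower levels
  have hb : ∃ b : B, ∀ n : ℕ, ∀ p ∈ L (c - 1 / ((n : ℝ) + 1)), p ≤ b := by
    have h1 : ∀ n : ℕ, ∃ b : B, ∀ p ∈ L (c - 1 / ((n : ℝ) + 1)), p ≤ b := fun n =>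
      hlow _ (by have : (0 : ℝ) < 1 / ((n : ℝ) + 1) := by positivity
                 linarith)
    choose b hb using h1
    obtain ⟨b', hb'⟩ := hB (range b) (countable_range b)
    exact ⟨b', fun n p hp => (hb n p hp).trans (hb' ⟨n, rfl⟩)⟩
  obtain ⟨b, hb⟩ := hb
  have hLc : ∀ a : B, ∃ p ∈ L c, a < p := by
    intro a
    obtain ⟨p, hp, hap⟩ := unbounded_iInter hB (fun n : ℕ => L (c + 1 / ((n : ℝ) + 1)))
      (fun n => hLcl _) (fun n n' hnn' => hLmono (by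
        have : (1 : ℝ) / ((n' : ℝ) + 1) ≤ 1 / ((n : ℝ) + 1) := by
          apply one_div_le_one_div_of_le (by positivity)
          have : (n : ℝ) ≤ n' := by exact_mod_cast hnn'
          linarith
        linarith)) (fun n => hup _ (by
        have : (0 : ℝ) < 1 / ((n : ℝ) + 1) := by positivity
        linarith)) a
    refine ⟨p, hLinter c p fun c' hc' => ?_, hap⟩
    obtain ⟨n, hn⟩ := exists_nat_one_div_lt (sub_pos.2 hc')
    exact hLmono (by linarith) (mem_iInter.1 hp n)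
  have hval : ∀ p ∈ L c, b < p → c ∈ Xs p := by
    rintro p ⟨y, hy, rfl, hys⟩ hbp
    have h1 : y.s = c := by
      refine le_antisymm hys ?_
      by_contra h
      rw [not_le] at h
      obtain ⟨n, hn⟩ := exists_nat_one_div_lt (sub_pos.2 h)
      have h2 : y.p ∈ L (c - 1 / ((n : ℝ) + 1)) := ⟨y, hy, rfl, by linarith⟩
      exact absurd (hb n _ h2) (not_le.2 hbp)
    rw [← h1]
    exact y.mem
  obtain ⟨p, hp, hbp⟩ := hLc b
  obtain ⟨p', hp', hpp'⟩ := hLc p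
  exact absurd (hdisj p p' c (hval p hp hbp) (hval p' hp' (hbp.trans hpp'))) hpp'.ne

end Pool.Agent.V11216.NonRudin
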