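import Mathlib

/-!
# Ultrametric spaces generated by labeled trees: basics
-/

namespace Pool.Agent.V11216.RayTree

open Set SimpleGraph

variable {V : Type*}

/-- The metric space `V` is generated by the labeled tree `T(l)`: `T` is a tree on the vertex set
`V`, the labels are nonnegative and for `u ≠ v` the distance of `u` and `v` is the greatest label
of a vertex of the path from `u` to `v`. -/
def Generates [MetricSpace V] (T : SimpleGraph V) (l : V → ℝ) : Prop :=
  T.IsTree ∧ (∀ v, 0 ≤ l v) ∧
    ∀ u v : V, u ≠ v → ∀ p : T.Walk u v, p.IsPath →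
      IsGreatest (l '' {w | w ∈ p.support}) (dist u v)

/-- `R` is a ray: its vertices are `x 0, x 1, …` (distinct) and its edges are the pairs
`{x n, x (n+1)}`. -/
def IsRay (R : SimpleGraph V) : Prop :=
  ∃ x : ℕ → V, Function.Bijective x ∧
    ∀ u v, R.Adj u v ↔ ∃ n, (u = x n ∧ v = x (n + 1)) ∨ (v = x n ∧ u = x (n + 1))

/-- `T` has no ray as a subgraph. -/
def Rayless (T : SimpleGraph V) : Prop :=
  ¬ ∃ x : ℕ → V, Function.Injective x ∧ ∀ n, T.Adj (x n) (x (n + 1))

/-- exactly one vertex has degree greater than `2`. -/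
def Starlike (T : SimpleGraph V) : Prop := ∃! c, 2 < (T.neighborSet c).encard

/-- `u` and `v` are joined by a walk with all labels at most `r`. -/
def Conn (T : SimpleGraph V) (l : V → ℝ) (r : ℝ) (u v : V) : Prop :=
  ∃ p : T.Walk u v, ∀ w ∈ p.support, l w ≤ r

theorem Conn.refl {T : SimpleGraph V} {l : V → ℝ} {r : ℝ} {u : V} (h : l u ≤ r) :
    Conn T l r u u := ⟨Walk.nil, by simpa using h⟩

theorem Conn.symm {T : SimpleGraph V} {l : V → ℝ} {r : ℝ} {u v : V} (h : Conn T l r u v) :
    Conn T l r v u := by
  obtain ⟨p, hp⟩ := h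
  exact ⟨p.reverse, by simpa using hp⟩

theorem Conn.trans {T : SimpleGraph V} {l : V → ℝ} {r : ℝ} {u v w : V} (h : Conn T l r u v)
    (h' : Conn T l r v w) : Conn T l r u w := by
  obtain ⟨p, hp⟩ := h
  obtain ⟨q, hq⟩ := h'
  refine ⟨p.append q, fun z hz => ?_⟩
  rw [Walk.mem_support_append_iff] at hz
  rcases hz with h | h
  · exact hp z h
  · exact hq z h

theorem Conn.cons {T : SimpleGraph V} {l : V → ℝ} {r : ℝ} {u v w : V} (h : T.Adj u v)
    (hu : l u ≤ r) (h' : Conn T l r v w) : Conn T l r u w := by
  obtain ⟨q, hq⟩ := h'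
  refine ⟨Walk.cons h q, fun z hz => ?_⟩
  rw [Walk.support_cons, List.mem_cons] at hz
  rcases hz with rfl | h
  · exact hu
  · exact hq z h

section key

variable [MetricSpace V] {T : SimpleGraph V} {l : V → ℝ}

theorem exists_label_ge [IsUltrametricDist V]
    (he : ∀ u v, T.Adj u v → dist u v ≤ max (l u) (l v)) {u v : V}
    (p : T.Walk u v) (huv : u ≠ v) : ∃ w ∈ p.support, dist u v ≤ l w := by
  induction p with
  | nil => exact absurd rfl huv
  | @cons a b c h q ih =>
    have key : dist a b ≤ l a ∨ dist a b ≤ l b := le_max_iff.1 (he a b h)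
    by_cases hbc : b = c
    · subst hbc
      rcases key with h1 | h1
      · exact ⟨a, by simp, h1⟩
      · exact ⟨b, by simp, h1⟩
    · obtain ⟨w, hw, hwl⟩ := ih hbc
      have h3 := dist_triangle_max a b c
      rcases le_max_iff.1 h3 with h4 | h4
      · rcases key with h1 | h1
        · exact ⟨a, by simp, h4.trans h1⟩
        · exact ⟨b, by simp, h4.trans h1⟩
      · exact ⟨w, by simp [hw], h4.trans hwl⟩

theorem generates_of [IsUltrametricDist V] (hT : T.IsTree) (h0 : ∀ v, 0 ≤ l v)
    (he : ∀ u v, T.Adj u v → dist u v ≤ max (l u) (l v))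
    (hc : ∀ u v, u ≠ v → Conn T l (dist u v) u v) : Generates T l := by
  classical
  refine ⟨hT, h0, fun u v huv p hp => ?_⟩
  obtain ⟨q, hq⟩ := hc u v huv
  have hpq : p = q.bypass := (hT.existsUnique_path u v).unique hp q.bypass_isPath
  have hle : ∀ w ∈ p.support, l w ≤ dist u v :=
    fun w hw => hq w (q.support_bypass_subset_support (hpq ▸ hw))
  obtain ⟨w, hw, hwl⟩ := exists_label_ge he p huv
  exact ⟨⟨w, hw, le_antisymm (hle w hw) hwl⟩, fun _ ⟨w', hw', e⟩ => e ▸ hle w' hw'⟩

theorem Generates.conn (h : Generates T l) {u v : V} (huv : u ≠ v) :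
    Conn T l (dist u v) u v := by
  obtain ⟨p, hp⟩ := (h.1.existsUnique_path u v).exists
  exact ⟨p, fun w hw => (h.2.2 u v huv p hp).2 ⟨w, hw, rfl⟩⟩

/-- every label on the path is at most the distance, for any path. -/
theorem Generates.label_le (h : Generates T l) {u v : V} (huv : u ≠ v) {p : T.Walk u v}
    (hp : p.IsPath) {w : V} (hw : w ∈ p.support) : l w ≤ dist u v :=
  (h.2.2 u v huv p hp).2 ⟨w, hw, rfl⟩

theorem Generates.dist_le (h : Generates T l) {r : ℝ} {u v : V} (hc : Conn T l r u v)
    (huv : u ≠ v) : dist u v ≤ r := by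
  classical
  obtain ⟨q, hq⟩ := hc
  obtain ⟨w, hw, e⟩ := (h.2.2 u v huv q.bypass q.bypass_isPath).1
  rw [← e]
  exact hq w (q.support_bypass_subset_support hw)

theorem Generates.dist_adj (h : Generates T l) {u v : V} (huv : T.Adj u v) :
    dist u v = max (l u) (l v) := by
  have hp : (Walk.cons huv Walk.nil).IsPath := by simp [huv.ne]
  have := h.2.2 u v huv.ne _ hp
  obtain ⟨⟨w, hw, e⟩, h2⟩ := this
  apply le_antisymm
  · rw [← e]
    simp only [Walk.support_cons, Walk.support_nil, List.mem_cons, List.not_mem_nil, or_false,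
      mem_ofPred_eq] at hw
    rcases hw with rfl | rfl
    · exact le_max_left _ _
    · exact le_max_right _ _
  · exact max_le (h2 ⟨u, by simp, rfl⟩) (h2 ⟨v, by simp, rfl⟩)

end key

/-! ## trees from parent functions -/

/-- the graph joining every vertex to its parent. -/
def parGraph (par : V → V) : SimpleGraph V where
  Adj u v := u ≠ v ∧ (v = par u ∨ u = par v)
  symm := ⟨fun _ _ h => ⟨h.1.symm, h.2.symm⟩⟩
  loopless := ⟨fun _ h => h.1 rfl⟩

theorem parGraph_isTree (par : V → V) (c : V) (hc : par c = c) (h : V → ℕ)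
    (hh : ∀ v, v ≠ c → h (par v) < h v) : (parGraph par).IsTree := by
  classical
  have hne : ∀ v, v ≠ c → par v ≠ v := fun v hv e => by
    have := hh v hv
    rw [e] at this
    exact lt_irrefl _ this
  have hmono : ∀ v, h (par v) ≤ h v := fun v => by
    by_cases hv : v = c
    · rw [hv, hc]
    · exact (hh v hv).le
  have hiter : ∀ (k : ℕ) v, h (par^[k] v) ≤ h v := by
    intro k
    induction k with
    | zero => intro v; simp
    | succ k ih =>
      intro v
      rw [Function.iterate_succ_apply]
      exact (ih _).trans (hmono v)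
  have hreach : ∀ (n : ℕ) v, h v ≤ n → (parGraph par).Reachable v c := by
    intro n
    induction n with
    | zero =>
      intro v hv
      by_cases hvc : v = c
      · rw [hvc]
      · have := hh v hvc
        omega
    | succ n ih =>
      intro v hv
      by_cases hvc : v = c
      · rw [hvc]
      · have h1 := hh v hvc
        have h2 := ih (par v) (by omega)
        exact (Adj.reachable (show (parGraph par).Adj v (par v) from
          ⟨(hne v hvc).symm, Or.inl rfl⟩)).trans h2
  have : Nonempty V := ⟨c⟩
  refine ⟨⟨fun u v => (hreach _ u le_rfl).trans (hreach _ v le_rfl).symm⟩, ?_⟩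
  rw [isAcyclic_iff_forall_adj_isBridge]
  -- every edge `v – par v` is a bridge
  have key : ∀ v, v ≠ c → (parGraph par).IsBridge s(v, par v) := by
    intro v hv
    rw [isBridge_iff]
    rintro ⟨p⟩
    -- the set of descendants of `v` is closed
    have hclosed : ∀ a b, ((parGraph par).deleteEdges {s(v, par v)}).Adj a b →
        (∃ k, par^[k] a = v) → ∃ k, par^[k] b = v := by
      intro a b hab ⟨k, hk⟩
      rw [deleteEdges_adj] at hab
      obtain ⟨⟨hab1, hab2⟩, hab3⟩ := hab
      rcases hab2 with e | e
      · -- b = par a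
        rcases k with _ | k
        · simp only [Function.iterate_zero, id_eq] at hk
          subst hk
          subst e
          exact absurd rfl hab3
        · rw [Function.iterate_succ_apply] at hk
          exact ⟨k, by rw [e]; exact hk⟩
      · exact ⟨k + 1, by rw [Function.iterate_succ_apply, ← e]; exact hk⟩
    have hwalk : ∀ {a b : V} (q : ((parGraph par).deleteEdges {s(v, par v)}).Walk a b),
        (∃ k, par^[k] a = v) → ∃ k, par^[k] b = v := by
      intro a b q
      induction q with
      | nil => exact id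
      | cons h _ ih => exact fun hk => ih (hclosed _ _ h hk)
    obtain ⟨k, hk⟩ := hwalk p ⟨0, rfl⟩
    have h1 := hiter k (par v)
    rw [hk] at h1
    have h2 := hh v hv
    omega
  intro u v huv
  obtain ⟨h1, h2⟩ := huv
  rcases h2 with e | e
  · have huc : u ≠ c := fun hu => h1 (by rw [e, hu, hc])
    rw [e]
    exact key u huc
  · have hvc : v ≠ c := fun hv => h1 (by rw [e, hv, hc])
    rw [e, Sym2.eq_swap]
    exact key v hvc

end Pool.Agent.V11216.RayTree
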