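import Pool.Agent.V11216.RayTreeA

/-!
# From rays to starlike rayless trees
-/

namespace Pool.Agent.V11216.RayTree

open Set SimpleGraph Filter Topology

theorem ray_path {V : Type*} {R : SimpleGraph V} (x : ℕ → V) (hadj : ∀ n, R.Adj (x n) (x (n + 1))) :
    ∀ (n i j : ℕ), i + n = j →
      ∃ p : R.Walk (x i) (x j), p.support = (List.range' i (n + 1)).map x := by
  intro n
  induction n with
  | zero =>
    intro i j h
    obtain rfl : i = j := by omega
    exact ⟨Walk.nil, by simp⟩
  | succ n ih =>
    intro i j h
    obtain ⟨p, hp⟩ := ih (i + 1) j (by omega)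
    refine ⟨Walk.cons (hadj i) p, ?_⟩
    rw [Walk.support_cons, hp, List.range'_succ (n := n + 1)]
    simp

theorem ray_dist {V : Type*} [MetricSpace V] {R : SimpleGraph V} {l : V → ℝ}
    (h : Generates R l) (x : ℕ → V)
    (hx : Function.Injective x) (hadj : ∀ n, R.Adj (x n) (x (n + 1))) (i j : ℕ) (hij : i < j) :
    IsGreatest {r | ∃ k, i ≤ k ∧ k ≤ j ∧ r = l (x k)} (dist (x i) (x j)) := by
  obtain ⟨p, hp⟩ := ray_path x hadj (j - i) i j (by omega)
  have hpath : p.IsPath := by
    rw [Walk.isPath_def, hp]
    exact List.Nodup.map hx List.nodup_range'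
  have hne : x i ≠ x j := fun e => hij.ne (hx e)
  have := h.2.2 _ _ hne p hpath
  have hset : (l '' {w | w ∈ p.support}) = {r | ∃ k, i ≤ k ∧ k ≤ j ∧ r = l (x k)} := by
    ext r
    simp only [mem_image, mem_ofPred_eq, hp, List.mem_map, List.mem_range'_1]
    constructor
    · rintro ⟨w, ⟨k, hk, rfl⟩, rfl⟩
      exact ⟨k, by omega, by omega, rfl⟩
    · rintro ⟨k, h1, h2, rfl⟩
      exact ⟨x k, ⟨k, by omega, rfl⟩, rfl⟩
  rwa [hset] at this

section B

variable {X : Type*} [MetricSpace X]

/-- the distance of `y i` and `y j` is the maximum of the `L k`, `i ≤ k ≤ j`. -/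
def RayDist (y : ℕ → X) (L : ℕ → ℝ) : Prop :=
  ∀ i j, i < j → IsGreatest {r | ∃ k, i ≤ k ∧ k ≤ j ∧ r = L k} (dist (y i) (y j))

theorem labels_finite [CompactSpace X] {y : ℕ → X} {L : ℕ → ℝ} (F : RayDist y L) {ε : ℝ}
    (hε : 0 < ε) : {k | ε ≤ L k}.Finite := by
  by_contra hinf
  have hinf : {k | ε ≤ L k}.Infinite := hinf
  obtain ⟨φ, hφ, hφm⟩ : ∃ φ : ℕ → ℕ, StrictMono φ ∧ ∀ n, ε ≤ L (φ n) :=
    ⟨Nat.nth _, Nat.nth_strictMono hinf, Nat.nth_mem_of_infinite hinf⟩
  obtain ⟨a, ψ, hψ, ha⟩ := CompactSpace.tendsto_subseq (fun n => y (φ n))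
  have hC := ha.cauchySeq
  rw [Metric.cauchySeq_iff] at hC
  obtain ⟨N, hN⟩ := hC ε hε
  have h1 := hN N le_rfl (N + 1) (by omega)
  have h2 : φ (ψ N) < φ (ψ (N + 1)) := hφ (hψ (by omega))
  have h3 := (F _ _ h2).2 ⟨φ (ψ N), le_rfl, h2.le, rfl⟩
  have h4 := hφm (ψ N)
  simp only [Function.comp_apply] at h1
  linarith

theorem ray_limit [CompactSpace X] {y : ℕ → X} {L : ℕ → ℝ} (F : RayDist y L) :
    ∃ c, Tendsto y atTop (𝓝 c) := by
  apply cauchySeq_tendsto_of_complete
  rw [Metric.cauchySeq_iff']
  intro ε hε
  have hfin := labels_finite F hε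
  obtain ⟨N, hN⟩ : ∃ N, ∀ k ≥ N, L k < ε := by
    obtain ⟨N, hN⟩ := hfin.bddAbove
    refine ⟨N + 1, fun k hk => ?_⟩
    by_contra h
    push Not at h
    have : k ≤ N := hN h
    omega
  refine ⟨N, fun n hn => ?_⟩
  rcases eq_or_lt_of_le (show N ≤ n from hn) with rfl | h
  · simpa using hε
  · rw [_root_.dist_comm]
    obtain ⟨k, hk1, hk2, e⟩ := (F N n h).1
    rw [e]
    exact hN k hk1

theorem ray_dist_limit [IsUltrametricDist X] {y : ℕ → X} {L : ℕ → ℝ} {c : X} (F : RayDist y L)
    (hc : Tendsto y atTop (𝓝 c)) (hne : ∀ n, y n ≠ c) (n : ℕ) :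
    IsGreatest {r | ∃ k, n ≤ k ∧ r = L k} (dist (y n) c) := by
  constructor
  · have hpos : 0 < dist (y n) c := dist_pos.2 (hne n)
    obtain ⟨j, hj, hjn⟩ : ∃ j, dist (y j) c < dist (y n) c ∧ n < j :=
      (((Metric.tendsto_nhds.1 hc) _ hpos).and (eventually_gt_atTop n)).exists
    have h1 : dist (y n) (y j) = dist (y n) c := by
      have := IsUltrametricDist.dist_eq_max_of_dist_ne_dist (x := y n) (y := c) (z := y j)
        (by rw [_root_.dist_comm c]; exact hj.ne')
      rw [this, _root_.dist_comm c]
      exact max_eq_left hj.le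
    obtain ⟨k, hk1, hk2, e⟩ := (F n j hjn).1
    exact ⟨k, hk1, by rw [← h1, e]⟩
  · rintro r ⟨k, hk, rfl⟩
    have : Tendsto (fun j => dist (y n) (y j)) atTop (𝓝 (dist (y n) c)) :=
      tendsto_const_nhds.dist hc
    refine ge_of_tendsto this ?_
    filter_upwards [eventually_gt_atTop k] with j hj
    exact (F n j (by omega)).2 ⟨k, hk, hj.le, rfl⟩

open Classical in
theorem exists_tree_of_ray [IsUltrametricDist X] {y : ℕ → X} (hy : Function.Injective y) {c : X}
    (hne : ∀ n, y n ≠ c) (hall : ∀ v, v = c ∨ ∃ n, v = y n) {L : ℕ → ℝ} (hL0 : ∀ n, 0 ≤ L n)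
    (F : RayDist y L) (hc : Tendsto y atTop (𝓝 c)) :
    ∃ (T : SimpleGraph X) (l : X → ℝ), Starlike T ∧ Rayless T ∧ Generates T l := by
  set idx : X → ℕ := Function.invFun y with hidx
  have hidy : ∀ n, idx (y n) = n := Function.leftInverse_invFun hy
  set M : ℕ → ℝ := fun n => dist (y n) c with hM
  have G : ∀ n, IsGreatest {r | ∃ k, n ≤ k ∧ r = L k} (M n) := ray_dist_limit F hc hne
  set J : Set ℕ := {n | L n = M n} with hJdef
  have hLM : ∀ n k, n ≤ k → L k ≤ M n := fun n k h => (G n).2 ⟨k, h, rfl⟩
  have hMM : ∀ n k, n ≤ k → M k ≤ M n := by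
    intro n k h
    obtain ⟨k', hk', e⟩ := (G k).1
    rw [e]
    exact hLM n k' (h.trans hk')
  have hJ : ∀ n, ∃ d, n + d ∈ J := by
    intro n
    obtain ⟨k, hk, e⟩ := (G n).1
    refine ⟨k - n, ?_⟩
    rw [Nat.add_sub_cancel' hk]
    exact le_antisymm (hLM k k le_rfl) (e ▸ hMM n k hk)
  -- parents
  set par : X → X := fun v => if v = c then c else if idx v ∈ J then c else y (idx v + 1)
    with hpar
  have hparc : par c = c := by simp [hpar]
  have hpary1 : ∀ n, n ∈ J → par (y n) = c := fun n hn => by
    simp only [hpar, hidy, hn, if_true, ite_self]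
  have hpary2 : ∀ n, n ∉ J → par (y n) = y (n + 1) := fun n hn => by
    simp only [hpar, hidy, hn, if_false, hne n]
  set ht : X → ℕ := fun v => if v = c then 0 else 1 + Nat.find (hJ (idx v)) with hht
  have htc : ht c = 0 := by simp [hht]
  have hty : ∀ n, ht (y n) = 1 + Nat.find (hJ n) := fun n => by
    simp only [hht, hne n, if_false, hidy]
  have hdec : ∀ v, v ≠ c → ht (par v) < ht v := by
    intro v hv
    rcases hall v with h | ⟨n, rfl⟩
    · exact absurd h hv
    by_cases hn : n ∈ J
    · rw [hpary1 n hn, htc, hty]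
      omega
    · rw [hpary2 n hn, hty, hty]
      have h1 : Nat.find (hJ n) ≠ 0 := by
        intro h0
        have := Nat.find_spec (hJ n)
        rw [h0] at this
        exact hn this
      have h2 : Nat.find (hJ (n + 1)) ≤ Nat.find (hJ n) - 1 := by
        apply Nat.find_min'
        have := Nat.find_spec (hJ n)
        rwa [show n + 1 + (Nat.find (hJ n) - 1) = n + Nat.find (hJ n) by omega]
      omega
  set T := parGraph par with hT
  have hTree : T.IsTree := parGraph_isTree par c hparc ht hdec
  set l : X → ℝ := fun v => if v = c then 0 else L (idx v) with hl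
  have hlc : l c = 0 := by simp [hl]
  have hly : ∀ n, l (y n) = L n := fun n => by
    simp only [hl, hne n, if_false, hidy]
  have adj1 : ∀ n, n ∈ J → T.Adj (y n) c := fun n hn =>
    ⟨hne n, Or.inl (hpary1 n hn).symm⟩
  have adj2 : ∀ n, n ∉ J → T.Adj (y n) (y (n + 1)) := fun n hn =>
    ⟨fun e => by have := hy e; omega, Or.inl (hpary2 n hn).symm⟩
  have adj_yy : ∀ a b, T.Adj (y a) (y b) → (a ∉ J ∧ b = a + 1) ∨ (b ∉ J ∧ a = b + 1) := by
    rintro a b ⟨-, h | h⟩
    · left
      by_cases ha : a ∈ J
      · rw [hpary1 a ha] at h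
        exact absurd h (hne b)
      · rw [hpary2 a ha] at h
        exact ⟨ha, hy h⟩
    · right
      by_cases hb : b ∈ J
      · rw [hpary1 b hb] at h
        exact absurd h (hne a)
      · rw [hpary2 b hb] at h
        exact ⟨hb, hy h⟩
  have hJinf : J.Infinite := by
    apply Set.infinite_of_forall_exists_gt
    intro a
    obtain ⟨d, hd⟩ := hJ (a + 1)
    exact ⟨_, hd, by omega⟩
  refine ⟨T, l, ?_, ?_, ?_⟩
  · -- starlike
    refine ⟨c, ?_, ?_⟩
    · have hsub : y '' J ⊆ T.neighborSet c := by
        rintro _ ⟨n, hn, rfl⟩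
        exact (adj1 n hn).symm
      have hinf : (T.neighborSet c).Infinite := (hJinf.image hy.injOn).mono hsub
      show 2 < (T.neighborSet c).encard
      rw [hinf.encard_eq]
      exact ENat.natCast_lt_top 2
    · intro v hv
      by_contra hvc
      rcases hall v with h | ⟨n, rfl⟩
      · exact hvc h
      have hsub : T.neighborSet (y n) ⊆ {par (y n), y (n - 1)} := by
        rintro w ⟨-, h | h⟩
        · left
          exact h
        · right
          rcases hall w with rfl | ⟨m, rfl⟩
          · rw [hparc] at h
            exact absurd h hvc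
          · by_cases hm : m ∈ J
            · rw [hpary1 m hm] at h
              exact absurd h hvc
            · rw [hpary2 m hm] at h
              have := hy h
              rw [mem_singleton_iff]
              congr 1
              omega
      have h1 : (T.neighborSet (y n)).encard ≤ 2 := by
        refine (encard_le_encard hsub).trans ?_
        refine (encard_insert_le _ _).trans ?_
        rw [encard_singleton]
        norm_num
      exact absurd hv (not_lt.2 h1)
  · -- rayless
    rintro ⟨z, hz, hadj⟩
    obtain ⟨N, hN⟩ : ∃ N, ∀ n, N ≤ n → z n ≠ c := by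
      by_cases h : ∃ m, z m = c
      · obtain ⟨m, hm⟩ := h
        refine ⟨m + 1, fun n hn e => ?_⟩
        have := hz (e.trans hm.symm)
        omega
      · push Not at h
        exact ⟨0, fun n _ => h n⟩
    have hzy : ∀ n, ∃ i, z (N + n) = y i := fun n => by
      rcases hall (z (N + n)) with h | h
      · exact absurd h (hN _ (by omega))
      · exact h
    choose i hi using hzy
    have hinj : Function.Injective i := by
      intro a b e
      have h1 := hi a
      rw [e, ← hi b] at h1
      have := hz h1
      omega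
    obtain ⟨d, hd⟩ := hJ (i 0)
    have hbd : ∀ n, i n ≤ i 0 + d := by
      intro n
      induction n with
      | zero => omega
      | succ n ih =>
        have h1 := hadj (N + n)
        rw [hi n, show N + n + 1 = N + (n + 1) by omega, hi (n + 1)] at h1
        rcases adj_yy _ _ h1 with ⟨h2, h3⟩ | ⟨h2, h3⟩
        · have : i n ≠ i 0 + d := fun e => h2 (e ▸ hd)
          omega
        · omega
    have hfin : (Set.range i).Finite := (Set.finite_Iic (i 0 + d)).subset (by
      rintro _ ⟨n, rfl⟩
      exact hbd n)
    exact Set.infinite_range_of_injective hinj hfin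
  · -- the metric
    have up : ∀ (m n : ℕ) (r : ℝ), Nat.find (hJ n) ≤ m → 0 ≤ r → (∀ k, n ≤ k → L k ≤ r) →
        Conn T l r (y n) c := by
      intro m
      induction m with
      | zero =>
        intro n r hm hr h
        have h0 : n ∈ J := by
          have := Nat.find_spec (hJ n)
          rwa [show n + Nat.find (hJ n) = n by omega] at this
        exact Conn.cons (adj1 n h0) (by rw [hly]; exact h n le_rfl) (Conn.refl (by rw [hlc]; exact hr))
      | succ m ih =>
        intro n r hm hr h
        by_cases h0 : n ∈ J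
        · exact Conn.cons (adj1 n h0) (by rw [hly]; exact h n le_rfl)
            (Conn.refl (by rw [hlc]; exact hr))
        · refine Conn.cons (adj2 n h0) (by rw [hly]; exact h n le_rfl) (ih (n + 1) r ?_ hr ?_)
          · have h1 : Nat.find (hJ n) ≠ 0 := by
              intro h1
              have := Nat.find_spec (hJ n)
              rw [h1] at this
              exact h0 this
            have h2 : Nat.find (hJ (n + 1)) ≤ Nat.find (hJ n) - 1 := by
              apply Nat.find_min'
              have := Nat.find_spec (hJ n)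
              rwa [show n + 1 + (Nat.find (hJ n) - 1) = n + Nat.find (hJ n) by omega]
            omega
          · exact fun k hk => h k (by omega)
    have seg : ∀ (d i : ℕ) (r : ℝ), (∀ k, i ≤ k → k ≤ i + d → L k ≤ r) →
        (∀ k, i ≤ k → k < i + d → k ∉ J) → Conn T l r (y i) (y (i + d)) := by
      intro d
      induction d with
      | zero =>
        intro i r h _
        exact Conn.refl (by rw [hly]; exact h i le_rfl (by omega))
      | succ d ih =>
        intro i r h hJ'
        have h1 := ih (i + 1) r (fun k h1 h2 => h k (by omega) (by omega))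
          (fun k h1 h2 => hJ' k (by omega) (by omega))
        rw [show i + 1 + d = i + (d + 1) by omega] at h1
        exact Conn.cons (adj2 i (hJ' i le_rfl (by omega)))
          (by rw [hly]; exact h i le_rfl (by omega)) h1
    have connyy : ∀ i j, i < j → Conn T l (dist (y i) (y j)) (y i) (y j) := by
      intro i j hij
      have hle : ∀ k, i ≤ k → k ≤ j → L k ≤ dist (y i) (y j) := fun k h1 h2 =>
        (F i j hij).2 ⟨k, h1, h2, rfl⟩
      by_cases h : ∃ a, i ≤ a ∧ a < j ∧ a ∈ J
      · obtain ⟨a, h1, h2, h3⟩ := h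
        have hall' : ∀ k, i ≤ k → L k ≤ dist (y i) (y j) := by
          intro k hk
          rcases le_total k a with h4 | h4
          · exact hle k hk (by omega)
          · refine (hLM a k h4).trans ?_
            rw [← (show L a = M a from h3)]
            exact hle a h1 h2.le
        exact (up _ i _ le_rfl dist_nonneg hall').trans
          (up _ j _ le_rfl dist_nonneg (fun k hk => hall' k (by omega))).symm
      · push Not at h
        have := seg (j - i) i (dist (y i) (y j)) (fun k h1 h2 => hle k h1 (by omega))
          (fun k h1 h2 => h k h1 (by omega))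
        rwa [show i + (j - i) = j by omega] at this
    have connyc : ∀ i, Conn T l (dist (y i) c) (y i) c := fun i =>
      up _ i _ le_rfl dist_nonneg (fun k hk => hLM i k hk)
    apply generates_of hTree
    · intro v
      rcases hall v with rfl | ⟨n, rfl⟩
      · rw [hlc]
      · rw [hly]
        exact hL0 n
    · have key : ∀ v, v ≠ c → dist v (par v) ≤ max (l v) (l (par v)) := by
        intro v hv
        rcases hall v with h | ⟨n, rfl⟩
        · exact absurd h hv
        by_cases hn : n ∈ J
        · rw [hpary1 n hn, hly]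
          exact (show dist (y n) c = L n from (show L n = M n from hn).symm) ▸ le_max_left _ _
        · rw [hpary2 n hn, hly, hly]
          obtain ⟨k, h1, h2, e⟩ := (F n (n + 1) (by omega)).1
          rw [e]
          rcases (show k = n ∨ k = n + 1 by omega) with rfl | rfl
          · exact le_max_left _ _
          · exact le_max_right _ _
      rintro u v ⟨huv, h | h⟩
      · have huc : u ≠ c := fun e => huv (by rw [h, e, hparc])
        rw [h]
        exact key u huc
      · have hvc : v ≠ c := fun e => huv (by rw [h, e, hparc])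
        rw [h, _root_.dist_comm, max_comm]
        exact key v hvc
    · intro u v huv
      rcases hall u with rfl | ⟨i, rfl⟩
      · rcases hall v with rfl | ⟨j, rfl⟩
        · exact absurd rfl huv
        · rw [_root_.dist_comm]
          exact (connyc j).symm
      · rcases hall v with rfl | ⟨j, rfl⟩
        · exact connyc i
        · rcases lt_trichotomy i j with h | h | h
          · exact connyy i j h
          · exact absurd (by rw [h]) huv
          · rw [_root_.dist_comm]
            exact (connyy j i h).symm

end B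

end Pool.Agent.V11216.RayTree
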