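import Pool.Agent.V11216.RayTreeB

/-!
# From starlike rayless trees to rays
-/

namespace Pool.Agent.V11216.RayTree

open Set SimpleGraph Filter Topology

/-- combinatorics of a tree rooted at `c` in which every vertex `≠ c` has at most one child. -/
structure Rooted {X : Type*} (T : SimpleGraph X) (c : X) (par : X → X) (D : X → ℕ) : Prop where
  adj : ∀ u v, T.Adj u v →
    (u ≠ c ∧ v = par u ∧ D v + 1 = D u) ∨ (v ≠ c ∧ u = par v ∧ D u + 1 = D v)
  D_par : ∀ v, v ≠ c → D (par v) + 1 = D v
  D_zero : ∀ v, D v = 0 ↔ v = c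
  child : ∀ u v, u ≠ c → v ≠ c → par u = par v → par u ≠ c → u = v
  path : ∀ v, v ≠ c → ∃ (h : T.Adj v (par v)) (q : T.Walk (par v) c), (Walk.cons h q).IsPath

theorem exists_rooted {X : Type*} {T : SimpleGraph X} (hT : T.IsTree) (c : X)
    (hdeg : ∀ v, v ≠ c → ¬ 2 < (T.neighborSet v).encard) :
    ∃ (par : X → X) (D : X → ℕ), Rooted T c par D := by
  classical
  have hconn := hT.connected
  have h1 : ∀ v, v ≠ c → ∃ w, (∃ (h : T.Adj v w) (q : T.Walk w c), (Walk.cons h q).IsPath) ∧
      T.dist w c + 1 = T.dist v c ∧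
      ∀ w', T.Adj v w' → T.dist w' c + 1 = T.dist v c → w' = w := by
    intro v hv
    obtain ⟨p, hp, hlen⟩ := hconn.exists_path_of_dist v c
    cases p with
    | nil => exact absurd rfl hv
    | @cons _ w _ h q =>
      have hd : T.dist w c + 1 = T.dist v c := by
        have h2 : T.dist w c ≤ q.length := dist_le q
        have h3 : T.dist v c ≤ T.dist v w + T.dist w c := hconn.dist_triangle
        have h4 : T.dist v w = 1 := dist_eq_one_iff_adj.2 h
        rw [Walk.length_cons] at hlen
        omega
      refine ⟨w, ⟨h, q, hp⟩, hd, ?_⟩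
      intro w' hw' hd'
      obtain ⟨q', hq', hlen'⟩ := hconn.exists_path_of_dist w' c
      have hp' : (Walk.cons hw' q').IsPath := by
        apply Walk.isPath_of_length_eq_dist
        rw [Walk.length_cons, hlen', hd']
      have := (hT.existsUnique_path v c).unique hp' hp
      have h5 := congrArg Walk.snd this
      simpa using h5
  choose! par hpar using h1
  refine ⟨par, fun v => T.dist v c, ?_⟩
  have hDpar : ∀ v, v ≠ c → T.dist (par v) c + 1 = T.dist v c := fun v hv => (hpar v hv).2.1
  have hDz : ∀ v, T.dist v c = 0 ↔ v = c := fun v => hconn.dist_eq_zero_iff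
  have hadj : ∀ u v, T.Adj u v →
      (u ≠ c ∧ v = par u ∧ T.dist v c + 1 = T.dist u c) ∨
        (v ≠ c ∧ u = par v ∧ T.dist u c + 1 = T.dist v c) := by
    intro u v huv
    rcases hT.dist_eq_dist_add_one_of_adj c huv with h | h
    · rw [dist_comm (u := c), dist_comm (u := c)] at h
      left
      have hu : u ≠ c := fun e => by
        rw [(hDz u).2 e] at h
        omega
      exact ⟨hu, (hpar u hu).2.2 v huv h.symm, h.symm⟩
    · rw [dist_comm (u := c), dist_comm (u := c)] at h
      right
      have hv : v ≠ c := fun e => by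
        rw [(hDz v).2 e] at h
        omega
      exact ⟨hv, (hpar v hv).2.2 u huv.symm h.symm, h.symm⟩
  refine ⟨hadj, hDpar, hDz, ?_, fun v hv => (hpar v hv).1⟩
  intro u v hu hv huv hc
  by_contra hne
  apply hdeg (par u) hc
  have hau : T.Adj (par u) u := (hpar u hu).1.choose.symm
  have hav : T.Adj (par u) v := by
    rw [huv]
    exact (hpar v hv).1.choose.symm
  have hap : T.Adj (par u) (par (par u)) := (hpar (par u) hc).1.choose
  have h1 := hDpar u hu
  have h2 := hDpar v hv
  have h3 := hDpar _ hc
  have hsub : ({u, v, par (par u)} : Set X) ⊆ T.neighborSet (par u) := by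
    rintro z (rfl | rfl | rfl)
    · exact hau
    · exact hav
    · exact hap
  have hcard : ({u, v, par (par u)} : Set X).encard = 3 := by
    refine Set.encard_eq_three.2 ⟨u, v, par (par u), hne, ?_, ?_, rfl⟩
    · intro e
      rw [← e] at h3
      omega
    · intro e
      rw [← huv] at h2
      rw [← e] at h3
      omega
  calc (2 : ℕ∞) < 3 := by norm_num
    _ = ({u, v, par (par u)} : Set X).encard := hcard.symm
    _ ≤ _ := encard_le_encard hsub

namespace Rooted

variable {X : Type*} {T : SimpleGraph X} {c : X} {par : X → X} {D : X → ℕ}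

/-- the branch of a vertex: its ancestor at depth one. -/
def br (par : X → X) (D : X → ℕ) (v : X) : X := par^[D v - 1] v

theorem D_pos (R : Rooted T c par D) {v : X} (hv : v ≠ c) : 1 ≤ D v := by
  have := R.D_zero v
  by_contra h
  exact hv (this.1 (by omega))

theorem br_par (R : Rooted T c par D) {v : X} (hv : v ≠ c) (hp : par v ≠ c) :
    br par D (par v) = br par D v := by
  have h1 := R.D_par v hv
  have h2 := R.D_pos hp
  unfold br
  rw [← Function.iterate_succ_apply]
  congr 1
  omega

theorem br_adj (R : Rooted T c par D) {u v : X} (huv : T.Adj u v) (hu : u ≠ c) (hv : v ≠ c) :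
    br par D u = br par D v := by
  rcases R.adj u v huv with ⟨_, h, _⟩ | ⟨_, h, _⟩
  · rw [h]
    exact (R.br_par hu (h ▸ hv)).symm
  · rw [h]
    exact R.br_par hv (h ▸ hu)

theorem par_ne (R : Rooted T c par D) {v : X} (hv : 2 ≤ D v) : v ≠ c ∧ par v ≠ c := by
  have hvc : v ≠ c := fun e => by
    have := (R.D_zero v).2 e
    omega
  refine ⟨hvc, fun e => ?_⟩
  have := (R.D_zero _).2 e
  have := R.D_par v hvc
  omega

theorem eq_of_br (R : Rooted T c par D) : ∀ (n : ℕ) (u v : X), u ≠ c → v ≠ c → D u = n → D v = n →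
    br par D u = br par D v → u = v := by
  intro n
  induction n with
  | zero =>
    intro u v hu _ h _ _
    have := R.D_pos hu
    omega
  | succ n ih =>
    intro u v hu hv h1 h2 hb
    rcases Nat.eq_zero_or_pos n with rfl | hn
    · unfold br at hb
      rw [h1, h2] at hb
      simpa using hb
    · have hpu := (R.par_ne (v := u) (by omega)).2
      have hpv := (R.par_ne (v := v) (by omega)).2
      have h3 := R.D_par u hu
      have h4 := R.D_par v hv
      have := ih (par u) (par v) hpu hpv (by omega) (by omega)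
        (by rw [R.br_par hu hpu, R.br_par hv hpv, hb])
      exact R.child u v hu hv this hpu

/-- ancestors of all smaller depths. -/
theorem exists_depth (R : Rooted T c par D) : ∀ (m : ℕ) (v : X) (n : ℕ), D v = n + m → 1 ≤ n →
    ∃ w, w ≠ c ∧ br par D w = br par D v ∧ D w = n := by
  intro m
  induction m with
  | zero =>
    intro v n h hn
    refine ⟨v, fun e => ?_, rfl, by omega⟩
    have := (R.D_zero v).2 e
    omega
  | succ m ih =>
    intro v n h hn
    obtain ⟨hv, hp⟩ := R.par_ne (v := v) (by omega)
    have h1 := R.D_par v hv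
    obtain ⟨w, h2, h3, h4⟩ := ih (par v) n (by omega) hn
    exact ⟨w, h2, h3.trans (R.br_par hv hp), h4⟩

theorem branch_finite (R : Rooted T c par D) (hray : Rayless T) (w : X) :
    {v | v ≠ c ∧ br par D v = br par D w}.Finite := by
  by_contra hinf
  have hinf : {v | v ≠ c ∧ br par D v = br par D w}.Infinite := hinf
  have hinj : Set.InjOn D {v | v ≠ c ∧ br par D v = br par D w} := by
    intro u hu v hv e
    exact R.eq_of_br (D v) u v hu.1 hv.1 e rfl (hu.2.trans hv.2.symm)
  have hDinf := hinf.image hinj
  have hex : ∀ n : ℕ, ∃ z, z ≠ c ∧ br par D z = br par D w ∧ D z = n + 1 := by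
    intro n
    obtain ⟨_, ⟨v, hv, rfl⟩, hvn⟩ := hDinf.exists_gt n
    obtain ⟨z, h1, h2, h3⟩ := R.exists_depth (D v - (n + 1)) v (n + 1) (by omega) (by omega)
    exact ⟨z, h1, h2.trans hv.2, h3⟩
  choose z hz1 hz2 hz3 using hex
  apply hray
  refine ⟨z, fun a b e => ?_, fun n => ?_⟩
  · have h1 := hz3 a
    rw [e, hz3 b] at h1
    omega
  · have hp := (R.par_ne (v := z (n + 1)) (by rw [hz3]; omega)).2
    have h1 := R.D_par (z (n + 1)) (hz1 _)
    rw [hz3] at h1
    have : par (z (n + 1)) = z n := by
      apply R.eq_of_br (n + 1) _ _ hp (hz1 n) (by omega) (hz3 n)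
      rw [R.br_par (hz1 _) hp, hz2, hz2]
    obtain ⟨h, -⟩ := R.path (z (n + 1)) (hz1 _)
    rw [this] at h
    exact h.symm

variable {l : X → ℝ}

theorem conn_branch (R : Rooted T c par D) {r : ℝ} {u v : X} (p : T.Walk u v)
    (hp : ∀ w ∈ p.support, l w ≤ r) (hu : u ≠ c) (hb : v = c ∨ br par D u ≠ br par D v) :
    Conn T l r u c := by
  induction p with
  | nil =>
    rcases hb with h | h
    · exact absurd h hu
    · exact absurd rfl h
  | @cons a b d h q ih =>
    have hla : l a ≤ r := hp a (by simp)
    have hq : ∀ w ∈ q.support, l w ≤ r := fun w hw => hp w (by simp [hw])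
    by_cases hbc : b = c
    · rw [← hbc]
      exact Conn.cons h hla (Conn.refl (hq b (by simp)))
    · exact Conn.cons h hla (ih hq hbc (by rwa [← R.br_adj h hu hbc]))

theorem conn_between (R : Rooted T c par D) {r : ℝ} {u v : X} (p : T.Walk u v)
    (hp : ∀ w ∈ p.support, l w ≤ r) (hu : u ≠ c) {w : X} (hw : w ≠ c)
    (hb : br par D w = br par D u) (h1 : D v ≤ D w) (h2 : D w ≤ D u) :
    l w ≤ r ∨ Conn T l r u c := by
  induction p with
  | @nil a =>
    left
    have : w = a := R.eq_of_br (D a) w a hw hu (by omega) rfl hb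
    rw [this]
    exact hp a (by simp)
  | @cons a b d h q ih =>
    have hla : l a ≤ r := hp a (by simp)
    have hq : ∀ w ∈ q.support, l w ≤ r := fun w hw => hp w (by simp [hw])
    by_cases hbc : b = c
    · right
      rw [← hbc]
      exact Conn.cons h hla (Conn.refl (hq b (by simp)))
    · by_cases hwa : D w = D a
      · left
        have : w = a := R.eq_of_br (D a) w a hw hu hwa rfl hb
        rw [this]
        exact hla
      · have h3 : D w ≤ D b := by
          rcases R.adj a b h with ⟨_, _, h4⟩ | ⟨_, _, h4⟩ <;> omega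
        rcases ih hq hbc (by rw [hb, R.br_adj h hu hbc]) h1 h3 with h4 | h4
        · exact Or.inl h4
        · exact Or.inr (Conn.cons h hla h4)

section metric

variable [MetricSpace X] [IsUltrametricDist X]

omit [IsUltrametricDist X] in
theorem M_par_le (R : Rooted T c par D) (hG : Generates T l) {v : X} (hv : v ≠ c) :
    Dist.dist (par v) c ≤ Dist.dist v c := by
  by_cases hp : par v = c
  · rw [hp, _root_.dist_self]
    exact dist_nonneg
  obtain ⟨h, q, hq⟩ := R.path v hv
  apply hG.dist_le _ hp
  exact ⟨q, fun w hw => hG.label_le hv hq (by simp [hw])⟩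

omit [IsUltrametricDist X] in
theorem l_le_M (hG : Generates T l) {v : X} (hv : v ≠ c) : l v ≤ Dist.dist v c := by
  obtain ⟨p, hp⟩ := (hG.1.existsUnique_path v c).exists
  exact hG.label_le hv hp p.start_mem_support

omit [IsUltrametricDist X] in
theorem lc_le_M (hG : Generates T l) {v : X} (hv : v ≠ c) : l c ≤ Dist.dist v c := by
  obtain ⟨p, hp⟩ := (hG.1.existsUnique_path v c).exists
  exact hG.label_le hv hp p.end_mem_support

theorem M_le (R : Rooted T c par D) (hG : Generates T l) (hlc : l c = 0) {v : X} (hv : v ≠ c) :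
    Dist.dist v c ≤ max (l v) (Dist.dist (par v) c) := by
  obtain ⟨h, -⟩ := R.path v hv
  by_cases hp : par v = c
  · rw [hp] at h
    rw [hp, hG.dist_adj h, hlc, _root_.dist_self]
  · refine (dist_triangle_max v (par v) c).trans ?_
    apply max_le _ (le_max_right _ _)
    rw [hG.dist_adj h]
    exact max_le_max le_rfl (l_le_M hG hp)

theorem M_mono (R : Rooted T c par D) (hG : Generates T l) : ∀ (n : ℕ) (u v : X), u ≠ c → v ≠ c →
    br par D u = br par D v → D v = D u + n → Dist.dist u c ≤ Dist.dist v c := by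
  intro n
  induction n with
  | zero =>
    intro u v hu hv hb hD
    rw [R.eq_of_br (D u) u v hu hv rfl (by omega) hb]
  | succ n ih =>
    intro u v hu hv hb hD
    have h0 := R.D_pos hu
    have hp := (R.par_ne (v := v) (by omega)).2
    have h1 := R.D_par v hv
    exact (ih u (par v) hu hp (by rw [R.br_par hv hp, hb]) (by omega)).trans (R.M_par_le hG hv)

theorem anc (R : Rooted T c par D) (hG : Generates T l) (hlc : l c = 0) :
    ∀ (n : ℕ) (v : X), D v = n → v ≠ c → ∃ w, w ≠ c ∧ br par D w = br par D v ∧ D w ≤ D v ∧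
      Dist.dist w c = Dist.dist v c ∧ l w = Dist.dist v c := by
  intro n
  induction n with
  | zero =>
    intro v h hv
    have := R.D_pos hv
    omega
  | succ n ih =>
    intro v h hv
    have h1 := R.M_le hG hlc hv
    have h2 := l_le_M hG hv
    have h3 := R.D_par v hv
    rcases le_max_iff.1 h1 with h4 | h4
    · exact ⟨v, hv, rfl, le_rfl, rfl, le_antisymm h2 h4⟩
    · have hp : par v ≠ c := by
        intro e
        rw [e, _root_.dist_self] at h4
        exact hv (dist_le_zero.1 h4)
      have h5 := le_antisymm h4 (R.M_par_le hG hv)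
      obtain ⟨w, a1, a2, a3, a4, a5⟩ := ih (par v) (by omega) hp
      exact ⟨w, a1, a2.trans (R.br_par hv hp), by omega, by rw [a4, h5], by rw [a5, h5]⟩

theorem between (R : Rooted T c par D) (hG : Generates T l) :
    ∀ (n : ℕ) (u v : X), u ≠ c → v ≠ c → br par D u = br par D v → D u = D v + n →
      u = v ∨ ∃ w, w ≠ c ∧ br par D w = br par D u ∧ D v ≤ D w ∧ D w ≤ D u ∧
        Dist.dist u v ≤ l w := by
  intro n
  induction n with
  | zero =>
    intro u v hu hv hb hD
    exact Or.inl (R.eq_of_br (D u) u v hu hv rfl (by omega) hb)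
  | succ n ih =>
    intro u v hu hv hb hD
    right
    have h0 := R.D_pos hv
    have hp := (R.par_ne (v := u) (by omega)).2
    have h1 := R.D_par u hu
    have hbp := R.br_par hu hp
    obtain ⟨h, -⟩ := R.path u hu
    have hd := hG.dist_adj h
    have hc1 : Dist.dist u (par u) ≤ l u ∨ Dist.dist u (par u) ≤ l (par u) :=
      le_max_iff.1 hd.le
    have htri := dist_triangle_max u (par u) v
    rcases ih (par u) v hp hv (by rw [hbp, hb]) (by omega) with h2 | ⟨w, a1, a2, a3, a4, a5⟩
    · rw [h2] at hc1
      rcases hc1 with h3 | h3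
      · exact ⟨u, hu, rfl, by omega, le_rfl, h3⟩
      · exact ⟨v, hv, hb.symm, le_rfl, by omega, h3⟩
    · rcases le_max_iff.1 htri with h3 | h3
      · rcases hc1 with h4 | h4
        · exact ⟨u, hu, rfl, by omega, le_rfl, h3.trans h4⟩
        · exact ⟨par u, hp, hbp, by omega, by omega, h3.trans h4⟩
      · exact ⟨w, a1, a2.trans hbp, a3, by omega, h3.trans a5⟩

omit [IsUltrametricDist X] in
theorem M_le_dist (R : Rooted T c par D) (hG : Generates T l) {u v : X} (hu : u ≠ c)
    (hb : br par D u ≠ br par D v) : Dist.dist u c ≤ Dist.dist u v := by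
  have huv : u ≠ v := fun e => hb (by rw [e])
  obtain ⟨p, hp⟩ := hG.conn huv
  exact hG.dist_le (R.conn_branch p hp hu (Or.inr hb)) hu

omit [IsUltrametricDist X] in
theorem level_finite [CompactSpace X] (R : Rooted T c par D) (hG : Generates T l)
    (hray : Rayless T) {r : ℝ} (hr : 0 < r) : {v | r ≤ Dist.dist v c}.Finite := by
  by_contra hinf
  have hinf : {v | r ≤ Dist.dist v c}.Infinite := hinf
  set s := hinf.natEmbedding _ with hs
  obtain ⟨w, φ, hφ, hw⟩ := CompactSpace.tendsto_subseq (fun n => (s n : X))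
  have hwr : r ≤ Dist.dist w c := by
    have h1 : Tendsto (fun n => Dist.dist ((s (φ n) : X)) c) atTop (𝓝 (Dist.dist w c)) :=
      Tendsto.dist hw tendsto_const_nhds
    exact ge_of_tendsto' h1 (fun n => (s (φ n)).2)
  have hwc : w ≠ c := by
    rintro rfl
    rw [_root_.dist_self] at hwr
    linarith
  obtain ⟨N, hN⟩ := Metric.tendsto_atTop.1 hw r hr
  have hfin := R.branch_finite hray w
  have hmem : ∀ n, N ≤ n → (s (φ n) : X) ∈ {v | v ≠ c ∧ br par D v = br par D w} := by
    intro n hn
    have h1 := hN n hn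
    simp only [Function.comp_apply] at h1
    refine ⟨fun e => ?_, ?_⟩
    · have h2 : r ≤ Dist.dist (s (φ n) : X) c := (s (φ n)).2
      rw [e, _root_.dist_self] at h2
      linarith
    · by_contra hne
      have h2 := R.M_le_dist hG hwc (Ne.symm hne)
      rw [_root_.dist_comm] at h1
      linarith
  have hinj : Function.Injective (fun n => (s (φ (N + n)) : X)) := by
    intro a b e
    have := s.injective (Subtype.ext e)
    have := hφ.injective this
    omega
  exact Set.infinite_range_of_injective hinj (hfin.subset (by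
    rintro _ ⟨n, rfl⟩
    exact hmem _ (by omega)))

end metric

end Rooted

end Pool.Agent.V11216.RayTree
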