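import Pool.Agent.V11216.RayTreeC

/-!
# The enumeration of the vertices of a starlike rayless tree by a ray
-/

namespace Pool.Agent.V11216.RayTree

open Set SimpleGraph Filter Topology

theorem exists_orderIso_nat {ι : Type*} [LinearOrder ι] [Infinite ι]
    (h : ∀ a : ι, (Set.Iic a).Finite) : Nonempty (ι ≃o ℕ) := by
  classical
  let : LocallyFiniteOrder ι :=
    LocallyFiniteOrder.ofFiniteIcc (fun a b => (h b).subset Set.Icc_subset_Iic_self)
  have : NoMaxOrder ι := ⟨fun a => by
    by_contra hc
    push Not at hc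
    exact Set.infinite_univ ((h a).subset (fun x _ => hc x))⟩
  obtain ⟨a⟩ : Nonempty ι := inferInstance
  obtain ⟨b, hb, hmin⟩ := Set.exists_min_image (Set.Iic a) id (h a) ⟨a, le_refl a⟩
  let : OrderBot ι :=
    { bot := b
      bot_le := fun x => by
        rcases le_total x a with hx | hx
        · exact hmin x hx
        · exact (show b ≤ a from hb).trans hx }
  let := LinearLocallyFiniteOrder.succOrder ι
  let := LinearLocallyFiniteOrder.predOrder ι
  exact ⟨orderIsoNatOfLinearSuccPredArch⟩

/-- if a countable ultrametric space has an enumeration such that the distances satisfy the two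
estimates, then it is generated by a ray. -/
theorem ray_of_enum {Z : Type*} [MetricSpace Z] [IsUltrametricDist Z] (e : Z ≃ ℕ) (l : Z → ℝ)
    (h0 : ∀ v, 0 ≤ l v)
    (h1 : ∀ n, Dist.dist (e.symm n) (e.symm (n + 1)) ≤ max (l (e.symm n)) (l (e.symm (n + 1))))
    (h2 : ∀ i j k, i < j → i ≤ k → k ≤ j → l (e.symm k) ≤ Dist.dist (e.symm i) (e.symm j)) :
    ∃ (R : SimpleGraph Z) (l' : Z → ℝ), IsRay R ∧ Generates R l' := by
  set x : ℕ → Z := fun n => e.symm n with hx
  have hex : ∀ n, e (x n) = n := fun n => e.apply_symm_apply n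
  set par : Z → Z := fun v => x (e v - 1) with hpar
  have hTree : (parGraph par).IsTree := by
    apply parGraph_isTree par (x 0) _ (fun v => e v)
    · intro v hv
      have : e v ≠ 0 := by
        intro h
        apply hv
        rw [← h]
        exact (e.symm_apply_apply v).symm
      simp only [hpar, hex]
      omega
    · simp [hpar, hex]
  have hadj : ∀ u v, (parGraph par).Adj u v ↔
      ∃ n, (u = x n ∧ v = x (n + 1)) ∨ (v = x n ∧ u = x (n + 1)) := by
    have key : ∀ u v, u ≠ v → v = par u → v = x (e u - 1) ∧ u = x (e u - 1 + 1) := by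
      intro u v huv h
      refine ⟨h, ?_⟩
      have : e u ≠ 0 := by
        intro h3
        apply huv
        have h4 : u = x (e u) := (e.symm_apply_apply u).symm
        have h5 : v = x (e u - 1) := h
        rw [h3] at h4 h5
        exact h4.trans h5.symm
      rw [show e u - 1 + 1 = e u by omega]
      exact (e.symm_apply_apply u).symm
    intro u v
    constructor
    · rintro ⟨huv, h | h⟩
      · exact ⟨e u - 1, Or.inr (key u v huv h)⟩
      · exact ⟨e v - 1, Or.inl (key v u huv.symm h)⟩
    · have hne : ∀ n, x n ≠ x (n + 1) := fun n h => by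
        have := congrArg e h
        rw [hex, hex] at this
        omega
      rintro ⟨n, ⟨rfl, rfl⟩ | ⟨rfl, rfl⟩⟩
      · exact ⟨hne n, Or.inr (by simp [hpar, hex])⟩
      · exact ⟨(hne n).symm, Or.inl (by simp [hpar, hex])⟩
  have hadj' : ∀ n, (parGraph par).Adj (x n) (x (n + 1)) := fun n =>
    (hadj _ _).2 ⟨n, Or.inl ⟨rfl, rfl⟩⟩
  refine ⟨parGraph par, l, ⟨x, e.symm.bijective, hadj⟩, ?_⟩
  apply generates_of hTree h0
  · intro u v huv
    obtain ⟨n, ⟨rfl, rfl⟩ | ⟨rfl, rfl⟩⟩ := (hadj u v).1 huv
    · exact h1 n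
    · rw [_root_.dist_comm, max_comm]
      exact h1 n
  · have key : ∀ i j, i < j → Conn (parGraph par) l (Dist.dist (x i) (x j)) (x i) (x j) := by
      intro i j hij
      obtain ⟨p, hp⟩ := ray_path x hadj' (j - i) i j (by omega)
      refine ⟨p, fun w hw => ?_⟩
      rw [hp, List.mem_map] at hw
      obtain ⟨k, hk, rfl⟩ := hw
      rw [List.mem_range'_1] at hk
      exact h2 i j k hij (by omega) (by omega)
    intro u v huv
    have hu : u = x (e u) := (e.symm_apply_apply u).symm
    have hv : v = x (e v) := (e.symm_apply_apply v).symm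
    have hne : e u ≠ e v := fun h => huv (e.injective h)
    rw [hu, hv]
    rcases lt_or_gt_of_ne hne with h | h
    · exact key _ _ h
    · rw [_root_.dist_comm]
      exact (key _ _ h).symm

open Rooted in
theorem ray_of_tree {X : Type*} [MetricSpace X] [IsUltrametricDist X] [CompactSpace X] [Infinite X]
    {T : SimpleGraph X} {l : X → ℝ} (hG : Generates T l) (hstar : Starlike T) (hray : Rayless T) :
    ∃ c : X, Dense {v : X | v ≠ c} ∧
      ∃ (R : SimpleGraph {v : X | v ≠ c}) (l' : {v : X | v ≠ c} → ℝ), IsRay R ∧ Generates R l' := by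
  obtain ⟨c, hc1, hc2⟩ := hstar
  have hdeg : ∀ v, v ≠ c → ¬ 2 < (T.neighborSet v).encard := fun v hv h => hv (hc2 v h)
  obtain ⟨par, D, R⟩ := exists_rooted hG.1 c hdeg
  have hlev := fun {r : ℝ} (hr : 0 < r) => R.level_finite hG hray hr
  -- the complement of `c` is infinite
  have hSinf : {v : X | v ≠ c}.Infinite := by
    have := Set.infinite_univ (α := X)
    have h2 : (Set.univ : Set X) \ {c} = {v : X | v ≠ c} := by
      ext v
      simp
    rw [← h2]
    exact this.sdiff (Set.finite_singleton c)
  have : Infinite {v : X | v ≠ c} := hSinf.to_subtype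
  -- the label of `c`
  have hlc : l c = 0 := by
    by_contra hne
    have hpos : 0 < l c := lt_of_le_of_ne (hG.2.1 c) (Ne.symm hne)
    exact hSinf ((hlev hpos).subset (fun v hv => lc_le_M hG hv))
  refine ⟨c, ?_, ?_⟩
  · intro v
    by_cases hv : v = c
    · subst hv
      rw [Metric.mem_closure_iff]
      intro ε hε
      by_contra hcon
      push Not at hcon
      exact hSinf ((hlev hε).subset (fun w hw => by
        have := hcon w hw
        rwa [_root_.dist_comm] at this))
    · exact subset_closure hv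
  -- the order
  set Z := {v : X | v ≠ c} with hZ
  obtain ⟨W, hW, g, hg⟩ : ∃ (W : Type _) (_ : LinearOrder W) (g : X → W), Function.Injective g := by
    classical
    exact ⟨X, linearOrderOfSTO (WellOrderingRel : X → X → Prop), id, Function.injective_id⟩
  set key : Z → ℝᵒᵈ ×ₗ (W ×ₗ ℕᵒᵈ) := fun v =>
    toLex (OrderDual.toDual (Dist.dist (v : X) c), toLex (g (br par D v), OrderDual.toDual (D v)))
    with hkey
  have hinj : Function.Injective key := by
    intro u v e
    simp only [hkey, EmbeddingLike.apply_eq_iff_eq, Prod.mk.injEq] at e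
    exact Subtype.ext (R.eq_of_br (D v) u v u.2 v.2 e.2.2 rfl (hg e.2.1))
  let : LinearOrder Z := LinearOrder.lift' key hinj
  have hle : ∀ u v : Z, u ≤ v ↔ Dist.dist (v : X) c < Dist.dist (u : X) c ∨
      (Dist.dist (u : X) c = Dist.dist (v : X) c ∧ (g (br par D u) < g (br par D v) ∨
        (br par D u = br par D v ∧ D v ≤ D u))) := by
    intro u v
    show key u ≤ key v ↔ _
    simp only [hkey, Prod.Lex.toLex_le_toLex, OrderDual.toDual_lt_toDual,
      OrderDual.toDual_le_toDual, EmbeddingLike.apply_eq_iff_eq, hg.eq_iff]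
  have hlt : ∀ u v : Z, u < v ↔ Dist.dist (v : X) c < Dist.dist (u : X) c ∨
      (Dist.dist (u : X) c = Dist.dist (v : X) c ∧ (g (br par D u) < g (br par D v) ∨
        (br par D u = br par D v ∧ D v < D u))) := by
    intro u v
    show key u < key v ↔ _
    simp only [hkey, Prod.Lex.toLex_lt_toLex, OrderDual.toDual_lt_toDual,
      EmbeddingLike.apply_eq_iff_eq, hg.eq_iff]
  have hMle : ∀ u v : Z, u ≤ v → Dist.dist (v : X) c ≤ Dist.dist (u : X) c := by
    intro u v h
    rcases (hle u v).1 h with h | h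
    · exact h.le
    · exact h.1.ge
  have hfin : ∀ a : Z, (Set.Iic a).Finite := by
    intro a
    have hpos : 0 < Dist.dist (a : X) c := dist_pos.2 a.2
    apply Set.Finite.of_finite_image _ Subtype.val_injective.injOn
    apply (hlev hpos).subset
    rintro _ ⟨v, hv, rfl⟩
    exact hMle v a hv
  obtain ⟨e⟩ := exists_orderIso_nat hfin
  -- upper bound for labels
  have P2 : ∀ v w z : Z, v < w → v ≤ z → z ≤ w → l z ≤ Dist.dist (v : X) (w : X) := by
    intro v w z hvw hvz hzw
    have hz : l z ≤ Dist.dist (v : X) c := (l_le_M hG z.2).trans (hMle v z hvz)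
    rcases (hlt v w).1 hvw with h | ⟨hM, h | ⟨hb, hD⟩⟩
    · have h1 : Dist.dist (v : X) (w : X) = Dist.dist (v : X) c := by
        have := IsUltrametricDist.dist_eq_max_of_dist_ne_dist (x := (v : X)) (y := c) (z := (w : X))
          (by rw [_root_.dist_comm c]; exact h.ne')
        rw [this, _root_.dist_comm c]
        exact max_eq_left h.le
      rw [h1]
      exact hz
    · exact hz.trans (R.M_le_dist hG v.2 (fun e => h.ne (congrArg g e)))
    · -- same branch, same level
      have hMz : Dist.dist (z : X) c = Dist.dist (v : X) c :=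
        le_antisymm (hMle v z hvz) (by rw [hM]; exact hMle z w hzw)
      have hbz : br par D z = br par D v ∧ D w ≤ D z ∧ D z ≤ D v := by
        rcases (hle v z).1 hvz with a1 | ⟨-, a1⟩
        · exact absurd hMz a1.ne
        rcases (hle z w).1 hzw with a2 | ⟨-, a2⟩
        · exact absurd (hMz.trans hM) a2.ne'
        rcases a1 with a1 | ⟨a1, a3⟩
        · rcases a2 with a2 | ⟨a2, a4⟩
          · exact absurd (congrArg g hb) (a1.trans a2).ne
          · exact absurd (congrArg g (hb.trans a2.symm)) a1.ne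
        · rcases a2 with a2 | ⟨a2, a4⟩
          · exact absurd (congrArg g (a1.symm.trans hb)) a2.ne
          · exact ⟨a1.symm, a4, a3⟩
      have hne : (v : X) ≠ w := fun h => by
        rw [h] at hD
        exact lt_irrefl _ hD
      obtain ⟨p, hp⟩ := hG.conn hne
      rcases R.conn_between p hp v.2 z.2 hbz.1 hbz.2.1 hbz.2.2 with h | h
      · exact h
      · exact hz.trans (hG.dist_le h v.2)
  -- lower bound
  have P1 : ∀ v w : Z, v < w → ∃ z : Z, v ≤ z ∧ z ≤ w ∧ Dist.dist (v : X) (w : X) ≤ l z := by
    intro v w hvw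
    have htri : Dist.dist (v : X) (w : X) ≤ Dist.dist (v : X) c := by
      have := dist_triangle_max (v : X) c (w : X)
      rw [_root_.dist_comm c (w : X)] at this
      exact this.trans (max_le le_rfl (hMle v w hvw.le))
    obtain ⟨z, a1, a2, a3, a4, a5⟩ := R.anc hG hlc (D v) v rfl v.2
    have hvz : v ≤ (⟨z, a1⟩ : Z) := (hle _ _).2 (Or.inr ⟨a4.symm, Or.inr ⟨a2.symm, a3⟩⟩)
    rcases (hlt v w).1 hvw with h | ⟨hM, h | ⟨hb, hD⟩⟩
    · exact ⟨⟨z, a1⟩, hvz, (hle _ _).2 (Or.inl (by rw [a4]; exact h)), htri.trans a5.ge⟩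
    · exact ⟨⟨z, a1⟩, hvz, (hle _ _).2 (Or.inr ⟨by rw [a4]; exact hM, Or.inl (by rw [a2]; exact h)⟩),
        htri.trans a5.ge⟩
    · rcases R.between hG (D v - D w) v w v.2 w.2 hb (by omega) with h | ⟨y, b1, b2, b3, b4, b5⟩
      · rw [h] at hD
        exact absurd hD (lt_irrefl _)
      · have c1 : Dist.dist y c ≤ Dist.dist (v : X) c :=
          R.M_mono hG (D v - D y) y v b1 v.2 b2 (by omega)
        have c2 : Dist.dist (w : X) c ≤ Dist.dist y c :=
          R.M_mono hG (D y - D w) w y w.2 b1 (by rw [b2, hb]) (by omega)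
        have c3 : Dist.dist (v : X) c = Dist.dist y c := le_antisymm (by rw [hM]; exact c2) c1
        exact ⟨⟨y, b1⟩, (hle _ _).2 (Or.inr ⟨c3, Or.inr ⟨b2.symm, b4⟩⟩),
          (hle _ _).2 (Or.inr ⟨c3.symm.trans hM, Or.inr ⟨b2.trans hb, b3⟩⟩), b5⟩
  apply ray_of_enum e.toEquiv (fun v => l v)
  · exact fun v => hG.2.1 _
  · intro n
    have hlt' : e.symm n < e.symm (n + 1) := e.symm.lt_iff_lt.2 (by omega)
    obtain ⟨z, h1, h2, h3⟩ := P1 _ _ hlt'
    have h4 : n ≤ e z := by
      have := e.monotone h1
      simpa using this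
    have h5 : e z ≤ n + 1 := by
      have := e.monotone h2
      simpa using this
    rcases (show e z = n ∨ e z = n + 1 by omega) with h | h
    · have hz : z = e.symm n := by rw [← h, e.symm_apply_apply]
      rw [hz] at h3
      exact h3.trans (le_max_left _ _)
    · have hz : z = e.symm (n + 1) := by rw [← h, e.symm_apply_apply]
      rw [hz] at h3
      exact h3.trans (le_max_right _ _)
  · intro i j k h1 h2 h3
    exact P2 _ _ _ (e.symm.lt_iff_lt.2 h1) (e.symm.monotone h2) (e.symm.monotone h3)

end Pool.Agent.V11216.RayTree
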