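import Mathlib

/-!
A well-filtered determined `T₁` space `Pt = [0,1] × Y` whose Smyth power space is not well-filtered
determined.
-/

set_option autoImplicit false

namespace Pool.Agent.V11216.WDX

open Set TopologicalSpace Topology

/-- The parameter interval. -/
abbrev T : Type := unitInterval

/-- A set of cardinality larger than the continuum. -/
abbrev Y : Type := Set (T × ℕ)

/-- The points `(t, y)`. -/
structure Pt : Type where
  t : T
  y : Y

/-- Open sets: every vertical section is empty or cofinite, every horizontal section is open. -/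
def Op (U : Set Pt) : Prop :=
  (∀ t, (∃ y, Pt.mk t y ∈ U) → {y | Pt.mk t y ∉ U}.Finite) ∧ ∀ y, IsOpen {t | Pt.mk t y ∈ U}

instance : TopologicalSpace Pt where
  IsOpen := Op
  isOpen_univ := ⟨fun t _ => by simp, fun y => by simp⟩
  isOpen_inter := by
    rintro U V ⟨h1, h2⟩ ⟨k1, k2⟩
    refine ⟨fun t h => ?_, fun y => (h2 y).inter (k2 y)⟩
    obtain ⟨y, hyU, hyV⟩ := h
    refine ((h1 t ⟨y, hyU⟩).union (k1 t ⟨y, hyV⟩)).subset ?_
    intro y' hy'
    by_cases h : Pt.mk t y' ∈ U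
    · exact Or.inr fun h' => hy' ⟨h, h'⟩
    · exact Or.inl h
  isOpen_sUnion := by
    intro S hS
    constructor
    · rintro t ⟨y, U, hU, hy⟩
      exact ((hS U hU).1 t ⟨y, hy⟩).subset fun y' hy' h => hy' ⟨U, hU, h⟩
    · intro y
      have : {t | Pt.mk t y ∈ ⋃₀ S} = ⋃ U ∈ S, {t | Pt.mk t y ∈ U} := by
        ext t
        simp
      rw [this]
      exact isOpen_biUnion fun U hU => (hS U hU).2 y

/-- A set with finite vertical sections and closed horizontal sections is closed. -/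
theorem isClosed_of {C : Set Pt} (h1 : ∀ t, {y | Pt.mk t y ∈ C}.Finite)
    (h2 : ∀ y, IsClosed {t | Pt.mk t y ∈ C}) : IsClosed C := by
  rw [← isOpen_compl_iff]
  refine ⟨fun t _ => (h1 t).subset fun y hy => not_not.1 hy, fun y => (h2 y).isOpen_compl⟩

instance : T1Space Pt := by
  constructor
  rintro ⟨t₀, y₀⟩
  apply isClosed_of
  · intro t
    refine (finite_singleton y₀).subset ?_
    intro y hy
    exact (Pt.mk.inj (show Pt.mk t y = Pt.mk t₀ y₀ from hy)).2
  · intro y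
    have : {t | Pt.mk t y ∈ ({⟨t₀, y₀⟩} : Set Pt)} ⊆ {t₀} := by
      intro t ht
      exact (Pt.mk.inj (show Pt.mk t y = Pt.mk t₀ y₀ from ht)).1
    exact ((finite_singleton t₀).subset this).isClosed

/-- The vertical lines. -/
def ver (t : T) : Set Pt := {p | p.t = t}

theorem isClosed_ver (t₀ : T) : IsClosed (ver t₀) := by
  rw [← isOpen_compl_iff]
  constructor
  · rintro t ⟨y, hy⟩
    have : {y | Pt.mk t y ∉ (ver t₀)ᶜ} = ∅ := by
      ext y'
      constructor
      · intro h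
        exact hy (not_not.1 h)
      · intro h; cases h
    rw [this]
    exact finite_empty
  · intro y
    exact (isClosed_singleton (x := t₀)).isOpen_compl

theorem continuous_t : Continuous Pt.t := by
  rw [continuous_def]
  intro V hV
  constructor
  · rintro t ⟨y, hy⟩
    have : {y | Pt.mk t y ∉ Pt.t ⁻¹' V} = ∅ := by
      ext y'
      constructor
      · intro h
        exact h hy
      · intro h; cases h
    rw [this]
    exact finite_empty
  · intro y
    exact hV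

theorem isClosedEmbedding_col (y : Y) : IsClosedEmbedding (fun t : T => Pt.mk t y) := by
  refine IsClosedEmbedding.of_continuous_injective_isClosedMap ?_ ?_ ?_
  · rw [continuous_def]
    intro U hU
    exact hU.2 y
  · intro t t' h
    exact (Pt.mk.inj h).1
  · intro C hC
    apply isClosed_of
    · intro t
      refine (finite_singleton y).subset ?_
      rintro y' ⟨t', -, h⟩
      exact (Pt.mk.inj h).2.symm
    · intro y'
      by_cases h : y' = y
      · subst h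
        convert hC
        ext t
        constructor
        · rintro ⟨t', ht', h⟩
          rw [← (Pt.mk.inj h).1]
          exact ht'
        · intro ht
          exact ⟨t, ht, rfl⟩
      · have : {t | Pt.mk t y' ∈ (fun t : T => Pt.mk t y) '' C} = ∅ := by
          ext t
          constructor
          · rintro ⟨t', -, h'⟩
            exact h (Pt.mk.inj h').2.symm
          · intro h; cases h
        rw [this]
        exact isClosed_empty

theorem continuous_ver (t : T) : Continuous (fun y : CofiniteTopology Y => Pt.mk t (CofiniteTopology.of.symm y)) := by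
  rw [continuous_def]
  intro U hU
  rw [CofiniteTopology.isOpen_iff]
  rintro ⟨y, hy⟩
  have := hU.1 t ⟨_, hy⟩
  exact this.preimage (CofiniteTopology.of.symm.injective.injOn)

/-- Compact sets are covered by finitely many horizontal and vertical lines. -/
theorem compact_cover {K : Set Pt} (hK : IsCompact K) :
    ∃ (A : Set T) (B : Set Y), A.Finite ∧ B.Finite ∧ ∀ p ∈ K, p.t ∈ A ∨ p.y ∈ B := by
  classical
  by_contra hcon
  push Not at hcon
  obtain ⟨f, hfK, hf⟩ := exists_seq_of_forall_finset_exists (fun p : Pt => p ∈ K)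
    (fun p q => p.t ≠ q.t ∧ p.y ≠ q.y) (by
      intro s _
      obtain ⟨p, hp, hpA, hpB⟩ := hcon (s.image Pt.t : Finset T) (s.image Pt.y : Finset Y)
        (Finset.finite_toSet _) (Finset.finite_toSet _)
      refine ⟨p, hp, fun x hx => ⟨fun h => hpA ?_, fun h => hpB ?_⟩⟩
      · rw [← h]
        exact Finset.mem_coe.2 (Finset.mem_image_of_mem _ hx)
      · rw [← h]
        exact Finset.mem_coe.2 (Finset.mem_image_of_mem _ hx))
  have hf' : ∀ m n, (f m).t = (f n).t → m = n := by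
    intro m n h
    rcases lt_trichotomy m n with h1 | h1 | h1
    · exact absurd h (hf m n h1).1
    · exact h1
    · exact absurd h.symm (hf n m h1).1
  have hf'' : ∀ m n, (f m).y = (f n).y → m = n := by
    intro m n h
    rcases lt_trichotomy m n with h1 | h1 | h1
    · exact absurd h (hf m n h1).2
    · exact h1
    · exact absurd h.symm (hf n m h1).2
  have hcl : ∀ n, IsClosed (f '' Ici n) := by
    intro n
    apply isClosed_of
    · intro t
      have h1 : {y | Pt.mk t y ∈ f '' Ici n}.Subsingleton := by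
        rintro y ⟨m, _, hm⟩ y' ⟨m', _, hm'⟩
        have h2 : m = m' := hf' m m' (by rw [hm, hm'])
        subst h2
        rw [hm] at hm'
        exact (Pt.mk.inj hm').2
      exact h1.finite
    · intro y
      have h1 : {t | Pt.mk t y ∈ f '' Ici n}.Subsingleton := by
        rintro t ⟨m, _, hm⟩ t' ⟨m', _, hm'⟩
        have h2 : m = m' := hf'' m m' (by rw [hm, hm'])
        subst h2
        rw [hm] at hm'
        exact (Pt.mk.inj hm').1
      exact h1.finite.isClosed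
  obtain ⟨n, hn⟩ := hK.elim_directed_cover (fun n => (f '' Ici n)ᶜ) (fun n => (hcl n).isOpen_compl)
    (by
      intro p _
      rw [mem_iUnion]
      by_cases h : ∃ m, f m = p
      · obtain ⟨m, rfl⟩ := h
        refine ⟨m + 1, ?_⟩
        rintro ⟨m', hm', h⟩
        have h2 : m' = m := hf' m' m (by rw [h])
        rw [h2] at hm'
        exact absurd (show m + 1 ≤ m from hm') (by omega)
      · refine ⟨0, ?_⟩
        rintro ⟨m, -, hm⟩
        exact h ⟨m, hm⟩)
    (Monotone.directed_le fun n n' hnn' => compl_subset_compl.2 (image_mono (Ici_subset_Ici.2 hnn')))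
  exact hn (hfK n) ⟨n, mem_Ici.2 le_rfl, rfl⟩

/-- Sets covered by finitely many lines with closed horizontal sections are compact. -/
theorem isCompact_of {K : Set Pt} {A : Set T} {B : Set Y} (hA : A.Finite) (hB : B.Finite)
    (hcov : ∀ p ∈ K, p.t ∈ A ∨ p.y ∈ B) (hcl : ∀ y, IsClosed {t | Pt.mk t y ∈ K}) : IsCompact K := by
  have h1 : K = (⋃ t ∈ A, (fun y : CofiniteTopology Y => Pt.mk t (CofiniteTopology.of.symm y)) ''
      {y | Pt.mk t (CofiniteTopology.of.symm y) ∈ K}) ∪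
      ⋃ y ∈ B, (fun t : T => Pt.mk t y) '' {t | Pt.mk t y ∈ K} := by
    ext ⟨t, y⟩
    constructor
    · intro hp
      rcases hcov _ hp with h | h
      · refine Or.inl (mem_biUnion h ⟨CofiniteTopology.of y, ?_, ?_⟩)
        · change Pt.mk t (CofiniteTopology.of.symm (CofiniteTopology.of y)) ∈ K
          rw [Equiv.symm_apply_apply]
          exact hp
        · simp
      · exact Or.inr (mem_biUnion h ⟨t, hp, rfl⟩)
    · rintro (hp | hp)
      · obtain ⟨t', -, y', hy', h⟩ := mem_iUnion₂.1 hp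
        rw [← h]
        exact hy'
      · obtain ⟨y', -, t', ht', h⟩ := mem_iUnion₂.1 hp
        rw [← h]
        exact ht'
  rw [h1]
  refine (hA.isCompact_biUnion fun t _ => ?_).union (hB.isCompact_biUnion fun y _ => ?_)
  · exact (NoetherianSpace.isCompact _).image (continuous_ver t)
  · exact ((hcl y).isCompact).image (isClosedEmbedding_col y).continuous

theorem isClosed_col {K : Set Pt} (hK : IsCompact K) (y : Y) : IsClosed {t | Pt.mk t y ∈ K} :=
  ((isClosedEmbedding_col y).isCompact_preimage hK).isClosed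

/-- Irreducible closed sets are singletons or vertical lines. -/
theorem irreducible {C : Set Pt} (hC : IsClosed C) (hirr : IsIrreducible C) :
    (∃ p, C = {p}) ∨ ∃ t, C = ver t := by
  obtain ⟨c, hc⟩ := hirr.nonempty
  have h1 : ∀ p ∈ C, p.t = c.t := by
    intro p hp
    by_contra h
    obtain ⟨U, V, hU, hV, hpU, hcV, hUV⟩ := t2_separation h
    obtain ⟨q, -, hqU, hqV⟩ := hirr.isPreirreducible _ _ (hU.preimage continuous_t)
      (hV.preimage continuous_t) ⟨p, hp, hpU⟩ ⟨c, hc, hcV⟩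
    exact disjoint_left.1 hUV hqU hqV
  by_cases hall : ∀ y, Pt.mk c.t y ∈ C
  · right
    refine ⟨c.t, Subset.antisymm h1 ?_⟩
    rintro ⟨t, y⟩ hp
    rw [show t = c.t from hp]
    exact hall y
  · left
    push Not at hall
    obtain ⟨y₀, hy₀⟩ := hall
    have hfin : {y | Pt.mk c.t y ∈ C}.Finite := by
      have := (hC.isOpen_compl).1 c.t ⟨y₀, hy₀⟩
      exact this.subset fun y hy h => h hy
    have hsub : ∀ D : Set Pt, D ⊆ C → IsClosed D := by
      intro D hD
      apply isClosed_of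
      · intro t
        by_cases ht : t = c.t
        · subst ht
          exact hfin.subset fun y hy => hD hy
        · refine finite_empty.subset ?_
          intro y hy
          exact ht (h1 _ (hD hy))
      · intro y
        refine ((finite_singleton c.t).subset ?_).isClosed
        intro t ht
        exact h1 _ (hD ht)
    refine ⟨c, ?_⟩
    rcases isPreirreducible_iff_isClosed_union_isClosed.1 hirr.isPreirreducible {c} (C \ {c})
      (hsub _ (singleton_subset_iff.2 hc)) (hsub _ sdiff_subset) (by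
        intro p hp
        by_cases h : p = c
        · exact Or.inl h
        · exact Or.inr ⟨hp, h⟩) with h | h
    · exact Subset.antisymm h (singleton_subset_iff.2 hc)
    · exact absurd rfl (h hc).2

/-- For any family of finite subsets of `Y` indexed by `[0,1]` some point is in none of them. -/
theorem exists_outside (F : T → Set Y) (hF : ∀ t, (F t).Finite) : ∃ y, ∀ t, y ∉ F t := by
  by_contra hcon
  push Not at hcon
  have h1 : ∀ t, ∃ f : ℕ → Y, F t ⊆ range f := fun t =>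
    countable_iff_exists_subset_range.1 (hF t).countable
  choose f hf using h1
  refine Function.cantor_surjective (fun p : T × ℕ => f p.1 p.2) fun y => ?_
  obtain ⟨t, ht⟩ := hcon y
  obtain ⟨n, hn⟩ := hf t ht
  exact ⟨(t, n), hn⟩

/-- Minimal closed sets meeting all members of a family of compact sets. -/
theorem rudin {Z : Type} [TopologicalSpace Z] (𝒦 : Set (Set Z)) (hc : ∀ K ∈ 𝒦, IsCompact K)
    (C₀ : Set Z) (hC₀ : IsClosed C₀) (h : ∀ K ∈ 𝒦, (K ∩ C₀).Nonempty) :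
    ∃ C ⊆ C₀, IsClosed C ∧ (∀ K ∈ 𝒦, (K ∩ C).Nonempty) ∧
      ∀ C' ⊆ C, IsClosed C' → (∀ K ∈ 𝒦, (K ∩ C').Nonempty) → C' = C := by
  obtain ⟨C, hCC₀, hC⟩ := zorn_superset_nonempty {C : Set Z | IsClosed C ∧ ∀ K ∈ 𝒦, (K ∩ C).Nonempty}
    (by
      intro c hc' hchain hne
      refine ⟨⋂₀ c, ⟨isClosed_sInter fun C hC => (hc' hC).1, fun K hK => ?_⟩,
        fun C hC => sInter_subset_of_mem hC⟩
      refine (hc K hK).nonempty_inter_sInter (fun C hC => (hc' hC).1) fun a hac hafin => ?_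
      -- the intersection of finitely many members contains a member
      have key : ∃ C ∈ c, C ⊆ ⋂₀ a := by
        induction a, hafin using Set.Finite.induction_on with
        | empty =>
          obtain ⟨C, hC⟩ := hne
          exact ⟨C, hC, by simp⟩
        | insert _ _ ih =>
          rename_i D a _ _
          obtain ⟨C, hC, hCa⟩ := ih ((subset_insert D a).trans hac)
          have hD : D ∈ c := hac (mem_insert D a)
          rcases hchain.total hC hD with h1 | h1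
          · exact ⟨C, hC, by rw [sInter_insert]; exact subset_inter h1 hCa⟩
          · exact ⟨D, hD, by rw [sInter_insert]; exact subset_inter subset_rfl (h1.trans hCa)⟩
      obtain ⟨C, hC, hCa⟩ := key
      exact ((hc' hC).2 K hK).mono (inter_subset_inter_right _ hCa)) C₀ ⟨hC₀, h⟩
  refine ⟨C, hCC₀, hC.prop.1, hC.prop.2, fun C' hC'C hC'cl hC' => ?_⟩
  exact Subset.antisymm hC'C (hC.le_of_le ⟨hC'cl, hC'⟩ hC'C)

/-- The Smyth power space. -/
abbrev PS : Type := {K : Set Pt // K.Nonempty ∧ IsCompact K ∧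
          ∀ x : Pt, (∀ V : Set Pt, IsOpen V → K ⊆ V → x ∈ V) → x ∈ K}

instance : TopologicalSpace PS := TopologicalSpace.generateFrom
        {S | ∃ U : Set Pt, IsOpen U ∧ S = {K | K.1 ⊆ U}}

/-- compact nonempty sets as points -/
def mkPS (K : Set Pt) (hne : K.Nonempty) (hK : IsCompact K) : PS := ⟨K, hne, hK, fun x hx => by
  by_contra h
  exact hx {x}ᶜ isOpen_compl_singleton (fun y hy hyx => h ((show y = x from hyx) ▸ hy)) rfl⟩

theorem isOpen_box {U : Set Pt} (hU : IsOpen U) : IsOpen {K : PS | K.1 ⊆ U} :=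
  TopologicalSpace.isOpen_generateFrom_of_mem ⟨U, hU, rfl⟩

theorem exists_box {W : Set PS} (hW : IsOpen W) {K : PS} (hK : K ∈ W) :
    ∃ U : Set Pt, IsOpen U ∧ K.1 ⊆ U ∧ {L : PS | L.1 ⊆ U} ⊆ W := by
  induction hW generalizing K with
  | basic S hS =>
    obtain ⟨U, hU, rfl⟩ := hS
    exact ⟨U, hU, hK, subset_rfl⟩
  | univ => exact ⟨univ, isOpen_univ, subset_univ _, subset_univ _⟩
  | inter S T _ _ ihS ihT =>
    obtain ⟨U, hU, hKU, hUS⟩ := ihS hK.1
    obtain ⟨V, hV, hKV, hVT⟩ := ihT hK.2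
    exact ⟨U ∩ V, hU.inter hV, subset_inter hKU hKV, fun L hL =>
      ⟨hUS (hL.trans inter_subset_left), hVT (hL.trans inter_subset_right)⟩⟩
  | sUnion 𝒮 _ ih =>
    obtain ⟨S, hS, hKS⟩ := hK
    obtain ⟨U, hU, hKU, hUS⟩ := ih S hS hKS
    exact ⟨U, hU, hKU, hUS.trans (subset_sUnion_of_mem hS)⟩

/-- The set of compact sets meeting all vertical lines. -/
def 𝒜 : Set PS := {K | ∀ t, ∃ y, Pt.mk t y ∈ K.1}

theorem isClosed_𝒜 : IsClosed 𝒜 := by
  rw [← isOpen_compl_iff]
  have : 𝒜ᶜ = ⋃ t, {K : PS | K.1 ⊆ (ver t)ᶜ} := by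
    ext K
    constructor
    · intro hK
      change ¬ ∀ t, ∃ y, Pt.mk t y ∈ K.1 at hK
      push Not at hK
      obtain ⟨t, ht⟩ := hK
      refine mem_iUnion.2 ⟨t, ?_⟩
      rintro ⟨t', y⟩ hp h
      rw [show t' = t from h] at hp
      exact ht y hp
    · intro hK h
      obtain ⟨t, ht⟩ := mem_iUnion.1 hK
      obtain ⟨y, hy⟩ := h t
      exact ht hy rfl
  rw [this]
  exact isOpen_iUnion fun t => isOpen_box (isClosed_ver t).isOpen_compl

/-- horizontal lines -/
def hor (y : Y) : PS := mkPS ((fun t : T => Pt.mk t y) '' univ) ⟨⟨0, y⟩, 0, trivial, rfl⟩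
  (isCompact_univ.image (isClosedEmbedding_col y).continuous)

theorem hor_mem (y : Y) : hor y ∈ 𝒜 := fun t => ⟨y, t, trivial, rfl⟩

theorem isIrreducible_𝒜 : IsIrreducible 𝒜 := by
  refine ⟨⟨hor ∅, hor_mem ∅⟩, ?_⟩
  rintro W W' hW hW' ⟨K, hKA, hKW⟩ ⟨K', hKA', hKW'⟩
  obtain ⟨U, hU, hKU, hUW⟩ := exists_box hW hKW
  obtain ⟨U', hU', hKU', hUW'⟩ := exists_box hW' hKW'
  obtain ⟨y, hy⟩ := exists_outside (fun t => {y | Pt.mk t y ∉ U} ∪ {y | Pt.mk t y ∉ U'}) (by
    intro t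
    obtain ⟨y, hy⟩ := hKA t
    obtain ⟨y', hy'⟩ := hKA' t
    exact (hU.1 t ⟨y, hKU hy⟩).union (hU'.1 t ⟨y', hKU' hy'⟩))
  refine ⟨hor y, hor_mem y, hUW ?_, hUW' ?_⟩
  · rintro _ ⟨t, -, rfl⟩
    by_contra h
    exact hy t (Or.inl h)
  · rintro _ ⟨t, -, rfl⟩
    by_contra h
    exact hy t (Or.inr h)

/-- `◇ C` is closed. -/
theorem isClosed_dia {C : Set Pt} (hC : IsClosed C) : IsClosed {K : PS | (K.1 ∩ C).Nonempty} := by
  rw [← isOpen_compl_iff]
  have : {K : PS | (K.1 ∩ C).Nonempty}ᶜ = {K : PS | K.1 ⊆ Cᶜ} := by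
    ext K
    constructor
    · intro hK x hx hxC
      exact hK ⟨x, hx, hxC⟩
    · rintro hK ⟨x, hx, hxC⟩
      exact hK hx hxC
  rw [this]
  exact isOpen_box hC.isOpen_compl

/-- The union of a compact family is compact. -/
theorem isCompact_biUnion {Q : Set PS} (hQ : IsCompact Q) : IsCompact (⋃ K ∈ Q, K.1) := by
  classical
  rw [isCompact_iff_finite_subcover]
  intro ι U hU hcov
  obtain ⟨s, hs⟩ := hQ.elim_directed_cover (fun s : Finset ι => {K : PS | K.1 ⊆ ⋃ i ∈ s, U i})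
    (fun s => isOpen_box (isOpen_biUnion fun i _ => hU i)) (by
      intro K hK
      obtain ⟨s, hs⟩ := K.2.2.1.elim_finite_subcover U hU ((subset_biUnion_of_mem hK).trans hcov)
      exact mem_iUnion.2 ⟨s, hs⟩)
    (Monotone.directed_le (fun s s' hss' K hK =>
      (show K.1 ⊆ ⋃ i ∈ s, U i from hK).trans (biUnion_subset_biUnion_left hss')))
  exact ⟨s, iUnion₂_subset fun K hK => hs hK⟩

/-- Irreducible sets covered by finitely many closed sets. -/
theorem irr_finite {Z ι : Type} [TopologicalSpace Z] {C : Set Z} (hC : IsIrreducible C) {B : Set ι}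
    (hB : B.Finite) (D : ι → Set Z) (hD : ∀ i, IsClosed (D i)) (h : C ⊆ ⋃ i ∈ B, D i) :
    ∃ i ∈ B, C ⊆ D i := by
  classical
  obtain ⟨z, hz, hCz⟩ := isIrreducible_iff_sUnion_isClosed.1 hC (hB.toFinset.image D) (by
    intro z hz
    obtain ⟨i, -, rfl⟩ := Finset.mem_image.1 hz
    exact hD i) (by
    intro x hx
    obtain ⟨i, hi, hxi⟩ := mem_iUnion₂.1 (h hx)
    exact ⟨D i, Finset.mem_coe.2 (Finset.mem_image_of_mem _ (hB.mem_toFinset.2 hi)), hxi⟩)
  obtain ⟨i, hi, rfl⟩ := Finset.mem_image.1 hz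
  exact ⟨i, hB.mem_toFinset.1 hi, hCz⟩

/-- The main point: `𝒜` has the well-filteredness property. -/
theorem wf (𝒦 : Set (Set PS)) (hc : ∀ Q ∈ 𝒦, IsCompact Q) (hA : ∀ Q ∈ 𝒦, Q ⊆ 𝒜)
    (hup : ∀ Q ∈ 𝒦, ∀ K ∈ Q, ∀ L ∈ 𝒜, L.1 ⊆ K.1 → L ∈ Q) (hne : 𝒦.Nonempty)
    (hfil : ∀ Q₁ ∈ 𝒦, ∀ Q₂ ∈ 𝒦, ∃ Q₃ ∈ 𝒦, Q₃ ⊆ Q₁ ∩ Q₂) (W : Set PS) (hW : IsOpen W)
    (hKW : ⋂₀ 𝒦 ⊆ W) : ∃ Q ∈ 𝒦, Q ⊆ W := by
  by_contra hcon
  push Not at hcon
  obtain ⟨𝒞, h𝒞W, h𝒞cl, h𝒞, hmin⟩ := rudin 𝒦 hc Wᶜ hW.isClosed_compl (by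
    intro Q hQ
    obtain ⟨K, hK, hKW⟩ := not_subset.1 (hcon Q hQ)
    exact ⟨K, hK, hKW⟩)
  -- replace `𝒞` by its intersection with `𝒜`
  have h𝒞A : 𝒞 ⊆ 𝒜 := by
    have := hmin (𝒞 ∩ 𝒜) inter_subset_left (h𝒞cl.inter isClosed_𝒜) (by
      intro Q hQ
      obtain ⟨K, hKQ, hK⟩ := h𝒞 Q hQ
      exact ⟨K, hKQ, hK, hA Q hQ hKQ⟩)
    rw [← this]
    exact inter_subset_right
  -- a closed set meeting all members of `𝒦` below one member contains `𝒞`
  have hmin' : ∀ Q ∈ 𝒦, ∀ D : Set PS, IsClosed D → (∀ K ∈ Q ∩ 𝒞, K ∈ D) → 𝒞 ⊆ D := by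
    intro Q hQ D hD hQD
    have := hmin (𝒞 ∩ D) inter_subset_left (h𝒞cl.inter hD) (by
      intro Q' hQ'
      obtain ⟨Q'', hQ'', hsub⟩ := hfil Q hQ Q' hQ'
      obtain ⟨K, hKQ, hK⟩ := h𝒞 Q'' hQ''
      exact ⟨K, (hsub hKQ).2, hK, hQD K ⟨(hsub hKQ).1, hK⟩⟩)
    rw [← this]
    exact inter_subset_right
  have hirr : IsIrreducible 𝒞 := by
    obtain ⟨Q, hQ⟩ := hne
    refine ⟨(h𝒞 Q hQ).mono inter_subset_right, ?_⟩
    rw [isPreirreducible_iff_isClosed_union_isClosed]
    intro D₁ D₂ hD₁ hD₂ hcov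
    by_contra hnot
    push Not at hnot
    obtain ⟨h1, h2⟩ := hnot
    have h3 : ∃ Q₁ ∈ 𝒦, Q₁ ∩ (𝒞 ∩ D₁) = ∅ := by
      by_contra h4
      push Not at h4
      apply h1
      rw [← hmin (𝒞 ∩ D₁) inter_subset_left (h𝒞cl.inter hD₁) fun Q hQ => h4 Q hQ]
      exact inter_subset_right
    have h4 : ∃ Q₂ ∈ 𝒦, Q₂ ∩ (𝒞 ∩ D₂) = ∅ := by
      by_contra h4
      push Not at h4
      apply h2
      rw [← hmin (𝒞 ∩ D₂) inter_subset_left (h𝒞cl.inter hD₂) fun Q hQ => h4 Q hQ]
      exact inter_subset_right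
    obtain ⟨Q₁, hQ₁, h5⟩ := h3
    obtain ⟨Q₂, hQ₂, h6⟩ := h4
    obtain ⟨Q₃, hQ₃, hsub⟩ := hfil Q₁ hQ₁ Q₂ hQ₂
    obtain ⟨K, hKQ, hK⟩ := h𝒞 Q₃ hQ₃
    rcases hcov hK with h7 | h7
    · exact (Set.ext_iff.1 h5 K).1 ⟨(hsub hKQ).1, hK, h7⟩
    · exact (Set.ext_iff.1 h6 K).1 ⟨(hsub hKQ).2, hK, h7⟩
  obtain ⟨Q, hQ⟩ := hne
  obtain ⟨A, B, hAf, hBf, hcov⟩ := compact_cover (isCompact_biUnion ((hc Q hQ).inter_right h𝒞cl))
  have hcov' : ∀ K ∈ Q ∩ 𝒞, ∀ p ∈ K.1, p.t ∈ A ∨ p.y ∈ B :=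
    fun K hK p hp => hcov p (mem_biUnion hK hp)
  -- every member of `Q ∩ 𝒞` is covered by `B` everywhere
  have hall : ∀ K ∈ Q ∩ 𝒞, ∀ t, ∃ y ∈ B, Pt.mk t y ∈ K.1 := by
    intro K hK
    have hcl : IsClosed (⋃ y ∈ B, {t | Pt.mk t y ∈ K.1}) :=
      hBf.isClosed_biUnion fun y _ => isClosed_col K.2.2.1 y
    have hdense : Dense (univ \ A) := dense_univ.sdiff_finite hAf
    have hsub : univ \ A ⊆ ⋃ y ∈ B, {t | Pt.mk t y ∈ K.1} := by
      rintro t ⟨-, ht⟩
      obtain ⟨y, hy⟩ := h𝒞A hK.2 t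
      rcases hcov' K hK _ hy with h | h
      · exact absurd h ht
      · exact mem_biUnion h hy
    have huniv : (⋃ y ∈ B, {t | Pt.mk t y ∈ K.1}) = univ := by
      rw [← hcl.closure_eq]
      exact (hdense.mono hsub).closure_eq
    intro t
    obtain ⟨y, hy, h⟩ := mem_iUnion₂.1 (huniv ▸ mem_univ t : t ∈ ⋃ y ∈ B, {t | Pt.mk t y ∈ K.1})
    exact ⟨y, hy, h⟩
  -- the limit point
  have hstar : ∀ t, ∃ y, ∀ K ∈ 𝒞, Pt.mk t y ∈ K.1 := by
    intro t
    have h1 : 𝒞 ⊆ ⋃ y ∈ B, {K : PS | (K.1 ∩ {Pt.mk t y}).Nonempty} := by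
      refine hmin' Q hQ _ (hBf.isClosed_biUnion fun y _ => isClosed_dia isClosed_singleton) ?_
      intro K hK
      obtain ⟨y, hy, h⟩ := hall K hK t
      exact mem_biUnion hy ⟨_, h, rfl⟩
    obtain ⟨y, -, hy⟩ := irr_finite hirr hBf _ (fun y => isClosed_dia isClosed_singleton) h1
    refine ⟨y, fun K hK => ?_⟩
    obtain ⟨p, hp, hp'⟩ := hy hK
    rw [← show p = Pt.mk t y from hp']
    exact hp
  obtain ⟨K₀, hK₀Q, hK₀⟩ := h𝒞 Q hQ
  have hKs : IsCompact (⋂ K ∈ 𝒞, K.1) := by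
    refine isCompact_of hAf hBf (fun p hp => hcov' K₀ ⟨hK₀Q, hK₀⟩ p (mem_iInter₂.1 hp K₀ hK₀)) ?_
    intro y
    have : {t | Pt.mk t y ∈ ⋂ K ∈ 𝒞, K.1} = ⋂ K ∈ 𝒞, {t | Pt.mk t y ∈ K.1} := by
      ext t
      simp
    rw [this]
    exact isClosed_biInter fun K _ => isClosed_col K.2.2.1 y
  obtain ⟨y₀, hy₀⟩ := hstar 0
  let Ks : PS := mkPS (⋂ K ∈ 𝒞, K.1) ⟨Pt.mk 0 y₀, mem_iInter₂.2 hy₀⟩ hKs
  have hKsA : Ks ∈ 𝒜 := by
    intro t
    obtain ⟨y, hy⟩ := hstar t
    exact ⟨y, mem_iInter₂.2 hy⟩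
  have hKsQ : Ks ∈ ⋂₀ 𝒦 := by
    intro Q' hQ'
    obtain ⟨K, hKQ, hK⟩ := h𝒞 Q' hQ'
    exact hup Q' hQ' K hKQ Ks hKsA (biInter_subset_of_mem hK)
  have hKs𝒞 : Ks ∈ 𝒞 := by
    by_contra hnot
    obtain ⟨U, hU, hKsU, hU𝒞⟩ := exists_box h𝒞cl.isOpen_compl hnot
    obtain ⟨C', hC'U, hC'cl, hC', hC'min⟩ := rudin {S | ∃ K ∈ 𝒞, S = K.1} (by
      rintro _ ⟨K, -, rfl⟩
      exact K.2.2.1) Uᶜ hU.isClosed_compl (by
      rintro _ ⟨K, hK, rfl⟩
      by_contra h
      apply hU𝒞 _ hK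
      intro x hx
      by_contra hxU
      exact h ⟨x, hx, hxU⟩)
    have hC'irr : IsIrreducible C' := by
      constructor
      · exact (hC' _ ⟨K₀, hK₀, rfl⟩).mono inter_subset_right
      · rw [isPreirreducible_iff_isClosed_union_isClosed]
        intro D₁ D₂ hD₁ hD₂ hcov
        rcases isPreirreducible_iff_isClosed_union_isClosed.1 hirr.isPreirreducible
          {K : PS | (K.1 ∩ (C' ∩ D₁)).Nonempty} {K : PS | (K.1 ∩ (C' ∩ D₂)).Nonempty}
          (isClosed_dia (hC'cl.inter hD₁)) (isClosed_dia (hC'cl.inter hD₂)) (by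
            intro K hK
            obtain ⟨x, hxK, hx⟩ := hC' _ ⟨K, hK, rfl⟩
            rcases hcov hx with h | h
            · exact Or.inl ⟨x, hxK, hx, h⟩
            · exact Or.inr ⟨x, hxK, hx, h⟩) with h | h
        · left
          rw [← hC'min (C' ∩ D₁) inter_subset_left (hC'cl.inter hD₁) (by
            rintro _ ⟨K, hK, rfl⟩
            exact h hK)]
          exact inter_subset_right
        · right
          rw [← hC'min (C' ∩ D₂) inter_subset_left (hC'cl.inter hD₂) (by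
            rintro _ ⟨K, hK, rfl⟩
            exact h hK)]
          exact inter_subset_right
    rcases irreducible hC'cl hC'irr with ⟨p, rfl⟩ | ⟨t, rfl⟩
    · refine hC'U rfl (hKsU (mem_iInter₂.2 fun K hK => ?_))
      obtain ⟨q, hq, hq'⟩ := hC' _ ⟨K, hK, rfl⟩
      rw [← show q = p from hq']
      exact hq
    · obtain ⟨y, hy⟩ := hstar t
      exact hC'U (show Pt.mk t y ∈ ver t from rfl) (hKsU (mem_iInter₂.2 hy))
  exact h𝒞W hKs𝒞 (hKW hKsQ)

end Pool.Agent.V11216.WDX
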